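import Pool.Agent.Lib.ZL.Blue
import Pool.Agent.Lib.EX.B_AVG
import Pool.Agent.Lib.EX.B_TRF
import Pool.Agent.Lib.EX.B_INC
import Pool.Agent.Lib.EX.B_MOD
import Pool.Agent.Lib.EXS.RV2

/-! Project ZL: the smooth lift. -/

open scoped Classical Topology ContDiff
open Set Complex Metric Filter

noncomputable section

namespace Pool.Agent.Lib.ZL

open Pool.Agent.Lib.SV (E)
open Pool.Agent.Lib.HS32 Pool.Agent.Lib.EX Pool.Agent.Lib.EXS
open Pool.Agent.Lib.EXS.K32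

namespace AVG

variable {n : ℕ} {ι : Type} [Fintype ι] [DecidableEq ι] {c : ι → Option (Fin n)} {K : ι → ℤ}
  {F G : E n → ℂ} {z : E n}

theorem pol_cd90 (h : Pol c K F z) (ho : Off c z) : ContDiffAt ℝ ∞ F z := by
  obtain ⟨s, hs, e⟩ := h
  refine ((hol_cd (xm_hol (K := -K) fun i _ => ho i)).mul hs.self_of_nhds).congr_of_eventuallyEq ?_
  exact (e.and (MON.off_ev ho)).mono fun y hy => hy.1 hy.2

theorem polH_hol90 (h : PolH c K F z) (ho : Off c z) : HolN F z := by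
  obtain ⟨s, hs, e⟩ := h
  have e' : F =ᶠ[𝓝 z] fun y => xm c (-K) y * s y :=
    (e.and (MON.off_ev ho)).mono fun y hy => hy.1 hy.2
  filter_upwards [e'.eventually_nhds, hs, xm_hol (K := -K) fun i _ => ho i] with y h1 h2 h3
  exact (h3.mul h2).congr_of_eventuallyEq h1

theorem dzb_hol90 (h : HolN F z) (j : Fin n) : dzb j F z = 0 :=
  ((mHOL n F z).1 (cd_diff (hol_cd h))).1 h.self_of_nhds j

theorem db_le90 {A : ℝ} (h : ∀ j, ‖dzb j F z‖ ≤ A) (v : E n) : ‖db F z v‖ ≤ n * A * ‖v‖ := by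
  refine (norm_sum_le _ _).trans ?_
  have : ∀ j ∈ Finset.univ, ‖star (v j) * dzb j F z‖ ≤ A * ‖v‖ := fun j _ => by
    rw [norm_mul, norm_star, mul_comm]
    exact mul_le_mul (h j) (norm_le_pi_norm v j) (norm_nonneg _) ((norm_nonneg _).trans (h j))
  refine (Finset.sum_le_card_nsmul _ _ _ this).trans_eq ?_
  simp [mul_assoc]

/-- The local bound for the antilinear derivative. -/
theorem loc90 (h : Pol c K F z) : ∃ A : ℝ, 0 ≤ A ∧ ∀ᶠ y in 𝓝 z, Off c y → ∀ j,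
    ‖dzb j F y‖ ≤ A * ‖xm c (-K) y‖ := by
  obtain ⟨s, hs, e⟩ := h
  have b : ∀ᶠ y in 𝓝 z, ∀ j, ‖dzb j s y‖ ≤ ∑ l, ‖dzb l s z‖ + 1 := eventually_all.2 fun j => by
    have c1 : ContinuousAt (fun y => ‖dzb j s y‖) z :=
      (cd_dzb hs.self_of_nhds j).continuousAt.norm
    refine (c1.eventually_lt continuousAt_const ?_).mono fun y hy => hy.le
    exact lt_add_of_le_of_pos (Finset.single_le_sum (f := fun l => ‖dzb l s z‖)
      (fun _ _ => norm_nonneg _) (Finset.mem_univ j)) one_pos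
  refine ⟨∑ l, ‖dzb l s z‖ + 1, by positivity, ?_⟩
  filter_upwards [b, hs, e.eventually_nhds] with y h1 h2 h3 ho j
  have hx : HolN (xm c (-K)) y := xm_hol fun i _ => ho i
  have e' : F =ᶠ[𝓝 y] fun w => xm c (-K) w * s w :=
    (h3.and (MON.off_ev ho)).mono fun w hw => hw.1 hw.2
  rw [dzb_congr e', dzb_mul (cd_diff (hol_cd hx)) (cd_diff h2), dzb_hol90 hx]
  simp only [zero_mul, zero_add, norm_mul]
  rw [mul_comm]
  exact mul_le_mul_of_nonneg_right (h1 j) (norm_nonneg _)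

/-- The uniform bound on a compact set. -/
theorem unif90 {S : Set (E n)} (hS : IsCompact S) (h : ∀ z ∈ S, Pol c K F z) :
    ∃ A : ℝ, 0 ≤ A ∧ ∀ y ∈ S, Off c y → ∀ j, ‖dzb j F y‖ ≤ A * ‖xm c (-K) y‖ := by
  refine hS.induction_on (p := fun T => ∃ A : ℝ, 0 ≤ A ∧ ∀ y ∈ T, Off c y → ∀ j,
    ‖dzb j F y‖ ≤ A * ‖xm c (-K) y‖) ⟨0, le_rfl, by simp⟩ ?_ ?_ ?_
  · rintro s t hst ⟨A, h0, hA⟩
    exact ⟨A, h0, fun y hy => hA y (hst hy)⟩
  · rintro s t ⟨A, h0, hA⟩ ⟨B, h1, hB⟩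
    refine ⟨A + B, add_nonneg h0 h1, fun y hy ho j => ?_⟩
    have := norm_nonneg (xm c (-K) y)
    rcases hy with hy | hy
    · exact (hA y hy ho j).trans (by nlinarith)
    · exact (hB y hy ho j).trans (by nlinarith)
  · intro z hz
    obtain ⟨A, h0, hA⟩ := loc90 (h z hz)
    exact ⟨_, mem_nhdsWithin_of_mem_nhds hA, A, h0, fun y hy => hy⟩

end AVG

open AVG

theorem bAVG (hPW : St_PW) (hTRF : St_TRF) : St_AVG := by
  intro n M _ ι _ _ D X P Q f hQP hf hd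
  have hA := EX.bAVG EX.bTRF n M ι D
  have h2 : D.All fun d z => Pol (D.c d) P (D.rd (D.avg f) d) z := by
    refine (hA (fun a => Pol (D.c a) P) f fun a => (bMOD n ι (D.c a) P 0 ∅ 0).1).2
      fun a b x hx hx' => ?_
    obtain ⟨h1, -, -, -, -, -, -, -, h2⟩ := (EX.bTRF n M ι D).2.2.2 a b x hx hx'
    exact (h2 P ∅ 0 (f a)).1 ((bINC n ι (D.c a) P 0 ∅ 0 _ _).1 (hf a _ h1))
  have h3 : D.All fun d z => Pol (D.c d) Q (D.rd (D.avg f) d - f d) z :=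
    (hA (fun a => Pol (D.c a) Q) f fun a => (bMOD n ι (D.c a) Q 0 ∅ 0).1).1
      fun a b x hx hx' => (bINC n ι (D.c b) Q 0 ∅ 0 _ _).1 (hd a b x hx hx')
  have h1 : SmO D (D.avg f) := fun d z hz ho => pol_cd90 (h2 d z hz) ho
  refine ⟨h1, h2, h3, ?_⟩
  obtain ⟨-, -, -, -, -, pn, -, -, pc, -⟩ := hPW n M ι D
  obtain ⟨C, -, hC⟩ := pc 1 one_lt_two
  obtain ⟨k, k0, hk⟩ := X.αs
  choose A A0 hA' using fun d => unif90 (isCompact_closedBall (0 : E n) 1) fun z hz =>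
    h3 d z (closedBall_subset_ball one_lt_two hz)
  set B : ℝ := n * ∑ d, A d with hB
  set T : ℝ := Real.exp (C * ∑ i, |(-fun i => (Q i : ℝ)) i|) with hT
  have T0 : 0 < T := Real.exp_pos _
  refine ⟨B ^ 2 * T / k, by positivity, (hTRF n M ι D).2.2 _ _ _ h1 X.αp.1
    fun d z hz ho hn v => ?_⟩
  have hh := polH_hol90 (hf d z hz) ho
  have e : ∀ j, dzb j (D.rd (D.avg f) d) z = dzb j (D.rd (D.avg f) d - f d) z := fun j => by
    rw [Pi.sub_def, dzb_sub (cd_diff (h1 d z hz ho)) (cd_diff (hol_cd hh)), dzb_hol90 hh, sub_zero]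
  have b1 : ‖db (D.rd (D.avg f) d) z v‖ ≤ B * ‖xm (D.c d) (-Q) z‖ * ‖v‖ := by
    rw [hB, mul_assoc (n : ℝ)]
    refine db_le90 (fun j => ?_) v
    rw [e]
    exact (hA' d z (mem_closedBall_zero_iff.2 hn) ho j).trans (mul_le_mul_of_nonneg_right
      (Finset.single_le_sum (f := A) (fun l _ => A0 l) (Finset.mem_univ d)) (norm_nonneg _))
  have b2 : ‖xm (D.c d) (-Q) z‖ ^ 2 ≤
      T * Real.exp (-lw D (fun i => Q i) ((D.e d).symm z)) := by
    have := (hC (-fun i => (Q i : ℝ)) d z hn ho).1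
    rw [xr_exp fun i _ => ho i, ← hT] at this
    rw [← normSq_eq_norm_sq, xm_exp fun i _ => ho i, ← pn]
    simpa only [Pi.neg_def, Int.cast_neg, Ad.rd] using this
  have b3 := hk d z hz ho hn v
  have x0 := Real.exp_pos (-lw D (fun i => Q i) ((D.e d).symm z))
  rw [normSq_eq_norm_sq]
  calc _ ≤ (B * ‖xm (D.c d) (-Q) z‖ * ‖v‖) ^ 2 := pow_le_pow_left₀ (norm_nonneg _) b1 2
    _ = B ^ 2 * ‖xm (D.c d) (-Q) z‖ ^ 2 / k * (k * ‖v‖ ^ 2) := by field_simp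
    _ ≤ B ^ 2 * (T * Real.exp (-lw D (fun i => Q i) ((D.e d).symm z))) / k *
        lv (D.rd X.α d) z v := by gcongr
    _ = _ := by simp only [Ad.rd]; ring

end Pool.Agent.Lib.ZL
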