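import Pool.Agent.Lib.ZL.Blue

/-! Project ZL: calculus of Levi forms in coordinates. -/

open scoped Classical Topology ContDiff
open Set Complex Filter

noncomputable section

namespace Pool.Agent.Lib.ZL

open Pool.Agent.Lib.SV (E levE d2 nsq)
open Pool.Agent.Lib.HS32 Pool.Agent.Lib.EX Pool.Agent.Lib.EXS
open Pool.Agent.Lib.EXS.K32

namespace LEV

variable {n : ℕ} {z v : E n}

theorem db_eq36 (G : E n → ℂ) (z v : E n) :
    db G z v = (fderiv ℝ G z v + I * fderiv ℝ G z (I • v)) / 2 := by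
  rw [fderiv_eq_sum, fderiv_eq_sum, db, Finset.mul_sum, ← Finset.sum_add_distrib, Finset.sum_div]
  refine Finset.sum_congr rfl fun j _ => ?_
  simp only [Pi.smul_apply, smul_eq_mul, star_mul', star_def, conj_I]
  linear_combination (-(dz j G z * v j) + dzb j G z * (starRingEnd ℂ) (v j)) / 2 * I_mul_I

theorem db_real36 {u : E n → ℝ} (h : DifferentiableAt ℝ u z) (v : E n) :
    normSq (db (fun y => (u y : ℝ)) z v) =
      (fderiv ℝ u z v ^ 2 + fderiv ℝ u z (I • v) ^ 2) / 4 := by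
  rw [db_eq36, fderiv_ofReal h, fderiv_ofReal h, normSq_apply]
  simp
  ring

theorem d2_log36 {g : E n → ℝ} (h : ContDiffAt ℝ ∞ g z) (h0 : 0 < g z) (w : E n) :
    d2 (fun y => Real.log (g y)) z w = (g z * d2 g z w - fderiv ℝ g z w ^ 2) / g z ^ 2 := by
  rw [SV.d2_comp (cd_le h 2) (Real.contDiffAt_log.2 h0.ne'), Real.deriv_log', deriv_inv']
  field_simp
  ring

theorem d2_exp36 {g : E n → ℝ} (h : ContDiffAt ℝ ∞ g z) (w : E n) :
    d2 (fun y => Real.exp (g y)) z w = Real.exp (g z) * (d2 g z w + fderiv ℝ g z w ^ 2) := by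
  rw [SV.d2_comp (cd_le h 2) Real.contDiff_exp.contDiffAt, Real.deriv_exp, Real.deriv_exp]
  ring

theorem d1_exp36 {g : E n → ℝ} (h : ContDiffAt ℝ ∞ g z) (w : E n) :
    fderiv ℝ (fun y => Real.exp (g y)) z w = Real.exp (g z) * fderiv ℝ g z w := by
  rw [(cd_diff h).hasFDerivAt.exp.fderiv]
  rfl

theorem d1_add36 {f g : E n → ℝ} (hf : ContDiffAt ℝ ∞ f z) (hg : ContDiffAt ℝ ∞ g z) (w : E n) :
    fderiv ℝ (fun y => f y + g y) z w = fderiv ℝ f z w + fderiv ℝ g z w := by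
  rw [fderiv_fun_add (cd_diff hf) (cd_diff hg)]
  rfl

theorem lv_log36 {f g : E n → ℝ} (hf : ContDiffAt ℝ ∞ f z) (hg : ContDiffAt ℝ ∞ g z)
    (h0 : 0 < f z + g z) (v : E n) :
    lv (fun y => Real.log (f y + g y)) z v = ((f z + g z) * (4 * lv f z v + 4 * lv g z v) -
      (fderiv ℝ f z v + fderiv ℝ g z v) ^ 2 -
      (fderiv ℝ f z (I • v) + fderiv ℝ g z (I • v)) ^ 2) / (4 * (f z + g z) ^ 2) := by
  rw [lv_eq ((hf.add hg).log h0.ne'), levE, d2_log36 (hf.add hg) h0, d2_log36 (hf.add hg) h0,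
    d1_add36 hf hg, d1_add36 hf hg, SV.d2_add (cd_le hf 2) (cd_le hg 2),
    SV.d2_add (cd_le hf 2) (cd_le hg 2), lv_eq hf, lv_eq hg, levE, levE]
  field_simp
  ring

theorem lv_exp36 {g : E n → ℝ} (h : ContDiffAt ℝ ∞ g z) (v : E n) :
    4 * lv (fun y => Real.exp (g y)) z v = Real.exp (g z) *
      (4 * lv g z v + fderiv ℝ g z v ^ 2 + fderiv ℝ g z (I • v) ^ 2) := by
  rw [lv_eq h.exp, lv_eq h, levE, levE, d2_exp36 h, d2_exp36 h]
  ring

theorem one36 {U : E n → ℂ} {ψ : E n → ℝ} (hU : HolN U z) (hψ : ContDiffAt ℝ ∞ ψ z)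
    (h0 : 0 ≤ lv ψ z v) : 0 ≤ lv (fun y => Real.log (normSq (U y) + Real.exp (ψ y))) z v := by
  have hp := Real.exp_pos (ψ z)
  have hq := normSq_nonneg (U z)
  have h1 : HolN (fun w (_ : Unit) => U w) z :=
    hU.mono fun w hw => differentiableAt_pi.2 fun _ => hw
  have h2 := lv_nsq h1 v
  have h3 := SV.FS.d1 h1.self_of_nhds 0
  simp only [nsq, Finset.univ_unique, Finset.sum_singleton, add_zero] at h2 h3
  rw [lv_log36 (cd_normSq (hol_cd hU)) hψ.exp (by positivity), lv_exp36 hψ, h2, h3, h3,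
    d1_exp36 hψ, d1_exp36 hψ, (fderiv ℂ (fun w (_ : Unit) => U w) z).map_smul]
  refine div_nonneg ?_ (by positivity)
  generalize fderiv ℂ (fun w (_ : Unit) => U w) z v = P
  simp only [Pi.smul_apply, smul_eq_mul, normSq_apply, mul_re, mul_im, conj_re, conj_im, I_re,
    I_im]
  generalize (P default).re = s
  generalize (P default).im = t
  generalize (U z).re = x
  generalize (U z).im = y
  generalize fderiv ℝ ψ z v = p
  generalize fderiv ℝ ψ z (I • v) = q
  generalize Real.exp (ψ z) = B at hp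
  generalize lv ψ z v = L at h0
  have a1 := mul_nonneg hp.le (add_nonneg (sq_nonneg (2 * s - (x * p + y * q)))
    (sq_nonneg (2 * t - (y * p - x * q))))
  have a2 := mul_nonneg (add_nonneg (add_nonneg (mul_self_nonneg x) (mul_self_nonneg y)) hp.le)
    (mul_nonneg hp.le h0)
  linarith

theorem two36 {a b : E n → ℝ} (ha : ContDiffAt ℝ ∞ a z) (hb : ContDiffAt ℝ ∞ b z)
    (h0 : 0 ≤ lv a z v) (h1 : 0 ≤ lv b z v) :
    Real.exp (a z - b z) / (1 + Real.exp (a z - b z)) ^ 2 *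
      normSq (db (fun y => (a y - b y : ℝ)) z v) ≤
      lv (fun y => Real.log (Real.exp (a y) + Real.exp (b y))) z v := by
  have hp := Real.exp_pos (a z)
  have hq := Real.exp_pos (b z)
  have e : ∀ w, fderiv ℝ (fun y => a y - b y) z w = fderiv ℝ a z w - fderiv ℝ b z w := fun w => by
    rw [fderiv_fun_sub (cd_diff ha) (cd_diff hb)]
    rfl
  have e1 : Real.exp (a z - b z) / (1 + Real.exp (a z - b z)) ^ 2 =
      Real.exp (a z) * Real.exp (b z) / (Real.exp (a z) + Real.exp (b z)) ^ 2 := by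
    rw [Real.exp_sub]
    field_simp
    ring
  rw [lv_log36 ha.exp hb.exp (by positivity), lv_exp36 ha, lv_exp36 hb, d1_exp36 ha, d1_exp36 ha,
    d1_exp36 hb, d1_exp36 hb, db_real36 (cd_diff (ha.sub hb)), e, e, e1, div_mul_div_comm,
    mul_comm _ (4 : ℝ)]
  refine div_le_div_of_nonneg_right ?_ (by positivity)
  have a2 := mul_nonneg (add_pos hp hq).le (add_nonneg (mul_nonneg hp.le h0) (mul_nonneg hq.le h1))
  linarith

theorem ct_cd36 : ContDiff ℝ ∞ ct :=
  Real.smoothTransition.contDiff.comp (contDiff_id.sub contDiff_const)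

end LEV

open LEV

theorem bLEV : St_LEV := by
  refine fun n z v => ⟨fun U ψ hU hψ h0 => ⟨?_, one36 hU hψ h0⟩,
    fun a b ha hb h0 h1 => ⟨?_, two36 ha hb h0 h1⟩, fun u G hu hG => ⟨?_, ?_, fun h => ?_⟩⟩
  · exact ((cd_normSq (hol_cd hU)).add hψ.exp).log
      (add_pos_of_nonneg_of_pos (normSq_nonneg _) (Real.exp_pos _)).ne'
  · exact (ha.exp.add hb.exp).log (add_pos (Real.exp_pos _) (Real.exp_pos _)).ne'
  · exact (cd_ofReal (ct_cd36.contDiffAt.comp z hu)).mul hG
  · have h1 := cd_diff (cd_ofReal (ct_cd36.contDiffAt.comp z hu))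
    have h2 := (ct_cd36.differentiable (by simp) (u z)).hasDerivAt
    simp only [db, Finset.mul_sum, Finset.sum_mul, ← Finset.sum_add_distrib]
    refine Finset.sum_congr rfl fun j _ => ?_
    rw [dzb_mul (f := fun y => (ct (u y) : ℂ)) h1 (cd_diff hG), dzb_comp_real h2 (cd_diff hu)]
    ring
  · have := ((mHOL n G z).1 (cd_diff hG)).1 h.self_of_nhds
    simp [db, this]

end Pool.Agent.Lib.ZL
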