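import Pool.Agent.Lib.ZL.Blue
import Pool.Agent.Lib.EXS.B_EXC
import Pool.Agent.Lib.EX.K1N

/-! Project ZL, row UPB. -/

open scoped Classical Topology ContDiff ENNReal
open Set MeasureTheory Complex Metric Filter

set_option linter.unusedSectionVars false

noncomputable section

namespace Pool.Agent.Lib.ZL

open Pool.Agent.Lib.SV (E)
open Pool.Agent.Lib.HS32 Pool.Agent.Lib.EX Pool.Agent.Lib.EXS

namespace U11

variable {n : ℕ} {ι : Type} [Fintype ι] [DecidableEq ι] {c : ι → Option (Fin n)} {P : ι → ℤ}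
  {z : E n}

theorem off_ev (h : Off c z) : ∀ᶠ y in 𝓝 z, Off c y := (bMON n ι c).1 z h

theorem nsq (z : E n) : normSq (xm c (-P) z) = xr c (-fun i => (P i : ℝ)) z := by
  rw [xm, xr, map_prod]
  exact Finset.prod_congr rfl fun i _ => by
    rw [map_zpow₀, ← Real.rpow_intCast]; simp

theorem val_eq {g s : E n → ℂ} (hs : ContinuousAt s z)
    (h : ∀ᶠ y in 𝓝 z, Off c y → g y = xm c (-P) y * s y) : val c P g z = s z := by
  have : (𝓝[{y | Off c y}] z).NeBot := mem_closure_iff_nhdsWithin_neBot.1 (MON.off_dense c z)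
  refine Tendsto.limUnder_eq ((hs.tendsto.mono_left nhdsWithin_le_nhds).congr' ?_)
  filter_upwards [nhdsWithin_le_nhds h, self_mem_nhdsWithin] with y a b
  rw [a b, MON.xm_neg, mul_inv_cancel_left₀ (MON.xm_ne P b)]

theorem val_ev {g s : E n → ℂ} (hs : HolN s z)
    (h : ∀ᶠ y in 𝓝 z, Off c y → g y = xm c (-P) y * s y) : val c P g =ᶠ[𝓝 z] s := by
  filter_upwards [hs, h.eventually_nhds] with y a b using val_eq a.continuousAt b

/-- A local bound near each point of the closed unit ball is a bound. -/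
theorem cb {p : ℝ → E n → Prop} (hm : ∀ C C' y, C ≤ C' → p C y → p C' y)
    (h : ∀ z : E n, ‖z‖ ≤ 1 → ∃ C, ∀ᶠ y in 𝓝 z, p C y) : ∃ C, ∀ z : E n, ‖z‖ ≤ 1 → p C z := by
  have k := (isCompact_closedBall (0 : E n) 1).induction_on
    (p := fun S => ∃ C, ∀ z ∈ S, p C z) ⟨0, by simp⟩
    (fun s t hst ⟨C, hC⟩ => ⟨C, fun z hz => hC z (hst hz)⟩)
    (fun s t ⟨C, hC⟩ ⟨C', hC'⟩ => ⟨max C C', fun z hz => hz.elim
      (fun a => hm _ _ _ (le_max_left _ _) (hC z a)) fun a => hm _ _ _ (le_max_right _ _) (hC' z a)⟩)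
    (fun z hz => by
      obtain ⟨C, hC⟩ := h z (mem_closedBall_zero_iff.1 hz)
      exact ⟨_, nhdsWithin_le_nhds hC, C, fun y hy => hy⟩)
  obtain ⟨C, hC⟩ := k
  exact ⟨C, fun z hz => hC z (mem_closedBall_zero_iff.2 hz)⟩

variable {M : Mf n} {D : Ad M ι}

/-- The same for all charts. -/
theorem cb' {p : ℝ → D.A → E n → Prop} (hm : ∀ C C' d y, C ≤ C' → p C d y → p C' d y)
    (h : ∀ d, ∀ z : E n, ‖z‖ ≤ 1 → ∃ C, ∀ᶠ y in 𝓝 z, p C d y) :
    ∃ C, 0 ≤ C ∧ ∀ d, ∀ z : E n, ‖z‖ ≤ 1 → p C d z := by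
  choose C hC using fun d => cb (fun C C' y => hm C C' d y) (h d)
  exact ⟨∑ d, |C d|, Finset.sum_nonneg fun _ _ => abs_nonneg _, fun d z hz => hm _ _ _ _
    ((le_abs_self _).trans (Finset.single_le_sum (f := fun d => |C d|) (fun _ _ => abs_nonneg _)
      (Finset.mem_univ d))) (hC d z hz)⟩

theorem b2 (hz : ‖z‖ ≤ 1) : z ∈ B2 n := mem_ball_zero_iff.2 (by linarith)

theorem spi {F : M.X → ℂ} (h : Mer D P F) : Sp D P ((off D).indicator F) := by
  refine ⟨fun d z hz => ?_, fun x hx => indicator_of_notMem hx _⟩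
  obtain ⟨s, s1, s2⟩ := h d z hz
  refine ⟨s, s1, ?_⟩
  filter_upwards [s2, isOpen_ball.eventually_mem hz] with y a b o
  rw [← a o, Ad.rd, Ad.rd, indicator_of_mem]
  rwa [GLU.mem_off (GLU.mem_src d b), GLU.rinv d b]

theorem up (hPW : St_PW) [M.Cpt] {F : M.X → ℂ}
    (h : ∀ d, ∀ z ∈ B2 n, ∃ s : E n → ℂ, ContinuousAt s z ∧
      ∀ᶠ y in 𝓝 z, Off (D.c d) y → D.rd F d y = xm (D.c d) (-P) y * s y) :
    ∃ C, ∀ x ∈ off D, normSq (F x) ≤ C * Real.exp (-lw D (fun i => P i) x) := by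
  obtain ⟨-, p2, -, -, -, p6, -, -, p9, -⟩ := hPW n M ι D
  obtain ⟨L, -, hL⟩ := p9 1 one_lt_two
  obtain ⟨C, C0, hC⟩ := cb' (D := D) (p := fun C d y => Off (D.c d) y →
      normSq (D.rd F d y) ≤ C * normSq (xm (D.c d) (-P) y))
    (fun C C' d y a b o => (b o).trans (mul_le_mul_of_nonneg_right a (normSq_nonneg _)))
    (fun d z hz => by
      obtain ⟨s, s1, s2⟩ := h d z (b2 hz)
      refine ⟨normSq (s z) + 1, ?_⟩
      filter_upwards [s2, (continuous_normSq.continuousAt.comp s1).eventually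
        (gt_mem_nhds (lt_add_one _))] with y a b o
      rw [a o, map_mul, mul_comm]
      exact mul_le_mul_of_nonneg_right b.le (normSq_nonneg _))
  refine ⟨C * Real.exp (L * ∑ i, |(-fun i => (P i : ℝ)) i|), fun x hx => ?_⟩
  obtain ⟨d, h1, h2⟩ := p2 x
  have a := hC d _ h2 (hx d h1)
  have b := (hL (-fun i => (P i : ℝ)) d _ h2 (hx d h1)).1
  rw [GLU.rd_e _ h1] at a b
  rw [nsq] at a
  rw [← p6, mul_assoc]
  exact a.trans (mul_le_mul_of_nonneg_left b C0)

end U11

open U11 in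
theorem bUPB (hPW : St_PW) : St_UPB := by
  intro n M _ ι _ _ D P
  refine ⟨fun F h => ⟨fun d z hz o => ?_, spi h⟩, fun F G t hF hG => ⟨fun d z hz => ?_,
    fun d z hz => ?_, fun d z hz => ?_⟩, fun Q F h hF d z hz => EXC.polH_mono h (hF d z hz),
    fun F h => up hPW fun d z hz => ?_, fun F h => up hPW fun d z hz => ?_,
    fun c g h => ⟨fun z hz => ?_, fun z hz o => ?_⟩, ?_⟩
  · obtain ⟨s, s1, s2⟩ := h d z hz
    filter_upwards [s1, s2.eventually_nhds, (off_ev o).eventually_nhds] with y a b e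
    refine ((MON.diff_xm (G := -P) fun i => .inl (e.self_of_nhds i)).mul a).congr_of_eventuallyEq ?_
    filter_upwards [b, e] with w b e using b e
  · obtain ⟨s, s1, s2⟩ := hF d z hz
    obtain ⟨s', s3, s4⟩ := hG d z hz
    refine ⟨fun y => s y + s' y, (s1.and s3).mono fun y a => a.1.add a.2, ?_⟩
    filter_upwards [s2, s4] with y a b o
    rw [mul_add, ← a o, ← b o]; rfl
  · obtain ⟨s, s1, s2⟩ := hF d z hz
    obtain ⟨s', s3, s4⟩ := hG d z hz
    refine ⟨fun y => s y - s' y, (s1.and s3).mono fun y a => a.1.sub a.2, ?_⟩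
    filter_upwards [s2, s4] with y a b o
    rw [mul_sub, ← a o, ← b o]; rfl
  · obtain ⟨s, s1, s2⟩ := hF d z hz
    refine ⟨fun y => t * s y, s1.mono fun y a => a.const_mul t, ?_⟩
    filter_upwards [s2] with y a o
    rw [mul_left_comm, ← a o]; rfl
  · obtain ⟨s, s1, s2⟩ := h d z hz
    exact ⟨s, s1.self_of_nhds.continuousAt, s2⟩
  · obtain ⟨s, s1, s2⟩ := h d z hz
    exact ⟨s, s1.self_of_nhds.continuousAt, s2⟩
  · obtain ⟨s, s1, s2⟩ := h z hz
    exact (s1.self_of_nhds.congr_of_eventuallyEq (val_ev s1 s2)).differentiableWithinAt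
  · obtain ⟨s, s1, s2⟩ := h z hz
    rw [(val_ev s1 s2).eq_of_nhds, s2.self_of_nhds o, MON.xm_neg,
      mul_inv_cancel_left₀ (MON.xm_ne P o)]
  · rintro ⟨r, G, hG, h⟩
    obtain ⟨-, p2, -, -, -, p6, -, -, p9, -⟩ := hPW n M ι D
    obtain ⟨L, -, hL⟩ := p9 1 one_lt_two
    obtain ⟨C, C0, hC⟩ := cb' (D := D) (p := fun C d y => Off (D.c d) y →
        normSq (xm (D.c d) (-P) y) ≤ C * ∑ a, normSq (D.rd (G a) d y))
      (fun C C' d y a b o => (b o).trans (mul_le_mul_of_nonneg_right a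
        (Finset.sum_nonneg fun _ _ => normSq_nonneg _)))
      (fun d z hz => by
        obtain ⟨a, s, s1, s0, s2⟩ := h d z (b2 hz)
        have q : 0 < normSq (s z) := normSq_pos.2 s0
        refine ⟨2 / normSq (s z), ?_⟩
        filter_upwards [s2, (continuous_normSq.continuousAt.comp
          s1.self_of_nhds.continuousAt).eventually (lt_mem_nhds (half_lt_self q))] with y e b o
        refine le_trans ?_ (mul_le_mul_of_nonneg_left (Finset.single_le_sum
          (f := fun a => normSq (D.rd (G a) d y)) (fun _ _ => normSq_nonneg _)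
          (Finset.mem_univ a)) (by positivity))
        rw [e o, map_mul, div_mul_eq_mul_div, le_div_iff₀ q]
        have b' : normSq (s z) / 2 < normSq (s y) := b
        nlinarith [normSq_nonneg (xm (D.c d) (-P) y)])
    refine ⟨r, fun a => (off D).indicator (G a), Real.exp (L * ∑ i, |(-fun i => (P i : ℝ)) i|) * C,
      fun a => spi (hG a), fun x hx => ?_⟩
    obtain ⟨d, h1, h2⟩ := p2 x
    have a := hC d _ h2 (hx d h1)
    have b := (hL (-fun i => (P i : ℝ)) d _ h2 (hx d h1)).2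
    rw [GLU.rd_e _ h1] at b
    simp only [GLU.rd_e _ h1] at a
    rw [nsq] at a
    simp only [indicator_of_mem hx]
    rw [← p6, mul_assoc]
    exact b.trans (mul_le_mul_of_nonneg_left a (Real.exp_pos _).le)

end Pool.Agent.Lib.ZL
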