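import Pool.Agent.Lib.ZL.Blue
import Pool.Agent.Lib.EXS.B_EXC

/-! Project ZL: Theorem E on a log resolution. -/

open scoped Classical Topology ContDiff ENNReal
open Set MeasureTheory Complex Metric Filter

set_option linter.unusedSectionVars false

noncomputable section

namespace Pool.Agent.Lib.ZL

open Pool.Agent.Lib.SV (E)
open Pool.Agent.Lib.HS32 Pool.Agent.Lib.EX Pool.Agent.Lib.EXS

namespace EXT

variable {n : ℕ} {M : Mf n} {ι : Type} [Fintype ι] [DecidableEq ι] {D : Ad M ι} {z : E n}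
  {c : ι → Option (Fin n)} {G K : ι → ℤ} {F F' v : E n → ℂ} {k : ι → ℕ} {ex : Set ι}

theorem cg (h : PolH c G F z) (e : ∀ᶠ y in 𝓝 z, Off c y → F' y = F y) : PolH c G F' z := by
  obtain ⟨s, hs, e'⟩ := h
  exact ⟨s, hs, (e.and e').mono fun y hy ho => (hy.1 ho).trans (hy.2 ho)⟩

theorem add (h : PolH c G F z) (h' : PolH c G F' z) : PolH c G (F + F') z := by
  obtain ⟨s, hs, e⟩ := h
  obtain ⟨t, ht, e'⟩ := h'
  exact ⟨s + t, (hs.and ht).mono fun y hy => hy.1.add hy.2, (e.and e').mono fun y hy ho => by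
    rw [Pi.add_apply, Pi.add_apply, hy.1 ho, hy.2 ho, mul_add]⟩

theorem mul (h : PolH c G F z) (hv : HolN v z)
    (e : ∀ᶠ y in 𝓝 z, Off c y → F' y = F y * (v y * xm c K y)) : PolH c (G - K) F' z := by
  obtain ⟨s, hs, e'⟩ := h
  refine ⟨s * v, (hs.and hv).mono fun y hy => hy.1.mul hy.2, (e.and e').mono fun y hy ho => ?_⟩
  rw [hy.1 ho, hy.2 ho, neg_sub, sub_eq_neg_add, MON.xm_add _ _ ho, Pi.mul_apply]
  ring

/-- The same blow-up with the empty divisor. -/
def zero (B : Bl D k ex) : Bl D 0 ex where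
  W := B.W
  N := B.N
  r := B.r
  p := B.p
  τ := B.τ
  e := B.e
  t := B.t
  σ := fun _ => 1
  v := fun _ _ => 1
  opn := B.opn
  con := B.con
  epos := B.epos
  cpt := B.cpt
  lt := B.lt
  phol := B.phol
  thol := B.thol
  imm := B.imm
  exc := B.exc
  vhol := fun _ _ _ _ => ⟨.of_forall fun _ => differentiableAt_const _, one_ne_zero, by
    simp [Ad.rd, xm]⟩

/-- Poles along exceptional components drop to the order of the equation. -/
theorem drop (B : Bl D k ex) {H : M.X → ℂ} {q : ι → ℤ} (hq : ∀ i ∉ ex, q i ≤ k i)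
    (hH : D.On B.W fun d z => PolH (D.c d) q (D.rd H d) z) :
    D.On B.W fun d z => PolH (D.c d) (fun i => min (q i) (k i)) (D.rd H d) z := by
  have h1 := EXC.exc_min (zero B) le_rfl (H := H * B.σ) (q - fun i => (k i : ℤ))
    (fun i hi => by simpa [sp] using hq i hi) fun d z hz ho =>
      mul (hH d z hz ho.1) (B.vhol d z hz ho.1).1 ((GLU.ev_on B.opn hz ho.1).mono fun y hy _ => by
        rw [← (B.vhol d y hy.1 hy.2).2.2]
        rfl)
  intro d z hz ho
  obtain ⟨v1, v2, -⟩ := B.vhol d z hz ho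
  have h2 := mul (F' := D.rd H d) (K := -fun i => (k i : ℤ)) (v := fun y => (B.v d y)⁻¹)
    (h1 d z hz ⟨ho, B.lt _ ho⟩)
    ((v1.and (v1.self_of_nhds.continuousAt.eventually_ne v2)).mono fun y hy => hy.1.inv hy.2)
    ((GLU.ev_on B.opn hz ho).mono fun y hy hf => by
      obtain ⟨-, w2, w3⟩ := B.vhol d y hy.1 hy.2
      have w4 := MON.xm_ne (fun i => (k i : ℤ)) hf
      change _ = D.rd H d y * D.rd B.σ d y * _
      rw [w3, MON.xm_neg]
      field_simp)
  refine EXC.polH_mono (fun i => ?_) h2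
  simp only [Pi.sub_apply, Pi.neg_apply, Pi.zero_apply, sp, if_true, Nat.cast_zero]
  omega

end EXT

theorem bEXT (hE : St_E) : St_EXT := by
  intro n M _ ι _ _ D X k N ex B f h1 h2 h3 h4 h5 sub mer dif
  have ms : ∀ {a x}, x ∈ (D.e a).source → x ∈ (B a).W := fun {a x} hx => by
    simpa only [(D.e a).left_inv hx] using sub a _ (GLU.mem_B2 hx)
  obtain ⟨Q, F, hQ, hF⟩ := hE n M ι D X k N (fun d => D.rd (f d) d) h1 h2 h3 h5
    (fun d z hz => mer d d z hz (sub d z hz)) fun a b x ha hb =>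
      EXT.cg (GLU.on_at (dif a b) hb ⟨ms ha, ms hb⟩) ((GLU.ev_on (D.e a).open_source (GLU.mem_B2 hb)
        (by rwa [(D.e b).left_inv hb])).mono fun y hy _ => by
          simp only [Ad.tr, Ad.rd, Pi.sub_apply, (D.e a).left_inv hy.2])
  refine ⟨F, fun b z hz => EXC.polH_mono (fun i => ?_) (EXT.drop (B b) (H := F - f b)
    (q := fun i => max (Q i) (k i - ind {i | k i / N - X.o i = 1} i)) (fun i hi => ?_)
    (fun d y hy ho => ?_) b z hz (sub b z hz))⟩
  · by_cases hi : k i / N - X.o i = 1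
    · rw [hQ i (hi ▸ zero_le_one), max_self]
      exact min_le_left _ _
    · simp [ind, hi]
  · rw [hQ i (h4 i hi), max_self, ind]
    split_ifs <;> omega
  · exact EXT.cg (EXT.add (EXC.polH_mono (fun _ => le_max_left _ _) (hF d y hy))
      (EXC.polH_mono (fun _ => le_max_right _ _) (dif d b d y hy ⟨sub d y hy, ho⟩)))
      (.of_forall fun w _ => by simp [Ad.rd])

end Pool.Agent.Lib.ZL
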