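import Pool.Agent.Lib.ZL.Blue

/-! Project ZL: from the estimate to the lift. -/

open scoped Classical Topology ContDiff ENNReal
open Set MeasureTheory Complex Metric Filter

set_option linter.unusedVariables false
set_option linter.unusedSectionVars false

noncomputable section

namespace Pool.Agent.Lib.ZL

open Pool.Agent.Lib.SV (E)
open Pool.Agent.Lib.HS32 Pool.Agent.Lib.EX Pool.Agent.Lib.EXS
open Pool.Agent.Lib.EXA (SmN)

namespace LFT

variable {n : ℕ} {ι : Type} [Fintype ι] [DecidableEq ι] {c : ι → Option (Fin n)} {z : E n}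

theorem xr_int (K : ι → ℤ) (y : E n) : xr c (fun i => K i) y = normSq (xm c K y) := by
  rw [xr, xm, map_prod]
  exact Finset.prod_congr rfl fun i _ => by rw [Real.rpow_intCast, map_zpow₀]

theorem xr_add (a b : ι → ℝ) {y : E n} (h : Off c y) :
    xr c (fun i => a i + b i) y = xr c a y * xr c b y := by
  rw [xr, xr, xr, ← Finset.prod_mul_distrib]
  exact Finset.prod_congr rfl fun i _ => Real.rpow_add (normSq_pos.2 (h i)) _ _

theorem xr_nn (a : ι → ℝ) (y : E n) : 0 ≤ xr c a y :=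
  Finset.prod_nonneg fun i _ => Real.rpow_nonneg (normSq_nonneg _) _

theorem xr_le {a : ι → ℝ} (ha : ∀ i, 0 ≤ a i ∧ a i ≤ 1) {y : E n} (hy : y ∈ B2 n) :
    xr c a y ≤ 4 ^ Fintype.card ι := by
  have h : ∀ i, normSq (xi c i y) ≤ 4 := fun i => by
    rcases MON.xi_cases c i with ⟨-, e⟩ | ⟨j, -, e⟩
    · simp [e]
    · have h1 : ‖y j‖ ≤ 2 := (norm_le_pi_norm y j).trans (mem_ball_zero_iff.1 hy).le
      simp only [e, normSq_eq_norm_sq]
      nlinarith [norm_nonneg (y j)]
  calc xr c a y ≤ ∏ _i : ι, (4 : ℝ) := Finset.prod_le_prod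
        (fun i _ => Real.rpow_nonneg (normSq_nonneg _) _) fun i _ =>
        (Real.rpow_le_rpow (normSq_nonneg _) (h i) (ha i).1).trans (by
          simpa using Real.rpow_le_rpow_of_exponent_le (by norm_num : (1 : ℝ) ≤ 4) (ha i).2)
    _ = _ := by simp

theorem bnd {P K : ι → ℤ} {g s : E n → ℂ} (hs : ContinuousAt s z)
    (e : ∀ᶠ y in 𝓝 z, Off c y → g y = xm c (-P) y * s y) (h : ∀ l, xi c l z = 0 → P l ≤ K l) :
    ∃ B, 0 ≤ B ∧ ∀ᶠ y in 𝓝 z, Off c y → normSq (g y) * xr c (fun i => K i) y ≤ B := by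
  have h1 : ContinuousAt (fun y => normSq (xm c (K - P) y * s y)) z :=
    continuous_normSq.continuousAt.comp ((MON.diff_xm fun i => (em (xi c i z = 0)).symm.imp id
      fun h0 => sub_nonneg.2 (h i h0)).continuousAt.mul hs)
  refine ⟨normSq (xm c (K - P) z * s z) + 1, add_nonneg (normSq_nonneg _) zero_le_one, ?_⟩
  filter_upwards [e, h1.eventually_lt continuousAt_const (lt_add_one _)] with y e1 e2 ho
  rw [e1 ho, xr_int, ← map_mul, mul_right_comm, ← MON.xm_add _ _ ho, neg_add_eq_sub]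
  exact e2.le

theorem nsq_sub (a b : ℂ) : normSq (a - b) ≤ 2 * normSq a + 2 * normSq b := by
  simp only [normSq_apply, sub_re, sub_im]
  nlinarith [sq_nonneg (a.re + b.re), sq_nonneg (a.im + b.im)]

theorem li_le {O S : Set (E n)} {u w : E n → ℝ} {B : ℝ} (hO : MeasurableSet O) (hS : O ⊆ S)
    (h : ∀ y ∈ O, Off c y → u y ≤ 2 * w y + B) :
    ∫⁻ y in O, ENNReal.ofReal (u y) ≤
      2 * (∫⁻ y in S, ENNReal.ofReal (w y)) + ENNReal.ofReal B * volume O := by
  calc ∫⁻ y in O, ENNReal.ofReal (u y)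
      ≤ ∫⁻ y in O, 2 * ENNReal.ofReal (w y) + ENNReal.ofReal B := by
        refine lintegral_mono_ae ((ae_restrict_iff' hO).2 ((MON.off_ae c).mono fun y ho hy => ?_))
        refine (ENNReal.ofReal_le_ofReal (h y hy ho)).trans (ENNReal.ofReal_add_le.trans ?_)
        rw [ENNReal.ofReal_mul zero_le_two, ENNReal.ofReal_ofNat]
    _ = 2 * (∫⁻ y in O, ENNReal.ofReal (w y)) + ENNReal.ofReal B * volume O := by
        rw [lintegral_add_right _ measurable_const, lintegral_const_mul' _ _ (by simp),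
          setLIntegral_const]
    _ ≤ _ := by gcongr

theorem holH {P : ι → ℤ} {g : E n → ℂ} (h : PolH c P g z) (ho : Off c z) : HolN g z := by
  obtain ⟨s, hs, e⟩ := h
  filter_upwards [hs, e.eventually_nhds, (MON.off_ev ho).eventually_nhds] with y h1 h2 h3
  refine ((MON.diff_xm (G := -P) fun i => Or.inl (h3.self_of_nhds i)).mul h1).congr_of_eventuallyEq ?_
  filter_upwards [h2, h3] with x e1 e2 using e1 e2

theorem rad (hz : z ∈ B2 n) {p : E n → Prop} (h : ∀ᶠ y in 𝓝 z, p y) :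
    ∃ r < (2 : ℝ), ∃ ρ > (0 : ℝ), ball z ρ ⊆ closedBall 0 r ∧ ∀ y ∈ ball z ρ, y ∈ B2 n ∧ p y := by
  obtain ⟨r, r1, r2⟩ := exists_between (mem_ball_zero_iff.1 hz)
  have h1 : ∀ᶠ y in 𝓝 z, y ∈ ball (0 : E n) r := isOpen_ball.mem_nhds (mem_ball_zero_iff.2 r1)
  obtain ⟨ρ, ρ0, hρ⟩ := eventually_nhds_iff_ball.1 (h1.and h)
  exact ⟨r, r2, ρ, ρ0, fun y hy => ball_subset_closedBall (hρ y hy).1,
    fun y hy => ⟨ball_subset_ball r2.le (hρ y hy).1, (hρ y hy).2⟩⟩

end LFT

open LFT in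
theorem bLFT (hMU : St_MU) (hUPB : St_UPB) (hPOL : St_POL) (hRES : St_RES) (hCLO : St_CLO) :
    St_LFT := by
  intro n M _ ι _ _ D X P Q R Z f G hQR hZ hf hG hGf H
  choose ε ε0 ε1 F Γ hF hΓ hI hJ using fun ν : ℕ => H (1 / (ν + 1 : ℝ)) Nat.one_div_pos_of_nat
  obtain ⟨-, -, -, -, mu⟩ := hMU n M ι D X
  have hε : ∀ ν, ε ν ≤ 1 := fun ν => (ε1 ν).trans (by
    rw [div_le_one (by positivity)]
    linarith [Nat.cast_nonneg (α := ℝ) ν])
  have h1 : ∀ ν, D.All fun d z => PolH (D.c d) R (D.rd (F ν) d - f d) z := by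
    intro ν d z hz
    obtain ⟨s, hs, e⟩ := hGf d z hz
    obtain ⟨B, B0, hB⟩ := bnd (K := R) hs.self_of_nhds.continuousAt e fun l _ => hQR l
    obtain ⟨r, r2, ρ, ρ0, s1, s2⟩ := rad hz hB
    obtain ⟨C, hC⟩ := mu r r2 (∑ i, |(R i : ℝ)|)
    have h2 := hC (fun i => R i) (fun x => normSq (G x - F ν x)) d fun i =>
      Finset.single_le_sum (f := fun i => |(R i : ℝ)|) (fun _ _ => abs_nonneg _) (Finset.mem_univ i)
    refine hPOL n ι (D.c d) R _ z (ball z ρ) (D.inj d) (ball_mem_nhds z ρ0) (fun y hy ho => ?_) ?_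
    · filter_upwards [hF ν d y (s2 y hy).1 ho, holH (hf d y (s2 y hy).1) ho] with x a b using a.sub b
    · refine ne_top_of_le_ne_top ?_ (li_le (c := D.c d) (B := 2 * B)
        (w := fun y => D.rd (fun x => normSq (G x - F ν x)) d y * xr (D.c d) (fun i => R i) y)
        measurableSet_ball s1 fun y hy ho => ?_)
      · exact ENNReal.add_ne_top.2 ⟨ENNReal.mul_ne_top (by simp) (ne_top_of_le_ne_top
          (ENNReal.mul_ne_top ENNReal.ofReal_ne_top (hI ν)) h2),
          ENNReal.mul_ne_top ENNReal.ofReal_ne_top measure_ball_lt_top.ne⟩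
      · have a1 := (s2 y hy).2 ho
        have a2 := mul_le_mul_of_nonneg_right (nsq_sub ((D.rd G d - f d) y)
          (G ((D.e d).symm y) - F ν ((D.e d).symm y))) (xr_nn (c := D.c d) (fun i => R i) y)
        have a3 : (D.rd G d - f d) y - (G ((D.e d).symm y) - F ν ((D.e d).symm y)) =
            (D.rd (F ν) d - f d) y := by
          simp only [Pi.sub_apply, Ad.rd]
          ring
        rw [a3] at a2
        simp only [Ad.rd] at a1 a2 ⊢
        nlinarith
  refine hCLO n M ι D R Z f F h1 fun d z hz i hi h0 hl => ?_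
  have hK : ∀ l, xi (D.c d) l z = 0 → P l ≤ (R - ind Z) l := fun l e => by
    obtain rfl : l = i := by_contra fun hne => hl l hne e
    have := hZ l hi
    simp only [Pi.sub_apply, ind, if_pos hi]
    omega
  obtain ⟨s, hs, e⟩ := hG d z hz
  obtain ⟨B, B0, hB⟩ := bnd hs.self_of_nhds.continuousAt e hK
  obtain ⟨s', hs', e'⟩ := hf d z hz
  obtain ⟨B', B0', hB'⟩ := bnd hs'.self_of_nhds.continuousAt e' hK
  obtain ⟨r, r2, ρ, ρ0, s1, s2⟩ := rad hz (hB.and hB')
  obtain ⟨C, hC⟩ := mu r r2 (∑ i, |(R i : ℝ)| + 1)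
  obtain ⟨C', hC'⟩ := hRES n ι (D.c d) R Z i z ρ (D.inj d) hi h0 hl ρ0
  obtain ⟨V, V0, hV⟩ : ∃ V : ℝ, 0 ≤ V ∧ volume (ball z ρ) = ENNReal.ofReal V :=
    ⟨_, ENNReal.toReal_nonneg, (ENNReal.ofReal_toReal measure_ball_lt_top.ne).symm⟩
  have hi01 : ∀ l, (0 : ℝ) ≤ ind Z l ∧ (ind Z l : ℝ) ≤ 1 := fun l => by
    unfold ind
    split_ifs <;> simp
  have key : ∀ ν, normSq (val (D.c d) R (D.rd (F ν) d - f d) z) ≤
      C' * ((2 * |C| + 4 * (B + B') * 4 ^ Fintype.card ι * V) * (1 / (ν + 1 : ℝ))) := by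
    intro ν
    obtain ⟨u1, u2⟩ := (hUPB n M ι D R).2.2.2.2.2.1 (D.c d) _ (h1 ν d)
    have e0 := ε0 ν
    have e1 := hε ν
    have hp : (0 : ℝ) < 1 / (ν + 1 : ℝ) := Nat.one_div_pos_of_nat
    refine hC' (D.rd (F ν) d - f d) _ (ε ν) _ e0 e1 (by positivity)
      (u1.mono fun y hy => (s2 y hy).1) (fun y hy ho => u2 y (s2 y hy).1 ho) ?_
    have h2 := hC (fun l => R l - (1 - ε ν) * ind Z l) (fun x => ε ν * normSq (Γ ν x - F ν x)) d
      fun l => by
        have b1 := Finset.single_le_sum (f := fun i => |(R i : ℝ)|) (fun _ _ => abs_nonneg _)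
          (Finset.mem_univ l)
        have b2 := abs_sub (R l : ℝ) ((1 - ε ν) * ind Z l)
        have b3 : |(1 - ε ν) * ind Z l| ≤ 1 := by
          rw [abs_of_nonneg (mul_nonneg (by linarith) (hi01 l).1)]
          exact mul_le_one₀ (by linarith) (hi01 l).1 (hi01 l).2
        linarith
    have e3 : (fun l => R l - (1 - ε ν) * ind Z l) - X.o =
        fun i => R i - X.o i - (1 - ε ν) * ind Z i := by
      funext l
      simp only [Pi.sub_apply]
      ring
    rw [e3] at h2
    refine (li_le (c := D.c d) (B := ε ν * (4 * (B + B') * 4 ^ Fintype.card ι))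
      (w := fun y => D.rd (fun x => ε ν * normSq (Γ ν x - F ν x)) d y *
        xr (D.c d) (fun l => R l - (1 - ε ν) * ind Z l) y)
      measurableSet_ball s1 fun y hy ho => ?_).trans ?_
    · obtain ⟨hy2, a1, a2⟩ := s2 y hy
      have a1 := a1 ho
      have a2 := a2 ho
      have e4 : xr (D.c d) (fun l => R l - (1 - ε ν) * ind Z l) y =
          xr (D.c d) (fun l => (R - ind Z) l) y * xr (D.c d) (fun l => ε ν * ind Z l) y := by
        rw [← xr_add _ _ ho]
        refine congrArg (xr (D.c d) · y) (funext fun l => ?_)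
        simp only [Pi.sub_apply, Int.cast_sub]
        ring
      have a3 := xr_le (c := D.c d) (a := fun l => ε ν * ind Z l)
        (fun l => ⟨mul_nonneg e0.le (hi01 l).1, mul_le_one₀ e1 (hi01 l).1 (hi01 l).2⟩) hy2
      have a4 := xr_nn (c := D.c d) (fun l => ε ν * ind Z l) y
      have a5 := xr_nn (c := D.c d) (fun l => (R - ind Z) l) y
      have a6 := nsq_sub (Γ ν ((D.e d).symm y) - f d y) (Γ ν ((D.e d).symm y) - F ν ((D.e d).symm y))
      have a7 := nsq_sub (Γ ν ((D.e d).symm y)) (f d y)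
      have a8 := hΓ ν ((D.e d).symm y)
      have a9 : Γ ν ((D.e d).symm y) - f d y - (Γ ν ((D.e d).symm y) - F ν ((D.e d).symm y)) =
          (D.rd (F ν) d - f d) y := by
        simp only [Pi.sub_apply, Ad.rd]
        ring
      rw [a9] at a6
      rw [e4]
      simp only [Ad.rd] at a1 a6 ⊢
      generalize xr (D.c d) (fun l => (R - ind Z) l) y = t at *
      generalize xr (D.c d) (fun l => ε ν * ind Z l) y = t' at *
      have b1 : normSq ((D.rd (F ν) d - f d) y) * t ≤
          2 * (normSq (Γ ν ((D.e d).symm y) - F ν ((D.e d).symm y)) * t) + 4 * (B + B') := by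
        have b0 : normSq ((D.rd (F ν) d - f d) y) ≤
            2 * normSq (Γ ν ((D.e d).symm y) - F ν ((D.e d).symm y)) +
              4 * normSq (G ((D.e d).symm y)) + 4 * normSq (f d y) := by
          linarith
        nlinarith [mul_le_mul_of_nonneg_right b0 a5]
      have b2 := mul_le_mul_of_nonneg_right b1 a4
      have b3 := mul_le_mul_of_nonneg_left a3 (by positivity : 0 ≤ 4 * (B + B'))
      have b4 := mul_le_mul_of_nonneg_left (b2.trans (by linarith : _ ≤ 2 * (normSq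
        (Γ ν ((D.e d).symm y) - F ν ((D.e d).symm y)) * t) * t' +
          4 * (B + B') * 4 ^ Fintype.card ι)) e0.le
      linarith
    · have b1 := h2.trans (mul_le_mul' (ENNReal.ofReal_le_ofReal (le_abs_self C)) (hJ ν))
      refine (add_le_add (mul_le_mul' le_rfl b1) le_rfl).trans ?_
      rw [hV, ← ENNReal.ofReal_mul (abs_nonneg _), ← ENNReal.ofReal_mul (by positivity),
        ← ENNReal.ofReal_ofNat 2, ← ENNReal.ofReal_mul zero_le_two,
        ← ENNReal.ofReal_add (by positivity) (by positivity)]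
      refine ENNReal.ofReal_le_ofReal ?_
      have b2 := mul_le_mul_of_nonneg_right (ε1 ν)
        (by positivity : 0 ≤ 4 * (B + B') * 4 ^ Fintype.card ι * V)
      nlinarith
  have lim := ((tendsto_one_div_add_atTop_nhds_zero_nat (𝕜 := ℝ)).const_mul
    (2 * |C| + 4 * (B + B') * 4 ^ Fintype.card ι * V)).const_mul C'
  rw [mul_zero, mul_zero] at lim
  have l2 := (squeeze_zero (fun ν => normSq_nonneg _) key lim).sqrt
  rw [Real.sqrt_zero] at l2
  exact tendsto_zero_iff_norm_tendsto_zero.2 l2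

end Pool.Agent.Lib.ZL
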