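import Pool.Agent.Lib.ZL.Blue2
import Pool.Agent.Lib.EX.B_MON

/-! Project ZL, row CX: the context attached to an ample divisor. -/

open scoped Classical Topology ContDiff
open Set Complex Metric Filter

noncomputable section

namespace Pool.Agent.Lib.ZL

open Pool.Agent.Lib.SV (E nsq)
open Pool.Agent.Lib.HS32 Pool.Agent.Lib.EX Pool.Agent.Lib.EXS
open Pool.Agent.Lib.EXS.K32

namespace CX

variable {n : ℕ} {M : Mf n} {ι : Type} [Fintype ι] [DecidableEq ι] {D : Ad M ι} (A : Am D)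
  {d : D.A} {z : E n}

/-- The monomial with the poles of `τ`. -/
abbrev g36 (d : D.A) : E n → ℂ := xm (D.c d) fun i => -(A.e i : ℤ)

theorem g_hol (ho : Off (D.c d) z) : HolN (g36 A d) z :=
  (MON.off_ev ho).mono fun _ hy => MON.diff_xm fun i => Or.inl (hy i)

theorem rep (hz : z ∈ B2 n) (ho : Off (D.c d) z) :
    D.rd A.τ d =ᶠ[𝓝 z] fun y => g36 A d y • A.t d y := by
  filter_upwards [isOpen_ball.mem_nhds hz, MON.off_ev ho] with y h1 h2
  exact (A.thol d y h1).2.2 h2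

theorem hol (hz : z ∈ B2 n) (ho : Off (D.c d) z) : HolN (D.rd A.τ d) z := by
  filter_upwards [(rep A hz ho).eventuallyEq_nhds, g_hol A ho, (A.thol d z hz).1] with y h1 h2 h3
  exact (h2.smul h3).congr_of_eventuallyEq h1

theorem imm (hz : z ∈ B2 n) (ho : Off (D.c d) z) (v : E n) (h : fderiv ℂ (D.rd A.τ d) z v = 0) :
    v = 0 := by
  have h0 : g36 A d z ≠ 0 := MON.xm_ne _ ho
  rw [(rep A hz ho).fderiv_eq,
    fderiv_fun_smul (g_hol A ho).self_of_nhds (A.thol d z hz).1.self_of_nhds, add_apply,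
    smul_apply, ContinuousLinearMap.smulRight_apply] at h
  refine A.imm d z hz v (-(fderiv ℂ (g36 A d) z v / g36 A d z)) (smul_right_injective _ h0 ?_)
  simp only [neg_smul, smul_neg, smul_smul, mul_div_cancel₀ _ h0]
  exact eq_neg_of_add_eq_zero_left h

theorem nrm (a : ℝ) {x : M.X} (hx : x ∈ (D.e d).source) : x ∈ off D ∧ ‖A.τ x‖ ≤ a ↔
    ‖A.t d (D.e d x)‖ ≤ a * ‖xm (D.c d) (fun i => A.e i) (D.e d x)‖ := by
  have hz : D.e d x ∈ B2 n := D.tgt d ▸ (D.e d).map_source hx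
  obtain ⟨-, h1, h2⟩ := A.thol d _ hz
  rw [GLU.mem_off hx]
  by_cases ho : Off (D.c d) (D.e d x)
  · have e := MON.xm_neg (c := D.c d) (fun i => A.e i) (D.e d x)
    rw [← GLU.rd_e A.τ hx, h2 ho, norm_smul, and_iff_right ho,
      show (xm (D.c d) (fun i => -(A.e i : ℤ)) (D.e d x)) = _ from e, norm_inv,
      inv_mul_le_iff₀ (norm_pos_iff.2 (MON.xm_ne _ ho)), mul_comm]
  · obtain ⟨i, hi⟩ := not_forall.1 ho
    have e : xm (D.c d) (fun i => A.e i) (D.e d x) = 0 :=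
      Finset.prod_eq_zero (Finset.mem_univ i) (by
        rw [not_not.1 hi, zero_zpow _ (Int.natCast_ne_zero.2 (A.epos i).ne')])
    rw [e, norm_zero, mul_zero]
    exact iff_of_false (fun h => ho h.1) (norm_pos_iff.2 h1).not_ge

theorem cpt [M.Cpt] (a : ℝ) : IsCompact {x | x ∈ off D ∧ ‖A.τ x‖ ≤ a} := by
  refine IsClosed.isCompact (isOpen_compl_iff.1 (isOpen_iff_mem_nhds.2 fun x hx => ?_))
  obtain ⟨d, hd⟩ := GLU.ex_ch D x
  have hz : D.e d x ∈ B2 n := D.tgt d ▸ (D.e d).map_source hd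
  have c1 := (A.thol d _ hz).1.self_of_nhds.continuousAt.norm
  have c2 := (continuousAt_const (y := a)).mul (MON.diff_xm (c := D.c d) (z := D.e d x)
    (G := fun i => A.e i) fun i => Or.inr (Int.natCast_nonneg _)).continuousAt.norm
  filter_upwards [((D.e d).continuousAt hd).eventually
    (c2.eventually_lt c1 (not_le.1 fun h => hx ((nrm A a hd).2 h))),
    (D.e d).open_source.mem_nhds hd] with y h1 h2 h3
  exact h1.not_ge ((nrm A a h2).1 h3)

theorem lg (hz : z ∈ B2 n) (ho : Off (D.c d) z) : Real.log (nsq (D.rd A.τ d z)) =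
    Real.log (nsq (A.t d z)) + Real.log (normSq (g36 A d z)) := by
  rw [(A.thol d z hz).2.2 ho, add_comm, ← Real.log_mul (normSq_pos.2 (MON.xm_ne _ ho)).ne'
    (nsq_pos (A.thol d z hz).2.1).ne']
  simp only [nsq, Pi.smul_apply, smul_eq_mul, map_mul, Finset.mul_sum]

theorem lv_al (hz : z ∈ B2 n) (ho : Off (D.c d) z) :
    ContDiffAt ℝ ∞ (D.rd (fun x => Real.log (nsq (A.τ x))) d) z ∧ ∀ v,
      lv (D.rd (fun x => Real.log (nsq (A.τ x))) d) z v =
        lv (fun y => Real.log (nsq (A.t d y))) z v := by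
  have e : D.rd (fun x => Real.log (nsq (A.τ x))) d =ᶠ[𝓝 z]
      fun y => Real.log (nsq (A.t d y)) + Real.log (normSq (g36 A d y)) := by
    filter_upwards [isOpen_ball.mem_nhds hz, MON.off_ev ho] with y h1 h2 using lg A h1 h2
  have h1 := (lv_lg (A.thol d z hz).1 (A.thol d z hz).2.1).1
  obtain ⟨h2, h3⟩ := lv_log (g_hol A ho) (MON.xm_ne _ ho)
  exact ⟨(h1.add h2).congr_of_eventuallyEq e, fun v => by
    rw [lv_congr e, lv_add h1 h2, h3, add_zero]⟩

omit [DecidableEq ι] in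
theorem big1 (d : D.A) : ∃ c > 0, ∀ z ∈ closedBall (0 : E n) (7 / 4), ∀ v,
    c * ‖v‖ ^ 2 ≤ lv (fun y => Real.log (nsq (A.t d y))) z v := by
  refine (isCompact_closedBall (0 : E n) (7 / 4)).induction_on (p := fun S => ∃ c > 0, ∀ z ∈ S, ∀ v,
    c * ‖v‖ ^ 2 ≤ lv (fun y => Real.log (nsq (A.t d y))) z v) ⟨1, one_pos, by simp⟩
    (fun S T h ⟨c, c0, hc⟩ => ⟨c, c0, fun z hz => hc z (h hz)⟩)
    (fun S T ⟨a, a0, ha⟩ ⟨b, b0, hb⟩ => ⟨min a b, lt_min a0 b0, fun z hz v => hz.elim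
      (fun h => (mul_le_mul_of_nonneg_right (min_le_left _ _) (sq_nonneg _)).trans (ha z h v))
      fun h => (mul_le_mul_of_nonneg_right (min_le_right _ _) (sq_nonneg _)).trans (hb z h v)⟩)
    fun z hz => ?_
  have hz' : z ∈ B2 n := closedBall_subset_ball (by norm_num) hz
  obtain ⟨h1, h2⟩ := lv_lg (A.thol d z hz').1 (A.thol d z hz').2.1
  obtain ⟨c, c0, hc⟩ := lv_near h1 fun v hv => (h2 v).2 fun t ht => hv (A.imm d z hz' v t ht)
  exact ⟨_, mem_nhdsWithin_of_mem_nhds hc, c, c0, fun _ h => h⟩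

theorem big : ∃ c > 0, OA D fun d z => ‖z‖ ≤ 7 / 4 → ∀ v,
    c * ‖v‖ ^ 2 ≤ lv (D.rd (fun x => Real.log (nsq (A.τ x))) d) z v := by
  choose c c0 hc using big1 A
  obtain ⟨a, h1, h2⟩ := ((eventually_all.2 fun d => Ioc_mem_nhdsGT (c0 d)).and
    self_mem_nhdsWithin).exists
  refine ⟨a, h2, fun d z hz ho h v => ?_⟩
  rw [(lv_al A hz ho).2]
  exact (mul_le_mul_of_nonneg_right (h1 d).2 (sq_nonneg _)).trans
    (hc d z (mem_closedBall_zero_iff.2 h) v)

omit [DecidableEq ι] in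
theorem xr_g (z : E n) : normSq (g36 A d z) = (xr (D.c d) (fun i => A.e i) z)⁻¹ := by
  simp only [g36, xm, xr, map_prod, zpow_neg, zpow_natCast, map_inv₀, map_pow, Real.rpow_natCast,
    Finset.prod_inv_distrib]

theorem bdd [M.Cpt] (hPW : St_PW) :
    ∃ C, ∀ x ∈ off D, |Real.log (nsq (A.τ x)) + lw D (fun i => A.e i) x| ≤ C := by
  obtain ⟨-, p1, -, -, -, -, -, -, p2, -⟩ := hPW n M ι D
  obtain ⟨C, -, hC⟩ := p2 1 one_lt_two
  have hb : ∀ d, ∃ B, ∀ z ∈ closedBall (0 : E n) 1, ‖Real.log (nsq (A.t d z))‖ ≤ B := fun d =>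
    (isCompact_closedBall (0 : E n) 1).exists_bound_of_continuousOn fun z hz => by
      have hz' : z ∈ B2 n := closedBall_subset_ball (by norm_num) hz
      exact (lv_lg (A.thol d z hz').1 (A.thol d z hz').2.1).1.continuousAt.continuousWithinAt
  choose B hB using hb
  obtain ⟨B', hB'⟩ := (Set.finite_range B).bddAbove
  refine ⟨B' + C * ∑ i, |(A.e i : ℝ)|, fun x hx => ?_⟩
  obtain ⟨d, hd, h1⟩ := p1 x
  have hz : D.e d x ∈ B2 n := D.tgt d ▸ (D.e d).map_source hd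
  have ho := hx d hd
  have h2 := abs_le.1 ((hB d _ (mem_closedBall_zero_iff.2 h1)).trans (hB' ⟨d, rfl⟩))
  obtain ⟨h3, h4⟩ := hC (fun i => A.e i) d _ h1 ho
  have h5 := lg A hz ho
  have h6 := MON.xr_pos (fun i => (A.e i : ℝ)) ho
  rw [GLU.rd_e _ hd, ← Real.exp_add, ← Real.log_le_iff_le_exp h6] at h3
  rw [GLU.rd_e _ hd, ← Real.exp_log h6, ← Real.exp_add, Real.exp_le_exp] at h4
  rw [GLU.rd_e _ hd, xr_g, Real.log_inv] at h5
  rw [h5, abs_le]
  constructor <;> linarith [h2.1, h2.2]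

end CX

open CX

theorem bCX (hHQ : St_HQ) (hPW : St_PW) : St_CX := by
  intro n M _ ι _ _ D A l m w m0 whol wne wcmp
  have ho : ∀ d, ∀ z ∈ B2 n, (D.e d).symm z ∈ off D → Off (D.c d) z := fun d z hz h =>
    GLU.rinv (D := D) d hz ▸ h d (GLU.mem_src d hz)
  obtain ⟨μ, h1, -, h2⟩ := hHQ n M ι D l m w A.r A.τ m0 whol wne wcmp
    (fun d z hz h => ⟨hol A hz (ho d z hz h), imm A hz (ho d z hz h)⟩) (cpt A)
  obtain ⟨c, c0, hc⟩ := big A
  refine ⟨⟨μ, m, l, w, A.e, fun x => Real.log (nsq (A.τ x)), m0, whol, wne, h1, h2,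
    ⟨fun d z hz h => (lv_al A hz h).1, fun d z hz h v => ?_⟩, bdd A hPW,
    c, c0, fun d z hz h h' => hc d z hz h (h'.trans (by norm_num))⟩,
    rfl, rfl, rfl, rfl, ⟨c, c0, hc⟩, rfl⟩
  rw [(lv_al A hz h).2]
  exact ((lv_lg (A.thol d z hz).1 (A.thol d z hz).2.1).2 v).1

end Pool.Agent.Lib.ZL
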