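import Pool.Agent.Lib.ZL.Blue
import Pool.Agent.Lib.EXS.RV2

/-! Project ZL, row PW: the model functions. -/

open scoped Classical Topology ContDiff ENNReal
open Set MeasureTheory Complex Metric Filter

set_option linter.unusedSectionVars false

noncomputable section

namespace Pool.Agent.Lib.ZL

open Pool.Agent.Lib.SV (E)
open Pool.Agent.Lib.HS32 Pool.Agent.Lib.EX Pool.Agent.Lib.EXS

namespace PW

variable {n : ℕ} {M : Mf n} {ι : Type} [Fintype ι] [DecidableEq ι] (D : Ad M ι)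

/-- The smooth factor of the norm of a component in a chart. -/
def gf (d : D.A) (i : ι) (z : E n) : ℝ :=
  ∑ b, D.χ b ((D.e d).symm z) * normSq (D.u b d i ((D.e d).symm z))

theorem ex1 (x : M.X) : ∃ d, D.χ d x ≠ 0 := by
  by_contra! h
  have := D.sum x
  rw [Finset.sum_eq_zero fun a _ => h a] at this
  exact zero_ne_one this

theorem cd_nsq {f : E n → ℂ} {z : E n} (h : ContDiffAt ℝ ∞ f z) :
    ContDiffAt ℝ ∞ (fun y => normSq (f y)) z := by
  have h1 : ContDiffAt ℝ ∞ (fun y => (f y).re) z := reCLM.contDiff.contDiffAt.comp z h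
  have h2 : ContDiffAt ℝ ∞ (fun y => (f y).im) z := imCLM.contDiff.contDiffAt.comp z h
  simpa only [normSq_apply] using (h1.mul h1).add (h2.mul h2)

theorem cd_hol {f : E n → ℂ} {z : E n} (h : HolN f z) : ContDiffAt ℝ ∞ f z :=
  (TRF.sm_of_hol h).self_of_nhds

variable {d : D.A} {z : E n}

theorem gf_sm [M.Cpt] (i : ι) (hz : z ∈ B2 n) : ContDiffAt ℝ ∞ (gf D d i) z := by
  have hx := GLU.mem_src (D := D) d hz
  have hr := GLU.rinv (D := D) d hz
  refine ContDiffAt.sum (f := fun b z => D.χ b ((D.e d).symm z) *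
    normSq (D.u b d i ((D.e d).symm z))) fun b _ => ?_
  by_cases hb : (D.e d).symm z ∈ (D.e b).source
  · have h1 : ContDiffAt ℝ ∞ (D.χ b ∘ (D.e d).symm) z :=
      D.sm b _ (D.mem d) z (GLU.mem_tgt d hz)
    have h2 := D.uhol b d i _ hb hx
    rw [hr] at h2
    exact h1.mul (cd_nsq (cd_hol h2))
  · have h1 := TRF.chi_zero D hx hb
    rw [hr] at h1
    refine (contDiffAt_const (c := (0 : ℝ))).congr_of_eventuallyEq ?_
    filter_upwards [h1] with w hw
    have : D.χ b ((D.e d).symm w) = 0 := hw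
    rw [this, zero_mul]

theorem gf_pos (i : ι) (hz : z ∈ B2 n) : 0 < gf D d i z := by
  obtain ⟨b, hb⟩ := ex1 D ((D.e d).symm z)
  refine Finset.sum_pos' (fun a _ => mul_nonneg (D.nn a _) (normSq_nonneg _))
    ⟨b, Finset.mem_univ _, mul_pos (lt_of_le_of_ne (D.nn b _) hb.symm) (normSq_pos.2 ?_)⟩
  exact D.une b d i _ (D.supp b _ hb).1 (GLU.mem_src d hz)

theorem gf_rep (i : ι) (hz : z ∈ B2 n) :
    ∑ b, D.χ b ((D.e d).symm z) * normSq (xi (D.c b) i (D.e b ((D.e d).symm z))) =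
      gf D d i z * normSq (xi (D.c d) i z) := by
  rw [gf, Finset.sum_mul]
  refine Finset.sum_congr rfl fun b _ => ?_
  by_cases hb : D.χ b ((D.e d).symm z) = 0
  · rw [hb, zero_mul, zero_mul, zero_mul]
  · rw [D.urel b d i _ (D.supp b _ hb).1 (GLU.mem_src d hz), GLU.rinv d hz, map_mul, mul_assoc]

theorem rd_lw (a : ι → ℝ) (hz : z ∈ B2 n) (ho : Off (D.c d) z) :
    D.rd (lw D a) d z = K32.lm (D.c d) a z + ∑ i, a i * Real.log (gf D d i z) := by
  rw [K32.lm, ← Finset.sum_add_distrib]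
  refine Finset.sum_congr rfl fun i _ => ?_
  rw [gf_rep D i hz, Real.log_mul (gf_pos D i hz).ne' (normSq_pos.2 (ho i)).ne']
  ring

theorem off_ev (c : ι → Option (Fin n)) (ho : Off c z) : ∀ᶠ w in 𝓝 z, Off c w :=
  eventually_all.2 fun i => (MON.diff_xi c i).continuous.continuousAt.eventually_ne (ho i)

theorem open_off : IsOpen (off D) := by
  refine isOpen_iff_mem_nhds.2 fun x hx => ?_
  obtain ⟨d, hd⟩ := GLU.ex_ch D x
  filter_upwards [((D.e d).continuousAt hd).eventually (off_ev _ ((GLU.mem_off hd).1 hx)),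
    (D.e d).open_source.mem_nhds hd] with y h1 h2
  exact (GLU.mem_off h2).2 h1

theorem log_le (i : ι) (x : M.X) :
    Real.log (∑ d, D.χ d x * normSq (xi (D.c d) i (D.e d x))) ≤ 0 := by
  refine Real.log_nonpos (Finset.sum_nonneg fun a _ => mul_nonneg (D.nn a _) (normSq_nonneg _)) ?_
  rw [← D.sum x]
  refine Finset.sum_le_sum fun a _ => ?_
  by_cases ha : D.χ a x = 0
  · rw [ha, zero_mul]
  · refine mul_le_of_le_one_right (D.nn a x) ?_
    have h1 : ‖xi (D.c a) i (D.e a x)‖ ≤ 1 := by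
      unfold xi
      cases D.c a i with
      | none => simp
      | some j => exact (norm_le_pi_norm (D.e a x) j).trans (D.supp a x ha).2
    rw [normSq_eq_norm_sq]
    exact pow_le_one₀ (norm_nonneg _) h1

theorem lw_sm [M.Cpt] (a : ι → ℝ) : SmO D (lw D a) := by
  intro d z hz ho
  have h : ContDiffAt ℝ ∞ (fun w => ∑ i, a i * Real.log (gf D d i w * normSq (xi (D.c d) i w))) z :=
    ContDiffAt.sum fun i _ => contDiffAt_const.mul (((gf_sm D i hz).mul
      (cd_nsq (cd_hol (.of_forall fun w => MON.diff_xi (D.c d) i w)))).log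
        (mul_pos (gf_pos D i hz) (normSq_pos.2 (ho i))).ne')
  refine h.congr_of_eventuallyEq ?_
  filter_upwards [isOpen_ball.eventually_mem hz] with w hw
  exact Finset.sum_congr rfl fun i _ => by rw [gf_rep D i hw]

theorem log_bd [M.Cpt] {r : ℝ} (hr : r < 2) :
    ∃ C, 0 ≤ C ∧ ∀ d i z, ‖z‖ ≤ r → |Real.log (gf D d i z)| ≤ C := by
  have h : ∀ p : D.A × ι, ∃ C, ∀ z ∈ closedBall (0 : E n) r,
      ‖Real.log (gf D p.1 p.2 z)‖ ≤ C := fun p =>
    (isCompact_closedBall 0 r).exists_bound_of_continuousOn fun z hz =>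
      have hz' : z ∈ B2 n := closedBall_subset_ball hr hz
      ((gf_sm D p.2 hz').continuousAt.log (gf_pos D p.2 hz').ne').continuousWithinAt
  choose C hC using h
  refine ⟨∑ p, |C p|, Finset.sum_nonneg fun p _ => abs_nonneg _, fun d i z hz => ?_⟩
  exact ((hC (d, i) z (mem_closedBall_zero_iff.2 hz)).trans (le_abs_self _)).trans
    (Finset.single_le_sum (f := fun p => |C p|) (fun p _ => abs_nonneg _) (Finset.mem_univ (d, i)))

theorem cmp [M.Cpt] {r : ℝ} (hr : r < 2) : ∃ C, 0 ≤ C ∧ ∀ (a : ι → ℝ) d z, ‖z‖ ≤ r →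
    Off (D.c d) z →
    xr (D.c d) a z ≤ Real.exp (C * ∑ i, |a i|) * Real.exp (D.rd (lw D a) d z) ∧
    Real.exp (D.rd (lw D a) d z) ≤ Real.exp (C * ∑ i, |a i|) * xr (D.c d) a z := by
  obtain ⟨C, C0, hC⟩ := log_bd D hr
  refine ⟨C, C0, fun a d z hz ho => ?_⟩
  have hz' : z ∈ B2 n := closedBall_subset_ball hr (mem_closedBall_zero_iff.2 hz)
  have h : |∑ i, a i * Real.log (gf D d i z)| ≤ C * ∑ i, |a i| := by
    rw [Finset.mul_sum]
    refine (Finset.abs_sum_le_sum_abs _ _).trans (Finset.sum_le_sum fun i _ => ?_)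
    rw [abs_mul, mul_comm]
    exact mul_le_mul_of_nonneg_right (hC d i z hz) (abs_nonneg _)
  obtain ⟨h1, h2⟩ := abs_le.1 h
  rw [K32.xr_exp fun i _ => ho i, rd_lw D a hz' ho, ← Real.exp_add, ← Real.exp_add]
  constructor <;> refine Real.exp_le_exp.2 ?_ <;> linarith

end PW

open PW in
theorem bPW : St_PW := by
  intro n M _ ι _ _ D
  refine ⟨open_off D, fun x => ?_, fun a b x => ?_, fun a b x => ?_, fun t a x => ?_,
    fun a x => ?_, fun a b h x => ?_, lw_sm D, fun r hr => cmp D hr, fun F _ _ f hf x hx => ?_,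
    fun f hf d z hz ho => cd_hol (hf d z hz ho)⟩
  · obtain ⟨d, hd⟩ := ex1 D x
    exact ⟨d, D.supp d x hd⟩
  · simp only [lw, Pi.add_apply, add_mul, Finset.sum_add_distrib]
  · simp only [lw, Pi.sub_apply, sub_mul, Finset.sum_sub_distrib]
  · simp only [lw, Pi.smul_apply, smul_eq_mul, Finset.mul_sum, mul_assoc]
  · simp only [lw, Pi.neg_apply, neg_mul, Finset.sum_neg_distrib]
  · exact Finset.sum_le_sum fun i _ => mul_le_mul_of_nonpos_right (h i) (log_le D i x)
  · obtain ⟨d, hd⟩ := GLU.ex_ch D x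
    exact (GLU.cont_rd hd
      (hf d _ (GLU.mem_B2 hd) ((GLU.mem_off hd).1 hx)).continuousAt).continuousWithinAt

end Pool.Agent.Lib.ZL
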