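import Pool.Agent.Lib.ZL.Blue2
import Pool.Agent.Lib.ZL.B_PW

/-! Project ZL, row LWC: the curvature of the model metrics is bounded. -/

open scoped Classical Topology ContDiff ENNReal
open Set MeasureTheory Complex Metric Filter

noncomputable section

namespace Pool.Agent.Lib.ZL

open Pool.Agent.Lib.SV (E)
open Pool.Agent.Lib.HS32 Pool.Agent.Lib.EX Pool.Agent.Lib.EXS
open Pool.Agent.Lib.EXS.K32

namespace LWC

variable {n : ℕ}

/-- The Levi form is bounded on a compact set. -/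
theorem bd {u : E n → ℝ} {K : Set (E n)} (hK : IsCompact K) (hu : ∀ z ∈ K, ContDiffAt ℝ ∞ u z) :
    ∃ B, 0 ≤ B ∧ ∀ z ∈ K, ∀ v, |lv u z v| ≤ B * ‖v‖ ^ 2 := by
  have hc : ContinuousOn (fun p : E n × E n => lv u p.1 p.2) (K ×ˢ closedBall 0 1) := fun p hp => by
    have h1 : ContinuousAt (fun p : E n × E n => hess (fun x => (u x : ℂ)) p.1) p :=
      ContinuousAt.comp (x := p) (f := Prod.fst) (smM_hess (cd_ofReal (hu _ hp.1))).continuousAt
        continuousAt_fst
    have h2 : Continuous fun p : Mat n × E n => nq p.1 p.2 := by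
      unfold nq
      fun_prop
    exact (h2.continuousAt.comp (h1.prodMk continuousAt_snd)).continuousWithinAt
  obtain ⟨B, hB⟩ := (hK.prod (isCompact_closedBall 0 1)).exists_bound_of_continuousOn hc
  refine ⟨|B|, abs_nonneg _, fun z hz v => ?_⟩
  rcases eq_or_ne v 0 with rfl | hv
  · simp [lv, nq]
  have h1 := norm_pos_iff.2 hv
  have h2 := (hB (z, ‖v‖⁻¹ • v) ⟨hz, by simp [norm_smul, h1.ne']⟩).trans (le_abs_self B)
  rw [lv, nq_sm, ← lv, inv_pow, Real.norm_eq_abs, abs_mul, abs_of_pos (inv_pos.2 (pow_pos h1 2)),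
    inv_mul_le_iff₀ (pow_pos h1 2)] at h2
  rwa [mul_comm]

variable {ι : Type} [Fintype ι] [DecidableEq ι] {c : ι → Option (Fin n)} {z : E n}

omit [DecidableEq ι] in
theorem lm_ph (a : ι → ℝ) (ho : Off c z) :
    ContDiffAt ℝ ∞ (lm c a) z ∧ ∀ v, lv (lm c a) z v = 0 := by
  have h := fun i => lv_log (f := xi c i) (z := z) (.of_forall fun w => MON.diff_xi c i w) (ho i)
  have h1 : ∀ i ∈ Finset.univ, ContDiffAt ℝ ∞ (fun y => a i * Real.log (normSq (xi c i y))) z :=
    fun i _ => contDiffAt_const.mul (h i).1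
  refine ⟨ContDiffAt.sum h1, fun v => (lv_sum h1 v).trans (Finset.sum_eq_zero fun i _ => ?_)⟩
  rw [lv_mul (h i).1, (h i).2, mul_zero]

end LWC

theorem bLWC (hTRF : St_TRF) : St_LWC := by
  intro n M _ ι _ _ D X a
  obtain ⟨c, c0, hc⟩ := X.αs
  have hg : ∀ d, ∀ z ∈ B2 n, ContDiffAt ℝ ∞ (fun y => ∑ i, a i * Real.log (PW.gf D d i y)) z :=
    fun d z hz => ContDiffAt.sum fun i _ =>
      contDiffAt_const.mul ((PW.gf_sm D i hz).log (PW.gf_pos D i hz).ne')
  choose B B0 hB using fun d => LWC.bd (isCompact_closedBall (0 : E n) 1) fun z hz =>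
    hg d z (closedBall_subset_ball one_lt_two hz)
  have S0 : 0 ≤ (∑ d, B d) / c := div_nonneg (Finset.sum_nonneg fun d _ => B0 d) c0.le
  refine ⟨(∑ d, B d) / c, S0, (hTRF n M ι D).2.1 _ (fun d z hz ho =>
    (contDiffAt_const.mul (X.αp.1 d z hz ho)).add (PW.lw_sm D a d z hz ho))
    fun d z hz ho hn v => ?_⟩
  have e : D.rd (lw D a) d =ᶠ[𝓝 z]
      fun y => lm (D.c d) a y + ∑ i, a i * Real.log (PW.gf D d i y) := by
    filter_upwards [isOpen_ball.eventually_mem hz, MON.off_ev ho] with y h1 h2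
    exact PW.rd_lw D a h1 h2
  have h1 := lv_add (contDiffAt_const (c := (∑ d, B d) / c).mul (X.αp.1 d z hz ho))
    (PW.lw_sm D a d z hz ho) v
  rw [lv_mul (X.αp.1 d z hz ho), lv_congr e, lv_add (LWC.lm_ph a ho).1 (hg d z hz),
    (LWC.lm_ph a ho).2, zero_add] at h1
  have h2 := (abs_le.1 (hB d z (mem_closedBall_zero_iff.2 hn) v)).1
  have h3 := mul_le_mul_of_nonneg_left (hc d z hz ho hn v) S0
  rw [← mul_assoc, div_mul_cancel₀ _ c0.ne'] at h3
  have h4 := mul_le_mul_of_nonneg_right (Finset.single_le_sum (f := B) (fun l _ => B0 l)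
    (Finset.mem_univ d)) (sq_nonneg ‖v‖)
  refine le_of_le_of_eq ?_ h1.symm
  linarith

end Pool.Agent.Lib.ZL
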