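import Pool.Agent.Lib.ZL.Blue
import Pool.Agent.Lib.EX.B_MON

/-! Project ZL: square integrable functions have bounded poles. -/

open scoped Classical Topology ContDiff ENNReal
open Set MeasureTheory Complex Metric Filter

noncomputable section

namespace Pool.Agent.Lib.ZL

open Pool.Agent.Lib.SV (E)
open Pool.Agent.Lib.HS32 Pool.Agent.Lib.EX Pool.Agent.Lib.EXS

namespace POL

variable {n : ℕ} {ι : Type} [Fintype ι] [DecidableEq ι] {c : ι → Option (Fin n)} {z : E n}

omit [DecidableEq ι] in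
theorem off_iff : xs c Finset.univ z ≠ 0 ↔ Off c z := by
  simp only [xs, Finset.prod_ne_zero_iff, Finset.mem_univ, forall_true_left, Off]

omit [DecidableEq ι] in
theorem xr_int (c : ι → Option (Fin n)) (Q : ι → ℤ) (z : E n) :
    xr c (fun i => Q i) z = normSq (xm c Q z) := by
  simp only [xr, xm, map_prod, map_zpow₀, Real.rpow_intCast]

end POL

theorem bPOL : St_POL := by
  intro n ι _ _ c Q g z O _ hO hg hi
  obtain ⟨V, hV, hVo, hz⟩ := _root_.mem_nhds_iff.1 hO
  have h0 : ¬xs c Finset.univ =ᶠ[𝓝 z] 0 := fun h =>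
    ((MON.off_freq c z).and_eventually h).exists.elim fun y hy => POL.off_iff.2 hy.1 hy.2
  obtain ⟨G, hG⟩ := SV.H85.ext_local volume (f := fun y => xm c Q y * g y) hVo
    (MON.diff_xs c Finset.univ).differentiableOn
    (fun y hy => ((MON.diff_xm fun i => Or.inl (POL.off_iff.1 hy.2 i)).mul
      (hg y (hV hy.1) (POL.off_iff.1 hy.2)).self_of_nhds).differentiableWithinAt)
    (ne_top_of_le_ne_top hi ((lintegral_mono_set fun y hy => hV hy.1).trans (le_of_eq
      (lintegral_congr fun y => by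
        rw [POL.xr_int, ← normSq_eq_norm_sq, map_mul, mul_comm])))) hz h0
  refine ⟨G, hG.mono fun y hy => hy.1, hG.mono fun y hy ho => ?_⟩
  rw [hy.2 (POL.off_iff.2 ho), MON.xm_neg, inv_mul_cancel_left₀ (MON.xm_ne Q ho)]

end Pool.Agent.Lib.ZL
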