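import Pool.Agent.Lib.ZL.Blue

/-! Project ZL: the choice of the constants. -/

open scoped Classical Topology ContDiff ENNReal
open Set MeasureTheory Complex Metric Filter

noncomputable section

namespace Pool.Agent.Lib.ZL

namespace ARI17

/-- The choice of the large integer. -/
theorem pick (ι : Type) [Fintype ι] (k : ι → ℕ) (d e : ι → ℝ) (N : ℝ) (hN : 1 < N)
    (he : ∀ i, d i < 1 + 2 * e i) :
    ∃ (s : ℕ) (u : ℝ), 0 < s ∧ 0 < u ∧ u * (s + 1) = 1 ∧ 4 * u < N - 1 ∧
      N < (2 * N - 1 - 4 * u) * (1 - u) ∧ ∀ i, (0 < d i → u * (k i / N) < d i) ∧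
        -1 < (2 * N - 1 - 4 * u) * ((1 - u) * (k i / N)) - 2 * (k i - e i) + (k i / N - d i) := by
  have hN0 : N ≠ 0 := by positivity
  have h1 : ∀ᶠ u in 𝓝 (0 : ℝ), 4 * u < N - 1 :=
    ContinuousAt.eventually_lt (f := fun u : ℝ => 4 * u) (g := fun _ => N - 1) (by fun_prop)
      (by fun_prop) (by simpa using hN)
  have h2 : ∀ᶠ u in 𝓝 (0 : ℝ), N < (2 * N - 1 - 4 * u) * (1 - u) :=
    ContinuousAt.eventually_lt (f := fun _ : ℝ => N)
      (g := fun u : ℝ => (2 * N - 1 - 4 * u) * (1 - u)) (by fun_prop) (by fun_prop)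
      (by simp only [mul_zero, sub_zero, mul_one]; linarith)
  have h3 : ∀ᶠ u in 𝓝 (0 : ℝ), ∀ i, (0 < d i → u * (k i / N) < d i) ∧
      -1 < (2 * N - 1 - 4 * u) * ((1 - u) * (k i / N)) - 2 * (k i - e i) + (k i / N - d i) := by
    refine eventually_all.2 fun i => Eventually.and ?_ ?_
    · by_cases h : 0 < d i
      · have : ∀ᶠ u in 𝓝 (0 : ℝ), u * (k i / N) < d i :=
          ContinuousAt.eventually_lt (f := fun u : ℝ => u * (k i / N)) (g := fun _ => d i)
            (by fun_prop) (by fun_prop) (by simpa using h)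
        exact this.mono fun u hu _ => hu
      · exact Eventually.of_forall fun u hu => absurd hu h
    · refine ContinuousAt.eventually_lt (f := fun _ : ℝ => (-1 : ℝ)) (g := fun u : ℝ =>
        (2 * N - 1 - 4 * u) * ((1 - u) * (k i / N)) - 2 * (k i - e i) + (k i / N - d i))
        (by fun_prop) (by fun_prop) ?_
      have h4 : N * (k i / N) = k i := by field_simp
      have := he i
      simp only [mul_zero, sub_zero, one_mul]
      nlinarith
  have ht : Tendsto (fun s : ℕ => 1 / ((s : ℝ) + 1)) atTop (𝓝 0) :=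
    tendsto_one_div_add_atTop_nhds_zero_nat
  obtain ⟨s, ⟨⟨a1, a2⟩, a3⟩, a4⟩ :=
    ((ht.eventually ((h1.and h2).and h3)).and (eventually_gt_atTop 0)).exists
  exact ⟨s, 1 / ((s : ℝ) + 1), a4, by positivity, by field_simp, a1, a2, a3⟩

end ARI17

theorem bARI : St_ARI := by
  intro ι _ k o N hN hle hS
  have hN0 : 0 < N := by linarith
  obtain ⟨s, u, hs, hu, hus, h4, hb, hi⟩ := ARI17.pick ι k (fun i => k i / N - o i)
    (fun i => (ind {i | k i / N - o i = 1} i : ℤ)) N hN (fun i => by
      by_cases h : k i / N - o i = 1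
      · simp [ind, h]
      · have := lt_of_le_of_ne (hle i) h
        simp only [ind, mem_ofPred_eq, h, if_false]
        push_cast
        linarith)
  have hs1 : (0 : ℝ) < s + 1 := by positivity
  have hc : 1 < N * (s + 1) := by nlinarith [Nat.cast_nonneg (α := ℝ) s]
  have hq : ∀ i, (((s * k i : ℤ)) : ℝ) / (N * (s + 1)) = (1 - u) * (k i / N) := fun i => by
    have : u = 1 / (s + 1) := by field_simp; linarith
    rw [this]; push_cast; field_simp; ring
  have hq' : ∀ i, ((((s + 1) * k i : ℤ)) : ℝ) / (N * (s + 1)) = k i / N := fun i => by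
    push_cast; field_simp
  have hkN : ∀ i, N * (k i / N) = k i := fun i => by field_simp
  have hk0 : ∀ i, (0 : ℝ) ≤ k i / N := fun i => by positivity
  -- the choice at each index
  have key : ∀ i, ∃ p R : ℤ, o i ≤ p / (N * (s + 1)) ∧ p / (N * (s + 1)) < o i + 1 ∧
      (s * k i : ℤ) ≤ p ∧
      (k i / N - o i ≠ 0 → (N - 1) * (p / (N * (s + 1))) < R - o i) ∧
      (k i / N - o i = 0 → (N - 1) * (p / (N * (s + 1))) + 1 ≤ R - o i ∧ k i < R) ∧
      k i - ind {i | k i / N - o i = 1} i ≤ R ∧
      (0 ≤ k i / N - o i →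
        R - ind {i | k i / N - o i = 0} i = k i - ind {i | k i / N - o i = 1} i) := by
    intro i
    have e1 := hkN i
    have e0 := hk0 i
    rcases lt_trichotomy (k i / N - o i) 0 with h | h | h
    · have hS' : ¬ (k i / N - o i = 1) := by intro h'; linarith
      have hc0 : 0 < N * (s + 1) := by linarith
      have a1 : o i ≤ (⌈o i * (N * (s + 1))⌉ : ℤ) / (N * (s + 1)) := by
        rw [le_div_iff₀ hc0]; exact Int.le_ceil _
      refine ⟨⌈o i * (N * (s + 1))⌉, max (k i : ℤ)
        (⌊(N - 1) * ((⌈o i * (N * (s + 1))⌉ : ℤ) / (N * (s + 1))) + o i⌋ + 1), a1, ?_, ?_,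
        fun _ => ?_, fun h' => absurd h' h.ne, ?_, fun h' => absurd h (not_lt.2 h')⟩
      · rw [div_lt_iff₀ hc0]
        have := Int.ceil_lt_add_one (o i * (N * (s + 1)))
        nlinarith
      · have a2 := Int.le_ceil (o i * (N * (s + 1)))
        have a3 : (k i / N) * (N * (s + 1)) ≤ o i * (N * (s + 1)) :=
          mul_le_mul_of_nonneg_right (by linarith) hc0.le
        have a4 : (k i / N) * (N * (s + 1)) = s * k i + k i := by field_simp
        have a5 : ((s * k i : ℤ) : ℝ) ≤ (⌈o i * (N * (s + 1))⌉ : ℤ) := by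
          push_cast
          linarith [Nat.cast_nonneg (α := ℝ) (k i)]
        exact_mod_cast a5
      · have a2 := Int.lt_floor_add_one
          ((N - 1) * ((⌈o i * (N * (s + 1))⌉ : ℤ) / (N * (s + 1))) + o i)
        have a3 : ((⌊(N - 1) * ((⌈o i * (N * (s + 1))⌉ : ℤ) / (N * (s + 1))) + o i⌋ + 1 : ℤ) : ℝ) ≤
            ((max (k i : ℤ) (⌊(N - 1) * ((⌈o i * (N * (s + 1))⌉ : ℤ) / (N * (s + 1))) + o i⌋ + 1)
              : ℤ) : ℝ) := by exact_mod_cast le_max_right _ _
        rw [Int.cast_add, Int.cast_one] at a3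
        linarith
      · simp only [ind, mem_ofPred_eq, hS', if_false, sub_zero]
        exact le_max_left _ _
    · have hS' : ¬ (k i / N - o i = 1) := by intro h'; linarith
      refine ⟨(s + 1) * k i, k i + 1, ?_, ?_, ?_, fun h' => absurd h h', fun _ => ⟨?_, by omega⟩,
        ?_, fun _ => ?_⟩
      · rw [hq']; linarith
      · rw [hq']; linarith
      · nlinarith [Int.natCast_nonneg (k i)]
      · rw [hq']; push_cast; nlinarith
      · simp only [ind, mem_ofPred_eq, hS', if_false]; omega
      · simp only [ind, mem_ofPred_eq, hS', if_false]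
        rw [if_pos h]; omega
    · have b1 := (hi i).1 h
      have b0 : 0 ≤ u * (k i / N) := by positivity
      by_cases h1 : k i / N - o i = 1
      · have hk : (0 : ℝ) < k i := by exact_mod_cast hS i h1
        have b2 : 0 < u * (k i / N) := by positivity
        refine ⟨s * k i, k i - 1, ?_, ?_, le_rfl, fun _ => ?_, fun h' => absurd h' h.ne', ?_,
          fun _ => ?_⟩
        · rw [hq]; linarith
        · rw [hq]; linarith
        · rw [hq]; push_cast; nlinarith
        · simp only [ind, mem_ofPred_eq]; rw [if_pos h1]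
        · simp only [ind, mem_ofPred_eq]; rw [if_pos h1, if_neg h.ne']; omega
      · have h2 := lt_of_le_of_ne (hle i) h1
        refine ⟨s * k i, k i, ?_, ?_, le_rfl, fun _ => ?_, fun h' => absurd h' h.ne', ?_,
          fun _ => ?_⟩
        · rw [hq]; linarith
        · rw [hq]; linarith
        · rw [hq]; push_cast; nlinarith
        · simp only [ind, mem_ofPred_eq]; rw [if_neg h1]; omega
        · simp only [ind, mem_ofPred_eq]; rw [if_neg h1, if_neg h.ne']
  choose π R hπ using key
  have el : 1 + 2 * (N - 1 - 2 * u) = 2 * N - 1 - 4 * u := by ring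
  have ed : N - 1 - 2 * u + 2 * u = N - 1 := by ring
  refine ⟨s, π, R, N - 1 - 2 * u, u, hs, hu, by linarith, ed, fun i => ?_⟩
  obtain ⟨p1, p2, p3, p4, p5, p6, p7⟩ := hπ i
  rw [el, ed, hq]
  refine ⟨p1, p2, p3, ?_, ?_, p4, p5, p6, p7⟩
  · have := mul_le_mul_of_nonneg_right hb.le (hk0 i)
    have e1 := hkN i
    nlinarith
  · have := (hi i).2
    push_cast at this ⊢
    linarith

end Pool.Agent.Lib.ZL
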