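import Pool.Agent.Lib.ZL.Blue
import Pool.Agent.Lib.EX.B_MON
import Pool.Agent.Lib.EX.B_DIV
import Pool.Agent.Lib.EX.B_MOD

/-! Project ZL, row CLO: a limit of lifts with small residues. -/

open scoped Classical Topology ContDiff ENNReal
open Set MeasureTheory Complex Metric Filter

set_option linter.unusedSectionVars false

noncomputable section

namespace Pool.Agent.Lib.ZL

open Pool.Agent.Lib.SV (E)
open Pool.Agent.Lib.HS32 Pool.Agent.Lib.EX Pool.Agent.Lib.EXS

namespace CLO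

variable {n : ℕ} {ι : Type} [Fintype ι] [DecidableEq ι] {c : ι → Option (Fin n)} {Q : ι → ℤ}
  {g g' s : E n → ℂ} {z : E n}

theorem mem_off {M : Mf n} (D : Ad M ι) (d : D.A) (hz : z ∈ B2 n) (ho : Off (D.c d) z) :
    (D.e d).symm z ∈ off D := by
  intro b hb i
  have ht : z ∈ (D.e d).target := (D.tgt d).symm ▸ hz
  rw [D.urel b d i _ hb ((D.e d).map_target ht), (D.e d).right_inv ht]
  exact mul_ne_zero (D.une b d i _ hb ((D.e d).map_target ht)) (ho i)

theorem val_eq (hs : ContinuousAt s z)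
    (e : ∀ᶠ y in 𝓝 z, Off c y → g y = xm c (-Q) y * s y) : val c Q g z = s z := by
  obtain ⟨-, md, -, -, -, -, -, -, mx, -⟩ := bMON n ι c
  have : (𝓝[{y | Off c y}] z).NeBot := mem_closure_iff_nhdsWithin_neBot.1 (md z)
  refine Tendsto.limUnder_eq ((hs.tendsto.mono_left nhdsWithin_le_nhds).congr' ?_)
  filter_upwards [self_mem_nhdsWithin, nhdsWithin_le_nhds e] with y ho hy
  rw [hy ho, (mx Q Q y ho).2.2, ← mul_assoc, mul_inv_cancel₀ (mx Q Q y ho).2.1, one_mul]

theorem val_cong (h : PolH c Q g z) (e : ∀ᶠ y in 𝓝 z, Off c y → g' y = g y) :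
    val c Q g' z = val c Q g z := by
  obtain ⟨s, hs, e'⟩ := h
  rw [val_eq hs.self_of_nhds.continuousAt e', val_eq (s := s) hs.self_of_nhds.continuousAt]
  filter_upwards [e, e'] with y h1 h2 ho using (h1 ho).trans (h2 ho)

theorem val_add (h : PolH c Q g z) (h' : PolH c Q g' z) :
    val c Q (g + g') z = val c Q g z + val c Q g' z := by
  obtain ⟨s, hs, e⟩ := h
  obtain ⟨s', hs', e'⟩ := h'
  rw [val_eq hs.self_of_nhds.continuousAt e, val_eq hs'.self_of_nhds.continuousAt e',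
    val_eq (s := s + s') (hs.self_of_nhds.continuousAt.add hs'.self_of_nhds.continuousAt)]
  · rfl
  · filter_upwards [e, e'] with y h1 h2 ho
    rw [Pi.add_apply, Pi.add_apply, h1 ho, h2 ho, mul_add]

theorem val_smul (t : ℂ) (h : PolH c Q g z) : val c Q (t • g) z = t * val c Q g z := by
  obtain ⟨s, hs, e⟩ := h
  rw [val_eq hs.self_of_nhds.continuousAt e,
    val_eq (s := t • s) (hs.self_of_nhds.continuousAt.const_smul t)]
  · rfl
  · filter_upwards [e] with y h1 ho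
    rw [Pi.smul_apply, Pi.smul_apply, h1 ho, smul_eq_mul, smul_eq_mul, mul_left_comm]

/-- The poles drop when the leading coefficients vanish. -/
theorem drop (hc : Inj c) (Z : Set ι) (h : PolH c Q g z)
    (h0 : ∀ᶠ y in 𝓝 z, ∀ i ∈ Z, xi c i y = 0 → (∀ l ≠ i, xi c l y ≠ 0) → val c Q g y = 0) :
    PolH c (Q - ind Z) g z := by
  obtain ⟨s, hs, e⟩ := h
  obtain ⟨-, -, -, -, -, -, -, -, mx, mi, -, -, -, mj⟩ := bMON n ι c
  have h1 : ∀ᶠ y in 𝓝 z, ∀ i ∈ Z, xi c i y = 0 → (∀ l ≠ i, xi c l y ≠ 0) → s y = 0 := by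
    filter_upwards [h0, hs, e.eventually_nhds] with y a1 a2 a3 i hi b1 b2
    rw [← val_eq a2.continuousAt a3]
    exact a1 i hi b1 b2
  obtain ⟨t, ht, e'⟩ := (bDIV n ι c s z hc hs).2 Z.toFinset 1 fun I hI => by
    obtain ⟨hI, hI'⟩ := Finset.mem_powersetCard.1 hI
    obtain ⟨i, rfl⟩ := Finset.card_eq_one.1 hI'
    have hi : i ∈ Z := Set.mem_toFinset.1 (hI (Finset.mem_singleton_self i))
    filter_upwards [h1.eventually_nhds, hs] with y hy hd hsl
    exact (mj hc).2.2.2.2 {i} s y hsl hd.continuousAt (hy.mono fun w hw w1 w2 =>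
      hw i hi (w1 i (Finset.mem_singleton_self i)) fun l hl => w2 l (by simpa using hl))
  have hl : lt Z.toFinset 1 = {∅} := by
    ext J
    simp only [lt, Finset.mem_filter, Finset.mem_powerset, Nat.lt_one_iff, Finset.card_eq_zero,
      Finset.mem_singleton]
    exact ⟨fun h => h.2, fun h => ⟨h ▸ Finset.empty_subset _, h⟩⟩
  have hi : -(Q - ind Z) = -Q + fun i => if i ∈ Z.toFinset then 1 else 0 := by
    funext i
    simp only [ind, Set.mem_toFinset, Pi.neg_apply, Pi.sub_apply, Pi.add_apply]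
    ring
  refine ⟨t ∅, ht ∅, ?_⟩
  filter_upwards [e, e'] with y a1 a2 ho
  rw [a1 ho, a2, hl, Finset.sum_singleton, Finset.sdiff_empty, hi, (mx _ _ y ho).1, mi, mul_assoc]

end CLO

open CLO in
theorem bCLO (hF : St_FIN) : St_CLO := by
  intro n M _ ι _ _ D Q Z f F h1 h2
  obtain ⟨V, hV, mV⟩ := hF n M ι D Q
  have hm := fun d => (bMOD n ι (D.c d) Q 0 ∅ 0).2.1
  have ob : ∀ z ∈ B2 n, ∀ᶠ y in 𝓝 z, y ∈ B2 n := fun z hz => isOpen_ball.mem_nhds hz
  let T := {p : D.A × E n // p.2 ∈ B2 n ∧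
    ∃ i ∈ Z, xi (D.c p.1) i p.2 = 0 ∧ ∀ l ≠ i, xi (D.c p.1) l p.2 ≠ 0}
  let L : V →ₗ[ℂ] (T → ℂ) :=
    { toFun := fun H p => val (D.c p.1.1) Q (D.rd H.1 p.1.1) p.1.2
      map_add' := fun H H' => funext fun p =>
        val_add (((mV _).1 H.2).1 _ _ p.2.1) (((mV _).1 H'.2).1 _ _ p.2.1)
      map_smul' := fun t H => funext fun p => val_smul t (((mV _).1 H.2).1 _ _ p.2.1) }
  let H : ℕ → M.X → ℂ := fun ν => (off D).indicator (F ν - F 0)
  have e1 : ∀ ν d, ∀ z ∈ B2 n, ∀ᶠ y in 𝓝 z, Off (D.c d) y →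
      (D.rd (F ν) d - f d) y = (D.rd (H ν) d + (D.rd (F 0) d - f d)) y := by
    intro ν d z hz
    filter_upwards [ob z hz] with y hy ho
    simp only [H, Ad.rd, Pi.add_apply, Pi.sub_apply, indicator_of_mem (mem_off D d hy ho)]
    ring
  have hH : ∀ ν, H ν ∈ V := fun ν => (mV _).2 ⟨fun d z hz => by
    refine (hm d).cong _ _ z ((hm d).add _ _ z (h1 ν d z hz) ((hm d).mul (fun _ => -1) _ z
      (Eventually.of_forall fun _ => differentiableAt_const _) (h1 0 d z hz))) ?_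
    filter_upwards [e1 ν d z hz] with y hy ho
    have := hy ho
    simp only [Pi.add_apply, Pi.mul_apply] at this ⊢
    rw [this]
    ring, fun x hx => indicator_of_notMem hx _⟩
  have hb : (fun p : T => -val (D.c p.1.1) Q (D.rd (F 0) p.1.1 - f p.1.1) p.1.2) ∈
      LinearMap.range L := by
    refine (LinearMap.range L).closed_of_finiteDimensional.mem_of_tendsto
      (f := fun ν => L ⟨H ν, hH ν⟩) (b := atTop) (tendsto_pi_nhds.2 fun p => ?_)
      (Eventually.of_forall fun ν => LinearMap.mem_range_self _ _)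
    obtain ⟨⟨d, z⟩, hz, i, hi, a1, a2⟩ := p
    have := (h2 d z hz i hi a1 a2).sub_const (val (D.c d) Q (D.rd (F 0) d - f d) z)
    rw [zero_sub] at this
    refine this.congr fun ν => ?_
    have hp := ((mV _).1 (hH ν)).1 d z hz
    rw [val_cong ((hm d).add _ _ z hp (h1 0 d z hz)) (e1 ν d z hz), val_add hp (h1 0 d z hz),
      add_sub_cancel_right]
    rfl
  obtain ⟨G, hG⟩ := hb
  have hp := ((mV _).1 G.2).1
  have e2 : ∀ d, D.rd (G.1 + F 0) d - f d = D.rd G.1 d + (D.rd (F 0) d - f d) := fun d => by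
    funext y
    simp only [Ad.rd, Pi.add_apply, Pi.sub_apply]
    ring
  refine ⟨G.1 + F 0, fun d z hz => ?_⟩
  beta_reduce
  rw [e2]
  refine drop (D.inj d) Z ((hm d).add _ _ z (hp d z hz) (h1 0 d z hz)) ?_
  filter_upwards [ob z hz] with y hy i hi a1 a2
  have := congrFun hG ⟨(d, y), hy, i, hi, a1, a2⟩
  rw [val_add (hp d y hy) (h1 0 d y hy)]
  exact add_eq_zero_iff_eq_neg.2 this

end Pool.Agent.Lib.ZL
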