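import Pool.Agent.Lib.ZL.Blue

/-! Project ZL: the assembly of Theorem E. -/

open scoped Classical Topology ContDiff ENNReal
open Set MeasureTheory Complex Metric Filter

noncomputable section

namespace Pool.Agent.Lib.ZL

open Pool.Agent.Lib.SV (E)
open Pool.Agent.Lib.HS32 Pool.Agent.Lib.EX Pool.Agent.Lib.EXS
open Pool.Agent.Lib.EXS.K32 (lv)

theorem bE (hUPB : St_UPB) (hZN : St_ZN) (hAVG : St_AVG) (hEST : St_EST) (hLFT : St_LFT)
    (hARI : St_ARI) : St_E := by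
  intro n M _ ι _ _ D X k N f hN h1 h2 hG hf hd
  obtain ⟨s, π, R, lam, δ, hs, hδ, hl, -, hA⟩ := hARI ι k X.o N hN h1 h2
  have hc : 0 < N * ((s : ℝ) + 1) := mul_pos (by linarith) (by positivity)
  let K : Kl X := ⟨π, N * (s + 1), hc, fun i => (hA i).1, fun i => (hA i).2.1⟩
  obtain ⟨C, ρ, -, hE, hZ⟩ := hZN n M ι D X K (fun i => s * k i) (fun i => (hA i).2.2.1)
    fun j => by
      have := hG (j * s)
      simpa only [Nat.cast_mul, mul_assoc] using this
  obtain ⟨A, ε₁, hε₁, hI⟩ := hZ (2 * lam) (by linarith)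
  let T : Set ι := {i | k i / N - X.o i = 1}
  let Z : Set ι := {i | k i / N - X.o i = 0}
  let P : ι → ℤ := fun i => k i
  let Q : ι → ℤ := fun i => k i - ind T i
  have hQP : Q ≤ P := fun i => by
    refine sub_le_self _ ?_
    unfold ind
    split_ifs <;> norm_num
  obtain ⟨a1, a2, a3, C₂, hC₂, a4⟩ := hAVG n M ι D X P Q f hQP hf hd
  obtain ⟨C₁, b1⟩ := (hUPB n M ι D P).2.2.2.1 _ a2
  have est := hEST n M ι D X K.κ (fun i => ((s * k i : ℤ) : ℝ) / K.c) (fun i => P i) (fun i => Q i)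
    (fun i => R i - X.o i) Z lam δ C A (max C₁ C₂) ε₁ (D.avg f) hδ hl hε₁
    (hC₂.trans (le_max_right _ _))
    (fun i => div_nonneg (by
      have : (0 : ℤ) ≤ π i := le_trans (by positivity) (hA i).2.2.1
      exact_mod_cast this) hc.le)
    (fun i => by simpa only [P, Int.cast_natCast] using (hA i).2.2.2.1)
    (fun i => (hA i).2.2.2.2.1) (fun i hi => (hA i).2.2.2.2.2.1 hi)
    (fun i hi => ((hA i).2.2.2.2.2.2.1 hi).1)
    (fun ε h0 h1 => ⟨ρ ε, hE.1 ε h0, hI ε h0 h1⟩) a1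
    (fun x hx => (b1 x hx).trans
      (mul_le_mul_of_nonneg_right (le_max_left _ _) (Real.exp_pos _).le))
    fun d z hz ho v => (a4 d z hz ho v).trans (mul_le_mul_of_nonneg_right
      (mul_le_mul_of_nonneg_right (le_max_right _ _) (Real.exp_pos _).le) (X.αp.2 d z hz ho v))
  obtain ⟨F, hF⟩ := hLFT n M ι D X P Q R Z f (D.avg f) (fun i => (hA i).2.2.2.2.2.2.2.1)
    (fun i hi => ((hA i).2.2.2.2.2.2.1 hi).2) hf a2 a3 est
  exact ⟨R - ind Z, F, fun i hi => (hA i).2.2.2.2.2.2.2.2 hi, hF⟩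

end Pool.Agent.Lib.ZL
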