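import Pool.Agent.Lib.ZL.Blue

/-! Project ZL, row ENV: envelope families exist. -/

open scoped Classical Topology ContDiff ENNReal
open Set MeasureTheory Complex Metric Filter

set_option linter.unusedSectionVars false

noncomputable section

namespace Pool.Agent.Lib.ZL

open Pool.Agent.Lib.SV (E)
open Pool.Agent.Lib.HS32 Pool.Agent.Lib.EX Pool.Agent.Lib.EXS
open Pool.Agent.Lib.EXS.K32 (lv)

namespace ENV

variable {n : ℕ} {M : Mf n} {ι : Type} [Fintype ι] [DecidableEq ι] {D : Ad M ι}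

theorem psh_congr {f g : M.X → ℝ} (hf : Psh D f) (h : ∀ x, f x = g x) : Psh D g := by
  have e : f = g := funext h
  exact e ▸ hf

theorem smo_of {ρ α : M.X → ℝ} {ε : ℝ} (h : SmO D fun x => ρ x + ε * α x) (hα : SmO D α) :
    SmO D ρ := by
  intro d z hz ho
  have h1 := (h d z hz ho).sub ((contDiffAt_const (c := ε)).mul (hα d z hz ho))
  have e : D.rd ρ d = fun y => D.rd (fun x => ρ x + ε * α x) d y - ε * D.rd α d y := by
    funext y; simp [Ad.rd]
  rw [e]; exact h1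

/-- The soft maximum. -/
def sm (N a b : ℝ) : ℝ := N⁻¹ * Real.log (Real.exp (N * a) + Real.exp (N * b)) - N⁻¹ * Real.log 2

theorem sm_add {N : ℝ} (hN : 0 < N) (a b t : ℝ) : sm N (a + t) (b + t) = sm N a b + t := by
  have e : Real.exp (N * (a + t)) + Real.exp (N * (b + t)) =
      (Real.exp (N * a) + Real.exp (N * b)) * Real.exp (N * t) := by
    rw [mul_add, mul_add, Real.exp_add, Real.exp_add]; ring
  unfold sm
  rw [e, Real.log_mul (by positivity) (Real.exp_ne_zero _), Real.log_exp]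
  field_simp
  ring

theorem sm_le {N : ℝ} (hN : 0 < N) {a b c : ℝ} (ha : a ≤ c) (hb : b ≤ c) : sm N a b ≤ c := by
  have h1 : Real.exp (N * a) + Real.exp (N * b) ≤ 2 * Real.exp (N * c) := by
    have := Real.exp_le_exp.2 (mul_le_mul_of_nonneg_left ha hN.le)
    have := Real.exp_le_exp.2 (mul_le_mul_of_nonneg_left hb hN.le)
    linarith
  have h2 := Real.log_le_log (by positivity) h1
  rw [Real.log_mul two_ne_zero (Real.exp_ne_zero _), Real.log_exp] at h2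
  have h3 := mul_le_mul_of_nonneg_left h2 (inv_pos.2 hN).le
  have h4 : N⁻¹ * (Real.log 2 + N * c) = N⁻¹ * Real.log 2 + c := by field_simp
  unfold sm
  linarith

theorem le_sm {N : ℝ} (hN : 0 < N) (a b : ℝ) : max a b ≤ N⁻¹ * Real.log 2 + sm N a b := by
  have h1 : Real.exp (N * max a b) ≤ Real.exp (N * a) + Real.exp (N * b) := by
    rcases le_total a b with h | h
    · rw [max_eq_right h]; have := Real.exp_pos (N * a); linarith
    · rw [max_eq_left h]; have := Real.exp_pos (N * b); linarith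
  have h2 := Real.log_le_log (Real.exp_pos _) h1
  rw [Real.log_exp] at h2
  have h3 := mul_le_mul_of_nonneg_left h2 (inv_pos.2 hN).le
  have h4 : N⁻¹ * (N * max a b) = max a b := by field_simp
  unfold sm
  linarith

theorem I_mul (X : Cx D) {c : ℝ} (hc : 0 ≤ c) (f : M.X → ℝ) :
    X.I (fun x => c * f x) = ENNReal.ofReal c * X.I f := by
  unfold Cx.I
  rw [← lintegral_const_mul' _ _ ENNReal.ofReal_ne_top]
  simp only [ENNReal.ofReal_mul hc]

theorem ofReal_split (a b : ℝ) : ENNReal.ofReal (Real.exp a - Real.exp b) +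
    ENNReal.ofReal (Real.exp b) = ENNReal.ofReal (Real.exp (max a b)) := by
  rcases le_total a b with h | h
  · rw [max_eq_right h, ENNReal.ofReal_of_nonpos (sub_nonpos.2 (Real.exp_le_exp.2 h)), zero_add]
  · rw [max_eq_left h, ← ENNReal.ofReal_add (sub_nonneg.2 (Real.exp_le_exp.2 h))
      (Real.exp_pos _).le, sub_add_cancel]

end ENV

open ENV in
theorem bENV (hPW : St_PW) (hMU : St_MU) (hWGT : St_WGT) : St_ENV := by
  intro n M _ ι _ _ D X K C
  obtain ⟨L, -, -, hW⟩ := hWGT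
  obtain ⟨hc, hadd, hmul, -, hlse, -⟩ := hW n M ι D
  obtain ⟨-, hmeas, hmono, hfin, -⟩ := hMU n M ι D X
  obtain ⟨-, -, -, -, -, hneg, -, -, -, hcont, -⟩ := hPW n M ι D
  have mono : ∀ ε ε' ρ, ε ≤ ε' → X.Cl K.κ C ε ρ → X.Cl K.κ C ε' ρ := fun ε ε' ρ h hρ =>
    ⟨hρ.1, psh_congr (hadd _ _ hρ.2.1 (hmul (ε' - ε) _ (sub_nonneg.2 h) X.αp))
      fun x => by ring, hρ.2.2⟩
  refine ⟨mono, fun hne => ?_⟩
  have ne : ∀ ε > 0, ∃ σ, X.Cl K.κ C ε σ := by
    intro ε hε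
    obtain ⟨C', σ, hσ⟩ := hne ε hε
    have hp : Psh D fun x => (σ x + (C - C')) + ε * X.α x :=
      psh_congr (hadd _ _ hσ.2.1 (hc (C - C'))) fun x => by ring
    exact ⟨fun x => σ x + (C - C'), smo_of hp.1 X.αp.1, hp,
      fun x hx => by have := hσ.2.2 x hx; linarith⟩
  have soft : ∀ ε σ ρ (N : ℝ), 0 < N → X.Cl K.κ C ε σ → X.Cl K.κ C ε ρ →
      X.Cl K.κ C ε fun x => sm N (σ x) (ρ x) := by
    intro ε σ ρ N hN hσ hρ
    have hp : Psh D fun x => sm N (σ x) (ρ x) + ε * X.α x :=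
      psh_congr (hadd _ _ (hmul N⁻¹ _ (inv_pos.2 hN).le (hlse _ _ (hmul N _ hN.le hσ.2.1)
        (hmul N _ hN.le hρ.2.1))) (hc (-(N⁻¹ * Real.log 2)))) fun x => by
          rw [← sm_add hN]; unfold sm; ring
    exact ⟨smo_of hp.1 X.αp.1, hp, fun x hx => sm_le hN (hσ.2.2 x hx) (hρ.2.2 x hx)⟩
  set s : ℝ → ℝ≥0∞ := fun ε => ⨆ σ, ⨆ _ : X.Cl K.κ C ε σ, X.I fun x => Real.exp (σ x) with hs
  have le_s : ∀ ε σ, X.Cl K.κ C ε σ → X.I (fun x => Real.exp (σ x)) ≤ s ε := fun ε σ hσ =>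
    le_iSup₂_of_le (f := fun σ (_ : X.Cl K.κ C ε σ) => X.I fun x => Real.exp (σ x)) σ hσ le_rfl
  have smono : ∀ ε ε', ε ≤ ε' → s ε ≤ s ε' := fun ε ε' h =>
    iSup₂_le fun σ hσ => le_s ε' σ (mono ε ε' σ h hσ)
  have sfin : ∀ ε, s ε ≠ ⊤ := by
    intro ε
    have hJ := hfin (-K.κ) fun i => by
      have := K.hi i
      simp only [Pi.neg_apply, Kl.κ]
      linarith
    refine ne_top_of_le_ne_top (b := ENNReal.ofReal (Real.exp C) *
      X.I fun x => Real.exp (lw D (-K.κ) x)) (ENNReal.mul_ne_top ENNReal.ofReal_ne_top hJ)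
      (iSup₂_le fun σ hσ => ?_)
    rw [← I_mul X (Real.exp_pos C).le]
    refine hmono _ _ fun x hx => ?_
    rw [hneg, ← Real.exp_add]
    exact Real.exp_le_exp.2 (by have := hσ.2.2 x hx; linarith)
  have pick : ∀ ε : ℝ, ∃ ρ, 0 < ε → X.Cl K.κ C ε ρ ∧
      s ε ≤ X.I (fun x => Real.exp (ρ x)) + ENNReal.ofReal ε := by
    intro ε
    by_cases hε : 0 < ε
    swap
    · exact ⟨0, fun h => absurd h hε⟩
    by_contra hcon
    have h1 : ∀ σ, X.Cl K.κ C ε σ → X.I (fun x => Real.exp (σ x)) + ENNReal.ofReal ε < s ε :=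
      fun σ hσ => lt_of_not_ge fun h => hcon ⟨σ, fun _ => ⟨hσ, h⟩⟩
    obtain ⟨σ₀, hσ₀⟩ := ne ε hε
    have h2 : s ε ≤ s ε - ENNReal.ofReal ε :=
      iSup₂_le fun σ hσ => ENNReal.le_sub_of_add_le_right ENNReal.ofReal_ne_top (h1 σ hσ).le
    exact absurd h2 (not_le.2 (ENNReal.sub_lt_self (sfin ε) (ne_of_gt (h1 σ₀ hσ₀).pos)
      (ENNReal.ofReal_pos.2 hε).ne'))
  choose ρ hρ using pick
  refine ⟨ρ, fun ε hε => (hρ ε hε).1, fun η hη => ?_⟩
  set s₀ : ℝ≥0∞ := ⨅ ε, ⨅ _ : (0 : ℝ) < ε, s ε with hs₀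
  have s₀le : ∀ ε > 0, s₀ ≤ s ε := fun ε hε =>
    iInf₂_le_of_le (f := fun ε (_ : (0 : ℝ) < ε) => s ε) ε hε le_rfl
  have h0 : s₀ < s₀ + ENNReal.ofReal (η / 2) :=
    ENNReal.lt_add_right (ne_top_of_le_ne_top (sfin 1) (s₀le 1 one_pos))
      (ENNReal.ofReal_pos.2 (half_pos hη)).ne'
  obtain ⟨ε₁, h1⟩ := iInf_lt_iff.1 h0
  obtain ⟨hε₁, h1⟩ := iInf_lt_iff.1 h1
  refine ⟨min ε₁ (η / 2), lt_min hε₁ (half_pos hη), fun ε hε hle σ hσ => ?_⟩
  have hr := mono _ _ _ hle (hρ ε hε).1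
  have key : X.I (fun x => Real.exp (max (σ x) (ρ ε x))) ≤ s (min ε₁ (η / 2)) := by
    have hl : Tendsto (fun N : ℕ => ENNReal.ofReal (Real.exp (((N : ℝ) + 1)⁻¹ * Real.log 2)) *
        s (min ε₁ (η / 2))) atTop (𝓝 (ENNReal.ofReal (Real.exp (0 * Real.log 2)) *
          s (min ε₁ (η / 2)))) := by
      refine ENNReal.Tendsto.mul_const (ENNReal.tendsto_ofReal
        ((Real.continuous_exp.tendsto _).comp (Tendsto.mul_const _ ?_))) (Or.inr (sfin _))
      simpa only [one_div] using tendsto_one_div_add_atTop_nhds_zero_nat (𝕜 := ℝ)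
    rw [zero_mul, Real.exp_zero, ENNReal.ofReal_one, one_mul] at hl
    refine ge_of_tendsto' hl fun N => ?_
    have hN : (0 : ℝ) < N + 1 := by positivity
    refine le_trans ?_ (mul_le_mul_right (le_s _ _ (soft _ σ (ρ ε) _ hN hσ hr)) _)
    rw [← I_mul X (Real.exp_pos _).le]
    refine hmono _ _ fun x _ => ?_
    rw [← Real.exp_add]
    exact Real.exp_le_exp.2 (le_sm hN _ _)
  have hm : AEMeasurable (fun x => ENNReal.ofReal (Real.exp (ρ ε x))) X.μ :=
    (hmeas ℝ _ (Real.continuous_exp.comp_continuousOn (hcont ℝ _ hr.1))).ennreal_ofReal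
  have hsum : X.I (fun x => Real.exp (σ x) - Real.exp (ρ ε x)) +
      X.I (fun x => Real.exp (ρ ε x)) = X.I fun x => Real.exp (max (σ x) (ρ ε x)) := by
    unfold Cx.I
    rw [← lintegral_add_right' _ hm]
    simp only [ofReal_split]
  have hf : X.I (fun x => Real.exp (ρ ε x)) ≠ ⊤ := ne_top_of_le_ne_top (sfin _) (le_s _ _ hr)
  refine (ENNReal.add_le_add_iff_right hf).1 ?_
  have h2 : ENNReal.ofReal ε ≤ ENNReal.ofReal (η / 2) :=
    ENNReal.ofReal_le_ofReal (hle.trans (min_le_right _ _))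
  calc _ = _ := hsum
    _ ≤ s ε₁ := key.trans (smono _ _ (min_le_left _ _))
    _ ≤ s₀ + ENNReal.ofReal (η / 2) := h1.le
    _ ≤ X.I (fun x => Real.exp (ρ ε x)) + ENNReal.ofReal (η / 2) + ENNReal.ofReal (η / 2) :=
      add_le_add ((s₀le ε hε).trans ((hρ ε hε).2.trans (add_le_add le_rfl h2))) le_rfl
    _ = _ := by
      rw [add_assoc, ← ENNReal.ofReal_add (half_pos hη).le (half_pos hη).le, add_halves, add_comm]

end Pool.Agent.Lib.ZL
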