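import Pool.Agent.Lib.ZL.Blue

/-! Project ZL, row EST: the estimate for the extension step. -/

open scoped Classical Topology ContDiff ENNReal
open Set MeasureTheory Complex Metric Filter

noncomputable section

namespace Pool.Agent.Lib.ZL

open Pool.Agent.Lib.SV (E)
open Pool.Agent.Lib.HS32 Pool.Agent.Lib.EX Pool.Agent.Lib.EXS

namespace EST

section

variable {n : ℕ} {M : Mf n} {ι : Type} [Fintype ι] {D : Ad M ι} (X : Cx D)

theorem i_mul {c : ℝ} (hc : 0 ≤ c) (f : M.X → ℝ) :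
    X.I (fun x => c * f x) = ENNReal.ofReal c * X.I f := by
  simp only [Cx.I, ENNReal.ofReal_mul hc]
  exact lintegral_const_mul' _ _ ENNReal.ofReal_ne_top

theorem i_add {f : M.X → ℝ} (hf : AEMeasurable f X.μ) (g : M.X → ℝ) :
    X.I (fun x => f x + g x) ≤ X.I f + X.I g :=
  (lintegral_mono fun _ => ENNReal.ofReal_add_le).trans
    (lintegral_add_left' hf.ennreal_ofReal _).le

theorem i_two {f g : M.X → ℝ} (hf : AEMeasurable f X.μ) {a b A B : ℝ} (ha : 0 ≤ a) (hb : 0 ≤ b)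
    (hA : 0 ≤ A) (hB : 0 ≤ B) (h1 : X.I f ≤ ENNReal.ofReal A) (h2 : X.I g ≤ ENNReal.ofReal B) :
    X.I (fun x => a * f x + b * g x) ≤ ENNReal.ofReal (a * A + b * B) := by
  refine (i_add X (hf.const_mul a) _).trans ?_
  rw [i_mul X ha, i_mul X hb, ENNReal.ofReal_add (by positivity) (by positivity),
    ENNReal.ofReal_mul ha, ENNReal.ofReal_mul hb]
  exact add_le_add (mul_le_mul_right h1 _) (mul_le_mul_right h2 _)

end

theorem am_ite {Y : Type} [MeasurableSpace Y] {μ : Measure Y} {a f : Y → ℝ} {S : Set ℝ}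
    (hS : MeasurableSet S) (ha : AEMeasurable a μ) (hf : AEMeasurable f μ) :
    AEMeasurable (fun x => if a x ∈ S then f x else 0) μ :=
  (Measurable.ite (p := fun y : ℝ × ℝ => y.1 ∈ S) (measurable_fst hS) measurable_snd
    measurable_const).comp_aemeasurable (ha.prodMk hf)

theorem sq_sub (a b c : ℂ) : normSq (a - c) ≤ 2 * normSq (b - c) + 2 * normSq (a - b) := by
  have h := norm_add_le (b - c) (a - b)
  rw [show b - c + (a - b) = a - c by ring] at h
  simp only [normSq_eq_norm_sq]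
  nlinarith [norm_nonneg (a - c), sq_nonneg (‖b - c‖ - ‖a - b‖),
    pow_le_pow_left₀ (norm_nonneg _) h 2]

theorem lse_lo (a t : ℝ) : a ≤ Real.log (Real.exp a + Real.exp t) :=
  (Real.le_log_iff_exp_le (by positivity)).2 (by linarith [Real.exp_pos t])

theorem lse_hi {a t u : ℝ} (h1 : a ≤ u) (h2 : t ≤ u) :
    Real.log (Real.exp a + Real.exp t) ≤ u + 1 := by
  rw [Real.log_le_iff_le_exp (by positivity), Real.exp_add]
  have h3 := Real.exp_le_exp.2 h1
  have h4 := Real.exp_le_exp.2 h2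
  have h5 := Real.add_one_le_exp (1 : ℝ)
  nlinarith [Real.exp_pos u]

theorem small {ι : Type} [Fintype ι] (g c : ι → ℝ) (p : ι → Prop) (h : ∀ i, p i → 0 < g i) :
    ∀ᶠ e in 𝓝[>] (0 : ℝ), ∀ i, p i → e * c i ≤ g i :=
  nhdsWithin_le_nhds (eventually_all.2 fun i => by
    by_cases hi : p i
    · have hc : ContinuousAt (fun e : ℝ => e * c i) 0 := by fun_prop
      exact (hc.eventually_lt continuousAt_const (by simpa using h i hi)).mono fun e he _ => he.le
    · exact Eventually.of_forall fun e he => absurd he hi)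

theorem win {lam B c t e ρ α g lp lg : ℝ} (l0 : 0 ≤ lam) (B0 : 0 ≤ B) (c0 : 0 ≤ c) (e0 : 0 < e)
    (e1 : e ≤ 1) (hα : -c ≤ α) (hp : (1 + 2 * lam) * lg ≤ lp) (hg : g ≤ B * Real.exp (-lp))
    (h : ρ + e * α - t ≤ 3) :
    g ≤ B * Real.exp (2 * lam * (t + 3 + c)) * Real.exp (-((1 + 2 * lam) * lg) - 2 * lam * ρ) := by
  have h1 := mul_le_mul_of_nonneg_left hα e0.le
  have h2 := mul_le_mul_of_nonneg_right e1 c0
  have h3 := mul_le_mul_of_nonneg_left (show ρ ≤ t + 3 + c by linarith) l0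
  refine hg.trans ?_
  rw [mul_assoc, ← Real.exp_add]
  exact mul_le_mul_of_nonneg_left (Real.exp_le_exp.2 (by linarith)) B0

theorem amgm {lam ρ lq lg : ℝ} : Real.exp (-lq - lam * ρ) ≤
    Real.exp ((1 + 2 * lam) * lg - 2 * lq) + Real.exp (-((1 + 2 * lam) * lg) - 2 * lam * ρ) := by
  have k1 : Real.exp (-lq - lam * ρ) ^ 2 =
      Real.exp ((1 + 2 * lam) * lg - 2 * lq) * Real.exp (-((1 + 2 * lam) * lg) - 2 * lam * ρ) := by
    simp only [sq, ← Real.exp_add]
    exact congrArg _ (by ring)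
  have k2 := Real.exp_pos ((1 + 2 * lam) * lg - 2 * lq)
  have k3 := Real.exp_pos (-((1 + 2 * lam) * lg) - 2 * lam * ρ)
  refine abs_le_of_sq_le_sq' ?_ (by positivity) |>.2
  rw [k1]
  nlinarith [mul_pos k2 k3]

theorem up {lam δ L B T c t e ρ α g lq Y W : ℝ} (d0 : 0 < δ) (dl : 2 * δ ≤ lam) (L0 : 0 < L)
    (B0 : 0 ≤ B) (T0 : 0 ≤ T) (c0 : 0 ≤ c) (t0 : 0 ≤ t) (e0 : 0 < e) (e1 : e ≤ 1) (hα : -c ≤ α)
    (Y0 : 0 ≤ Y) (W0 : 0 ≤ W) (hw : ρ + e * α - t ≤ 3 → g ≤ T * W)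
    (hy : Real.exp (-lq - lam * ρ) ≤ Y + W) :
    ((if 2 ≤ ρ + e * α - t ∧ ρ + e * α - t ≤ 3 then L / δ * g else 0) +
      if 2 ≤ ρ + e * α - t then 2 / e * (B * Real.exp (-lq)) else 0) *
      Real.exp (-((lam + δ) * (ρ + e * α) +
        δ * Real.log (Real.exp (ρ + e * α) + Real.exp t) + e * α)) ≤
      2 * B * Real.exp (c + lam * c) / e * Real.exp (-(2 * δ * t)) * Y +
        (L / δ * Real.exp c * T + 2 * B * Real.exp (c + lam * c) / e * Real.exp (-(2 * δ * t))) *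
          W := by
  have l0 : 0 ≤ lam := by linarith
  have h2 := mul_le_mul_of_nonneg_left (lse_lo (ρ + e * α) t) d0.le
  have h3 : -c ≤ e * α := by
    linarith [mul_le_mul_of_nonneg_left hα e0.le, mul_le_mul_of_nonneg_right e1 c0]
  generalize Real.log (Real.exp (ρ + e * α) + Real.exp t) = u at h2 ⊢
  by_cases h : 2 ≤ ρ + e * α - t
  · have h0 : 0 ≤ ρ + e * α := by linarith
    have h4 : Real.exp (-((lam + δ) * (ρ + e * α) + δ * u + e * α)) ≤ Real.exp c :=
      Real.exp_le_exp.2 (by linarith [mul_nonneg l0 h0, mul_nonneg d0.le h0])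
    have h5 : (if 2 ≤ ρ + e * α - t ∧ ρ + e * α - t ≤ 3 then L / δ * g else 0) ≤
        L / δ * (T * W) := by
      split_ifs with h6
      · exact mul_le_mul_of_nonneg_left (hw h6.2) (by positivity)
      · positivity
    have h7 := mul_le_mul h5 h4 (Real.exp_pos _).le (by positivity)
    have h10 : Real.exp (-lq) * Real.exp (-((lam + δ) * (ρ + e * α) + δ * u + e * α)) ≤
        Real.exp (c + lam * c) * Real.exp (-(2 * δ * t)) * Real.exp (-lq - lam * ρ) := by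
      simp only [← Real.exp_add]
      exact Real.exp_le_exp.2 (by
        linarith [mul_le_mul_of_nonneg_left h3 l0, mul_le_mul_of_nonneg_left h d0.le])
    have h11 := mul_le_mul_of_nonneg_left (h10.trans (mul_le_mul_of_nonneg_left hy
      (by positivity))) (show 0 ≤ 2 / e * B by positivity)
    rw [if_pos h, add_mul]
    refine (add_le_add h7 (le_of_eq_of_le (by ring) h11)).trans_eq ?_
    ring
  · rw [if_neg h, if_neg fun k => h k.1, add_zero, zero_mul]
    positivity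

theorem low {lam δ C c t e ρ α lt lk le : ℝ} (d0 : 0 < δ) (l0 : 0 ≤ lam) (c0 : 0 ≤ c) (t0 : 0 ≤ t)
    (e0 : 0 < e) (e1 : e ≤ 1) (k0 : lk ≤ 0) (le0 : le ≤ 0) (hα : α ≤ c - le) (hρ : ρ ≤ C - lk)
    (h1 : lt ≤ (lam + 2 * δ) * lk + (lam + 2 * δ + 1) * e * le) :
    Real.exp lt ≤ Real.exp ((lam + 2 * δ) * (|C| + c) + δ + c) * Real.exp (δ * t) *
      Real.exp (-((lam + δ) * (ρ + e * α) +
        δ * Real.log (Real.exp (ρ + e * α) + Real.exp t) + e * α)) := by
  have h5 : e * α ≤ c - e * le := by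
    linarith [mul_le_mul_of_nonneg_left hα e0.le, mul_le_mul_of_nonneg_right e1 c0]
  have h6 : ρ + e * α ≤ |C| + c - lk - e * le := by linarith [le_abs_self C]
  have h7 : 0 ≤ |C| + c - lk - e * le := by
    linarith [abs_nonneg C, mul_nonpos_of_nonneg_of_nonpos e0.le le0]
  have h8 := mul_le_mul_of_nonneg_left (lse_hi (a := ρ + e * α) (t := t)
    (u := t + (|C| + c - lk - e * le)) (by linarith) (by linarith)) d0.le
  have h9 := mul_le_mul_of_nonneg_left h6 (show 0 ≤ lam + δ by linarith)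
  rw [← Real.exp_add, ← Real.exp_add]
  exact Real.exp_le_exp.2 (by linarith)

theorem ari {s K R A J V δ t e η : ℝ} (e0 : 0 < e)
    (t1 : s * K * 10 * (R * (A + J)) * Real.exp (-(δ * t)) ≤ η / 2)
    (b5 : e * (s * K * Real.exp (δ * t) * 10 * (V * A)) ≤ η / 2) :
    e * s * (K * Real.exp (δ * t)) * (10 * (R / e * Real.exp (-(2 * δ * t)) * J +
      (V + R / e * Real.exp (-(2 * δ * t))) * A)) ≤ η := by
  refine le_of_eq_of_le ?_ ((add_le_add t1 b5).trans_eq (add_halves η))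
  have k : Real.exp (-(2 * δ * t)) * Real.exp (δ * t) = Real.exp (-(δ * t)) := by
    rw [← Real.exp_add]
    exact congrArg _ (by ring)
  rw [← k]
  field_simp
  ring

theorem last {G F : ℂ} {y u V ε l l' : ℝ} (y0 : 0 ≤ y) (y1 : y ≤ 1) (y3 : 3 ≤ u → y = 1)
    (V0 : 0 ≤ V) (hw : u ≤ 3 → normSq G ≤ V) (e0 : 0 < ε) (h1 : l ≤ 0) (h2 : l ≤ l') :
    normSq (G - F) * Real.exp l ≤ 2 * V + 2 / ε * (ε * normSq (y * G - F) * Real.exp l') := by
  have h3 : normSq (G - y * G) ≤ V := by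
    by_cases h : u ≤ 3
    · rw [← one_sub_mul, ← ofReal_one, ← ofReal_sub, map_mul, normSq_ofReal]
      exact (mul_le_of_le_one_left (normSq_nonneg _) (by nlinarith)).trans (hw h)
    · rw [y3 (not_le.1 h).le, ofReal_one, one_mul, sub_self, map_zero]
      exact V0
  have h4 := mul_le_mul_of_nonneg_right (sq_sub G (y * G) F) (Real.exp_pos l).le
  have h5 := mul_le_mul_of_nonneg_left (Real.exp_le_exp.2 h2) (normSq_nonneg (y * G - F))
  have h6 := mul_le_mul h3 (Real.exp_le_one_iff.2 h1) (Real.exp_pos _).le V0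
  have h7 : 2 / ε * (ε * normSq (y * G - F) * Real.exp l') =
      2 * (normSq (y * G - F) * Real.exp l') := by
    field_simp
  rw [h7]
  linarith

theorem pick {ι : Type} [Fintype ι] (g c : ι → ℝ) (Z : Set ι) (h : ∀ i ∉ Z, 0 < g i)
    {s U δ ε₁ η : ℝ} (v : ℝ → ℝ) (d0 : 0 < δ) (e1 : 0 < ε₁) (η0 : 0 < η) :
    ∃ t e : ℝ, 0 ≤ t ∧ 0 < e ∧ e ≤ 1 ∧ e ≤ ε₁ ∧ e * s ≤ η ∧ e * s ≤ 1 ∧
      U * Real.exp (-(δ * t)) ≤ η / 2 ∧ e * v t ≤ η / 2 ∧ ∀ i ∉ Z, e * c i ≤ g i := by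
  have h1 : Tendsto (fun t : ℝ => U * Real.exp (-(δ * t))) atTop (𝓝 (U * 0)) :=
    (Real.tendsto_exp_neg_atTop_nhds_zero.comp (tendsto_id.const_mul_atTop d0)).const_mul _
  rw [mul_zero] at h1
  obtain ⟨t, t1, t0⟩ := ((h1.eventually (ge_mem_nhds (half_pos η0))).and
    (eventually_ge_atTop 0)).exists
  obtain ⟨e, ⟨⟨a1, a2⟩, a3⟩⟩ := (((small g c (· ∉ Z) h).and (small ![1, ε₁, η, 1, η / 2]
      ![1, 1, s, s, v t] (fun _ => True) fun i _ => by
        fin_cases i <;> simp [e1, η0])).and self_mem_nhdsWithin).exists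
  exact ⟨t, e, t0, a3, by simpa using a2 0 trivial, by simpa using a2 1 trivial,
    by simpa using a2 2 trivial, by simpa using a2 3 trivial, t1, by simpa using a2 4 trivial, a1⟩

theorem cmp {ι : Type} [Fintype ι] {κ θ : ι → ℝ} {m : ι → ℕ} {Z : Set ι} {N e : ℝ} (N0 : 0 < N)
    (e0 : 0 < e) (hZ : ∀ i ∈ Z, N * κ i + 1 ≤ θ i)
    (a1 : ∀ i ∉ Z, e * ((N + 1) * m i) ≤ θ i - N * κ i) (i : ι) :
    N * κ i + (N + 1) * e * m i ≤ θ i - (1 - e * ((N + 1) * (1 + ∑ i, (m i : ℝ)))) * ind Z i := by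
  by_cases hi : i ∈ Z
  · have h1 : (m i : ℝ) ≤ ∑ i, (m i : ℝ) :=
      Finset.single_le_sum (f := fun i => (m i : ℝ)) (fun i _ => Nat.cast_nonneg _)
        (Finset.mem_univ i)
    have h3 : 0 < (N + 1) * e := by positivity
    have h2 := mul_le_mul_of_nonneg_left h1 h3.le
    simp only [ind, hi, if_true, Int.cast_one]
    linarith [hZ i hi]
  · simp only [ind, hi, if_false, Int.cast_zero]
    linarith [a1 i hi]

end EST

open Pool.Agent.Lib.ZL.EST in
theorem bEST (hP : St_PW) (hM : St_MU) (hW : St_WGT) : St_EST := by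
  intro n M _ ι _ _ D X κ γ p q θ Z lam δ C A B ε₁ G d0 dl e1 B0 k0 hp hq hθ hZ hρ hG hb hD η η0
  obtain ⟨-, -, ladd, lsub, lsm, -, lmon, lS, -, hc, -⟩ := hP n M ι D
  obtain ⟨-, am, imon, ifin, -⟩ := hM n M ι D X
  obtain ⟨L, L0, hct, hW⟩ := hW
  obtain ⟨w1, w2, w3, -, w5, -, -, -, w9⟩ := hW n M ι D
  obtain ⟨c, hc'⟩ := X.αb
  have l0 : ∀ a : ι → ℝ, 0 ≤ a → ∀ x, lw D a x ≤ 0 := fun a ha x => by
    have h1 := lmon 0 a ha x
    have h2 := lsm 0 0 x
    rw [zero_smul, zero_mul] at h2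
    linarith
  have e0 : ∀ x, lw D (fun i => X.e i) x ≤ 0 := l0 _ fun i => Nat.cast_nonneg _
  obtain ⟨c1, c0, α1⟩ : ∃ c1 : ℝ, 0 ≤ c1 ∧
      ∀ x ∈ off D, -c1 ≤ X.α x ∧ X.α x ≤ c1 - lw D (fun i => X.e i) x :=
    ⟨|c|, abs_nonneg c, fun x hx => by
      obtain ⟨a1, a2⟩ := abs_le.1 ((hc' x hx).trans (le_abs_self c))
      exact ⟨by linarith [e0 x], by linarith⟩⟩
  have lam0 : 0 < lam := by linarith
  have N0 : 0 < lam + 2 * δ := by linarith
  obtain ⟨J, J0, hJ⟩ : ∃ J : ℝ, 0 ≤ J ∧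
      X.I (fun x => Real.exp ((1 + 2 * lam) * lw D γ x - 2 * lw D q x)) ≤ ENNReal.ofReal J := by
    have hJ := ifin ((1 + 2 * lam) • γ - (2 : ℝ) • q) fun i => by simpa using hq i
    simp only [lsub, lsm] at hJ
    exact ⟨_, ENNReal.toReal_nonneg, (ENNReal.ofReal_toReal hJ).ge⟩
  obtain ⟨s, hs⟩ : ∃ s, s = (lam + 2 * δ + 1) * (1 + ∑ i, (X.e i : ℝ)) := ⟨_, rfl⟩
  have se : 0 ≤ ∑ i, (X.e i : ℝ) := Finset.sum_nonneg fun i _ => Nat.cast_nonneg _
  have s0 : 0 < s := by rw [hs]; positivity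
  obtain ⟨t, e, t0, ep, b1, b2, b3, b4, t1, b5, a1⟩ := pick (fun i => θ i - (lam + 2 * δ) * κ i)
    (fun i => (lam + 2 * δ + 1) * X.e i) Z (fun i hi => sub_pos.2 (hθ i hi)) (s := s)
    (U := s * Real.exp ((lam + 2 * δ) * (|C| + c1) + δ + c1) * 10 *
      (2 * B * Real.exp (c1 + lam * c1) * (|A| + J)))
    (fun t => s * Real.exp ((lam + 2 * δ) * (|C| + c1) + δ + c1) * Real.exp (δ * t) * 10 *
      (L / δ * Real.exp c1 * (B * Real.exp (2 * lam * (t + 3 + c1))) * |A|)) d0 e1 η0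
  have ar := ari ep t1 b5
  obtain ⟨ρ, ⟨r1, r2, r3⟩, r4⟩ := hρ e ep b2
  replace r4 := r4.trans (ENNReal.ofReal_le_ofReal (le_abs_self A))
  have mY : AEMeasurable (fun x => Real.exp ((1 + 2 * lam) * lw D γ x - 2 * lw D q x)) X.μ :=
    am _ _ (((hc _ _ (lS γ)).const_smul (1 + 2 * lam)).sub ((hc _ _ (lS q)).const_smul (2 : ℝ))).rexp
  have mW : AEMeasurable (fun x => Real.exp (-((1 + 2 * lam) * lw D γ x) - 2 * lam * ρ x)) X.μ :=
    am _ _ ((((hc _ _ (lS γ)).const_smul (1 + 2 * lam)).neg.sub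
      ((hc _ _ r1).const_smul (2 * lam))).rexp)
  have ma : AEMeasurable (fun x => ρ x + e * X.α x - t) X.μ := (am _ _ (hc _ _ r2.1)).sub_const t
  have mG : AEMeasurable (fun x => normSq (G x)) X.μ :=
    am _ _ (continuous_normSq.comp_continuousOn (hc _ _ hG))
  have mq : AEMeasurable (fun x => Real.exp (-lw D q x)) X.μ := am _ _ (hc _ _ (lS q)).neg.rexp
  have pf := w3 (lam + δ) _ (by linarith) r2
  obtain ⟨g1, g2⟩ := w9 _ (fun _ => t) _ X.α G _ δ e d0 ep r2 (w1 t) pf X.αp hG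
    (fun x _ => by positivity) hD
  have pp := w2 _ _ (w2 _ _ pf (w3 δ _ d0.le (w5 _ (fun _ => t) r2 (w1 t)))) (w3 e _ ep.le X.αp)
  have mβ : AEMeasurable (fun x => (if 2 ≤ ρ x + e * X.α x - t ∧ ρ x + e * X.α x - t ≤ 3 then
      L / δ * normSq (G x) else 0) +
      if 2 ≤ ρ x + e * X.α x - t then 2 / e * (B * Real.exp (-lw D q x)) else 0) X.μ := by
    have k1 := am_ite (S := Icc 2 3) measurableSet_Icc ma (mG.const_mul (L / δ))
    have k2 := am_ite (S := Ici 2) measurableSet_Ici ma ((mq.const_mul B).const_mul (2 / e))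
    simp only [mem_Icc, mem_Ici] at k1 k2
    exact k1.add k2
  obtain ⟨F, f1, f2⟩ := X.hor pp g1 mβ (fun x _ => by
    have := normSq_nonneg (G x)
    positivity) g2
  have T0 : 0 ≤ B * Real.exp (2 * lam * (t + 3 + c1)) := by positivity
  have wn := fun x (hx : x ∈ off D) => win (t := t) (ρ := ρ x) lam0.le B0 c0 ep b1 (α1 x hx).1
    ((lsm _ _ x).symm.trans_le
      (lmon p ((1 + 2 * lam) • γ) (fun i => by simpa using hp i) x)) (hb x hx)
  have u1 := (imon _ _ fun x hx => up d0 dl L0 B0 T0 c0 t0 ep b1 (α1 x hx).1 (Real.exp_pos _).le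
    (Real.exp_pos _).le (wn x hx) (amgm (lq := lw D q x))).trans
      (i_two X mY (by positivity) (by positivity) J0 (abs_nonneg A) hJ r4)
  have lo := fun x (hx : x ∈ off D) => low (lt := lw D (fun i => θ i - (1 - e * s) * ind Z i) x)
    d0 lam0.le c0 t0 ep b1 (l0 κ k0 x) (e0 x) (α1 x hx).2 (r3 x hx) (by
      have h1 := lmon ((lam + 2 * δ) • κ + ((lam + 2 * δ + 1) * e) • fun i => (X.e i : ℝ))
        (fun i => θ i - (1 - e * s) * ind Z i) (fun i => hs ▸ cmp N0 ep hZ a1 i) x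
      rwa [ladd, lsm, lsm] at h1)
  have fin : X.I (fun x => e * s * normSq ((ct (ρ x + e * X.α x - t) : ℂ) * G x - F x) *
      Real.exp (lw D (fun i => θ i - (1 - e * s) * ind Z i) x)) ≤ ENNReal.ofReal η := by
    refine (imon _ (fun x => e * s * (Real.exp ((lam + 2 * δ) * (|C| + c1) + δ + c1) *
      Real.exp (δ * t)) * _) fun x hx => ?_).trans
      ((i_mul X (by positivity) _).trans_le ((mul_le_mul_right (f2.trans
        (mul_le_mul_right u1 _)) _).trans ?_))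
    · exact (mul_le_mul_of_nonneg_left (lo x hx) (mul_nonneg (by positivity)
        (normSq_nonneg _))).trans_eq (by ring)
    · rw [← ENNReal.ofReal_ofNat 10, ← ENNReal.ofReal_mul (by norm_num),
        ← ENNReal.ofReal_mul (by positivity)]
      exact ENNReal.ofReal_le_ofReal ar
  refine ⟨e * s, by positivity, b3, F, fun x => (ct (ρ x + e * X.α x - t) : ℂ) * G x, f1,
    fun x => ?_, ?_, fin⟩
  · obtain ⟨h1, h2, -⟩ := hct (ρ x + e * X.α x - t)
    rw [map_mul, normSq_ofReal]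
    exact mul_le_of_le_one_left (normSq_nonneg _) (mul_le_one₀ h2 h1 h2)
  · refine ne_top_of_le_ne_top ENNReal.ofReal_ne_top ((imon _ _ fun x hx => ?_).trans
      (i_two X mW (a := 2 * (B * Real.exp (2 * lam * (t + 3 + c1)))) (b := 2 / (e * s))
        (by positivity) (by positivity) (abs_nonneg A) η0.le r4 fin))
    have h1 : lw D θ x ≤ 0 := l0 θ (fun i => by
      have := mul_nonneg N0.le (k0 i)
      by_cases hi : i ∈ Z
      · exact (add_nonneg this zero_le_one).trans (hZ i hi)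
      · exact this.trans (hθ i hi).le) x
    have h2 := lmon (fun i => θ i - (1 - e * s) * ind Z i) θ (fun i => by
      refine sub_le_self _ (mul_nonneg (by linarith) ?_)
      simp only [ind]
      split_ifs <;> simp) x
    obtain ⟨k1, k2, -, k3⟩ := hct (ρ x + e * X.α x - t)
    rw [mul_assoc 2]
    exact last k1 k2 k3 (by positivity) (wn x hx) (by positivity) h1 h2

end Pool.Agent.Lib.ZL
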