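import Pool.Agent.Lib.ZL.Blue
import Pool.Agent.Lib.EX.B_FIN
import Pool.Agent.Lib.EX.B_LIN
import Pool.Agent.Lib.EX.B_MON
import Pool.Agent.Lib.EX.B_TRF
import Pool.Agent.Lib.EXS.B_GLU

/-! Project ZL: sections with bounded poles form a space of finite dimension. -/

open scoped Classical Topology ContDiff
open Set Complex Metric Filter

noncomputable section

namespace Pool.Agent.Lib.ZL

open Pool.Agent.Lib.SV (E)
open Pool.Agent.Lib.HS32 Pool.Agent.Lib.EX Pool.Agent.Lib.EXS

namespace FIN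

variable {n : ℕ} {M : Mf n} {ι : Type} [Fintype ι] [DecidableEq ι] (D : Ad M ι) (P : ι → ℤ)

/-- The space of the numerators. -/
def num : Submodule ℂ (Finset ι → D.A → E n → ℂ) where
  carrier := {σ | D.HSec P ∅ 0 σ}
  zero_mem' := ⟨fun I _ => LIN.sec_zero D I _, fun _ _ _ _ => differentiableAt_const _,
    fun _ _ => rfl, fun _ _ _ _ => rfl, fun _ _ _ _ _ => rfl⟩
  add_mem' := fun {σ σ'} h h' =>
    ⟨fun I hI => by simpa using LIN.sec_lin D 1 (h.sec I hI) (h'.sec I hI),
      fun I a z hz => (h.hol I a z hz).add (h'.hol I a z hz),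
      fun I hI => by simp [h.z1 I hI, h'.z1 I hI],
      fun I a z hz => by simp [h.z2 I a z hz, h'.z2 I a z hz],
      fun I a i hi hc => by simp [h.z3 I a i hi hc, h'.z3 I a i hi hc]⟩
  smul_mem' := fun t σ h =>
    ⟨fun I hI => by simpa using LIN.sec_lin D t (LIN.sec_zero D I _) (h.sec I hI),
      fun I a z hz => (h.hol I a z hz).const_smul t, fun I hI => by simp [h.z1 I hI],
      fun I a z hz => by simp [h.z2 I a z hz], fun I a i hi hc => by simp [h.z3 I a i hi hc]⟩

/-- From numerators to functions. -/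
def fn (ch : M.X → D.A) : (Finset ι → D.A → E n → ℂ) →ₗ[ℂ] (M.X → ℂ) where
  toFun σ x := (off D).indicator (fun x => xm (D.c (ch x)) (-P) (D.e (ch x) x)) x *
    σ ∅ (ch x) (D.e (ch x) x)
  map_add' σ σ' := funext fun x => by simp only [Pi.add_apply, mul_add]
  map_smul' t σ := funext fun x => by
    simp only [Pi.smul_apply, smul_eq_mul, RingHom.id_apply, mul_left_comm]

theorem hsec {F : M.X → ℂ} {s : D.A → E n → ℂ} (h : ∀ a, DifferentiableOn ℂ (s a) (B2 n))
    (e : ∀ a, ∀ z ∈ B2 n, Off (D.c a) z → s a z = xm (D.c a) P z * D.rd F a z) :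
    D.HSec P ∅ 0 fun I a => if I = ∅ then (B2 n).indicator (s a) else 0 := by
  have ev : ∀ a, ∀ z ∈ B2 n, (B2 n).indicator (s a) =ᶠ[𝓝 z] s a := fun a z hz => by
    filter_upwards [isOpen_ball.mem_nhds hz] with y hy using indicator_of_mem hy _
  have ho : ∀ a, ∀ z ∈ B2 n, HolN (s a) z := fun a z hz => by
    filter_upwards [isOpen_ball.mem_nhds hz] with y hy using
      (h a).differentiableAt (isOpen_ball.mem_nhds hy)
  refine ⟨fun I hI => ?_, fun I a z hz => ?_, fun I hI => ?_, fun I a z hz => ?_,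
    fun I a i hi _ => ?_⟩
  · obtain rfl : I = ∅ := by simpa using hI
    simp only [if_true]
    refine ⟨fun a z hz => (K32.hol_cd (ho a z hz)).congr_of_eventuallyEq (ev a z hz),
      fun a z _ => congrArg _ (funext fun j => by simp [prj, Nm]), fun a b x ha hb _ => ?_⟩
    rw [indicator_of_mem (GLU.mem_B2 ha), indicator_of_mem (GLU.mem_B2 hb), TRF.kap_val D ha hb]
    simp only [Finset.sdiff_self, Finset.prod_empty, mul_one]
    have c1 := (ho b _ (GLU.mem_B2 hb)).self_of_nhds.continuousAt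
    have c2 := ((TRF.hoT D ha hb (ho a _ (GLU.mem_B2 ha))).self_of_nhds.mul
      (TRF.um_hol D (-P) ha hb).self_of_nhds).continuousAt
    have k := tendsto_nhds_unique_of_frequently_eq c1 c2
      (((MON.off_freq (D.c b) _).and_eventually (TRF.near D ha hb)).mono fun z ⟨o, h1, h2, h3⟩ => by
        have o' := (TRF.off_iff D h1 h2).2 (h3.symm ▸ o)
        have q := TRF.xm_eq D h1 h2 (-P)
        have z1 := e a _ (GLU.mem_B2 h1) o'
        have z2 := e b _ (GLU.mem_B2 h2) (h3.symm ▸ o)
        rw [GLU.rd_e F h1] at z1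
        rw [GLU.rd_e F h2, h3] at z2
        rw [h3, MON.xm_neg, MON.xm_neg] at q
        have n1 := MON.xm_ne P o'
        have n2 := MON.xm_ne P o
        simp only [Pi.mul_apply, Ad.tr, Ad.rd]
        rw [z1, z2]
        field_simp at q
        linear_combination F ((D.e b).symm z) * q)
    simpa only [Pi.mul_apply, Ad.tr, Ad.rd, (D.e b).left_inv hb] using k
  · dsimp only
    split_ifs
    exacts [(ho a z hz).self_of_nhds.congr_of_eventuallyEq (ev a z hz), differentiableAt_const _]
  · have : I ≠ ∅ := by simpa using hI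
    simp only [if_neg this]
    rfl
  · split_ifs
    exacts [indicator_of_notMem hz _, rfl]
  · exact if_neg (Finset.ne_empty_of_mem hi)

end FIN

open FIN in
theorem bFIN (hUPB : St_UPB) : St_FIN := by
  intro n M _ ι _ _ D P
  obtain ⟨-, h2, -, -, -, h6, -⟩ := hUPB n M ι D P
  let V : Submodule ℂ (M.X → ℂ) :=
    { carrier := {F | Sp D P F}
      zero_mem' := ⟨fun d z _ => ⟨0, Eventually.of_forall fun _ => differentiableAt_const _,
        Eventually.of_forall fun _ _ => by simp [Ad.rd]⟩, fun _ _ => rfl⟩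
      add_mem' := fun {F G} hF hG => ⟨(h2 F G 0 hF.1 hG.1).1, fun x hx => by
        simp [hF.2 x hx, hG.2 x hx]⟩
      smul_mem' := fun t F hF => ⟨(h2 F F t hF.1 hF.1).2.2, fun x hx => by simp [hF.2 x hx]⟩ }
  choose ch hch using GLU.ex_ch D
  have : FiniteDimensional ℂ (num D P) := EX.bFIN n M ι D P ∅ 0 _ fun _ h => h
  refine ⟨V, Submodule.finiteDimensional_of_le (S₂ := (num D P).map (fn D P ch)) fun F hF => ?_,
    fun _ => Iff.rfl⟩
  have h := fun a => h6 (D.c a) (D.rd F a) (hF.1 a)
  refine ⟨_, hsec D P (fun a => (h a).1) fun a => (h a).2, funext fun x => ?_⟩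
  by_cases hx : x ∈ off D
  · have o := hx _ (hch x)
    have b := GLU.mem_B2 (hch x)
    simp only [fn, LinearMap.coe_mk, AddHom.coe_mk, indicator_of_mem hx, if_true,
      indicator_of_mem b, (h _).2 _ b o, GLU.rd_e F (hch x), MON.xm_neg]
    exact inv_mul_cancel_left₀ (MON.xm_ne P o) _
  · simp only [fn, LinearMap.coe_mk, AddHom.coe_mk, indicator_of_notMem hx, zero_mul, hF.2 x hx]

end Pool.Agent.Lib.ZL
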