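import Mathlib

/-! Project ZL: the inequality of Hölder. -/

open scoped Classical Topology ENNReal
open Set MeasureTheory Complex Filter

namespace Pool.Agent.Lib.ZL.K54

/-- The pointwise bound. -/
theorem hol_pt (h v ρ k s : ℝ) (hs : 0 < s) (hk : s + 2 ≤ k) (h0 : 0 ≤ h) :
    h ^ (1 / k) ≤ (h * min (Real.exp (-((k - 1) * v)))
      (Real.exp (-((k - 2 - s) * v + s * ρ)) / (Real.exp v + Real.exp ρ))) ^ (1 / k) *
      (Real.exp v ^ ((k - 2 - s) / k) * (Real.exp v + Real.exp ρ) ^ ((s + 1) / k)) := by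
  have k0 : 0 < k := by linarith
  have ev := Real.exp_pos v
  have er := Real.exp_pos ρ
  set T := Real.exp v + Real.exp ρ with hT
  have T0 : 0 < T := by positivity
  set t := Real.log T with ht
  have eT : Real.exp t = T := Real.exp_log T0
  have hv : v ≤ t := by rw [← Real.exp_le_exp, eT]; linarith
  have hr : ρ ≤ t := by rw [← Real.exp_le_exp, eT]; linarith
  set w := min (Real.exp (-((k - 1) * v))) (Real.exp (-((k - 2 - s) * v + s * ρ)) / T) with hw
  have h1 : Real.exp (-((k - 2 - s) * v + (s + 1) * t)) ≤ w := by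
    refine le_min (Real.exp_le_exp.2 (by nlinarith)) ?_
    rw [← eT, ← Real.exp_sub]
    exact Real.exp_le_exp.2 (by nlinarith)
  have h2 : (h * Real.exp (-((k - 2 - s) * v + (s + 1) * t))) ^ (1 / k) ≤ (h * w) ^ (1 / k) :=
    Real.rpow_le_rpow (by positivity) (mul_le_mul_of_nonneg_left h1 h0) (by positivity)
  refine le_trans (le_of_eq ?_) (mul_le_mul_of_nonneg_right h2 (by positivity))
  rw [Real.mul_rpow h0 (Real.exp_pos _).le, ← eT, ← Real.exp_mul, ← Real.exp_mul, ← Real.exp_mul,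
    mul_assoc, ← Real.exp_add, ← Real.exp_add]
  have : -((k - 2 - s) * v + (s + 1) * t) * (1 / k) + (v * ((k - 2 - s) / k) + t * ((s + 1) / k)) =
      0 := by field_simp; ring
  rw [this, Real.exp_zero, mul_one]

theorem hol_num (k s A J : ℝ) (hs : 0 < s) (hk : s + 2 ≤ k) (hA : 0 ≤ A) (hJ : 0 ≤ J) :
    A ^ (1 / k) * ((1 + 1 / k) ^ ((k - 2 - s) / k) * (1 + 1 / k + J) ^ ((s + 1) / k)) ≤
      (2 * A * Real.exp (1 + (s + 1) * J)) ^ (1 / k) := by
  have k0 : 0 < k := by linarith
  have k1 : 0 < 1 / k := by positivity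
  have h1 : 1 + 1 / k ≤ Real.exp (1 / k) := by linarith [Real.add_one_le_exp (1 / k)]
  have h2 : 1 + 1 / k + J ≤ Real.exp (1 / k + J) := by linarith [Real.add_one_le_exp (1 / k + J)]
  have h3 := Real.rpow_le_rpow (by positivity) h1
    (div_nonneg (by linarith) k0.le : 0 ≤ (k - 2 - s) / k)
  have h4 := Real.rpow_le_rpow (by positivity) h2 (by positivity : 0 ≤ (s + 1) / k)
  have h5 := mul_le_mul h3 h4 (by positivity) (by positivity)
  rw [← Real.exp_mul, ← Real.exp_mul, ← Real.exp_add] at h5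
  have h6 : 1 / k * ((k - 2 - s) / k) + (1 / k + J) * ((s + 1) / k) ≤
      (1 + (s + 1) * J) * (1 / k) := by
    have e : (1 + (s + 1) * J) * (1 / k) - (1 / k * ((k - 2 - s) / k) +
        (1 / k + J) * ((s + 1) / k)) = 1 / k * (1 / k) := by field_simp; ring
    nlinarith [mul_pos k1 k1]
  have h7 := h5.trans (Real.exp_le_exp.2 h6)
  rw [Real.exp_mul] at h7
  refine (mul_le_mul_of_nonneg_left h7 (by positivity)).trans ?_
  rw [← Real.mul_rpow hA (Real.exp_pos _).le]
  refine Real.rpow_le_rpow (by positivity) ?_ k1.le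
  nlinarith [mul_nonneg hA (Real.exp_pos (1 + (s + 1) * J)).le]

theorem hol (Y : Type) [MeasurableSpace Y] (μ : Measure Y) (h v ρ : Y → ℝ)
    (k s A J : ℝ) (hs : 0 < s) (hk : s + 2 ≤ k) (hA : 0 ≤ A) (hJ : 0 ≤ J) (h0 : ∀ x, 0 ≤ h x)
    (mh : AEMeasurable h μ) (mv : AEMeasurable v μ) (mr : AEMeasurable ρ μ)
    (i1 : ∫⁻ x, ENNReal.ofReal (Real.exp (v x)) ∂μ ≤ ENNReal.ofReal (1 + 1 / k))
    (i2 : ∫⁻ x, ENNReal.ofReal (Real.exp (ρ x)) ∂μ ≤ ENNReal.ofReal J)
    (i3 : ∫⁻ x, ENNReal.ofReal (h x * min (Real.exp (-((k - 1) * v x)))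
      (Real.exp (-((k - 2 - s) * v x + s * ρ x)) / (Real.exp (v x) + Real.exp (ρ x)))) ∂μ ≤
        ENNReal.ofReal A) :
    ∫⁻ x, ENNReal.ofReal (h x ^ (1 / k)) ∂μ ≤
      ENNReal.ofReal ((2 * A * Real.exp (1 + (s + 1) * J)) ^ (1 / k)) := by
  have k0 : 0 < k := by linarith
  have p0 : 0 ≤ 1 / k := by positivity
  have p1 : 0 ≤ (k - 2 - s) / k := div_nonneg (by linarith) k0.le
  have p2 : 0 ≤ (s + 1) / k := by positivity
  have ev : AEMeasurable (fun x => Real.exp (v x)) μ := Real.measurable_exp.comp_aemeasurable mv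
  have er : AEMeasurable (fun x => Real.exp (ρ x)) μ := Real.measurable_exp.comp_aemeasurable mr
  have m0 : AEMeasurable (fun x => h x * min (Real.exp (-((k - 1) * v x)))
      (Real.exp (-((k - 2 - s) * v x + s * ρ x)) / (Real.exp (v x) + Real.exp (ρ x)))) μ :=
    mh.mul ((Real.measurable_exp.comp_aemeasurable (mv.const_mul _).neg).min
      ((Real.measurable_exp.comp_aemeasurable ((mv.const_mul _).add (mr.const_mul _)).neg).div
        (ev.add er)))
  have H := ENNReal.lintegral_prod_norm_pow_le (μ := μ) (Finset.univ : Finset (Fin 3))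
    (f := ![fun x => ENNReal.ofReal (h x * min (Real.exp (-((k - 1) * v x)))
      (Real.exp (-((k - 2 - s) * v x + s * ρ x)) / (Real.exp (v x) + Real.exp (ρ x)))),
      fun x => ENNReal.ofReal (Real.exp (v x)),
      fun x => ENNReal.ofReal (Real.exp (v x) + Real.exp (ρ x))])
    (fun i _ => by
      fin_cases i
      · exact m0.ennreal_ofReal
      · exact ev.ennreal_ofReal
      · exact (ev.add er).ennreal_ofReal)
    (p := ![1 / k, (k - 2 - s) / k, (s + 1) / k])
    (by simp only [Fin.sum_univ_three, Matrix.cons_val_zero, Matrix.cons_val_one,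
          Matrix.cons_val]; field_simp; ring)
    (fun i _ => by
      fin_cases i
      · exact p0
      · exact p1
      · exact p2)
  simp only [Fin.prod_univ_three, Matrix.cons_val_zero, Matrix.cons_val_one, Matrix.cons_val] at H
  have i4 : ∫⁻ x, ENNReal.ofReal (Real.exp (v x) + Real.exp (ρ x)) ∂μ ≤
      ENNReal.ofReal (1 + 1 / k + J) := by
    simp only [ENNReal.ofReal_add (Real.exp_pos _).le (Real.exp_pos _).le]
    rw [lintegral_add_left' ev.ennreal_ofReal, ENNReal.ofReal_add (by positivity) hJ]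
    exact add_le_add i1 i2
  refine le_trans (lintegral_mono fun x => ?_) (H.trans ?_)
  · have w0 : 0 ≤ h x * min (Real.exp (-((k - 1) * v x)))
        (Real.exp (-((k - 2 - s) * v x + s * ρ x)) / (Real.exp (v x) + Real.exp (ρ x))) :=
      mul_nonneg (h0 x) (le_min (Real.exp_pos _).le (by positivity))
    rw [ENNReal.ofReal_rpow_of_nonneg w0 p0, ENNReal.ofReal_rpow_of_nonneg (Real.exp_pos _).le p1,
      ENNReal.ofReal_rpow_of_nonneg (by positivity) p2, mul_assoc,
      ← ENNReal.ofReal_mul (by positivity), ← ENNReal.ofReal_mul (Real.rpow_nonneg w0 _)]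
    exact ENNReal.ofReal_le_ofReal (hol_pt _ _ _ _ _ hs hk (h0 x))
  · refine (mul_le_mul' (mul_le_mul' (ENNReal.rpow_le_rpow i3 p0) (ENNReal.rpow_le_rpow i1 p1))
      (ENNReal.rpow_le_rpow i4 p2)).trans ?_
    rw [ENNReal.ofReal_rpow_of_nonneg hA p0, ENNReal.ofReal_rpow_of_nonneg (by positivity) p1,
      ENNReal.ofReal_rpow_of_nonneg (by positivity) p2, mul_assoc,
      ← ENNReal.ofReal_mul (by positivity), ← ENNReal.ofReal_mul (by positivity)]
    exact ENNReal.ofReal_le_ofReal (hol_num k s A J hs hk hA hJ)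

end Pool.Agent.Lib.ZL.K54
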