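import Pool.Agent.Lib.ZL.Blue
import Pool.Agent.Lib.ZL.K54Hol

/-! Row HOL of the ZL blueprint. -/

namespace Pool.Agent.Lib.ZL

theorem bHOL : St_HOL := K54.hol

end Pool.Agent.Lib.ZL
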