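import Mathlib

/-! Project ZL: the iteration of the splitting. -/

open scoped Classical Topology ENNReal
open Set MeasureTheory Complex Filter

namespace Pool.Agent.Lib.ZL.K54

theorem step (a b : ℂ) (t : ℝ) (ht : 0 < t) :
    normSq (a + b) ≤ (1 + t) * normSq a + (1 + 1 / t) * normSq b := by
  have h : 0 ≤ normSq ((t : ℂ) * a - b) / t := div_nonneg (normSq_nonneg _) ht.le
  have e : (1 + t) * normSq a + (1 + 1 / t) * normSq b - normSq (a + b) =
      normSq ((t : ℂ) * a - b) / t := by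
    simp only [normSq_apply, add_re, add_im, sub_re, sub_im, mul_re, mul_im, ofReal_re, ofReal_im]
    field_simp
    ring
  linarith

/-- The pointwise bound. -/
theorem pt (u f : ℕ → ℂ) (h : ∀ k, u (k + 1) = 2 * f k) (N : ℕ) :
    normSq (u 0) ≤ 2 * ∑ k ∈ Finset.range N, (1 / 2 : ℝ) ^ k * normSq (u k - f k) +
      (1 / 2 : ℝ) ^ N * normSq (u N) := by
  induction N with
  | zero => simp
  | succ N ih =>
    rw [Finset.sum_range_succ]
    have h1 := step (u N - f N) (f N) 1 one_pos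
    have h2 : normSq (u (N + 1)) = 4 * normSq (f N) := by
      rw [h N, map_mul]; norm_num [normSq_apply]
    have h3 : (0 : ℝ) < (1 / 2) ^ N := by positivity
    rw [sub_add_cancel] at h1
    have h4 := mul_le_mul_of_nonneg_left h1 h3.le
    rw [h2, pow_succ]
    nlinarith

theorem itr (Y : Type) [MeasurableSpace Y] (μ : Measure Y) (S : Set (Y → ℂ))
    (W : Y → ℝ) (A : ℝ) (hW : AEMeasurable W μ) (W0 : ∀ x, 0 ≤ W x)
    (hS : ∀ U ∈ S, AEMeasurable U μ) (hB : ∀ᵐ x ∂μ, ∃ B, ∀ U ∈ S, ‖U x‖ ≤ B)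
    (h : ∀ U ∈ S, ∃ F : Y → ℂ, (2 : ℂ) • F ∈ S ∧
      ∫⁻ x, ENNReal.ofReal (normSq (U x - F x) * W x) ∂μ ≤ ENNReal.ofReal A) :
    ∀ U ∈ S, ∫⁻ x, ENNReal.ofReal (normSq (U x) * W x) ∂μ ≤ ENNReal.ofReal (4 * A) := by
  intro U hU
  choose F hF hI using h
  let u : ℕ → S := fun k => Nat.rec ⟨U, hU⟩ (fun _ p => ⟨(2 : ℂ) • F p.1 p.2, hF p.1 p.2⟩) k
  let f : ℕ → Y → ℂ := fun k => F (u k).1 (u k).2
  have hu : ∀ k x, (u (k + 1)).1 x = 2 * f k x := fun k x => rfl
  have hf : ∀ k, AEMeasurable (f k) μ := fun k => by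
    have h1 := (hS _ (u (k + 1)).2).const_mul (1 / 2 : ℂ)
    refine h1.congr (Eventually.of_forall fun x => ?_)
    simp only [hu]; ring
  let g : ℕ → Y → ℝ≥0∞ := fun k x =>
    ENNReal.ofReal (2 * (1 / 2 : ℝ) ^ k) * ENNReal.ofReal (normSq ((u k).1 x - f k x) * W x)
  have hg : ∀ k, AEMeasurable (g k) μ := fun k =>
    ((((continuous_normSq.measurable.comp_aemeasurable ((hS _ (u k).2).sub (hf k)))).mul
      hW).ennreal_ofReal).const_mul _
  have h1 : ∀ᵐ x ∂μ, ENNReal.ofReal (normSq (U x) * W x) ≤ ∑' k, g k x := by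
    filter_upwards [hB] with x ⟨B, hx⟩
    have h2 : Tendsto (fun N : ℕ => ∑' k, g k x + ENNReal.ofReal ((1 / 2 : ℝ) ^ N * (B ^ 2 * W x)))
        atTop (𝓝 (∑' k, g k x + ENNReal.ofReal (0 * (B ^ 2 * W x)))) :=
      tendsto_const_nhds.add (ENNReal.tendsto_ofReal
        ((tendsto_pow_atTop_nhds_zero_of_lt_one (by norm_num) (by norm_num)).mul_const _))
    rw [zero_mul, ENNReal.ofReal_zero, add_zero] at h2
    refine ge_of_tendsto' h2 fun N => ?_
    have h3 := pt (fun k => (u k).1 x) (fun k => f k x) (fun k => hu k x) N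
    have h4 : normSq ((u N).1 x) ≤ B ^ 2 := by
      rw [normSq_eq_norm_sq]
      exact pow_le_pow_left₀ (norm_nonneg _) (hx _ (u N).2) 2
    have h5 : normSq (U x) * W x ≤ ∑ k ∈ Finset.range N, 2 * (1 / 2 : ℝ) ^ k *
        (normSq ((u k).1 x - f k x) * W x) + (1 / 2 : ℝ) ^ N * (B ^ 2 * W x) := by
      have h6 := mul_le_mul_of_nonneg_right (h3.trans (add_le_add le_rfl
        (mul_le_mul_of_nonneg_left h4 (by positivity : (0 : ℝ) ≤ (1 / 2) ^ N)))) (W0 x)
      refine le_trans h6 (le_of_eq ?_)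
      rw [add_mul, Finset.mul_sum, Finset.sum_mul]
      congr 1
      · exact Finset.sum_congr rfl fun k _ => by ring
      · ring
    have h7 : ∀ k, 0 ≤ 2 * (1 / 2 : ℝ) ^ k * (normSq ((u k).1 x - f k x) * W x) := fun k =>
      mul_nonneg (by positivity) (mul_nonneg (normSq_nonneg _) (W0 x))
    refine (ENNReal.ofReal_le_ofReal h5).trans (ENNReal.ofReal_add_le.trans (add_le_add ?_ le_rfl))
    rw [ENNReal.ofReal_sum_of_nonneg fun k _ => h7 k]
    refine le_trans (le_of_eq ?_) (ENNReal.sum_le_tsum (Finset.range N))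
    exact Finset.sum_congr rfl fun k _ => ENNReal.ofReal_mul (by positivity)
  refine (lintegral_mono_ae h1).trans ?_
  rw [lintegral_tsum hg]
  have h8 : ∀ k, ∫⁻ x, g k x ∂μ ≤ ENNReal.ofReal (2 * (1 / 2 : ℝ) ^ k) * ENNReal.ofReal A :=
    fun k => by
      simp only [g]
      rw [lintegral_const_mul' _ _ ENNReal.ofReal_ne_top]
      exact mul_le_mul_right (hI _ (u k).2) _
  refine (ENNReal.tsum_le_tsum h8).trans (le_of_eq ?_)
  rw [ENNReal.tsum_mul_right, ← ENNReal.ofReal_tsum_of_nonneg (fun k => by positivity)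
    (summable_geometric_two.mul_left 2), tsum_mul_left, tsum_geometric_two,
    ← ENNReal.ofReal_mul (by norm_num)]
  norm_num

end Pool.Agent.Lib.ZL.K54
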