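import Pool.Agent.Lib.ZL.Blue

/-! Project ZL: square integrable functions on the manifold have bounded poles. -/

open scoped Classical Topology ContDiff ENNReal
open Set MeasureTheory Complex Metric Filter

noncomputable section

namespace Pool.Agent.Lib.ZL

open Pool.Agent.Lib.SV (E)
open Pool.Agent.Lib.HS32 Pool.Agent.Lib.EX Pool.Agent.Lib.EXS

theorem bPOG (hPOL : St_POL) (hMU : St_MU) : St_POG := by
  intro n M _ ι _ _ D X Q F hF hi d z hz
  have hz' : ‖z‖ < 2 := mem_ball_zero_iff.1 hz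
  obtain ⟨r, r1, r2⟩ := exists_between hz'
  obtain ⟨C, hC⟩ := (hMU n M ι D X).2.2.2.2 r r2 (∑ i, |(Q i : ℝ)|)
  have h1 := hC (fun i => Q i) (fun x => normSq (F x)) d fun i =>
    Finset.single_le_sum (f := fun i => |(Q i : ℝ)|) (fun _ _ => abs_nonneg _) (Finset.mem_univ i)
  refine hPOL n ι (D.c d) Q (D.rd F d) z (closedBall 0 r) (D.inj d)
    (mem_of_superset (isOpen_ball.mem_nhds (mem_ball_zero_iff.2 r1)) ball_subset_closedBall)
    (fun y hy ho => hF d y (mem_ball_zero_iff.2 ((mem_closedBall_zero_iff.1 hy).trans_lt r2)) ho)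
    (ne_top_of_le_ne_top (ENNReal.mul_ne_top ENNReal.ofReal_ne_top hi) h1)

end Pool.Agent.Lib.ZL
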