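import Pool.Agent.Lib.ZL.Blue
import Pool.Agent.Lib.EXS.RV2
import Pool.Agent.Lib.SV.Sub85

/-! Project ZL, row RES. -/

open scoped Classical Topology ContDiff ENNReal Real
open Set MeasureTheory Complex Metric Filter

noncomputable section

namespace Pool.Agent.Lib.ZL

open Pool.Agent.Lib.SV (E)
open Pool.Agent.Lib.HS32 Pool.Agent.Lib.EX Pool.Agent.Lib.EXS

namespace RES

variable {n : ℕ}

/-- The sub-mean value inequality with a rotation invariant weight. -/
theorem sub_w {f : E n → ℂ} {z : E n} {r : ℝ} (hf : DifferentiableOn ℂ f (ball z r))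
    {W : E n → ℝ≥0∞} (hW : Measurable W) (hi : ∀ u : ℂ, ‖u‖ = 1 → ∀ x, W (z + u • (x - z)) = W x) :
    ENNReal.ofReal (‖f z‖ ^ (2 : ℝ)) * ∫⁻ w in ball z r, W w ≤
      ∫⁻ w in ball z r, ENNReal.ofReal (‖f w‖ ^ (2 : ℝ)) * W w := by
  set G : E n → ℝ≥0∞ := (ball z r).indicator fun w => ENNReal.ofReal (‖f w‖ ^ (2 : ℝ)) with hG
  have hGm : Measurable G := by
    rw [hG, ← Set.piecewise_eq_indicator]
    refine ContinuousOn.measurable_piecewise ?_ continuousOn_const measurableSet_ball
    exact ENNReal.continuous_ofReal.comp_continuousOn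
      (hf.continuousOn.norm.rpow_const fun _ _ => Or.inr two_pos.le)
  set T : E n → ℝ → E n := fun x θ => z + circleMap 0 1 θ • (x - z) with hT
  have hTc : Measurable fun p : E n × ℝ => T p.1 p.2 := by
    refine Continuous.measurable ?_
    simp only [hT]
    have : Continuous fun p : E n × ℝ => circleMap 0 1 p.2 :=
      (continuous_circleMap 0 1).comp continuous_snd
    fun_prop
  have hTm : Measurable (Function.uncurry fun x θ => G (T x θ) * W (T x θ)) :=
    (hGm.mul hW).comp hTc
  have h1 : ∀ x ∈ ball z r, ENNReal.ofReal (‖f z‖ ^ (2 : ℝ)) * ENNReal.ofReal (2 * π) * W x ≤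
      ∫⁻ θ in Ioc 0 (2 * π), G (T x θ) * W (T x θ) := by
    intro x hx
    set L : ℂ → E n := fun t => z + t • (x - z) with hL
    have hLd : Differentiable ℂ L := by fun_prop
    have hmem : ∀ t ∈ closedBall (0 : ℂ) 1, L t ∈ ball z r := by
      intro t ht
      rw [mem_closedBall_zero_iff] at ht
      rw [mem_ball, dist_eq_norm] at hx ⊢
      simp only [hL, add_sub_cancel_left, norm_smul]
      exact (mul_le_of_le_one_left (norm_nonneg _) ht).trans_lt hx
    have ha : AnalyticOnNhd ℂ (f ∘ L) (closedBall 0 1) :=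
      ((hf.comp hLd.differentiableOn (mapsTo_preimage L _)).analyticOnNhd
        (isOpen_ball.preimage hLd.continuous)).mono hmem
    have h2 := SV.H85.rpow_le_lintegral_circle one_pos two_pos ha
    have h3 : (f ∘ L) 0 = f z := by simp [hL]
    rw [h3] at h2
    have h5 : ∀ θ, W (T x θ) = W x := fun θ => hi _ (by simp) x
    simp only [h5]
    have h6 : Measurable fun θ => G (T x θ) := by
      refine hGm.comp (Continuous.measurable ?_)
      simp only [hT]
      have := continuous_circleMap 0 1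
      fun_prop
    rw [lintegral_mul_const _ h6]
    refine mul_le_mul_left (h2.trans_eq (lintegral_congr fun θ => ?_)) _
    have h4 : T x θ ∈ ball z r := hmem _ (circleMap_mem_closedBall 0 zero_le_one θ)
    rw [hG, indicator_of_mem h4]
    rfl
  have h2 : (ENNReal.ofReal (‖f z‖ ^ (2 : ℝ)) * ∫⁻ w in ball z r, W w) * ENNReal.ofReal (2 * π) ≤
      (∫⁻ w, G w * W w) * ENNReal.ofReal (2 * π) := by
    calc _ = ∫⁻ x in ball z r, ENNReal.ofReal (‖f z‖ ^ (2 : ℝ)) * ENNReal.ofReal (2 * π) * W x := by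
          rw [lintegral_const_mul _ hW]
          ring
      _ ≤ ∫⁻ x in ball z r, (∫⁻ θ in Ioc 0 (2 * π), G (T x θ) * W (T x θ)) :=
          setLIntegral_mono' measurableSet_ball h1
      _ ≤ ∫⁻ x, (∫⁻ θ in Ioc 0 (2 * π), G (T x θ) * W (T x θ)) := setLIntegral_le_lintegral _ _
      _ = ∫⁻ θ in Ioc 0 (2 * π), ∫⁻ x, G (T x θ) * W (T x θ) :=
          lintegral_lintegral_swap hTm.aemeasurable
      _ = ∫⁻ _ in Ioc 0 (2 * π), ∫⁻ x, G x * W x := by
          refine lintegral_congr fun θ => ?_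
          exact (SV.H85.measurePreserving_rot volume (by simp) z).lintegral_comp (hGm.mul hW)
      _ = (∫⁻ w, G w * W w) * ENNReal.ofReal (2 * π) := by
          rw [setLIntegral_const, Real.volume_Ioc, sub_zero]
  have h3 := (ENNReal.mul_le_mul_iff_left (by simpa using Real.pi_pos) ENNReal.ofReal_ne_top).1 h2
  refine h3.trans_eq ?_
  rw [← lintegral_indicator measurableSet_ball]
  refine lintegral_congr fun w => ?_
  by_cases hw : w ∈ ball z r <;> simp [hG, hw]

theorem one {r ε : ℝ} (hr : 0 < r) (h0 : 0 < ε) :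
    ∫ ζ : ℂ, (ball (0 : ℂ) r).indicator (fun ζ => ‖ζ‖ ^ (2 * ε - 2)) ζ = π * r ^ (2 * ε) / ε := by
  have e : (ball (0 : ℂ) r).indicator (fun ζ => ‖ζ‖ ^ (2 * ε - 2)) =
      fun ζ => (Iio r).indicator (fun t : ℝ => t ^ (2 * ε - 2)) ‖ζ‖ := funext fun ζ => by
    by_cases h : ‖ζ‖ < r <;> simp [h]
  rw [e, integral_fun_norm_addHaar volume ((Iio r).indicator fun t : ℝ => t ^ (2 * ε - 2))]
  have e2 : ∫ y in Ioi (0 : ℝ), y ^ (Module.finrank ℝ ℂ - 1) •
      (Iio r).indicator (fun t : ℝ => t ^ (2 * ε - 2)) y = ∫ y in (0 : ℝ)..r, y ^ (2 * ε - 1) := by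
    rw [intervalIntegral.integral_of_le hr.le, integral_Ioc_eq_integral_Ioo,
      ← Ioi_inter_Iio, ← setIntegral_indicator measurableSet_Iio]
    refine setIntegral_congr_fun measurableSet_Ioi fun y hy => ?_
    by_cases h : y < r
    · simp only [finrank_real_complex, indicator_of_mem (mem_Iio.2 h), smul_eq_mul]
      rw [show 2 * ε - 1 = 1 + (2 * ε - 2) by ring, Real.rpow_add hy]
      simp
    · simp [h]
  rw [e2, integral_rpow (Or.inl (by linarith)), Real.zero_rpow (by linarith)]
  simp only [finrank_real_complex, Measure.real, volume_ball, nsmul_eq_mul, smul_eq_mul]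
  simp
  field_simp

/-- The mass of the weight. -/
theorem mass (z : E n) {j : Fin n} (hj : z j = 0) {r : ℝ} (hr : 0 < r) : ∃ c > 0, ∀ ε > 0, ε ≤ 1 →
    ENNReal.ofReal c ≤ ∫⁻ w in ball z r, ENNReal.ofReal (ε * ‖w j‖ ^ (2 * ε - 2)) := by
  refine ⟨π * min 1 (r ^ 2) * ∏ l ∈ Finset.univ.erase j, volume.real (ball (z l) r), ?_,
    fun ε h0 h1 => ?_⟩
  · have := Real.pi_pos
    refine mul_pos (by positivity) (Finset.prod_pos fun l _ => ?_)
    exact ENNReal.toReal_pos (measure_ball_pos _ _ hr).ne' measure_ball_lt_top.ne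
  set f : Fin n → ℂ → ℝ := fun l => (ball (z l) r).indicator fun ζ =>
    if l = j then ε * ‖ζ‖ ^ (2 * ε - 2) else 1 with hf
  have e1 : ∫⁻ w in ball z r, ENNReal.ofReal (ε * ‖w j‖ ^ (2 * ε - 2)) =
      ∫⁻ w : E n, ENNReal.ofReal (∏ l, f l (w l)) := by
    rw [← lintegral_indicator measurableSet_ball]
    refine lintegral_congr fun w => ?_
    by_cases hw : w ∈ ball z r
    · have h2 : ∀ l, w l ∈ ball (z l) r := fun l => (dist_le_pi_dist w z l).trans_lt hw
      simp only [hf, indicator_of_mem hw, indicator_of_mem (h2 _)]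
      simp
    · obtain ⟨l, hl⟩ : ∃ l, w l ∉ ball (z l) r := by
        by_contra h
        push Not at h
        exact hw ((dist_pi_lt_iff hr).2 h)
      rw [indicator_of_notMem hw, Finset.prod_eq_zero (Finset.mem_univ l) (by simp [hf, hl])]
      simp
  have p1 : ∀ l ζ, 0 ≤ f l ζ := fun l ζ => indicator_nonneg (fun ζ _ => by
    split_ifs <;> positivity) ζ
  have i1 : ∀ l, Integrable (f l) := fun l => by
    refine (integrable_indicator_iff measurableSet_ball).2 ?_
    by_cases h : l = j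
    · rw [funext fun ζ => if_pos h, h, hj]
      exact (EXA.MINT.int_one (by linarith) r).const_mul ε
    · rw [funext fun ζ => if_neg h]
      exact continuousOn_const.integrableOn_compact (isCompact_closedBall (z l) r) |>.mono_set
        ball_subset_closedBall
  have i2 : Integrable fun w : E n => ∏ l, f l (w l) := Integrable.fintype_prod i1
  rw [e1, ← ofReal_integral_eq_lintegral_ofReal i2
    (ae_of_all _ fun w => Finset.prod_nonneg fun l _ => p1 l _),
    integral_fintype_prod_volume_eq_prod, ← Finset.mul_prod_erase _ _ (Finset.mem_univ j)]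
  refine ENNReal.ofReal_le_ofReal (mul_le_mul ?_ (le_of_eq (Finset.prod_congr rfl fun l hl => ?_))
    (Finset.prod_nonneg fun l _ => measureReal_nonneg) (integral_nonneg (p1 j)))
  · have e2 : f j = fun ζ => ε * (ball (0 : ℂ) r).indicator (fun ζ => ‖ζ‖ ^ (2 * ε - 2)) ζ := by
      funext ζ
      by_cases h : ζ ∈ ball (0 : ℂ) r <;> simp [hf, hj, h]
    rw [e2, integral_const_mul, one hr h0, mul_div_cancel₀ _ h0.ne']
    refine mul_le_mul_of_nonneg_left ?_ Real.pi_pos.le
    rcases le_total 1 r with h | h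
    · exact (min_le_left _ _).trans (Real.one_le_rpow h (by linarith))
    · refine (min_le_right _ _).trans ?_
      rw [← Real.rpow_two]
      exact Real.rpow_le_rpow_of_exponent_ge hr h (by linarith)
  · simp only [hf, if_neg (Finset.ne_of_mem_erase hl)]
    rw [integral_indicator_const _ measurableSet_ball, smul_eq_mul, mul_one]

end RES

theorem bRES : St_RES := by
  intro n ι _ _ c Q Z i z r hc hi h0 h1 hr
  obtain ⟨j, hj, ej⟩ := (MON.xi_cases c i).resolve_left fun h => by simp [h.2] at h0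
  have zj : z j = 0 := by rwa [ej] at h0
  obtain ⟨a, a0, ha⟩ := RES.mass z zj hr
  set R : ℝ := (‖z‖ + r + 1) ^ 2 with hR
  have R1 : 1 ≤ R := one_le_pow₀ (by linarith [norm_nonneg z])
  set b : ℝ := R⁻¹ ^ Fintype.card ι with hb
  have b0 : 0 < b := by positivity
  refine ⟨(b * a)⁻¹, fun g s ε η e0 e1 η0 hs hg hI => ?_⟩
  have k := RES.sub_w hs (W := fun w => ENNReal.ofReal (ε * ‖w j‖ ^ (2 * ε - 2)))
    (by fun_prop) fun u hu x => by simp [zj, hu]
  have k2 : ENNReal.ofReal b * ∫⁻ w in ball z r, ENNReal.ofReal (‖s w‖ ^ (2 : ℝ)) *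
      ENNReal.ofReal (ε * ‖w j‖ ^ (2 * ε - 2)) ≤ ENNReal.ofReal η := by
    rw [← lintegral_const_mul' _ _ ENNReal.ofReal_ne_top]
    refine le_trans (lintegral_mono_ae ?_) hI
    filter_upwards [ae_restrict_mem measurableSet_ball,
      ae_restrict_of_ae (bMON n ι c).2.2.1] with y hy ho
    rw [← ENNReal.ofReal_mul (by positivity), ← ENNReal.ofReal_mul b0.le]
    refine ENNReal.ofReal_le_ofReal ?_
    have e2 : xr c (fun l => Q l - (1 - ε) * ind Z l) y =
        normSq (xm c Q y) * xr c (fun l => -((1 - ε) * ind Z l)) y := by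
      rw [xm, xr, xr, map_prod, ← Finset.prod_mul_distrib]
      refine Finset.prod_congr rfl fun l _ => ?_
      rw [sub_eq_add_neg, Real.rpow_add (normSq_pos.2 (ho l)), map_zpow₀, Real.rpow_intCast]
    have e3 : b * ‖y j‖ ^ (2 * ε - 2) ≤ xr c (fun l => -((1 - ε) * ind Z l)) y := by
      have e4 : ‖y j‖ ^ (2 * ε - 2) = normSq (xi c i y) ^ (-((1 - ε) * ind Z i)) := by
        rw [ej, normSq_eq_norm_sq, ← Real.rpow_two, ← Real.rpow_mul (norm_nonneg _)]
        simp only [ind, if_pos hi]
        congr 1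
        push_cast
        ring
      rw [xr, ← Finset.mul_prod_erase _ _ (Finset.mem_univ i), e4, mul_comm]
      refine mul_le_mul_of_nonneg_left ?_ (Real.rpow_nonneg (normSq_nonneg _) _)
      refine le_trans (pow_le_pow_of_le_one (by positivity) (inv_le_one_of_one_le₀ R1)
        (Finset.card_le_univ (Finset.univ.erase i))) ?_
      rw [← Finset.prod_const]
      refine Finset.prod_le_prod (fun _ _ => by positivity) fun l _ => ?_
      have h2 : normSq (xi c l y) ≤ R := by
        rcases MON.xi_cases c l with ⟨-, e⟩ | ⟨m, -, e⟩ <;> rw [e]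
        · simpa using R1
        · rw [normSq_eq_norm_sq]
          refine pow_le_pow_left₀ (norm_nonneg _) ((norm_le_pi_norm y m).trans ?_) 2
          have := norm_le_of_mem_closedBall (ball_subset_closedBall hy)
          linarith
      have h3 : 0 ≤ (1 - ε) * ind Z l ∧ (1 - ε) * ind Z l ≤ 1 := by
        by_cases h : l ∈ Z <;> simp [ind, h, e1, e0.le]
      rw [← Real.rpow_neg_one]
      exact (Real.rpow_le_rpow_of_exponent_le R1 (neg_le_neg h3.2)).trans
        (Real.rpow_le_rpow_of_nonpos (normSq_pos.2 (ho l)) h2 (neg_nonpos.2 h3.1))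
    rw [e2, Real.rpow_two, ← normSq_eq_norm_sq, hg y hy ho, map_mul]
    have := mul_le_mul_of_nonneg_left e3 (mul_nonneg e0.le
      (mul_nonneg (normSq_nonneg (xm c Q y)) (normSq_nonneg (g y))))
    linarith
  have k3 := ((mul_le_mul_right ((mul_le_mul_right (ha ε e0 e1) _).trans k) _).trans k2)
  rw [← ENNReal.ofReal_mul (by positivity), ← ENNReal.ofReal_mul b0.le,
    ENNReal.ofReal_le_ofReal_iff η0, Real.rpow_two, ← normSq_eq_norm_sq] at k3
  rw [le_inv_mul_iff₀ (mul_pos b0 a0)]
  linarith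

end Pool.Agent.Lib.ZL
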