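import Pool.Agent.Lib.ZL.Blue

/-! Project ZL, row SPL. -/

open scoped Classical Topology ContDiff ENNReal
open Set MeasureTheory Complex Metric Filter

set_option linter.unusedSectionVars false

noncomputable section

namespace Pool.Agent.Lib.ZL

open Pool.Agent.Lib.SV (E)
open Pool.Agent.Lib.HS32 Pool.Agent.Lib.EX Pool.Agent.Lib.EXS

namespace SPL

/-- The weight without the twist. -/
def g (k s v ρ : ℝ) : ℝ := Real.exp (-((k - 2 - s) * v + s * ρ)) / (Real.exp v + Real.exp ρ)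

variable {k s v ρ : ℝ}

theorem g_pos : 0 < g k s v ρ := by
  unfold g
  positivity

theorem g_eq (k0 : 0 < k) (α : ℝ) : Real.exp (-((k - 2 - s) * (v + 1 / k * α) +
    s * (ρ + 1 / k * α) + 1 / k * α + Real.log (Real.exp (v + 1 / k * α) +
      Real.exp (ρ + 1 / k * α)))) = Real.exp (-α) * g k s v ρ := by
  have p : 0 < Real.exp v + Real.exp ρ := by positivity
  rw [Real.exp_add v, Real.exp_add ρ, ← add_mul, Real.log_mul p.ne' (Real.exp_pos _).ne',
    Real.log_exp, g, ← Real.exp_log p, Real.log_exp, ← Real.exp_sub, ← Real.exp_add]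
  refine congrArg _ ?_
  field_simp
  ring

theorem p1 (s0 : 0 < s) (h : v - ρ ≤ 3) :
    Real.exp (k * v) * g k s v ρ ≤ Real.exp (3 * (s + 1)) * Real.exp v := by
  have p : 0 < Real.exp v + Real.exp ρ := by positivity
  rw [g, ← mul_div_assoc, div_le_iff₀ p, ← Real.exp_add, ← Real.exp_add]
  refine le_trans ?_ (mul_le_mul_of_nonneg_left (le_add_of_nonneg_left (Real.exp_pos v).le)
    (Real.exp_pos _).le)
  rw [← Real.exp_add]
  exact Real.exp_le_exp.2 (by nlinarith)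

theorem p3 {t : ℝ} (s0 : 0 < s) (hk : s + 2 ≤ k) (hv : v ≤ t) (hρ : ρ ≤ t) (u : ℝ) (hu : ρ ≤ u) :
    Real.exp (-((k - 1 - s) * t + s * u)) ≤ 2 * g k s v ρ := by
  have p : 0 < Real.exp v + Real.exp ρ := by positivity
  rw [g, ← mul_div_assoc, le_div_iff₀ p]
  have h1 : Real.exp v + Real.exp ρ ≤ 2 * Real.exp t := by
    linarith [Real.exp_le_exp.2 hv, Real.exp_le_exp.2 hρ]
  refine (mul_le_mul_of_nonneg_left h1 (Real.exp_pos _).le).trans ?_
  rw [mul_left_comm, ← Real.exp_add]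
  refine mul_le_mul_of_nonneg_left (Real.exp_le_exp.2 ?_) two_pos.le
  nlinarith [mul_le_mul_of_nonneg_left hv (show 0 ≤ k - 2 - s by linarith)]

theorem p2 {m h : ℝ} (s0 : 0 < s) (hk : s + 2 ≤ k) (h0 : 0 ≤ h) (h1 : h ^ (1 / k) ≤ m)
    (h2 : Real.exp ρ ≤ m) (hv : Real.exp (k * v) ≤ h + Real.exp (k * ρ)) :
    m ^ (-(k - 1 - s)) * Real.exp (-(s * ρ)) ≤ 4 * g k s v ρ := by
  have k0 : 0 < k := by linarith
  have m0 := (Real.exp_pos ρ).trans_le h2
  have r1 : ρ ≤ Real.log m := (Real.le_log_iff_exp_le m0).2 h2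
  have e1 : h ≤ Real.exp (k * Real.log m) := by
    rw [mul_comm, ← Real.rpow_def_of_pos m0]
    refine le_trans (le_of_eq ?_) (Real.rpow_le_rpow (Real.rpow_nonneg h0 _) h1 k0.le)
    rw [← Real.rpow_mul h0, one_div_mul_cancel k0.ne', Real.rpow_one]
  have e2 : k * v ≤ Real.log 2 + k * Real.log m := by
    rw [← Real.exp_le_exp, Real.exp_add, Real.exp_log two_pos]
    linarith [Real.exp_le_exp.2 (mul_le_mul_of_nonneg_left r1 k0.le)]
  have l0 : 0 < Real.log 2 := Real.log_pos one_lt_two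
  have e3 : v ≤ Real.log m + Real.log 2 / k := by
    rw [← sub_le_iff_le_add', le_div_iff₀ k0]
    linarith
  have e4 := p3 s0 hk e3 (r1.trans (le_add_of_nonneg_right (div_pos l0 k0).le)) ρ le_rfl
  have e5 : (k - 1 - s) * (Real.log 2 / k) ≤ Real.log 2 := by
    rw [← mul_div_assoc, div_le_iff₀ k0]
    nlinarith
  rw [Real.rpow_def_of_pos m0, ← Real.exp_add]
  refine le_trans ?_ (show 2 * Real.exp _ ≤ _ by linarith [e4])
  rw [← Real.exp_log two_pos, ← Real.exp_add, Real.log_exp]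
  exact Real.exp_le_exp.2 (by nlinarith)

theorem nsq_add (a b : ℂ) : normSq (a + b) ≤ 2 * normSq a + 2 * normSq b := by
  simp only [normSq_apply, add_re, add_im]
  nlinarith [sq_nonneg (a.re - b.re), sq_nonneg (a.im - b.im)]

theorem nsq_ct {c : ℝ} (h0 : 0 ≤ c) (h1 : c ≤ 1) (u : ℂ) :
    normSq ((c : ℂ) * u) ≤ normSq u ∧ normSq (u - c * u) ≤ normSq u := by
  have e : u - c * u = ((1 - c : ℝ) : ℂ) * u := by
    push_cast
    ring
  rw [e, map_mul, map_mul, normSq_ofReal, normSq_ofReal]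
  exact ⟨mul_le_of_le_one_left (normSq_nonneg _) (by nlinarith),
    mul_le_of_le_one_left (normSq_nonneg _) (by nlinarith)⟩

variable {n : ℕ} {M : Mf n} {ι : Type} [Fintype ι] [DecidableEq ι] {D : Ad M ι} {X : Cx D}
  {f f' : M.X → ℝ}

theorem int_add (hf : AEMeasurable f X.μ) : X.I (fun x => f x + f' x) ≤ X.I f + X.I f' := by
  unfold Cx.I
  rw [← lintegral_add_left' hf.ennreal_ofReal]
  exact lintegral_mono fun x => ENNReal.ofReal_add_le

theorem int_mul {c : ℝ} (hc : 0 ≤ c) : X.I (fun x => c * f x) = ENNReal.ofReal c * X.I f := by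
  unfold Cx.I
  rw [← lintegral_const_mul' _ _ ENNReal.ofReal_ne_top]
  exact lintegral_congr fun x => ENNReal.ofReal_mul hc

theorem int_lin {a b A B : ℝ} (hf : AEMeasurable f X.μ) (ha : 0 ≤ a) (hb : 0 ≤ b) (A0 : 0 ≤ A)
    (B0 : 0 ≤ B) (h : X.I f ≤ ENNReal.ofReal A) (h' : X.I f' ≤ ENNReal.ofReal B) :
    X.I (fun x => a * f x + b * f' x) ≤ ENNReal.ofReal (a * A + b * B) := by
  refine (int_add (hf.const_mul a)).trans ?_
  rw [int_mul ha, int_mul hb, ENNReal.ofReal_add (mul_nonneg ha A0) (mul_nonneg hb B0),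
    ENNReal.ofReal_mul ha, ENNReal.ofReal_mul hb]
  gcongr

theorem gen (hPW : St_PW) (hMU : St_MU) (hUPB : St_UPB) (hWGT : St_WGT) (hPOG : St_POG)
    (hHOL : St_HOL) (hSUP : St_SUP) : ∀ s > (0 : ℝ), ∀ J ≥ (0 : ℝ), ∃ η > (0 : ℝ), ∃ A : ℝ,
    ∀ (n : ℕ) (M : Mf n) [M.Cpt] (ι : Type) [Fintype ι] [DecidableEq ι] (D : Ad M ι) (X : Cx D)
    (K : Kl X) (C : ℝ) (j : ℕ) (ρ : M.X → ℝ), s + 2 ≤ K.c * j → X.Cl K.κ C (1 / (K.c * j)) ρ →
    X.I (fun x => Real.exp (ρ x)) ≤ ENNReal.ofReal J → ∀ U, K.Nr j U →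
    (∃ v : M.X → ℝ, SmO D v ∧ Psh D (fun x => v x + 1 / (K.c * j) * X.α x) ∧
      X.I (fun x => Real.exp (v x)) ≤ ENNReal.ofReal (1 + 1 / (K.c * j)) ∧
      X.I (fun x => if 2 ≤ v x - ρ x then Real.exp (v x) else 0) ≤ ENNReal.ofReal (4 * η) ∧
      ∀ x ∈ off D, v x ≤ C + 1 - lw D K.κ x ∧
        normSq (U x) * Real.exp (-X.α x) ≤ Real.exp (K.c * j * v x) ∧
        Real.exp (K.c * j * v x) ≤ normSq (U x) * Real.exp (-X.α x) + Real.exp (K.c * j * ρ x)) →
    ∃ F, K.Nr j ((2 : ℂ) • F) ∧ ∀ b : M.X → ℝ, (∀ x ∈ off D, X.ew (K.c * j) U x ≤ b x) →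
      X.I (fun x => normSq (U x - F x) * X.wt (K.c * j) s b ρ x) ≤ ENNReal.ofReal A := by
  obtain ⟨L, L0, hct, hW⟩ := hWGT
  intro s s0 J J0
  obtain ⟨R, hR⟩ : ∃ R, R = Real.exp (3 * (s + 1)) := ⟨_, rfl⟩
  have R0 : 0 < R := hR ▸ Real.exp_pos _
  obtain ⟨η, hη⟩ : ∃ η, η = (8 * (8 + 80 * (L * R)) * Real.exp (1 + (s + 1) * J))⁻¹ := ⟨_, rfl⟩
  have η0 : 0 < η := by
    rw [hη]
    positivity
  refine ⟨η, η0, 8 * R * 2 + 8 * (40 * (L * R) * η), ?_⟩
  rintro n M _ ι _ _ D X K C j ρ hk hρ hJ U hU ⟨v, v1, v2, v3, v4, v5⟩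
  obtain ⟨-, -, w1, w2, w3, w4, w5, w6, -, w7, w8⟩ := hPW n M ι D
  obtain ⟨m1, m2, m3, m4, -⟩ := hMU n M ι D X
  obtain ⟨u1, u2, -, -, u3, -⟩ := hUPB n M ι D (K.P j)
  obtain ⟨-, g1, g2, -, g3, -, -, g4, -⟩ := hW n M ι D
  have j1 : j ≥ 1 := Nat.pos_of_ne_zero fun h => by
    rw [h, Nat.cast_zero, mul_zero] at hk
    linarith
  have hs := (hSUP n M ι D X K).2.2 j (by exact_mod_cast j1)
  have kP : (fun i => (K.P j i : ℝ)) = (K.c * j) • K.κ + fun i => (X.e i : ℝ) := funext fun i => by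
    have := K.c0.ne'
    simp only [Kl.P, Kl.κ, Pi.add_apply, Pi.smul_apply, smul_eq_mul]
    push_cast
    field_simp
  unfold Kl.Nr at hU ⊢
  generalize K.c * j = k at *
  have k0 : 0 < k := by linarith
  have U0 := (u1 U hU.1.1).1
  have pf : Psh D fun x => (k - 2 - s) * (v x + 1 / k * X.α x) + s * (ρ x + 1 / k * X.α x) +
      1 / k * X.α x := g1 _ _ (g1 _ _ (g2 _ _ (by linarith) v2) (g2 _ _ s0.le hρ.2.1))
    (g2 _ _ (by positivity) X.αp)
  obtain ⟨G1, G2⟩ := g4 _ _ _ U v2 hρ.2.1 pf U0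
  have ey : ∀ x, v x + 1 / k * X.α x - (ρ x + 1 / k * X.α x) = v x - ρ x := fun x => by ring
  simp only [ey] at G1 G2
  have mv := m2 ℝ v (w7 ℝ v v1)
  have mρ := m2 ℝ ρ (w7 ℝ ρ hρ.1)
  have mα := m2 ℝ _ (w7 ℝ _ X.αp.1)
  have mU := m2 ℂ U (w7 ℂ U (w8 U U0))
  have mN : ∀ F : M.X → ℂ, AEMeasurable F X.μ → AEMeasurable (fun x => normSq (F x)) X.μ :=
    fun F h => continuous_normSq.measurable.comp_aemeasurable h
  have mβ : AEMeasurable (fun x => if 2 ≤ v x - ρ x ∧ v x - ρ x ≤ 3 then L * normSq (U x) else 0)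
      X.μ := (show Measurable fun p : ℝ × ℝ => if 2 ≤ p.1 ∧ p.1 ≤ 3 then L * p.2 else 0 from
    Measurable.ite ((measurableSet_le measurable_const measurable_fst).inter
      (measurableSet_le measurable_fst measurable_const)) (measurable_snd.const_mul L)
      measurable_const).comp_aemeasurable ((mv.sub mρ).prodMk (mN U mU))
  have mi : AEMeasurable (fun x => if 2 ≤ v x - ρ x then Real.exp (v x) else 0) X.μ :=
    (show Measurable fun p : ℝ × ℝ => if 2 ≤ p.1 then Real.exp p.2 else 0 from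
      Measurable.ite (measurableSet_le measurable_const measurable_fst) measurable_snd.exp
        measurable_const).comp_aemeasurable ((mv.sub mρ).prodMk mv)
  obtain ⟨F, F1, F2⟩ := X.hor (g1 _ _ pf (g3 _ _ v2 hρ.2.1)) G1 mβ
    (fun x _ => by split_ifs <;> positivity [normSq_nonneg (U x)]) G2
  simp only [g_eq k0] at F2
  have b1 : ∀ x ∈ off D, v x - ρ x ≤ 3 →
      normSq (U x) * (Real.exp (-X.α x) * g k s (v x) (ρ x)) ≤ R * Real.exp (v x) := fun x hx h => by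
    rw [← mul_assoc, hR]
    exact (mul_le_mul_of_nonneg_right (v5 x hx).2.1 g_pos.le).trans (p1 s0 h)
  have F3 : X.I (fun x => normSq ((ct (v x - ρ x) : ℂ) * U x - F x) *
      (Real.exp (-X.α x) * g k s (v x) (ρ x))) ≤ ENNReal.ofReal (40 * (L * R) * η) := by
    refine F2.trans ((mul_le_mul_right (m3 _ (fun x => L * R *
      if 2 ≤ v x - ρ x then Real.exp (v x) else 0) fun x hx => ?_) 10).trans ?_)
    · split_ifs with h1 h2 h2
      · rw [mul_assoc, mul_assoc L]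
        exact mul_le_mul_of_nonneg_left (b1 x hx h1.2) L0.le
      · exact absurd h1.1 h2
      · rw [zero_mul]
        positivity
      · simp
    · rw [int_mul (mul_pos L0 R0).le]
      refine (mul_le_mul_right (mul_le_mul_right v4 _) 10).trans (le_of_eq ?_)
      rw [← ENNReal.ofReal_mul (mul_pos L0 R0).le, ← ENNReal.ofReal_ofNat,
        ← ENNReal.ofReal_mul (by norm_num)]
      exact congrArg _ (by ring)
  have mF := m2 ℂ F (w7 ℂ F (w8 F F1))
  have hM : Mer D (K.P j) F := by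
    obtain ⟨B, hB'⟩ := u3 U hU.1.1
    obtain ⟨Cα, hα⟩ := X.αb
    refine hPOG n M ι D X _ F F1 (ne_top_of_le_ne_top ?_ ((m3 _ (fun x =>
      2 * B * Real.exp (lw D (-X.o) x) + 4 * Real.exp (Cα + (k - 1) * (C + 1)) *
        (normSq ((ct (v x - ρ x) : ℂ) * U x - F x) * (Real.exp (-X.α x) * g k s (v x) (ρ x))))
      fun x hx => ?_).trans (int_add ((m2 ℝ _ (w7 ℝ _ (w6 _))).exp.const_mul _))))
    · rw [int_mul (c := 4 * _) (by positivity)]
      refine ENNReal.add_ne_top.2 ⟨?_, ENNReal.mul_ne_top ENNReal.ofReal_ne_top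
        (ne_top_of_le_ne_top ENNReal.ofReal_ne_top F3)⟩
      refine ne_top_of_le_ne_top ?_ (m3 _ (fun x => |2 * B| * Real.exp (lw D (-X.o) x))
        fun x _ => mul_le_mul_of_nonneg_right (le_abs_self _) (Real.exp_pos _).le)
      rw [int_mul (abs_nonneg _)]
      exact ENNReal.mul_ne_top ENNReal.ofReal_ne_top (m4 _ fun i => by simp)
    have e0 : (fun i => (K.P j i : ℝ) - X.o i) = (fun i => (K.P j i : ℝ)) - X.o := rfl
    have e1 := nsq_add ((ct (v x - ρ x) : ℂ) * U x) (-((ct (v x - ρ x) : ℂ) * U x - F x))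
    rw [normSq_neg, ← sub_eq_add_neg, sub_sub_cancel] at e1
    have e2 := ((nsq_ct (hct (v x - ρ x)).1 (hct _).2.1 (U x)).1.trans (hB' x hx))
    have e3 := p3 (k := k) s0 hk (v5 x hx).1 ((hρ.2.2 x hx).trans (by linarith)) _
      ((hρ.2.2 x hx).trans (show _ ≤ C + 1 - lw D K.κ x by linarith))
    have e4 : Real.exp (lw D ((fun i => (K.P j i : ℝ)) - X.o) x) ≤
        2 * Real.exp (Cα + (k - 1) * (C + 1)) * (Real.exp (-X.α x) * g k s (v x) (ρ x)) := by
      refine le_trans ?_ ((mul_le_mul_of_nonneg_left e3 (show 0 ≤ Real.exp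
        (Cα + (k - 1) * (C + 1)) * Real.exp (-X.α x) by positivity)).trans (le_of_eq (by ring)))
      rw [← Real.exp_add, ← Real.exp_add, w2, kP, w1, w3]
      refine Real.exp_le_exp.2 ?_
      nlinarith [(abs_le.1 (hα x hx)).2, w5 X.o K.κ K.lo x]
    have e5 : Real.exp (-lw D (fun i => (K.P j i : ℝ)) x) *
        Real.exp (lw D ((fun i => (K.P j i : ℝ)) - X.o) x) = Real.exp (lw D (-X.o) x) := by
      rw [← Real.exp_add, w2, w4]
      exact congrArg _ (by ring)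
    rw [e0, ← e5]
    have e6 := Real.exp_pos (lw D ((fun i => (K.P j i : ℝ)) - X.o) x)
    nlinarith [mul_le_mul_of_nonneg_right e1 e6.le, mul_le_mul_of_nonneg_right e2 e6.le,
      mul_le_mul_of_nonneg_left e4 (normSq_nonneg ((ct (v x - ρ x) : ℂ) * U x - F x))]
  have hS := (u1 F hM).2
  refine ⟨(off D).indicator F, ⟨⟨(u2 _ _ 2 hS.1 hS.1).2.2, fun x hx => by simp [hS.2 x hx]⟩, ?_⟩,
    fun b hb => ?_⟩
  · have h1 := hHOL M.X X.μ (fun x => normSq (F x) * Real.exp (-X.α x)) v ρ k s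
      (2 * (4 * η) + 2 * (40 * (L * R) * η)) J s0 hk (by positivity) J0
      (fun x => mul_nonneg (normSq_nonneg _) (Real.exp_pos _).le) ((mN F mF).mul mα.neg.exp) mv mρ
      v3 hJ ((m3 _ _ fun x hx => ?_).trans
        (int_lin mi two_pos.le two_pos.le (by positivity) (by positivity) v4 F3))
    · refine ((m3 _ (fun x => normSq (2 : ℂ) ^ (1 / k) *
        (normSq (F x) * Real.exp (-X.α x)) ^ (1 / k)) fun x hx => le_of_eq ?_).trans_eq
        (int_mul (Real.rpow_nonneg (normSq_nonneg _) _))).trans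
        ((mul_le_mul_right h1 _).trans (le_of_eq ?_))
      · rw [hs, Cx.ew, indicator_of_mem hx]
      rw [← ENNReal.ofReal_mul (Real.rpow_nonneg (normSq_nonneg _) _),
        ← Real.mul_rpow (normSq_nonneg _) (by positivity), normSq_ofNat, hη]
      rw [show ∀ a : ℝ, a = 1 → ENNReal.ofReal (a ^ (1 / k)) = 1 from fun a h => by simp [h]]
      field_simp
      ring
    have e1 := nsq_add ((ct (v x - ρ x) : ℂ) * U x) (-((ct (v x - ρ x) : ℂ) * U x - F x))
    rw [normSq_neg, ← sub_eq_add_neg, sub_sub_cancel] at e1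
    have e2 : normSq ((ct (v x - ρ x) : ℂ) * U x) * Real.exp (-X.α x) *
        Real.exp (-((k - 1) * v x)) ≤ if 2 ≤ v x - ρ x then Real.exp (v x) else 0 := by
      split_ifs with h
      · refine (mul_le_mul_of_nonneg_right ((mul_le_mul_of_nonneg_right
          (nsq_ct (hct _).1 (hct _).2.1 (U x)).1 (Real.exp_pos _).le).trans (v5 x hx).2.1)
          (Real.exp_pos _).le).trans (le_of_eq ?_)
        rw [← Real.exp_add]
        exact congrArg _ (by ring)
      · simp [(hct _).2.2.1 (not_le.1 h).le]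
    change _ * min _ (g k s (v x) (ρ x)) ≤ _
    have e3 := min_le_left (Real.exp (-((k - 1) * v x))) (g k s (v x) (ρ x))
    have e4 := min_le_right (Real.exp (-((k - 1) * v x))) (g k s (v x) (ρ x))
    have e5 := mul_pos (Real.exp_pos (-X.α x)) (lt_min (Real.exp_pos (-((k - 1) * v x)))
      (g_pos (k := k) (s := s) (v := v x) (ρ := ρ x)))
    nlinarith [mul_le_mul_of_nonneg_right e1 e5.le,
      mul_le_mul_of_nonneg_left e3 (mul_nonneg (normSq_nonneg ((ct (v x - ρ x) : ℂ) * U x))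
        (Real.exp_pos (-X.α x)).le),
      mul_le_mul_of_nonneg_left e4 (mul_nonneg (normSq_nonneg
        ((ct (v x - ρ x) : ℂ) * U x - F x)) (Real.exp_pos (-X.α x)).le)]
  · refine (m3 _ _ fun x hx => ?_).trans (int_lin mv.exp (by positivity) (by norm_num) two_pos.le
      (by positivity) (v3.trans (ENNReal.ofReal_le_ofReal ?_)) F3)
    swap
    · have := (div_le_one k0).2 (show 1 ≤ k by linarith)
      linarith
    have e1 := nsq_add (U x - (ct (v x - ρ x) : ℂ) * U x) ((ct (v x - ρ x) : ℂ) * U x - F x)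
    rw [sub_add_sub_cancel] at e1
    have e2 : normSq (U x - (ct (v x - ρ x) : ℂ) * U x) *
        (Real.exp (-X.α x) * g k s (v x) (ρ x)) ≤ R * Real.exp (v x) := by
      rcases le_total (v x - ρ x) 3 with h | h
      · exact (mul_le_mul_of_nonneg_right (nsq_ct (hct _).1 (hct _).2.1 (U x)).2
          (mul_pos (Real.exp_pos _) g_pos).le).trans (b1 x hx h)
      · simp [(hct _).2.2.2 h, (mul_pos R0 (Real.exp_pos _)).le]
    have e3 := mul_le_mul_of_nonneg_left (p2 s0 hk (mul_nonneg (normSq_nonneg _) (Real.exp_pos _).le)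
      ((hb x hx).trans (le_max_left _ _)) (le_max_right _ _) (v5 x hx).2.2)
      (Real.exp_pos (-X.α x)).le
    rw [indicator_of_mem hx, Cx.wt, mul_assoc (Real.exp _)]
    have e4 := mul_pos (Real.exp_pos (-X.α x)) (g_pos (k := k) (s := s) (v := v x) (ρ := ρ x))
    nlinarith [mul_le_mul_of_nonneg_left e3 (normSq_nonneg (U x - F x)),
      mul_le_mul_of_nonneg_right e1 e4.le]

end SPL

theorem bSPL (hPW : St_PW) (hMU : St_MU) (hUPB : St_UPB) (hWGT : St_WGT) (hPOG : St_POG)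
    (hHOL : St_HOL) (hSV : St_SV) (hSUP : St_SUP) : St_SPL := fun s s0 J J0 => by
  obtain ⟨η, η0, A, h⟩ := SPL.gen hPW hMU hUPB hWGT hPOG hHOL hSUP s s0 J J0
  exact ⟨η, η0, A, fun n M _ ι _ _ D X K C j ρ hk hB hρ hJ hT U hU => h n M ι D X K C j ρ hk hρ hJ
    U hU (hSV n M ι D X K C J η j ρ U (by linarith) J0 hB hρ hJ hT hU)⟩

end Pool.Agent.Lib.ZL
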