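import Pool.Agent.Lib.ZL.Blue
import Pool.Agent.Lib.EXS.B_GLU
import Pool.Agent.Lib.SV.B_SUB

/-! Project ZL: the uniform upper bound for normalised sections. -/

open scoped Classical Topology ContDiff ENNReal
open Set MeasureTheory Complex Metric Filter

set_option linter.unusedSectionVars false

noncomputable section

namespace Pool.Agent.Lib.ZL

open Pool.Agent.Lib.SV (E)
open Pool.Agent.Lib.HS32 Pool.Agent.Lib.EX Pool.Agent.Lib.EXS

namespace SUP

variable {n : ℕ} {ι : Type} [Fintype ι] [DecidableEq ι] {c : ι → Option (Fin n)} {z : E n}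

theorem root {P : ι → ℤ} {κ e : ι → ℝ} {k : ℝ} {u : ℂ} (hk : 0 < k) (h : Off c z)
    (hP : ∀ i, (P i : ℝ) = k * κ i + e i) :
    ‖xm c P z * u‖ ^ (2 / k) = (xr c e z * normSq u) ^ (1 / k) * xr c κ z := by
  have p : ∀ i, 0 < normSq (xi c i z) := fun i => normSq_pos.2 (h i)
  have a : normSq (xm c P z) = xr c e z * xr c κ z ^ k := by
    rw [xm, map_prod, xr, xr, ← Real.finsetProd_rpow _ _ fun i _ => (Real.rpow_pos_of_pos (p i) _).le,
      ← Finset.prod_mul_distrib]
    refine Finset.prod_congr rfl fun i _ => ?_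
    rw [map_zpow₀, ← Real.rpow_intCast, hP, ← Real.rpow_mul (p i).le, ← Real.rpow_add (p i)]
    congr 1
    ring
  have q := MON.xr_pos κ h
  rw [show 2 / k = (2 : ℕ) * (1 / k) by push_cast; ring, Real.rpow_mul (norm_nonneg _),
    Real.rpow_natCast, ← normSq_eq_norm_sq, map_mul, a, mul_right_comm,
    Real.mul_rpow (mul_nonneg (MON.xr_pos e h).le (normSq_nonneg _)) (by positivity),
    ← Real.rpow_mul q.le, mul_one_div_cancel hk.ne', Real.rpow_one]

theorem cmp {a b B k c₀ : ℝ} (ha : 0 ≤ a) (hb : 0 ≤ b) (hB : 0 ≤ B) (h0 : 0 < c₀) (hk : c₀ ≤ k)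
    (h : a ≤ Real.exp B * b) : a ^ (1 / k) ≤ Real.exp (B / c₀) * b ^ (1 / k) := by
  have k0 : 0 < k := h0.trans_le hk
  refine (Real.rpow_le_rpow ha h (by positivity)).trans ?_
  rw [Real.mul_rpow (Real.exp_pos _).le hb, ← Real.exp_mul]
  gcongr
  rw [mul_one_div]
  gcongr

theorem xr_le {a b : ι → ℝ} (hz : z ∈ B2 n) (h : Off c z) (h1 : ∀ i, b i ≤ a i)
    (h2 : ∀ i, a i ≤ b i + 1) : xr c a z ≤ 4 ^ Fintype.card ι * xr c b z := by
  have p : ∀ i, 0 < normSq (xi c i z) := fun i => normSq_pos.2 (h i)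
  rw [xr, xr, ← Finset.card_univ, ← Finset.prod_const, ← Finset.prod_mul_distrib]
  refine Finset.prod_le_prod (fun i _ => (Real.rpow_pos_of_pos (p i) _).le) fun i _ => ?_
  have e : normSq (xi c i z) ≤ 4 := by
    rcases MON.xi_cases c i with ⟨-, e⟩ | ⟨j, -, e⟩ <;> rw [e]
    · norm_num
    · have := (norm_le_pi_norm z j).trans (mem_ball_zero_iff.1 hz).le
      rw [normSq_eq_norm_sq]
      nlinarith [norm_nonneg (z j)]
  rw [show a i = (a i - b i) + b i by ring, Real.rpow_add (p i)]
  refine mul_le_mul_of_nonneg_right ?_ (Real.rpow_pos_of_pos (p i) _).le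
  refine (Real.rpow_le_rpow (p i).le e (sub_nonneg.2 (h1 i))).trans ?_
  simpa using Real.rpow_le_rpow_of_exponent_le (x := 4) (by norm_num) (sub_le_iff_le_add'.2 (h2 i))

variable {M : Mf n} {D : Ad M ι} {X : Cx D} (K : Kl X)

theorem hP (j : ℕ) (i : ι) : (K.P j i : ℝ) = K.c * j * K.κ i + X.e i := by
  have := K.c0
  simp only [Kl.P, Kl.κ]
  push_cast
  field_simp

theorem hc {j : ℕ} (hj : j ≥ 1) : K.c ≤ K.c * j :=
  le_mul_of_one_le_right K.c0.le (by exact_mod_cast hj)

theorem ew_smul (k : ℝ) (U : M.X → ℂ) (t : ℂ) (x : M.X) :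
    X.ew k (t • U) x = normSq t ^ (1 / k) * X.ew k U x := by
  simp only [Cx.ew, Pi.smul_apply, smul_eq_mul, map_mul, mul_assoc]
  exact Real.mul_rpow (normSq_nonneg _) (mul_nonneg (normSq_nonneg _) (Real.exp_pos _).le)

end SUP

open SUP in
theorem bSUP (hPW : St_PW) (hMU : St_MU) (hUPB : St_UPB) : St_SUP := by
  intro n M _ ι _ _ D X K
  obtain ⟨-, cov, ladd, lsub, lsm, lneg, -, -, lx, -⟩ := hPW n M ι D
  obtain ⟨-, -, mono, fin, loc⟩ := hMU n M ι D X
  obtain ⟨C0, hα⟩ := X.αb
  have c0 := K.c0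
  refine ⟨?_, fun j hj U hU => ?_, fun j _ U t x => ew_smul _ U t x⟩
  · obtain ⟨C1, c1, h1⟩ := lx (3 / 2) (by norm_num)
    obtain ⟨C2, h2⟩ := loc (3 / 2) (by norm_num) (∑ i, |X.o i|)
    set B := |C0| + C1 * ∑ i, |(X.e i : ℝ)|
    have B0 : 0 ≤ B := by positivity
    set v := (volume (ball (0 : E n) (1 / 2))).toReal with hv
    have vt : volume (ball (0 : E n) (1 / 2)) ≠ ⊤ := measure_ball_lt_top.ne
    have v0 : 0 < v := ENNReal.toReal_pos (measure_ball_pos _ _ (by norm_num)).ne' vt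
    set A := 4 ^ Fintype.card ι * Real.exp (B / K.c)
    refine ⟨B / K.c + A * |C2| / v + C1 * ∑ i, |K.κ i|, fun C' hC j hj U hU x hx => ?_⟩
    have k0 : 0 < K.c * j := c0.trans_le (hc K hj)
    obtain ⟨d, xd, x1⟩ := cov x
    obtain ⟨sh, se⟩ := (hUPB n M ι D (K.P j)).2.2.2.2.2.1 (D.c d) (D.rd U d) (hU.1.1 d)
    generalize val (D.c d) (K.P j) (D.rd U d) = s at sh se
    have key : ∀ y : E n, ‖y‖ ≤ 3 / 2 → Off (D.c d) y → ∃ q, 0 ≤ q ∧
        ‖s y‖ ^ (2 / (K.c * j)) = q * xr (D.c d) K.κ y ∧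
        q ≤ Real.exp (B / K.c) * D.rd (X.ew (K.c * j) U) d y ∧
        D.rd (X.ew (K.c * j) U) d y ≤ Real.exp (B / K.c) * q := fun y y1 yo => by
      have yB : y ∈ B2 n := mem_ball_zero_iff.2 (by linarith)
      have yx : (D.e d).symm y ∈ off D :=
        (GLU.mem_off (GLU.mem_src d yB)).2 (by rwa [GLU.rinv d yB])
      obtain ⟨a1, a2⟩ := h1 (fun i => X.e i) d y y1 yo
      obtain ⟨b1, b2⟩ := abs_le.1 ((hα _ yx).trans (le_abs_self C0))
      have p := MON.xr_pos (fun i => (X.e i : ℝ)) yo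
      have t := normSq_nonneg (D.rd U d y)
      refine ⟨(xr (D.c d) (fun i => X.e i) y * normSq (D.rd U d y)) ^ (1 / (K.c * j)),
        by positivity, by rw [se y yB yo, root k0 yo (hP K j)],
        cmp (by positivity) (by positivity) B0 c0 (hc K hj) ?_,
        cmp (mul_nonneg t (Real.exp_pos _).le) (by positivity) B0 c0 (hc K hj) ?_⟩
      · rw [mul_left_comm, mul_comm]
        refine mul_le_mul_of_nonneg_left (a1.trans ?_) t
        rw [← Real.exp_add, ← Real.exp_add]
        exact Real.exp_le_exp.2 (by simp only [B, Ad.rd]; linarith)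
      · rw [← mul_assoc, mul_comm (normSq _)]
        refine mul_le_mul_of_nonneg_right ?_ t
        rw [Real.exp_add, mul_assoc]
        refine le_trans ?_ (mul_le_mul_of_nonneg_left a2 (Real.exp_pos _).le)
        rw [← Real.exp_add]
        exact Real.exp_le_exp.2 (by simp only [Ad.rd]; linarith)
    set z := D.e d x
    have sub : ball z (1 / 2) ⊆ closedBall 0 (3 / 2) := ball_subset_closedBall.trans
      (closedBall_subset_closedBall' (by rw [dist_zero_right]; linarith))
    have s1 := SV.stSUB (E n) volume s z (1 / 2) (2 / (K.c * j)) (by norm_num) (by positivity)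
      (sh.mono (sub.trans (closedBall_subset_ball (by norm_num))))
    have s2 := h2 X.o (X.ew (K.c * j) U) d fun i =>
      Finset.single_le_sum (f := fun i => |X.o i|) (fun _ _ => abs_nonneg _) (Finset.mem_univ i)
    rw [show (fun x => X.ew (K.c * j) U x * Real.exp (lw D (X.o - X.o) x)) = X.ew (K.c * j) U from
      funext fun x => by rw [lsub, sub_self, Real.exp_zero, mul_one]] at s2
    have s3 : ∫⁻ y in ball z (1 / 2), ENNReal.ofReal (‖s y‖ ^ (2 / (K.c * j))) ≤
        ENNReal.ofReal (A * |C2|) := by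
      rw [ENNReal.ofReal_mul (by positivity)]
      refine le_trans ?_ (mul_le_mul_right (s2.trans ((mul_le_mul_right hU.2 _).trans
        ((mul_one _).le.trans (ENNReal.ofReal_le_ofReal (le_abs_self _))))) _)
      rw [← lintegral_const_mul' _ _ ENNReal.ofReal_ne_top]
      refine (lintegral_mono_set sub).trans (lintegral_mono_ae ?_)
      filter_upwards [ae_restrict_mem measurableSet_closedBall,
        ae_restrict_of_ae (MON.off_ae (D.c d))] with y y1 yo
      rw [← ENNReal.ofReal_mul (by positivity)]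
      obtain ⟨q, q0, e, q1, -⟩ := key y (mem_closedBall_zero_iff.1 y1) yo
      refine ENNReal.ofReal_le_ofReal (e.le.trans ((mul_le_mul q1 (xr_le
        (closedBall_subset_ball (by norm_num) y1) yo K.lo fun i => (K.hi i).le)
        (MON.xr_pos _ yo).le (q0.trans q1)).trans (le_of_eq ?_)))
      simp only [A]
      ring
    rw [Measure.addHaar_ball_center, ← ENNReal.ofReal_toReal vt, ← hv,
      ← ENNReal.ofReal_mul (by positivity)] at s1
    have s4 := (le_div_iff₀ v0).2
      ((ENNReal.ofReal_le_ofReal_iff (by positivity)).1 (s1.trans s3))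
    have zo : Off (D.c d) z := hx d xd
    obtain ⟨q, q0, e, -, q2⟩ := key z (by linarith) zo
    have l := (h1 K.κ d z (by linarith) zo).2
    rw [GLU.rd_e _ xd] at l q2
    have s5 : q * Real.exp (lw D K.κ x) ≤ Real.exp (C1 * ∑ i, |K.κ i|) * Real.exp (A * |C2| / v) := by
      refine (mul_le_mul_of_nonneg_left l q0).trans ?_
      rw [mul_left_comm, ← e]
      gcongr
      linarith [Real.add_one_le_exp (A * |C2| / v)]
    rw [Real.exp_sub, le_div_iff₀ (Real.exp_pos _)]
    refine (mul_le_mul_of_nonneg_right q2 (Real.exp_pos _).le).trans ?_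
    rw [mul_assoc]
    refine (mul_le_mul_of_nonneg_left s5 (Real.exp_pos _).le).trans ?_
    rw [← Real.exp_add, ← Real.exp_add]
    exact Real.exp_le_exp.2 (by linarith)
  · have k0 : 0 < K.c * j := c0.trans_le (hc K hj)
    obtain ⟨-, alg, -, -, bd, -⟩ := hUPB n M ι D (K.P j)
    obtain ⟨C, hC⟩ := bd U hU.1
    have f1 := fin (-K.κ) fun i => by have := K.hi i; simp only [Pi.neg_apply, Kl.κ]; linarith
    have f2 : X.I (X.ew (K.c * j) U) ≠ ⊤ := by
      refine ne_top_of_le_ne_top ?_ (mono _ (fun x => (|C| * Real.exp C0) ^ (1 / (K.c * j)) *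
        Real.exp (lw D (-K.κ) x)) fun x hx => ?_)
      · simp only [Cx.I, ENNReal.ofReal_mul (p := (|C| * Real.exp C0) ^ (1 / (K.c * j)))
          (by positivity), lintegral_const_mul' _ _ ENNReal.ofReal_ne_top]
        exact ENNReal.mul_ne_top ENNReal.ofReal_ne_top f1
      have e : lw D (fun i => K.P j i) x = K.c * j * lw D K.κ x + lw D (fun i => X.e i) x := by
        rw [← lsm, ← ladd]
        exact congrArg (lw D · x) (funext (hP K j))
      have e2 : Real.exp (lw D (-K.κ) x) =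
          Real.exp (-(K.c * j * lw D K.κ x)) ^ (1 / (K.c * j)) := by
        rw [← Real.exp_mul, lneg]
        congr 1
        field_simp
      rw [e2, ← Real.mul_rpow (by positivity) (by positivity)]
      refine Real.rpow_le_rpow (mul_nonneg (normSq_nonneg _) (Real.exp_pos _).le) ?_ (by positivity)
      refine (mul_le_mul_of_nonneg_right ((hC x hx).trans (mul_le_mul_of_nonneg_right
        (le_abs_self C) (Real.exp_pos _).le)) (Real.exp_pos _).le).trans ?_
      rw [mul_assoc, mul_assoc, ← Real.exp_add, ← Real.exp_add, e]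
      have := (abs_le.1 (hα x hx)).1
      exact mul_le_mul_of_nonneg_left (Real.exp_le_exp.2 (by linarith)) (abs_nonneg _)
    set J := (X.I (X.ew (K.c * j) U)).toReal
    have J0 : 0 ≤ J := ENNReal.toReal_nonneg
    refine ⟨(1 / (J + 1)) ^ (K.c * j / 2), by positivity, ⟨(alg U U _ hU.1 hU.1).2.2,
      fun x hx => by simp [hU.2 x hx]⟩, ?_⟩
    have e : normSq (((1 / (J + 1)) ^ (K.c * j / 2) : ℝ) : ℂ) ^ (1 / (K.c * j)) = 1 / (J + 1) := by
      rw [normSq_ofReal, ← Real.rpow_add (by positivity), add_halves,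
        ← Real.rpow_mul (by positivity), mul_one_div_cancel k0.ne', Real.rpow_one]
    simp only [Cx.I, ew_smul, e, ENNReal.ofReal_mul (p := 1 / (J + 1)) (by positivity),
      lintegral_const_mul' _ _ ENNReal.ofReal_ne_top]
    change _ * X.I _ ≤ _
    rw [← ENNReal.ofReal_toReal f2, ← ENNReal.ofReal_mul (by positivity), ENNReal.ofReal_le_one,
      one_div_mul_eq_div, div_le_one (by positivity)]
    exact le_add_of_nonneg_right zero_le_one

end Pool.Agent.Lib.ZL
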