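import Pool.Agent.Lib.ZL.Blue

/-! Project ZL, row SV. -/

open scoped Classical Topology ContDiff ENNReal
open Set MeasureTheory Complex Metric Filter

noncomputable section

namespace Pool.Agent.Lib.ZL

open Pool.Agent.Lib.SV (E)
open Pool.Agent.Lib.HS32 Pool.Agent.Lib.EX Pool.Agent.Lib.EXS
open Pool.Agent.Lib.EXS.K32 (lv)

namespace SV13

variable {N α ρ t k v : ℝ}

theorem e1 (hN : 0 ≤ N) (hk : 0 < k)
    (hv : v = 1 / k * Real.log (N + Real.exp (k * (ρ + 1 / k * α) + k * t)) - 1 / k * α) :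
    Real.exp (k * v) = N * Real.exp (-α) + Real.exp (k * (ρ + t)) := by
  have h : k * v = Real.log (N + Real.exp (k * (ρ + 1 / k * α) + k * t)) + -α := by
    rw [hv]; field_simp; ring
  rw [h, Real.exp_add, Real.exp_log (by positivity), add_mul, ← Real.exp_add]
  congr 2
  field_simp
  ring

theorem e2 (hN : 0 ≤ N) (hk : 1 ≤ k)
    (hv : Real.exp (k * v) = N * Real.exp (-α) + Real.exp (k * (ρ + t))) :
    Real.exp v ≤ (N * Real.exp (-α)) ^ (1 / k) + Real.exp t * Real.exp ρ := by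
  have k0 : 0 < k := by linarith
  have a : ∀ y : ℝ, Real.exp (k * y) ^ (1 / k) = Real.exp y := fun y => by
    rw [← Real.exp_mul]; congr 1; field_simp
  rw [← a v, hv, ← Real.exp_add, add_comm t ρ, ← a (ρ + t)]
  exact Real.rpow_add_le_add_rpow (by positivity) (by positivity) (by positivity)
    ((div_le_one k0).2 hk)

theorem e3 (h : 2 ≤ v - ρ) : Real.exp v ≤ 4 * (Real.exp (v + -Real.log 2) - Real.exp ρ) := by
  have b : Real.exp 2 * Real.exp ρ ≤ Real.exp v := by
    rw [← Real.exp_add]; exact Real.exp_le_exp.2 (by linarith)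
  have c : (4 : ℝ) ≤ Real.exp 2 := by
    rw [show (2 : ℝ) = 1 + 1 by norm_num, Real.exp_add]
    nlinarith [Real.add_one_le_exp (1 : ℝ)]
  rw [Real.exp_add, Real.exp_neg, Real.exp_log two_pos]
  nlinarith [Real.exp_pos ρ]

end SV13

open SV13 in
theorem bSV (hPW : St_PW) (hMU : St_MU) (hUPB : St_UPB) (hWGT : St_WGT) : St_SV := by
  obtain ⟨L, -, -, hW⟩ := hWGT
  intro n M _ ι _ _ D X K C J η j ρ U hk hJ hBd hρ hJρ hT hU
  obtain ⟨-, -, -, -, -, -, -, -, -, cS, hS⟩ := hPW n M ι D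
  obtain ⟨-, mes, mo, -⟩ := hMU n M ι D X
  obtain ⟨wc, wadd, wsm, wl, -, -, wcg, -⟩ := hW n M ι D
  have hUo := ((hUPB n M ι D (K.P j)).1 U hU.1.1).1
  have j1 : j ≥ 1 := Nat.pos_of_ne_zero fun h => by norm_num [h] at hk
  have hb := hBd j j1 U hU
  have hI := hU.2
  generalize K.c * j = k at *
  have k0 : 0 < k := by linarith
  obtain ⟨t, ht⟩ : ∃ t, t = -Real.log (k * (J + 1)) := ⟨_, rfl⟩
  have t1 : Real.exp t = (k * (J + 1))⁻¹ := by rw [ht, Real.exp_neg, Real.exp_log (by positivity)]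
  have t2 : Real.exp t ≤ 1 := by rw [t1]; exact inv_le_one_of_one_le₀ (by nlinarith)
  have pa := wsm (1 / k) _ (by positivity) (wl U _ hUo (wadd _ _ (wsm k _ k0.le hρ.2.1) (wc (k * t))))
  obtain ⟨v, hv⟩ : ∃ v : M.X → ℝ, v = fun x => 1 / k * Real.log (normSq (U x) +
    Real.exp (k * (ρ x + 1 / k * X.α x) + k * t)) - 1 / k * X.α x := ⟨_, rfl⟩
  have v0 : ∀ x, Real.exp (k * v x) = normSq (U x) * Real.exp (-X.α x) + Real.exp (k * (ρ x + t)) :=
    fun x => e1 (normSq_nonneg _) k0 (by rw [hv])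
  have v1 : SmO D v := fun d z hz ho => by
    rw [hv]
    exact (pa.1 d z hz ho).sub (contDiffAt_const.mul (X.αp.1 d z hz ho))
  have v2 : Psh D fun x => v x + 1 / k * X.α x := wcg _ _ pa fun x _ => by rw [hv]; ring
  have v3 : ∀ x ∈ off D, v x + -Real.log 2 ≤ C - lw D K.κ x := fun x hx => by
    have a := e2 (normSq_nonneg _) hk (v0 x)
    have b := hb x hx
    have c := Real.exp_le_exp.2 (hρ.2.2 x hx)
    refine Real.exp_le_exp.1 ?_
    rw [Real.exp_add, Real.exp_neg, Real.exp_log two_pos]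
    unfold Cx.ew at b
    nlinarith [mul_le_of_le_one_left (Real.exp_pos (ρ x)).le t2]
  refine ⟨v, v1, v2, ?_, ?_, fun x hx => ⟨?_, ?_, ?_⟩⟩
  · have m : AEMeasurable (fun x => ENNReal.ofReal (Real.exp t * Real.exp (ρ x))) X.μ :=
      ((mes ℝ ρ (cS ℝ ρ hρ.1)).exp.const_mul _).ennreal_ofReal
    calc X.I (fun x => Real.exp (v x))
        ≤ ∫⁻ x, (ENNReal.ofReal (X.ew k U x) + ENNReal.ofReal (Real.exp t * Real.exp (ρ x))) ∂X.μ :=
          lintegral_mono fun x => (ENNReal.ofReal_le_ofReal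
            (e2 (normSq_nonneg _) hk (v0 x))).trans ENNReal.ofReal_add_le
      _ = X.I (X.ew k U) + ENNReal.ofReal (Real.exp t) * X.I fun x => Real.exp (ρ x) := by
          rw [lintegral_add_right' _ m, Cx.I, Cx.I, ← lintegral_const_mul' _ _ ENNReal.ofReal_ne_top]
          simp only [ENNReal.ofReal_mul (Real.exp_pos t).le]
      _ ≤ 1 + ENNReal.ofReal (Real.exp t) * ENNReal.ofReal J := by gcongr
      _ ≤ _ := by
          rw [← ENNReal.ofReal_mul (Real.exp_pos t).le, ENNReal.ofReal_add zero_le_one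
            (by positivity), ENNReal.ofReal_one, t1]
          refine add_le_add_right (ENNReal.ofReal_le_ofReal ?_) _
          rw [inv_mul_le_iff₀ (by positivity)]
          field_simp
          linarith
  · have h := hT (fun x => v x + -Real.log 2) ⟨fun d z hz ho => (v1 d z hz ho).add contDiffAt_const,
      wcg _ _ (wadd _ _ v2 (wc (-Real.log 2))) fun x _ => by ring, v3⟩
    rw [ENNReal.ofReal_mul (by norm_num : (0 : ℝ) ≤ 4)]
    refine le_trans ?_ (mul_le_mul_right h _)
    rw [Cx.I, Cx.I, ← lintegral_const_mul' _ _ ENNReal.ofReal_ne_top]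
    refine lintegral_mono fun x => ?_
    dsimp only
    split_ifs with c
    · rw [← ENNReal.ofReal_mul (by norm_num)]
      exact ENNReal.ofReal_le_ofReal (e3 c)
    · simp
  · have := Real.log_le_sub_one_of_pos (two_pos (α := ℝ))
    linarith [v3 x hx]
  · rw [v0]
    exact le_add_of_nonneg_right (Real.exp_pos _).le
  · rw [v0]
    have := Real.exp_le_one_iff.1 t2
    exact add_le_add_right (Real.exp_le_exp.2 (by nlinarith)) _

end Pool.Agent.Lib.ZL
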