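import Pool.Agent.Lib.ZL.Blue

/-! Project ZL: one chart at each point is enough. -/

open scoped Classical Topology ContDiff Matrix
open Set Complex Filter

noncomputable section

namespace Pool.Agent.Lib.ZL

open Pool.Agent.Lib.SV (E)
open Pool.Agent.Lib.HS32 Pool.Agent.Lib.EX Pool.Agent.Lib.EXS
open Pool.Agent.Lib.EXS.K32

namespace TRF

variable {n : ℕ} {z : E n} {ψ : E n → E n}

theorem lv_comp36 {u : E n → ℝ} (h : HolN ψ z) (hu : ContDiffAt ℝ ∞ u (ψ z)) (v : E n) :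
    lv (u ∘ ψ) z v = lv u (ψ z) (jm ψ z *ᵥ v) := by
  have := (mCHN n ψ z h).2.2.2.2.2.2.2.2.2.2.2 (fun w => (u w : ℂ)) (cd_ofReal hu)
  rw [lv, lv, show (fun x => ((u ∘ ψ) x : ℂ)) = (fun w => (u w : ℂ)) ∘ ψ from rfl, this, nq, nq,
    ← Matrix.mulVec_mulVec, ← Matrix.mulVec_mulVec, Matrix.dotProduct_mulVec (star v),
    Matrix.star_mulVec]

theorem db_comp36 {G : E n → ℂ} (h : HolN ψ z) (hG : ContDiffAt ℝ ∞ G (ψ z)) (v : E n) :
    db (G ∘ ψ) z v = db G (ψ z) (jm ψ z *ᵥ v) := by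
  have := fun j => ((mCHN n ψ z h).2.2.2.2.2.2.2.2.2.1 G (cd_diff hG) j).2
  simp only [db, this, Matrix.mulVec, dotProduct, star_sum, star_mul', Finset.mul_sum,
    Finset.sum_mul]
  rw [Finset.sum_comm]
  exact Finset.sum_congr rfl fun a _ => Finset.sum_congr rfl fun j _ => by ring

theorem db_congr36 {G H : E n → ℂ} (e : G =ᶠ[𝓝 z] H) (v : E n) : db G z v = db H z v := by
  simp only [db, dzb, e.fderiv_eq]

variable {M : Mf n} {ι : Type} [Fintype ι] [DecidableEq ι] (D : Ad M ι)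

omit [Fintype ι] [DecidableEq ι] in
theorem chg36 (d : D.A) (hz : z ∈ B2 n) (ho : Off (D.c d) z) :
    ∃ d' ψ, HolN ψ z ∧ ψ z ∈ B2 n ∧ Off (D.c d') (ψ z) ∧ ‖ψ z‖ ≤ 1 ∧
      ∀ (F : Type) (f : M.X → F), D.rd f d =ᶠ[𝓝 z] D.rd f d' ∘ ψ := by
  have h1 : z ∈ (D.e d).target := (D.tgt d).symm ▸ hz
  have h2 := (D.e d).map_target h1
  have h3 := (D.e d).right_inv h1
  obtain ⟨d', hd⟩ : ∃ d', D.χ d' ((D.e d).symm z) ≠ 0 := by
    by_contra hc
    have := D.sum ((D.e d).symm z)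
    rw [Finset.sum_eq_zero fun a _ => not_not.1 fun h => hc ⟨a, h⟩] at this
    exact zero_ne_one this
  obtain ⟨h4, h5⟩ := D.supp d' _ hd
  refine ⟨d', D.e d' ∘ (D.e d).symm, ?_, D.tgt d' ▸ (D.e d').map_source h4, fun i hi => ?_, h5,
    fun F f => ?_⟩
  · have := ((mTR n M).2.1 _ (D.mem d') _ (D.mem d) _ h4 h2).1
    rwa [h3] at this
  · have := D.urel d d' i _ h2 h4
    rw [h3] at this
    exact ho i (this.trans (mul_eq_zero_of_right _ hi))
  · filter_upwards [((D.e d).continuousAt_symm h1).preimage_mem_nhds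
      ((D.e d').open_source.mem_nhds h4)] with w hw
    exact congrArg f ((D.e d').left_inv hw).symm

end TRF

open TRF

theorem bTRF : St_TRF := by
  refine fun n M _ ι _ _ D => ⟨fun F _ _ f h d z hz ho => ?_,
    fun f hf h => ⟨hf, fun d z hz ho v => ?_⟩, fun G β f hG hf h d z hz ho v => ?_⟩
  all_goals obtain ⟨d', ψ, h1, h2, h3, h4, h5⟩ := chg36 D d hz ho
  · exact ((h d' _ h2 h3 h4).comp z (mCHN n ψ z h1).1).congr_of_eventuallyEq (h5 _ f)
  · rw [lv_congr (h5 _ f), lv_comp36 h1 (hf d' _ h2 h3)]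
    exact h d' _ h2 h3 h4 _
  · rw [lv_congr (h5 _ f), lv_comp36 h1 (hf d' _ h2 h3), db_congr36 (h5 _ G),
      db_comp36 h1 (hG d' _ h2 h3), (h5 _ β).self_of_nhds]
    exact h d' _ h2 h3 h4 _

end Pool.Agent.Lib.ZL
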