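import Pool.Agent.Lib.ZL.Blue

/-! Project ZL, row WGT. -/

open scoped Classical Topology ContDiff ENNReal
open Set MeasureTheory Complex Metric Filter

noncomputable section

namespace Pool.Agent.Lib.ZL

open Pool.Agent.Lib.SV (E)
open Pool.Agent.Lib.HS32 Pool.Agent.Lib.EX Pool.Agent.Lib.EXS
open Pool.Agent.Lib.EXS.K32 (lv lv_add lv_mul lv_const lv_congr lv_lg)

namespace WGT13

theorem ct0 {y : ℝ} (h : y ≤ 2) : ct y = 0 := Real.smoothTransition.zero_of_nonpos (by linarith)

theorem ct1 {y : ℝ} (h : 3 ≤ y) : ct y = 1 := Real.smoothTransition.one_of_one_le (by linarith)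

theorem dct {y : ℝ} (h : ¬ (2 ≤ y ∧ y ≤ 3)) : deriv ct y = 0 := by
  rcases not_and_or.1 h with h | h
  · rw [EventuallyEq.deriv_eq (f := fun _ => 0)
      ((gt_mem_nhds (not_le.1 h)).mono fun w hw => ct0 hw.le), deriv_const]
  · rw [EventuallyEq.deriv_eq (f := fun _ => 1)
      ((lt_mem_nhds (not_le.1 h)).mono fun w hw => ct1 hw.le), deriv_const]

theorem exL : ∃ L : ℝ, 0 < L ∧ ∀ y, 2 ≤ y ∧ y ≤ 3 →
    2 * deriv ct y ^ 2 ≤ L * (Real.exp y / (1 + Real.exp y) ^ 2) := by
  have c : ContDiff ℝ 1 ct :=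
    Real.smoothTransition.contDiff.comp (contDiff_id.sub contDiff_const)
  have c1 := c.continuous_deriv le_rfl
  obtain ⟨B, hB⟩ := (isCompact_Icc (a := (2 : ℝ)) (b := 3)).exists_bound_of_continuousOn
    (f := fun y => 2 * deriv ct y ^ 2 * ((1 + Real.exp y) ^ 2 / Real.exp y))
    (Continuous.continuousOn (Continuous.mul (by fun_prop)
      (Continuous.div (by fun_prop) (by fun_prop) fun y => Real.exp_ne_zero y)))
  refine ⟨|B| + 1, by positivity, fun y hy => ?_⟩
  have h := ((le_abs_self _).trans (hB y hy)).trans ((le_abs_self B).trans (lt_add_one _).le)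
  have e : 2 * deriv ct y ^ 2 = 2 * deriv ct y ^ 2 * ((1 + Real.exp y) ^ 2 / Real.exp y) *
      (Real.exp y / (1 + Real.exp y) ^ 2) := by field_simp
  rw [e]
  exact mul_le_mul_of_nonneg_right h (by positivity)

theorem nsq2 (a b : ℂ) : normSq (a + b) ≤ 2 * normSq a + 2 * normSq b := by
  simp only [normSq_apply, add_re, add_im]
  nlinarith [sq_nonneg (a.re - b.re), sq_nonneg (a.im - b.im)]

end WGT13

open WGT13 in
theorem bWGT (hL : St_LEV) : St_WGT := by
  obtain ⟨L, L0, hb⟩ := exL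
  refine ⟨L, L0, fun y => ⟨Real.smoothTransition.nonneg _, Real.smoothTransition.le_one _, ct0,
    ct1⟩, fun n M _ ι _ _ D => ?_⟩
  have h1 : ∀ t : ℝ, Psh D fun _ => t := fun t =>
    ⟨fun d z _ _ => contDiffAt_const, fun d z _ _ v => (lv_const t v).ge⟩
  have h2 : ∀ a b, Psh D a → Psh D b → Psh D fun x => a x + b x := fun a b ha hb =>
    ⟨fun d z hz ho => (ha.1 d z hz ho).add (hb.1 d z hz ho), fun d z hz ho v =>
      (add_nonneg (ha.2 d z hz ho v) (hb.2 d z hz ho v)).trans_eq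
        (lv_add (ha.1 d z hz ho) (hb.1 d z hz ho) v).symm⟩
  have h3 : ∀ (t : ℝ) a, 0 ≤ t → Psh D a → Psh D fun x => t * a x := fun t a ht ha =>
    ⟨fun d z hz ho => contDiffAt_const.mul (ha.1 d z hz ho), fun d z hz ho v =>
      (mul_nonneg ht (ha.2 d z hz ho v)).trans_eq (lv_mul (ha.1 d z hz ho) t v).symm⟩
  have h5 : ∀ a b, Psh D a → Psh D b →
      Psh D fun x => Real.log (Real.exp (a x) + Real.exp (b x)) := fun a b ha hb =>
    ⟨fun d z hz ho => ((hL n z 0).2.1 _ _ (ha.1 d z hz ho) (hb.1 d z hz ho) (ha.2 d z hz ho 0)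
      (hb.2 d z hz ho 0)).1, fun d z hz ho v => le_trans (mul_nonneg (by positivity)
        (normSq_nonneg _)) ((hL n z v).2.1 _ _ (ha.1 d z hz ho) (hb.1 d z hz ho)
          (ha.2 d z hz ho v) (hb.2 d z hz ho v)).2⟩
  have h9 : ∀ a b f g G β (δ ε : ℝ), 0 < δ → 0 < ε → Psh D a → Psh D b → Psh D f → Psh D g →
      SmO D G → (∀ x ∈ off D, 0 ≤ β x) → Dom D G β g →
      SmO D (fun x => (ct (a x - b x) : ℂ) * G x) ∧ Dom D (fun x => (ct (a x - b x) : ℂ) * G x)
        (fun x => (if 2 ≤ a x - b x ∧ a x - b x ≤ 3 then L / δ * normSq (G x) else 0) +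
          if 2 ≤ a x - b x then 2 / ε * β x else 0)
        fun x => f x + δ * Real.log (Real.exp (a x) + Real.exp (b x)) + ε * g x := by
    intro a b f g G β δ ε hδ hε ha hb' hf hg hG hβ hd
    refine ⟨fun d z hz ho => ((hL n z 0).2.2 _ _ ((ha.1 d z hz ho).sub (hb'.1 d z hz ho))
      (hG d z hz ho)).1, fun d z hz ho v => ?_⟩
    have a1 := ((hL n z v).2.2 _ _ ((ha.1 d z hz ho).sub (hb'.1 d z hz ho)) (hG d z hz ho)).2.1
    obtain ⟨a2, a3⟩ := (hL n z v).2.1 _ _ (ha.1 d z hz ho) (hb'.1 d z hz ho) (ha.2 d z hz ho v)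
      (hb'.2 d z hz ho v)
    have a4 := lv_add ((hf.1 d z hz ho).add (contDiffAt_const (c := δ).mul a2))
      (contDiffAt_const (c := ε).mul (hg.1 d z hz ho)) v
    rw [lv_add (hf.1 d z hz ho) (contDiffAt_const.mul a2), lv_mul a2, lv_mul (hg.1 d z hz ho)] at a4
    have a5 := hd d z hz ho v
    have a6 := hf.2 d z hz ho v
    have a7 := hg.2 d z hz ho v
    have a8 : 0 ≤ D.rd β d z :=
      hβ _ ((GLU.mem_off (GLU.mem_src d hz)).2 (by rwa [GLU.rinv d hz]))
    refine le_trans (le_of_eq (congrArg normSq a1)) (le_trans ?_ (le_of_eq (congrArg _ a4.symm)))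
    refine (nsq2 _ _).trans ?_
    change _ ≤ ((if 2 ≤ D.rd a d z - D.rd b d z ∧ D.rd a d z - D.rd b d z ≤ 3 then
      L / δ * normSq (D.rd G d z) else 0) +
        if 2 ≤ D.rd a d z - D.rd b d z then 2 / ε * D.rd β d z else 0) * _
    simp only [normSq_mul, normSq_ofReal]
    have P0 := normSq_nonneg (db (fun y => ((D.rd a d y - D.rd b d y : ℝ) : ℂ)) z v)
    have N0 := normSq_nonneg (D.rd G d z)
    generalize D.rd a d z - D.rd b d z = y at *
    generalize normSq (db (fun y => ((D.rd a d y - D.rd b d y : ℝ) : ℂ)) z v) = P at *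
    generalize lv (fun y => Real.log (Real.exp (D.rd a d y) + Real.exp (D.rd b d y))) z v = Q at *
    have Q0 : 0 ≤ Q := le_trans (by positivity) a3
    have T1 : δ * Q ≤ lv (D.rd f d) z v + δ * Q + ε * lv (D.rd g d) z v := by
      nlinarith [mul_nonneg hε.le a7]
    have T2 : ε * lv (D.rd g d) z v ≤ lv (D.rd f d) z v + δ * Q + ε * lv (D.rd g d) z v := by
      nlinarith [mul_nonneg hδ.le Q0]
    rw [add_mul]
    refine add_le_add ?_ ?_
    · split_ifs with c
      · refine le_trans ?_ (mul_le_mul_of_nonneg_left T1 (by positivity))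
        have e : L / δ * normSq (D.rd G d z) * (δ * Q) = L * Q * normSq (D.rd G d z) := by
          field_simp
        rw [e, ← mul_assoc]
        refine mul_le_mul_of_nonneg_right ?_ N0
        nlinarith [mul_le_mul_of_nonneg_right (hb y c) P0, mul_le_mul_of_nonneg_left a3 L0.le]
      · simp [dct c]
    · split_ifs with c
      · refine le_trans ?_ (mul_le_mul_of_nonneg_left T2 (by positivity))
        have e : 2 / ε * D.rd β d z * (ε * lv (D.rd g d) z v) =
            2 * (D.rd β d z * lv (D.rd g d) z v) := by field_simp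
        have c0 : 0 ≤ ct y := Real.smoothTransition.nonneg _
        have c1 : ct y ≤ 1 := Real.smoothTransition.le_one _
        rw [e]
        exact mul_le_mul_of_nonneg_left ((mul_le_of_le_one_left (normSq_nonneg _)
          (mul_le_one₀ c1 c0 c1)).trans a5) zero_le_two
      · simp [ct0 (not_le.1 c).le]
  refine ⟨h1, h2, h3, fun U ψ hU hψ => ⟨fun d z hz ho => ((hL n z 0).1 _ _ (hU d z hz ho)
    (hψ.1 d z hz ho) (hψ.2 d z hz ho 0)).1, fun d z hz ho v => ((hL n z v).1 _ _ (hU d z hz ho)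
      (hψ.1 d z hz ho) (hψ.2 d z hz ho v)).2⟩, h5, fun r G hG hp => ?_, fun a b ha e => ?_,
    fun a b f U ha hb' hf hU => ?_, h9⟩
  · have k : OA D fun d z => HolN (fun w a => D.rd (G a) d w) z ∧
        (fun a => D.rd (G a) d z) ≠ 0 := fun d z hz ho =>
      ⟨(eventually_all.2 fun a => hG a d z hz ho).mono fun w hw => differentiableAt_pi.2 hw,
        fun h => (hp _ ((GLU.mem_off (GLU.mem_src d hz)).2 (by rwa [GLU.rinv d hz]))).ne'
          (Finset.sum_eq_zero fun a _ => normSq_eq_zero.2 (congrFun h a))⟩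
    exact ⟨fun d z hz ho => (lv_lg (k d z hz ho).1 (k d z hz ho).2).1,
      fun d z hz ho v => ((lv_lg (k d z hz ho).1 (k d z hz ho).2).2 v).1⟩
  · have k : OA D fun d z => D.rd b d =ᶠ[𝓝 z] D.rd a d := fun d z hz ho => by
      filter_upwards [isOpen_ball.eventually_mem hz, MON.off_ev ho] with w h1 h2
      exact (e _ ((GLU.mem_off (GLU.mem_src d h1)).2 (by rwa [GLU.rinv d h1]))).symm
    exact ⟨fun d z hz ho => (ha.1 d z hz ho).congr_of_eventuallyEq (k d z hz ho),
      fun d z hz ho v => (ha.2 d z hz ho v).trans_eq (lv_congr (k d z hz ho) v).symm⟩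
  · have sU : SmO D U := fun d z hz ho => K32.hol_cd (hU d z hz ho)
    obtain ⟨k1, k2⟩ := h9 a b f (fun _ => 0) U (fun _ => 0) 1 1 one_pos one_pos ha hb' hf (h1 0) sU
      (fun _ _ => le_rfl) fun d z hz ho v => by
        rw [((hL n z v).2.2 (fun _ => 0) _ contDiffAt_const (sU d z hz ho)).2.2 (hU d z hz ho)]
        simp [Ad.rd]
    simp only [div_one, mul_zero, ite_self, add_zero, one_mul] at k2
    exact ⟨k1, k2⟩

end Pool.Agent.Lib.ZL
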