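import Pool.Agent.Lib.ZL.Blue

/-! Project ZL: row ZN. -/

open scoped Classical Topology ContDiff ENNReal
open Set MeasureTheory Complex Metric Filter

noncomputable section

namespace Pool.Agent.Lib.ZL

open Pool.Agent.Lib.SV (E)
open Pool.Agent.Lib.HS32 Pool.Agent.Lib.EX Pool.Agent.Lib.EXS

namespace ZN

theorem ex_le {r : ℕ} {y : ℝ} (g : Fin r → ℝ) (hy : 0 < y) (h : y ≤ ∑ a, g a) :
    ∃ a, y ≤ r * g a := by
  by_contra hc
  push Not at hc
  rcases Nat.eq_zero_or_pos r with rfl | hr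
  · simp at h; linarith
  · have : Nonempty (Fin r) := ⟨⟨0, hr⟩⟩
    have h1 := Finset.sum_lt_sum_of_nonempty (s := Finset.univ) Finset.univ_nonempty
      fun a _ => hc a
    rw [← Finset.mul_sum, Finset.sum_const, Finset.card_univ, Fintype.card_fin, nsmul_eq_mul] at h1
    have h2 : (0 : ℝ) < r := by exact_mod_cast hr
    nlinarith

theorem pw_le {k s l B q : ℝ} (hk : 0 < k) (hs : 0 < s) (hB : 0 ≤ B) (hq : 0 ≤ q)
    (h : Real.exp (-(k * l)) ≤ B * q) :
    Real.exp (-((1 + s) * l)) ≤ (B ^ (1 / k)) ^ (1 + s) * (q ^ (1 / k)) ^ (1 + s) := by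
  rw [← Real.mul_rpow (by positivity) (by positivity), ← Real.mul_rpow hB hq]
  have e : Real.exp (-((1 + s) * l)) = (Real.exp (-(k * l)) ^ (1 / k)) ^ (1 + s) := by
    rw [← Real.exp_mul, ← Real.exp_mul]; congr 1; field_simp
  rw [e]
  gcongr

end ZN

theorem bZN (hPW : St_PW) (hMU : St_MU) (hUPB : St_UPB) (hWGT : St_WGT) (hSUP : St_SUP)
    (hENV : St_ENV) (hZ : St_Z) : St_ZN := by
  intro n M _ ι _ _ D X K ν hν hG
  obtain ⟨-, -, ladd, -, lsm, -, -, -, -, hcont, hho⟩ := hPW n M ι D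
  obtain ⟨hoff, hmeas, -, -, -⟩ := hMU n M ι D X
  obtain ⟨L, -, -, hW⟩ := hWGT
  obtain ⟨-, -, pmul, -, -, plog, -, -, -⟩ := hW n M ι D
  clear hW
  obtain ⟨⟨C, hC⟩, hnr, -⟩ := hSUP n M ι D X K
  obtain ⟨hmono, henv⟩ := hENV n M ι D X K C
  obtain ⟨Ca, hCa⟩ := X.αb
  have hc := K.c0
  have gen : ∀ j : ℕ, ∃ (r : ℕ) (G : Fin r → M.X → ℂ) (B : ℝ), (∀ a, Sp D (K.P j) (G a)) ∧
      ∀ x ∈ off D, Real.exp (-(K.c * j * lw D (fun i => ν i / K.c) x) - lw D (fun i => X.e i) x)
        ≤ B * ∑ a, normSq (G a x) := fun j => by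
    obtain ⟨r, G, B, h1, h2⟩ := (hUPB n M ι D _).2.2.2.2.2.2 (hG j)
    refine ⟨r, G, B, fun a => ⟨(hUPB n M ι D _).2.2.1 _ _ (fun i => ?_) (h1 a).1, (h1 a).2⟩,
      fun x hx => le_trans (le_of_eq ?_) (h2 x hx)⟩
    · exact add_le_add_left (mul_le_mul_of_nonneg_left (hν i) (Int.natCast_nonneg j)) _
    · have e : (fun i => (((j : ℤ) * ν i + X.e i : ℤ) : ℝ))
          = (K.c * j) • (fun i => (ν i : ℝ) / K.c) + fun i => (X.e i : ℝ) := by
        funext i
        simp only [Pi.add_apply, Pi.smul_apply, smul_eq_mul]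
        push_cast
        field_simp
      rw [e, ladd, lsm]
      congr 1; ring
  have hP : ∀ (j : ℕ) x, lw D (fun i => K.P j i) x
      = K.c * j * lw D K.κ x + lw D (fun i => X.e i) x := fun j x => by
    have e : (fun i => (K.P j i : ℝ)) = (K.c * j) • K.κ + fun i => (X.e i : ℝ) := by
      funext i
      simp only [Pi.add_apply, Pi.smul_apply, smul_eq_mul, Kl.P, Kl.κ]
      push_cast
      field_simp
    rw [e, ladd, lsm]
  have hcl : ∀ ε > (0 : ℝ), ∃ C' σ, X.Cl K.κ C' ε σ := fun ε hε => by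
    obtain ⟨j, hj⟩ := exists_nat_gt (1 / (K.c * ε))
    have hj0 : (0 : ℝ) < j := lt_trans (by positivity) hj
    have hk : 0 < K.c * j := by positivity
    have hle : 1 / (K.c * j) ≤ ε := by
      rw [div_lt_iff₀ (by positivity)] at hj
      rw [div_le_iff₀ hk]; nlinarith
    obtain ⟨r, G, B, h1, h2⟩ := gen j
    have hpos : ∀ x ∈ off D, 0 < ∑ a, normSq (G a x) := fun x hx => by
      refine lt_of_le_of_ne (Finset.sum_nonneg fun a _ => normSq_nonneg _) fun h0 => ?_
      have := h2 x hx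
      rw [← h0, mul_zero] at this
      exact absurd this (not_le.2 (Real.exp_pos _))
    have hps := pmul _ _ (one_div_pos.2 hk).le
      (plog r G (fun a => ((hUPB n M ι D _).1 _ (h1 a).1).1) hpos)
    choose b hb using fun a => (hUPB n M ι D _).2.2.2.2.1 _ (h1 a).1
    refine ⟨1 / (K.c * j) * (Real.log (∑ a, b a) + Ca), fun x =>
      1 / (K.c * j) * Real.log (∑ a, normSq (G a x)) - 1 / (K.c * j) * X.α x,
      (hENV n M ι D X K _).1 _ _ _ hle ⟨fun d z hz ho => ?_, ?_, fun x hx => ?_⟩⟩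
    · exact (hps.1 d z hz ho).sub (contDiffAt_const.mul (X.αp.1 d z hz ho))
    · simpa only [sub_add_cancel] using hps
    · have a1 : ∑ a, normSq (G a x) ≤ (∑ a, b a) * Real.exp (-lw D (fun i => K.P j i) x) := by
        rw [Finset.sum_mul]; exact Finset.sum_le_sum fun a _ => hb a x hx
      have a2 : 0 < ∑ a, b a :=
        (mul_pos_iff_of_pos_right (Real.exp_pos _)).1 ((hpos x hx).trans_le a1)
      have a3 := Real.log_le_log (hpos x hx) a1
      rw [Real.log_mul a2.ne' (Real.exp_pos _).ne', Real.log_exp, hP] at a3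
      have a4 := (abs_le.1 (hCa x hx)).1
      have a5 : lw D K.κ x = 1 / (K.c * j) * (K.c * j * lw D K.κ x) := by field_simp
      beta_reduce
      rw [a5, ← mul_sub, ← mul_sub]
      exact mul_le_mul_of_nonneg_left (by linarith) (one_div_pos.2 hk).le
  obtain ⟨ρ, hρ⟩ := henv hcl
  refine ⟨C, ρ, hC C le_rfl, hρ, fun s hs => ?_⟩
  obtain ⟨j, hj1, hj⟩ := hZ n M ι D X K C ρ (hC C le_rfl) hρ s hs
  obtain ⟨A, ε₁, hε₁, hA⟩ := hj j le_rfl
  have hj0 : (0 : ℝ) < j := by exact_mod_cast hj1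
  have hk : 0 < K.c * j := by positivity
  obtain ⟨r, G, B, h1, h2⟩ := gen j
  choose t ht hN using fun a => hnr j hj1 (G a) (h1 a)
  set B1 : ℝ := r * (|B| * Real.exp Ca * ∑ a, 1 / t a ^ 2) with hB1
  have hB0 : 0 ≤ B1 := by
    have : 0 ≤ ∑ a, 1 / t a ^ 2 := Finset.sum_nonneg fun a _ => by positivity
    positivity
  set B2 : ℝ := (B1 ^ (1 / (K.c * j))) ^ (1 + s) with hB2
  have hB20 : 0 ≤ B2 := by positivity
  refine ⟨B2 * (r * max A 0), ε₁, hε₁, fun ε hε hle => ?_⟩
  let g : Fin r → M.X → ℝ := fun a x =>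
    X.ew (K.c * j) ((t a : ℂ) • G a) x ^ (1 + s) * Real.exp (-(s * ρ ε x))
  have g0 : ∀ a x, 0 ≤ g a x := fun a x => by
    have := normSq_nonneg (((t a : ℂ) • G a) x)
    simp only [g, Cx.ew]
    positivity
  have gm : ∀ a, AEMeasurable (g a) X.μ := fun a => by
    refine hmeas ℝ _ ?_
    have c1 := hcont ℂ _ (hho _ ((hUPB n M ι D _).1 _ (hN a).1.1).1)
    have c2 := hcont ℝ _ X.αp.1
    have c3 := hcont ℝ _ (hρ.1 ε hε).1
    exact ((((continuous_normSq.comp_continuousOn c1).mul c2.neg.rexp).rpow_const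
      fun x _ => Or.inr (one_div_pos.2 hk).le).rpow_const
      fun x _ => Or.inr (by linarith)).mul (continuousOn_const.mul c3).neg.rexp
  have key : ∀ x ∈ off D, Real.exp (-((1 + s) * lw D (fun i => ν i / K.c) x) - s * ρ ε x)
      ≤ B2 * ∑ a, g a x := fun x hx => by
    have a4 := (abs_le.1 (hCa x hx)).2
    have a1 : Real.exp (-(K.c * j * lw D (fun i => ν i / K.c) x))
        ≤ ∑ a, |B| * Real.exp Ca * (normSq (G a x) * Real.exp (-X.α x)) := by
      have b1 : 0 ≤ ∑ a, normSq (G a x) := Finset.sum_nonneg fun a _ => normSq_nonneg _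
      have b2 := (h2 x hx).trans (mul_le_mul_of_nonneg_right (le_abs_self B) b1)
      rw [← Finset.mul_sum, ← Finset.sum_mul]
      calc _ ≤ Real.exp ((-(K.c * j * lw D (fun i => ν i / K.c) x) - lw D (fun i => X.e i) x)
            + (Ca + -X.α x)) := Real.exp_le_exp.2 (by linarith)
        _ ≤ (|B| * ∑ a, normSq (G a x)) * (Real.exp Ca * Real.exp (-X.α x)) := by
            rw [Real.exp_add, Real.exp_add Ca]
            exact mul_le_mul_of_nonneg_right b2 (by positivity)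
        _ = _ := by ring
    obtain ⟨a, ha⟩ := ZN.ex_le _ (Real.exp_pos _) a1
    have hta := ht a
    have a2 : normSq (G a x) = 1 / t a ^ 2 * normSq (((t a : ℂ) • G a) x) := by
      rw [Pi.smul_apply, smul_eq_mul, map_mul, normSq_ofReal]; field_simp
    have q0 : 0 ≤ normSq (((t a : ℂ) • G a) x) * Real.exp (-X.α x) :=
      mul_nonneg (normSq_nonneg _) (Real.exp_pos _).le
    have a3 : 1 / t a ^ 2 ≤ ∑ a, 1 / t a ^ 2 :=
      Finset.single_le_sum (f := fun a => 1 / t a ^ 2) (fun a _ => by positivity)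
        (Finset.mem_univ a)
    have a5 : Real.exp (-(K.c * j * lw D (fun i => ν i / K.c) x))
        ≤ B1 * (normSq (((t a : ℂ) • G a) x) * Real.exp (-X.α x)) := by
      refine ha.trans ?_
      rw [a2, hB1, mul_assoc (1 / t a ^ 2), ← mul_assoc (|B| * Real.exp Ca), ← mul_assoc]
      gcongr
    have a6 := ZN.pw_le hk hs hB0 q0 a5
    rw [sub_eq_add_neg, Real.exp_add]
    calc _ ≤ B2 * g a x := by
          rw [show B2 * g a x = B2 * X.ew (K.c * j) ((t a : ℂ) • G a) x ^ (1 + s)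
            * Real.exp (-(s * ρ ε x)) from (mul_assoc _ _ _).symm]
          exact mul_le_mul_of_nonneg_right a6 (Real.exp_pos _).le
      _ ≤ _ := mul_le_mul_of_nonneg_left
          (Finset.single_le_sum (f := fun a => g a x) (fun a _ => g0 a x) (Finset.mem_univ a)) hB20
  calc _ ≤ ∫⁻ x, ENNReal.ofReal B2 * ∑ a, ENNReal.ofReal (g a x) ∂X.μ := by
        refine lintegral_mono_ae (hoff.mono fun x hx => ?_)
        rw [← ENNReal.ofReal_sum_of_nonneg fun a _ => g0 a x, ← ENNReal.ofReal_mul hB20]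
        exact ENNReal.ofReal_le_ofReal (key x hx)
    _ = ENNReal.ofReal B2 * ∑ a, X.I (g a) := by
        rw [lintegral_const_mul' _ _ ENNReal.ofReal_ne_top,
          lintegral_finsetSum' _ fun a _ => (gm a).ennreal_ofReal]
        rfl
    _ ≤ ENNReal.ofReal B2 * ∑ _a : Fin r, ENNReal.ofReal (max A 0) := by
        gcongr with a
        exact (hA ε hε hle _ (hN a)).trans (ENNReal.ofReal_le_ofReal (le_max_left _ _))
    _ = _ := by
        rw [← ENNReal.ofReal_sum_of_nonneg fun _ _ => le_max_right _ _, ← ENNReal.ofReal_mul hB20,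
          Finset.sum_const, Finset.card_univ, Fintype.card_fin, nsmul_eq_mul]

end Pool.Agent.Lib.ZL
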