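import Pool.Agent.Lib.ZL.B_PW
import Pool.Agent.Lib.ZL.B_TRF
import Pool.Agent.Lib.ZL.B_LEV
import Pool.Agent.Lib.ZL.B_POL
import Pool.Agent.Lib.ZL.B_POG
import Pool.Agent.Lib.ZL.B_RES
import Pool.Agent.Lib.ZL.B_ARI
import Pool.Agent.Lib.ZL.B_HOL
import Pool.Agent.Lib.ZL.B_ITR
import Pool.Agent.Lib.ZL.B_MU
import Pool.Agent.Lib.ZL.B_UPB
import Pool.Agent.Lib.ZL.B_FIN
import Pool.Agent.Lib.ZL.B_SUP
import Pool.Agent.Lib.ZL.B_WGT
import Pool.Agent.Lib.ZL.B_BAS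
import Pool.Agent.Lib.ZL.B_ENV
import Pool.Agent.Lib.ZL.B_SV
import Pool.Agent.Lib.ZL.B_SPL
import Pool.Agent.Lib.ZL.B_Z
import Pool.Agent.Lib.ZL.B_ZN
import Pool.Agent.Lib.ZL.B_AVG
import Pool.Agent.Lib.ZL.B_EST
import Pool.Agent.Lib.ZL.B_CLO
import Pool.Agent.Lib.ZL.B_LFT
import Pool.Agent.Lib.ZL.B_E
import Pool.Agent.Lib.ZL.B_EXT

/-! Project ZL: the rows of the analytic core without hypotheses. -/

namespace Pool.Agent.Lib.ZL

theorem st_MU : St_MU := bMU bPW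

theorem st_UPB : St_UPB := bUPB bPW

theorem st_WGT : St_WGT := bWGT bLEV

theorem st_POG : St_POG := bPOG bPOL st_MU

theorem st_FIN : St_FIN := bFIN st_UPB

theorem st_SUP : St_SUP := bSUP bPW st_MU st_UPB

theorem st_BAS : St_BAS := bBAS st_FIN st_SUP

theorem st_ENV : St_ENV := bENV bPW st_MU st_WGT

theorem st_SV : St_SV := bSV bPW st_MU st_UPB st_WGT

theorem st_SPL : St_SPL := bSPL bPW st_MU st_UPB st_WGT st_POG bHOL st_SV st_SUP

/-- Theorem Z for envelope families. -/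
theorem st_Z : St_Z := bZ bPW st_MU st_UPB st_BAS st_ENV st_SPL bITR

/-- Theorem Z for nef klt pairs. -/
theorem st_ZN : St_ZN := bZN bPW st_MU st_UPB st_WGT st_SUP st_ENV st_Z

theorem st_AVG : St_AVG := bAVG bPW bTRF

theorem st_EST : St_EST := bEST bPW st_MU st_WGT

theorem st_CLO : St_CLO := bCLO st_FIN

theorem st_LFT : St_LFT := bLFT st_MU st_UPB bPOL bRES st_CLO

theorem st_E : St_E := bE st_UPB st_ZN st_AVG st_EST st_LFT bARI

/-- The extension theorem. -/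
theorem st_EXT : St_EXT := bEXT st_E

end Pool.Agent.Lib.ZL
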