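import Pool.Agent.Lib.ZL.Blue2
import Pool.Agent.Lib.ZL.B_MU
import Pool.Agent.Lib.EX.K1O

/-! Project ZL, row BR2: from the manifold layer to the statement. -/

open scoped Classical Topology ContDiff ENNReal Manifold
open Set MeasureTheory Complex Metric Filter

noncomputable section

namespace Pool.Agent.Lib.ZL

open Pool.Agent.Lib.SV (E)
open Pool.Agent.Lib.HS32 Pool.Agent.Lib.EX Pool.Agent.Lib.EXS
open Pool.Agent.Lib.HS.BBR (mf)

namespace BR2

theorem exp_le {s a b B : ℝ} (hs : 0 < s) (h : b ≤ a + B) (t : EReal) :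
    EReal.exp (-(s * (t + a))) ≤
      ENNReal.ofReal (Real.exp (s * B)) * EReal.exp (-(s * (t + b))) := by
  induction t with
  | bot =>
    rw [EReal.bot_add, EReal.bot_add, EReal.coe_mul_bot_of_pos hs, EReal.neg_bot, EReal.exp_top,
      ENNReal.mul_top (by simpa using Real.exp_pos _)]
  | coe t =>
    simp only [← EReal.coe_add, ← EReal.coe_mul, ← EReal.coe_neg, EReal.exp_coe]
    rw [← ENNReal.ofReal_mul (Real.exp_pos _).le, ← Real.exp_add]
    exact ENNReal.ofReal_le_ofReal (Real.exp_le_exp.2 (by nlinarith))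
  | top =>
    rw [EReal.top_add_coe, EReal.coe_mul_top_of_pos hs, EReal.neg_top, EReal.exp_bot]
    exact bot_le

variable {n : ℕ} {M : Mf n} {ι : Type} [Fintype ι] [DecidableEq ι] {D : Ad M ι}

/-- Local integrals in any chart are bounded by the global integral. -/
theorem loc [M.Cpt] (hPW : St_PW) (X : Cx D) {c : M.Ch} (hc : c ∈ M.C) {d : D.A} {y : M.X}
    (h1 : y ∈ c.source) (h2 : y ∈ (D.e d).source) (h3 : ‖D.e d y‖ ≤ 1) :
    ∃ N ∈ 𝓝 y, ∃ K : ℝ, ∀ O, IsOpen O → O ⊆ N → ∀ (Φ Ψ : M.X → ℝ≥0∞) (t : ℝ≥0∞), t ≠ ⊤ →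
      (∀ x ∈ O, x ∈ off D → Φ x ≤ t * Ψ x) → ∫⁻ z in c.target ∩ c.symm ⁻¹' O, Φ (c.symm z) ≤
        ENNReal.ofReal K * t * ∫⁻ x, Ψ x * ENNReal.ofReal (Real.exp (-lw D X.o x)) ∂X.μ := by
  obtain ⟨C, -, hC⟩ := (hPW n M ι D).2.2.2.2.2.2.2.2.1 (3 / 2) (by norm_num)
  obtain ⟨a, b, a0, -, hw⟩ := MU.bds X (r := 3 / 2) (by norm_num)
  set e := D.e d with he
  have t1 : HolN (c ∘ e.symm) (e y) := ((mTR n M).2.1 c hc e (D.mem d) y h1 h2).1
  have t2 : ContinuousAt (fun w => normSq (jm (c ∘ e.symm) w).det) (e y) :=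
    continuous_normSq.continuousAt.comp (mCHN n _ _ t1).2.2.2.2.1.self_of_nhds.continuousAt
  set J := normSq (jm (c ∘ e.symm) (e y)).det + 1 with hJ
  have J0 : 0 ≤ J := by have := normSq_nonneg (jm (c ∘ e.symm) (e y)).det; linarith
  have ev : ∀ᶠ x in 𝓝 y, x ∈ c.source ∧ x ∈ e.source ∧ (‖e x‖ < 3 / 2 ∧
      normSq (jm (c ∘ e.symm) (e x)).det < J) ∧ DifferentiableAt ℂ (c ∘ e.symm) (e x) :=
    (c.open_source.eventually_mem h1).and ((e.open_source.eventually_mem h2).and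
      ((e.continuousAt h2).eventually (((continuous_norm.continuousAt.eventually_lt
        continuousAt_const (by linarith)).and (t2.eventually_lt continuousAt_const
          (lt_add_one _))).and t1)))
  refine ⟨_, ev, J * (Real.exp (C * ∑ i, |X.o i|) / a), fun O hO hs Φ Ψ t ht h => ?_⟩
  have o := e.isOpen_inter_preimage_symm hO
  have im : c.target ∩ c.symm ⁻¹' O = (c ∘ e.symm) '' (e.target ∩ e.symm ⁻¹' O) := by
    ext z
    refine ⟨fun hz => ⟨e (c.symm z), ⟨e.map_source (hs hz.2).2.1, ?_⟩, ?_⟩, ?_⟩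
    · rw [mem_preimage, e.left_inv (hs hz.2).2.1]
      exact hz.2
    · rw [Function.comp_apply, e.left_inv (hs hz.2).2.1, c.right_inv hz.1]
    · rintro ⟨w, hw, rfl⟩
      refine ⟨c.map_source (hs hw.2).1, ?_⟩
      rw [mem_preimage, Function.comp_apply, c.left_inv (hs hw.2).1]
      exact hw.2
  have k : ∀ w ∈ e.target ∩ e.symm ⁻¹' O, (‖w‖ < 3 / 2 ∧ normSq (jm (c ∘ e.symm) w).det < J) ∧
      DifferentiableAt ℂ (c ∘ e.symm) w := fun w hw => by
    have := (hs hw.2).2.2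
    rwa [e.right_inv hw.1] at this
  rw [im, lintegral_image_eq_lintegral_abs_det_fderiv_mul volume o.measurableSet
    (f' := fun w => fderiv ℝ (c ∘ e.symm) w)
    (fun w hw => ((k w hw).2.restrictScalars ℝ).hasFDerivAt.hasFDerivWithinAt)
    fun z hz w hw hzw => e.symm.injOn hz.1 hw.1 (c.injOn (hs hz.2).1 (hs hw.2).1 hzw)]
  refine le_trans ?_ (mul_le_mul_right (setLIntegral_le_lintegral e.source _) _)
  rw [he, MU.chg, ← lintegral_const_mul' _ _ (ENNReal.mul_ne_top ENNReal.ofReal_ne_top ht)]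
  refine le_trans (lintegral_mono_ae ?_) (lintegral_mono_set fun w hw => D.tgt d ▸ hw.1)
  filter_upwards [ae_restrict_of_ae (MON.off_ae (D.c d)), ae_restrict_mem o.measurableSet]
    with w ho hw'
  obtain ⟨⟨k1, k2⟩, k3⟩ := k w hw'
  have k4 : (D.e d).symm w ∈ off D := by
    rw [GLU.mem_off (hs hw'.2).2.1, (D.e d).right_inv hw'.1]
    exact ho
  rw [BCHN.det_real k3, abs_of_nonneg (normSq_nonneg _), Function.comp_apply,
    c.left_inv (hs hw'.2).1]
  have p := (MON.xr_pos X.o ho).le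
  have q := normSq_nonneg (X.w d w)
  have k5 : ENNReal.ofReal (normSq (jm (c ∘ (D.e d).symm) w).det) ≤
      ENNReal.ofReal (J * (Real.exp (C * ∑ i, |X.o i|) / a)) * (ENNReal.ofReal
        (normSq (X.w d w) ^ (1 / X.m : ℝ) * xr (D.c d) X.o w) *
          ENNReal.ofReal (Real.exp (-lw D X.o ((D.e d).symm w)))) := by
    rw [← ENNReal.ofReal_mul (by positivity), ← ENNReal.ofReal_mul (by positivity)]
    refine ENNReal.ofReal_le_ofReal (k2.le.trans ?_)
    have h4 := (hw d w (mem_closedBall_zero_iff.2 k1.le)).1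
    have h5 : Real.exp (lw D X.o ((D.e d).symm w)) ≤ _ := (hC X.o d w k1.le ho).2
    rw [mul_assoc]
    refine le_mul_of_one_le_right J0 ?_
    rw [Real.exp_neg, ← mul_assoc, ← div_eq_mul_inv, one_le_div (Real.exp_pos _)]
    calc _ ≤ _ := h5
      _ = Real.exp (C * ∑ i, |X.o i|) / a * (a * xr (D.c d) X.o w) := by field_simp
      _ ≤ _ := by gcongr
  refine (mul_le_mul' k5 (h _ hw'.2 k4)).trans_eq ?_
  ring

end BR2

theorem bBR2 (hPW : St_PW) (hU : EX.St_UNI) : St_BR2 := by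
  intro n Y I _ _ _ _ _ _ _ _ S k p D X ψ C₀ hF hE h1 h2 h3 y
  have : (mf n Y).Cpt := ⟨‹_›, ‹_›, ‹_›⟩
  obtain ⟨h, hh⟩ := hE y
  obtain ⟨d, d1, d2⟩ := (hPW n _ I D).2.1 y
  obtain ⟨C, C0, hC⟩ := (hPW n _ I D).2.2.2.2.2.2.2.2.1 (3 / 2) (by norm_num)
  have hc := K1.ch_mf (n := n) y
  have hy := mem_chart_source (E n) y
  obtain ⟨N, hN, K, hK⟩ := BR2.loc hPW X hc hy d1 d2
  obtain ⟨u, u1, u2⟩ := K1.eqs_unit (Y := Y) hU (D.mem d) ((D.e d).map_source d1)
    (K1.fit_ev hF d (GLU.mem_B2 d1)) (h := h)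
      ((congrArg (fun x : Y => Eqs n S x h) ((D.e d).left_inv d1)).mpr hh)
  set B : ℝ := ∑ i, (|Real.log (normSq (u i (D.e d y)))| + 1) with hB
  have u3 : ∀ᶠ w in 𝓝 (D.e d y), ∀ i, u i w ≠ 0 ∧ |Real.log (normSq (u i w))| ≤ B :=
    eventually_all.2 fun i => by
      have c1 := (u1 i).1.self_of_nhds.continuousAt
      have c2 : ContinuousAt (fun w => |Real.log (normSq (u i w))|) (D.e d y) :=
        ((continuous_normSq.continuousAt.comp c1).log (normSq_pos.2 (u1 i).2).ne').abs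
      filter_upwards [c1.eventually_ne (u1 i).2,
        c2.eventually_lt continuousAt_const (lt_add_one _)] with w a b
      exact ⟨a, b.le.trans (Finset.single_le_sum
        (f := fun i => |Real.log (normSq (u i (D.e d y)))| + 1) (fun _ _ => by positivity)
        (Finset.mem_univ i))⟩
  have u4 : ∀ᶠ w in 𝓝 (D.e d y), ‖w‖ < 3 / 2 :=
    continuous_norm.continuousAt.eventually_lt continuousAt_const (by linarith)
  obtain ⟨O, O1, O2, O3⟩ := mem_nhds_iff.1 (inter_mem hN (((D.e d).open_source.eventually_mem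
    d1).and (((D.e d).continuousAt d1).eventually (u2.and (u3.and u4)))))
  have of : ∀ x ∈ O, x ∈ off D ↔ ∀ i, x ∉ S i := fun x hx => by
    have a := (O1 hx).2.1
    have b : ∀ i, (D.e d).symm (D.e d x) ∈ S i ↔ xi (D.c d) i (D.e d x) = 0 :=
      hF d _ (GLU.mem_B2 a)
    rw [(D.e d).left_inv a] at b
    rw [GLU.mem_off a]
    exact forall_congr' fun i => (b i).not.symm
  have key : ∀ (a : I → ℝ), ∀ x ∈ O, x ∈ off D →
      |∑ i, a i * Real.log (normSq (h i x)) - lw D a x| ≤ (B + C) * ∑ i, |a i| := by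
    intro a x hx ho
    obtain ⟨-, x1, x2, x3, x4⟩ := O1 hx
    replace x2 : ∀ i, h i x = u i (D.e d x) * xi (D.c d) i (D.e d x) := fun i =>
      (congrArg (h i) ((D.e d).left_inv x1)).symm.trans (x2 i)
    have o := (GLU.mem_off x1).1 ho
    obtain ⟨b1, b2⟩ := hC a d _ x4.le o
    rw [GLU.rd_e _ x1, K32.xr_exp fun i _ => o i, ← Real.exp_add, Real.exp_le_exp] at b1 b2
    have e : ∑ i, a i * Real.log (normSq (h i x)) =
        ∑ i, a i * Real.log (normSq (u i (D.e d x))) + K32.lm (D.c d) a (D.e d x) := by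
      rw [K32.lm, ← Finset.sum_add_distrib]
      refine Finset.sum_congr rfl fun i _ => ?_
      rw [x2, map_mul, Real.log_mul (normSq_pos.2 (x3 i).1).ne' (normSq_pos.2 (o i)).ne', mul_add]
    have f : |∑ i, a i * Real.log (normSq (u i (D.e d x)))| ≤ B * ∑ i, |a i| := by
      rw [Finset.mul_sum]
      refine (Finset.abs_sum_le_sum_abs _ _).trans (Finset.sum_le_sum fun i _ => ?_)
      rw [abs_mul, mul_comm]
      exact mul_le_mul_of_nonneg_right (x3 i).2 (abs_nonneg _)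
    rw [e, add_mul, abs_le]
    constructor <;> linarith [abs_le.1 f]
  refine ⟨h, (chartAt (E n) y).target ∩ (chartAt (E n) y).symm ⁻¹' O,
    (B + C) * ∑ i, |(p i : ℝ)| + C₀, hh,
    ((chartAt (E n) y).isOpen_inter_preimage_symm O2).mem_nhds ⟨mem_chart_target _ y, ?_⟩, ?_,
    fun z hz ho => ?_, fun s hs => ?_⟩
  · rwa [mem_preimage, (chartAt (E n) y).left_inv hy]
  · have a := h1 _ hc
    have b : {z | z ∈ (chartAt (E n) y).target ∩ (chartAt (E n) y).symm ⁻¹' O ∧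
        ∀ i, (chartAt (E n) y).symm z ∉ S i} ⊆
        {z | z ∈ (chartAt (E n) y).target ∧ (chartAt (E n) y).symm z ∈ off D} :=
      fun z hz => ⟨hz.1.1, (of _ hz.1.2).2 hz.2⟩
    exact ⟨a.usc.mono b, fun z hz => a.lt z (b hz),
      fun z v hv => a.sub z v fun ζ hζ => b (hv ζ hζ)⟩
  · have o := (of _ hz.2).2 ho
    have a := (abs_le.1 (key (fun i => p i) _ hz.2 o)).2
    rw [sub_le_iff_le_add] at a
    refine (add_le_add_right (EReal.coe_le_coe_iff.2 a) _).trans ?_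
    rw [EReal.coe_add, EReal.coe_add, add_left_comm]
    exact add_le_add_right (h2 _ o) _
  · refine (hK O O2 (fun x hx => (O1 hx).1) (fun x => EReal.exp (-(s * (ψ x +
      (∑ i, k i * Real.log (normSq (h i x)) : ℝ))))) _
      (ENNReal.ofReal (Real.exp (s * ((B + C) * ∑ i, |(k i : ℝ)|)))) ENNReal.ofReal_ne_top
      fun x hx o => BR2.exp_le hs ?_ _).trans_lt
      (ENNReal.mul_lt_top (ENNReal.mul_lt_top ENNReal.ofReal_lt_top ENNReal.ofReal_lt_top)
        (h3 s hs))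
    linarith [(abs_le.1 (key (fun i => k i) x hx o)).1]

end Pool.Agent.Lib.ZL
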