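import Pool.Agent.Lib.ZL.Blue2
import Pool.Agent.Lib.ZL.B_PW
import Pool.Agent.Lib.ZL.B_TRF
import Pool.Agent.Lib.EX.K1O
import Pool.Agent.Lib.EX.B_UNI
import Pool.Agent.Lib.RB.B_RBR

/-! Project ZL: the nef divisor on the manifold layer. -/

open scoped Classical Topology ContDiff Manifold Matrix
open Set Complex Metric Filter

noncomputable section

namespace Pool.Agent.Lib.ZL

open Pool.Agent.Lib.SV (E levE d2)
open Pool.Agent.Lib.HS32 Pool.Agent.Lib.EX Pool.Agent.Lib.EXS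
open Pool.Agent.Lib.EXS.K32
open Pool.Agent.Lib.HS.BBR (mf)
open Pool.Agent.Lib.RB.R32 (fam fam_ok)

namespace NFB

variable {n : ℕ}

/-- Local constants are uniform on the closed unit polydiscs. -/
theorem unif {A : Type} [Fintype A] {p : A → E n → ℝ → Prop}
    (mono : ∀ a z C C', C ≤ C' → p a z C → p a z C')
    (h : ∀ a, ∀ z ∈ B2 n, ∃ C, ∀ᶠ w in 𝓝 z, p a w C) :
    ∃ C, 0 < C ∧ ∀ a z, ‖z‖ ≤ 1 → p a z C := by
  have k : ∀ a, ∃ C, ∀ z ∈ closedBall (0 : E n) 1, p a z C := fun a =>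
    (isCompact_closedBall (0 : E n) 1).induction_on (p := fun s => ∃ C, ∀ z ∈ s, p a z C)
      ⟨0, fun _ h => h.elim⟩ (fun _ _ hst ⟨C, h⟩ => ⟨C, fun z hz => h z (hst hz)⟩)
      (fun _ _ ⟨C, h⟩ ⟨C', h'⟩ => ⟨max C C', fun z hz => hz.elim
        (fun k => mono a z _ _ (le_max_left _ _) (h z k))
        fun k => mono a z _ _ (le_max_right _ _) (h' z k)⟩) fun z hz => by
      obtain ⟨C, hC⟩ := h a z (closedBall_subset_ball one_lt_two hz)
      exact ⟨_, nhdsWithin_le_nhds hC, C, fun _ h => h⟩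
  choose C hC using k
  have h0 : 0 ≤ ∑ a, |C a| := Finset.sum_nonneg fun _ _ => abs_nonneg _
  refine ⟨∑ a, |C a| + 1, by linarith, fun a z hz => mono a z _ _ ?_
    (hC a z (mem_closedBall_zero_iff.2 hz))⟩
  linarith [le_abs_self (C a), Finset.single_le_sum (f := fun a => |C a|)
    (fun _ _ => abs_nonneg _) (Finset.mem_univ a)]

theorem levi_eq {φ : E n → ℝ} {z : E n} (h : ContDiffAt ℝ ∞ φ z) (v : E n) :
    levi n φ z v = lv φ z v := by
  have h1 : DifferentiableAt ℝ (fderiv ℝ φ) z :=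
    ((cd_le h 2).fderiv_right (m := 1) le_rfl).differentiableAt one_ne_zero
  have e : ∀ a, d2 φ z a = fderiv ℝ (fderiv ℝ φ) z a a := fun a => by
    rw [d2, fderiv_clm_apply h1 (differentiableAt_const a)]
    simp
  rw [lv_eq h, levE, e, e, levi]

variable {Y I : Type} [TopologicalSpace Y] [ChartedSpace (E n) Y] [IsManifold 𝓘(ℂ, E n) ω Y]

/-- The curvature condition in an arbitrary chart. -/
theorem cur {G : Y → Mat n} {ε : ℝ} {φ : Y → ℝ} {e : OpenPartialHomeomorph Y (E n)} {z : E n}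
    (he : e ∈ (mf n Y).C) (hz : z ∈ e.target) (h : Cur n G ε φ (e.symm z)) :
    ContDiffAt ℝ ∞ (fun w => φ (e.symm w)) z ∧
      ∀ v, -(ε * nq (fam G e z) v) ≤ lv (fun w => φ (e.symm w)) z v := by
  have t := (mTR n (mf n Y)).2.1 _ (K1.ch_mf (e.symm z)) e he (e.symm z)
    (mem_chart_source (M := Y) _ _) (e.map_target hz)
  have t1 : HolN (chartAt (E n) (e.symm z) ∘ e.symm) (e (e.symm z)) := t.1
  have t2 : ∀ᶠ w in 𝓝 (e (e.symm z)), (chartAt (E n) (e.symm z)).symm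
      (chartAt (E n) (e.symm z) (e.symm w)) = e.symm w := t.2.2.2.1.mono fun w hw => hw.2.2.2.2.1
  rw [e.right_inv hz] at t1 t2
  have ev : (fun w => φ (e.symm w)) =ᶠ[𝓝 z] (φ ∘ (chartAt (E n) (e.symm z)).symm) ∘
      (chartAt (E n) (e.symm z) ∘ e.symm) := t2.mono fun w hw => congrArg φ hw.symm
  refine ⟨(h.1.comp z (mCHN n _ z t1).1).congr_of_eventuallyEq ev, fun v => ?_⟩
  rw [lv_congr ev, TRF.lv_comp36 t1 h.1, nq, fam, ← Matrix.mulVec_mulVec, ← Matrix.mulVec_mulVec,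
    Matrix.dotProduct_mulVec (star v), ← Matrix.star_mulVec]
  exact (h.2 _).trans_eq (levi_eq h.1 _)

variable [Fintype I] [DecidableEq I]

/-- The local form of the weight in an adapted chart. -/
theorem loc {G : Y → Mat n} {ε : ℝ} {S : I → Set Y} {k : I → ℤ} {ψ : Y → ℝ}
    {e : OpenPartialHomeomorph Y (E n)} {c : I → Option (Fin n)} {z : E n} (he : e ∈ (mf n Y).C)
    (hz : z ∈ e.target) (hb : ∀ᶠ y in 𝓝 z, ∀ i, e.symm y ∈ S i ↔ xi c i y = 0)
    (h : ∀ y, ∃ (h : I → Y → ℂ) (φ : Y → ℝ), Eqs n S y h ∧ ∀ᶠ x in 𝓝 y,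
      Cur n G ε φ x ∧ ((∀ i, x ∉ S i) → ψ x = φ x - ∑ i, k i * Real.log (normSq (h i x)))) :
    ∃ φ : E n → ℝ, ContDiffAt ℝ ∞ φ z ∧ (∀ v, -(ε * nq (fam G e z) v) ≤ lv φ z v) ∧
      ∀ᶠ w in 𝓝 z, Off c w → ψ (e.symm w) = φ w - ∑ i, k i * Real.log (normSq (xi c i w)) := by
  obtain ⟨h, φ, h1, h2⟩ := h (e.symm z)
  obtain ⟨u, u1, u2⟩ := K1.eqs_unit bUNI he hz hb h1
  obtain ⟨c1, c2⟩ := cur he hz h2.self_of_nhds.1
  have l1 := fun i => lv_log (u1 i).1 (u1 i).2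
  have l2 := fun i => contDiffAt_const (c := (k i : ℝ)).mul (l1 i).1
  have l3 := ContDiffAt.sum (s := Finset.univ) fun i _ => l2 i
  refine ⟨fun w => φ (e.symm w) - ∑ i, k i * Real.log (normSq (u i w)), c1.sub l3,
    fun v => ?_, ?_⟩
  · rw [lv_sub c1 l3, lv_sum fun i _ => l2 i, Finset.sum_eq_zero fun i _ => by
      rw [lv_mul (l1 i).1, (l1 i).2, mul_zero], sub_zero]
    exact c2 v
  · filter_upwards [hb, u2, K1.ev_sym hz h2, eventually_all.2 fun i =>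
      (u1 i).1.self_of_nhds.continuousAt.eventually_ne (u1 i).2] with w w1 w2 w3 w4 ho
    rw [w3.2.2 fun i hi => ho i ((w1 i).1 hi), sub_sub, ← Finset.sum_add_distrib]
    refine congrArg _ (Finset.sum_congr rfl fun i _ => ?_)
    rw [w2, map_mul, Real.log_mul (normSq_pos.2 (w4 i)).ne' (normSq_pos.2 (ho i)).ne', mul_add]

end NFB

open NFB in
theorem bNFB : St_NFB := by
  intro n Y I _ _ _ _ _ _ _ _ G S k D X hG hF hN ε hε
  have : (mf n Y).Cpt := ⟨‹_›, ‹_›, ‹_›⟩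
  obtain ⟨c, c0, hc⟩ := X.αs
  obtain ⟨B, B0, hB⟩ := unif (p := fun d z C => BBD.sn (fam G (D.e d) z) ≤ C)
    (fun _ _ _ _ h h' => h'.trans h) fun d z hz => ⟨_, ((BBD.sn_cont ((fam_ok hG).1.sm _ (D.mem d) z
      (K1.tgt hz))).eventually (gt_mem_nhds (lt_add_one _))).mono fun _ h => h.le⟩
  obtain ⟨ψ, hψ⟩ := hN (ε * c / B) (by positivity)
  have hl : D.All fun d z => ∃ φ : E n → ℝ, ContDiffAt ℝ ∞ φ z ∧
      (∀ v, -(ε * c / B * nq (fam G (D.e d) z) v) ≤ lv φ z v) ∧ ∀ᶠ w in 𝓝 z, Off (D.c d) w →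
        D.rd ψ d w = φ w - ∑ i, k i * Real.log (normSq (xi (D.c d) i w)) := fun d z hz =>
    loc (D.mem d) (K1.tgt hz) ((isOpen_ball.eventually_mem hz).mono fun y hy => hF d y hy) hψ
  have key : OA D fun d z => ContDiffAt ℝ ∞ (D.rd ψ d) z ∧
      ∀ v, -(ε * c / B * nq (fam G (D.e d) z) v) ≤ lv (D.rd ψ d) z v := fun d z hz ho => by
    obtain ⟨φ, p1, p2, p3⟩ := hl d z hz
    have ev : D.rd ψ d =ᶠ[𝓝 z] fun w => φ w - ∑ i, k i * Real.log (normSq (xi (D.c d) i w)) :=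
      (p3.and (MON.off_ev ho)).mono fun w hw => hw.1 hw.2
    have l1 := fun i => lv_log (.of_forall (MON.diff_xi (D.c d) i)) (ho i)
    have l2 := fun i => contDiffAt_const (c := (k i : ℝ)).mul (l1 i).1
    have l3 := ContDiffAt.sum (s := Finset.univ) fun i _ => l2 i
    refine ⟨(p1.sub l3).congr_of_eventuallyEq ev, fun v => ?_⟩
    rw [lv_congr ev, lv_sub p1 l3, lv_sum fun i _ => l2 i, Finset.sum_eq_zero fun i _ => by
      rw [lv_mul (l1 i).1, (l1 i).2, mul_zero], sub_zero]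
    exact p2 v
  obtain ⟨A, -, hA⟩ := unif (p := fun d z C => Off (D.c d) z →
      |D.rd ψ d z + ∑ i, k i * Real.log (normSq (xi (D.c d) i z))| ≤ C)
    (fun _ _ _ _ h h' ho => (h' ho).trans h) fun d z hz => by
      obtain ⟨φ, p1, -, p3⟩ := hl d z hz
      refine ⟨|φ z| + 1, ?_⟩
      filter_upwards [p3, p1.continuousAt.abs.eventually (gt_mem_nhds (lt_add_one _))]
        with w w1 w2 ho
      rw [w1 ho, sub_add_cancel]
      exact w2.le
  obtain ⟨-, cov, -, -, -, -, -, -, pw, -⟩ := bPW n (mf n Y) I D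
  obtain ⟨C, -, hC⟩ := pw 1 one_lt_two
  refine ⟨ψ, A + C * ∑ i, |(k i : ℝ)|, fun d z hz ho => (key d z hz ho).1,
    (bTRF n (mf n Y) I D).2.1 _ (fun d z hz ho => (key d z hz ho).1.add
      (contDiffAt_const.mul (X.αp.1 d z hz ho))) fun d z hz ho h1 v => ?_, fun x hx => ?_⟩
  · change 0 ≤ lv (fun w => D.rd ψ d w + ε * D.rd X.α d w) z v
    rw [lv_add (key d z hz ho).1 (contDiffAt_const.mul (X.αp.1 d z hz ho)),
      lv_mul (X.αp.1 d z hz ho)]
    have a1 := (key d z hz ho).2 v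
    have a2 := mul_le_mul_of_nonneg_left (hc d z hz ho h1 v) hε.le
    have a3 : nq (fam G (D.e d) z) v ≤ B * ‖v‖ ^ 2 := (le_abs_self _).trans
      ((BBD.nq_abs _ v).trans (mul_le_mul_of_nonneg_right (hB d z h1) (sq_nonneg _)))
    have a4 := mul_le_mul_of_nonneg_left a3 (show 0 ≤ ε * c / B by positivity)
    rw [← mul_assoc, div_mul_cancel₀ _ B0.ne'] at a4
    linarith
  · obtain ⟨d, hd, h1⟩ := cov x
    have ho := hx d hd
    have a1 := hA d _ h1 ho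
    obtain ⟨a2, a3⟩ := hC (fun i => (k i : ℝ)) d _ h1 ho
    have e : xr (D.c d) (fun i => (k i : ℝ)) (D.e d x) =
        Real.exp (∑ i, k i * Real.log (normSq (xi (D.c d) i (D.e d x)))) := by
      rw [Real.exp_sum]
      exact Finset.prod_congr rfl fun i _ => by
        rw [Real.rpow_def_of_pos (normSq_pos.2 (ho i)), mul_comm]
    rw [e, ← Real.exp_add, Real.exp_le_exp, GLU.rd_e _ hd] at a2 a3
    rw [GLU.rd_e _ hd, abs_le] at a1
    rw [abs_le]
    constructor <;> linarith [a1.1, a1.2]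

end Pool.Agent.Lib.ZL
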