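import Pool.Agent.Lib.EX.SDefs
import Pool.Agent.Lib.GH.SDefs

/-! Definitions used in the statements: ample and nef divisors with simple normal crossings. -/

open scoped ContDiff Matrix Topology

noncomputable section

namespace Pool.Agent.Lib.ZL

open Pool.Agent.Lib.SV Pool.Agent.Lib.HS Pool.Agent.Lib.KP Pool.Agent.Lib.EX

variable (n : ℕ) {Y I : Type} [TopologicalSpace Y] [ChartedSpace (E n) Y] [Fintype I]

/-- A divisor `∑ e i D i` with all `e i > 0` is the pull-back of a hyperplane class by an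
immersion `[t]` of `Y` into a projective space; `τ = t / ∏ h i ^ e i` is globally defined. -/
def Amp (D : I → Set Y) : Prop :=
  ∃ (r : ℕ) (e : I → ℕ) (τ : Y → E r), (∀ i, 0 < e i) ∧ ∀ y, ∃ (h : I → Y → ℂ) (t : Y → E r),
    Eqs n D y h ∧ t y ≠ 0 ∧
      (∀ᶠ x in 𝓝 y, (∀ j, HolAt n 0 (t · j) x) ∧ τ x = (∏ i, h i x ^ (-e i : ℤ)) • t x) ∧
      ∀ v (c : ℂ), dAt n t y v = c • t y → v = 0

/-- The Levi form `∑ ∂²φ / ∂z_j ∂(conj z_k) v_j conj v_k` of a real function at `z`. -/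
def levi (φ : E n → ℝ) (z v : E n) : ℝ :=
  (fderiv ℝ (fderiv ℝ φ) z v v + fderiv ℝ (fderiv ℝ φ) z (Complex.I • v) (Complex.I • v)) / 4

/-- `φ` is smooth at `x` and its Levi form at `x` is at least `-ε G`. -/
def Cur (G : Y → Mat n) (ε : ℝ) (φ : Y → ℝ) (x : Y) : Prop :=
  ContDiffAt ℝ ∞ (φ ∘ (chartAt (E n) x).symm) (chartAt (E n) x x) ∧
    ∀ v, -(ε * (star v ⬝ᵥ G x *ᵥ v).re) ≤ levi n (φ ∘ (chartAt (E n) x).symm) (chartAt (E n) x x) v

/-- The divisor `∑ k i D i` is nef: for every `ε > 0` its line bundle has a smooth Hermitian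
metric, with local weights `φ`, whose curvature form is at least `-ε G`; the canonical section
has norm `exp (-ψ / 2)`. -/
def Nef (G : Y → Mat n) (D : I → Set Y) (k : I → ℤ) : Prop :=
  ∀ ε : ℝ, 0 < ε → ∃ ψ : Y → ℝ, ∀ y, ∃ (h : I → Y → ℂ) (φ : Y → ℝ), Eqs n D y h ∧
    ∀ᶠ x in 𝓝 y, Cur n G ε φ x ∧
      ((∀ i, x ∉ D i) → ψ x = φ x - ∑ i, k i * Real.log (Complex.normSq (h i x)))

end Pool.Agent.Lib.ZL
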