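import Pool.Agent.Lib.SV.SDefs

/-! Definition used in the statement: plurisubharmonic functions. -/

namespace Pool.Agent.Lib.ZL

open Pool.Agent.Lib.SV

/-- `f` is plurisubharmonic on `U`: upper semicontinuous, with values less than `⊤`, and if the
real part of a polynomial dominates `f` on the boundary of a disc, then also at its centre. -/
structure PshOn {n : ℕ} (f : E n → EReal) (U : Set (E n)) : Prop where
  usc : UpperSemicontinuousOn f U
  lt : ∀ z ∈ U, f z < ⊤
  sub : ∀ z v, (∀ ζ : ℂ, ‖ζ‖ ≤ 1 → z + ζ • v ∈ U) → ∀ P : Polynomial ℂ,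
    (∀ ζ : ℂ, ‖ζ‖ = 1 → f (z + ζ • v) ≤ (P.eval ζ).re) → f z ≤ (P.eval 0).re

end Pool.Agent.Lib.ZL
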