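import Pool.Agent.Lib.ZL.Blue2

/-! Project ZL: removal of the weights. -/

open scoped Classical Topology ContDiff ENNReal
open Set MeasureTheory Complex Metric Filter

noncomputable section

namespace Pool.Agent.Lib.ZL

open Pool.Agent.Lib.SV (E)
open Pool.Agent.Lib.HS32 Pool.Agent.Lib.EX Pool.Agent.Lib.EXS

namespace HLD

theorem young {t U V : ℝ} (h0 : 0 ≤ t) (h1 : t ≤ 1) :
    Real.exp (t * U + (1 - t) * V) ≤ Real.exp V + Real.exp U := by
  have a := Real.exp_pos U
  have b := Real.exp_pos V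
  rcases le_total U V with h | h
  · have : Real.exp (t * U + (1 - t) * V) ≤ Real.exp V := Real.exp_le_exp.2 (by nlinarith)
    linarith
  · have : Real.exp (t * U + (1 - t) * V) ≤ Real.exp U := Real.exp_le_exp.2 (by nlinarith)
    linarith

theorem pick {ι : Type} [Fintype ι] (γ β o : ι → ℝ) (h : ∀ i, β i < o i + 1) :
    ∃ t : ℝ, 0 < t ∧ t < 1 ∧ ∀ i, -1 < (1 - t)⁻¹ * (t * γ i - β i) + o i := by
  have e : ∀ i, ∀ᶠ t : ℝ in 𝓝 0, -1 < (1 - t)⁻¹ * (t * γ i - β i) + o i := fun i => by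
    have c : ContinuousAt (fun t : ℝ => (1 - t)⁻¹ * (t * γ i - β i) + o i) 0 :=
      (((continuousAt_const.sub continuousAt_id).inv₀ (by simp)).mul
        ((continuousAt_id.mul continuousAt_const).sub continuousAt_const)).add continuousAt_const
    refine continuousAt_const.eventually_lt c ?_
    have := h i
    simp only [sub_zero, inv_one, zero_mul, zero_sub, one_mul]
    linarith
  have e1 : ∀ᶠ t : ℝ in 𝓝 0, t < 1 := eventually_lt_nhds one_pos
  obtain ⟨t, ht⟩ := ((((eventually_all.2 e).and e1).filter_mono nhdsWithin_le_nhds).and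
    (self_mem_nhdsWithin (s := Ioi (0 : ℝ)))).exists
  exact ⟨t, ht.2, ht.1.2, ht.1.1⟩

end HLD

theorem bHLD (hPW : St_PW) (hMU : St_MU) : St_HLD := by
  intro n M _ ι _ _ D X γ ρ h β hβ s hs
  obtain ⟨-, -, -, p4, p5, -, -, p8, -, p10, -⟩ := hPW n M ι D
  obtain ⟨-, m2, m3, m4, -⟩ := hMU n M ι D X
  obtain ⟨t, t0, t1, ht⟩ := HLD.pick γ β X.o hβ
  obtain ⟨A, ε₁, hε₁, hA⟩ := h (s / t) (div_pos hs t0)
  set a : ι → ℝ := (1 - t)⁻¹ • (t • γ - β) with ha
  have fin := m4 a fun i => by simpa only [ha, Pi.smul_apply, Pi.sub_apply, smul_eq_mul] using ht i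
  have me : AEMeasurable (fun x => Real.exp (lw D a x)) X.μ :=
    m2 ℝ _ (Real.continuous_exp.comp_continuousOn (p10 ℝ _ (p8 a)))
  refine ⟨(X.I fun x => Real.exp (lw D a x)).toReal + max A 0, ε₁, hε₁, fun ε h0 h1 => ?_⟩
  refine (m3 _ (fun x => Real.exp (lw D a x) +
    Real.exp (-((1 + s / t) * lw D γ x) - s / t * ρ ε x)) fun x _ => ?_).trans ?_
  · refine le_trans (le_of_eq (congrArg Real.exp ?_)) (HLD.young t0.le t1.le)
    have : 1 - t ≠ 0 := (sub_pos.2 t1).ne'
    rw [ha, p5, p4, p5]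
    field_simp
    ring
  · rw [ENNReal.ofReal_add ENNReal.toReal_nonneg (le_max_right _ _), ENNReal.ofReal_toReal fin]
    refine le_trans ?_ (add_le_add le_rfl
      ((hA ε h0 h1).trans (ENNReal.ofReal_le_ofReal (le_max_left _ _))))
    unfold Cx.I
    rw [← lintegral_add_left' me.ennreal_ofReal]
    exact lintegral_mono fun x => ENNReal.ofReal_add_le

end Pool.Agent.Lib.ZL
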