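import Mathlib

/-! Definition used in the statement: the coefficients of a log canonical boundary. -/

namespace Pool.Agent.Lib.ZL

/-- The coefficients `δ i = k i / M - l i / m` of the boundary are at most `1`, non-negative for
`i ∉ ex`, and equal to `1` only over the support of `∑ k i D i`. -/
structure Lc {I : Type} (m M : ℕ) (ex : Set I) (k : I → ℕ) (l : I → ℤ) : Prop where
  le : ∀ i, (k i / M - l i / m : ℝ) ≤ 1
  ge : ∀ i ∉ ex, (0 : ℝ) ≤ k i / M - l i / m
  sup : ∀ i, (k i / M - l i / m : ℝ) = 1 → 0 < k i

end Pool.Agent.Lib.ZL
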