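import Pool.Agent.Lib.ZL.SDefs
import Pool.Agent.Lib.ZL.SDefs1
import Pool.Agent.Lib.ZL.SDefs2

/-! Project zl: the target statements. -/

open scoped Manifold ContDiff Topology
open MeasureTheory

namespace Pool.Agent.Lib.ZL

open Pool.Agent.Lib.SV Pool.Agent.Lib.HS Pool.Agent.Lib.GH Pool.Agent.Lib.KP Pool.Agent.Lib.EX

/-- The extension theorem. -/
def St_H1 : Prop := ∀ (n : ℕ) (Y ι I : Type) [TopologicalSpace Y] [ChartedSpace (E n) Y]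
  [IsManifold 𝓘(ℂ, E n) ω Y] [CompactSpace Y] [T2Space Y] [ConnectedSpace Y] [Fintype I]
  (G : Y → Mat n) (m M : ℕ) (D : I → Set Y) (ex : Set I) (k : I → ℕ) (l : I → ℤ) (η : Y → ℂ)
  (W : ι → Set Y) (σ : ι → Y → ℂ) (g : ι → ι → Y → ℂ) (u : ι → Y → ℂ),
  Hermitian G → 0 < m → 2 ≤ M → LogRes n m D ex k l η W σ g → Amp n D → Lc m M ex k l →
  Nef n G D (fun i => k i) → SecOn n W g (⋃ i ∈ {i | (k i / M - l i / m : ℝ) = 1}, D i) u →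
  ∃ v, SecOn n W g Set.univ v ∧
    ∀ a, ∀ y ∈ W a ∩ ⋃ i ∈ {i | (k i / M - l i / m : ℝ) = 1}, D i, v a y = u a y

/-- Zero Lelong numbers. -/
def St_H2 : Prop := ∀ (n : ℕ) (Y I : Type) [TopologicalSpace Y] [ChartedSpace (E n) Y]
  [IsManifold 𝓘(ℂ, E n) ω Y] [CompactSpace Y] [T2Space Y] [ConnectedSpace Y] [Fintype I]
  (G : Y → Mat n) (m M : ℕ) (D : I → Set Y) (k p l : I → ℤ) (η : Y → ℂ),
  Hermitian G → 0 < m → 0 < M → (∀ y, Ord n m D l η y) → Amp n D → Nef n G D k → k ≤ p →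
  (∀ i, (0 : ℝ) ≤ p i / M - l i / m ∧ (p i / M - l i / m : ℝ) < 1) →
  ∃ ψ : Y → EReal, ∀ y, ∃ (h : I → Y → ℂ) (V : Set (E n)) (C : ℝ), Eqs n D y h ∧
    V ∈ 𝓝 (chartAt (E n) y y) ∧
    PshOn (ψ ∘ (chartAt (E n) y).symm) {z ∈ V | ∀ i, (chartAt (E n) y).symm z ∉ D i} ∧
    (∀ z ∈ V, (∀ i, (chartAt (E n) y).symm z ∉ D i) → ψ ((chartAt (E n) y).symm z) +
      (∑ i, p i * Real.log (Complex.normSq (h i ((chartAt (E n) y).symm z))) : ℝ) ≤ C) ∧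
    ∀ c : ℝ, 0 < c → ∫⁻ z in V, EReal.exp (-(c * (ψ ((chartAt (E n) y).symm z) +
      (∑ i, k i * Real.log (Complex.normSq (h i ((chartAt (E n) y).symm z))) : ℝ)))) < ⊤

end Pool.Agent.Lib.ZL
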