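import Pool.Agent.Lib.ZL.Blue
import Pool.Agent.Lib.ZL.Stmt
import Pool.Agent.Lib.EX.BrBlue

/-! Project ZL: the blueprint of the outer layer. -/

open scoped Classical Topology ContDiff ENNReal Manifold
open Set MeasureTheory Complex Metric Filter

noncomputable section

namespace Pool.Agent.Lib.ZL

open Pool.Agent.Lib.SV (E nsq)
open Pool.Agent.Lib.GH (Hermitian)
open Pool.Agent.Lib.HS32 Pool.Agent.Lib.EX Pool.Agent.Lib.EXS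
open Pool.Agent.Lib.EXS.K32 (lv)
open Pool.Agent.Lib.HS.BBR (mf)

section defs

variable {n : ℕ} {M : Mf n} {ι : Type} [Fintype ι] [DecidableEq ι]

/-- An ample divisor on the manifold layer. -/
structure Am (D : Ad M ι) where
  r : ℕ
  e : ι → ℕ
  τ : M.X → E r
  t : D.A → E n → E r
  epos : ∀ i, 0 < e i
  thol : D.All fun d z => HolN (t d) z ∧ t d z ≠ 0 ∧
    (Off (D.c d) z → D.rd τ d z = xm (D.c d) (fun i => -(e i : ℤ)) z • t d z)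
  imm : D.All fun d z => ∀ (y : E n) (c : ℂ), fderiv ℂ (t d) z y = c • t d z → y = 0

variable {D : Ad M ι}

/-- Strict positivity on larger polydiscs. -/
def Cx.Big (X : Cx D) : Prop :=
  ∃ c > 0, OA D fun d z => ‖z‖ ≤ 7 / 4 → ∀ v, c * ‖v‖ ^ 2 ≤ lv (D.rd X.α d) z v

/-- The divisor with coefficients `ν` is nef. -/
def Cx.Nf (X : Cx D) (ν : ι → ℤ) : Prop := ∀ ε > (0 : ℝ), ∃ (ψ : M.X → ℝ) (C : ℝ), SmO D ψ ∧
  Psh D (fun x => ψ x + ε * X.α x) ∧ ∀ x ∈ off D, |ψ x + lw D (fun i => ν i) x| ≤ C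

variable (D) in
/-- A section with poles at most `P` that does not vanish at the point `z` of the chart `d`. -/
def Pk (P : ι → ℤ) (d : D.A) (z : E n) : Prop := ∃ F s, Mer D P F ∧ HolN s z ∧ s z ≠ 0 ∧
  ∀ᶠ y in 𝓝 z, Off (D.c d) y → D.rd F d y = xm (D.c d) (-P) y * s y

/-- The upper semicontinuous regularisation of the upper limit of a sequence of functions. -/
def reg {Y : Type} [TopologicalSpace Y] (u : ℕ → Y → ℝ) (x : Y) : EReal :=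
  limsup (fun y => limsup (fun j => (u j y : EReal)) atTop) (𝓝 x)

end defs

/-! ### The data -/

/-- The context attached to an ample divisor. -/
def St_CX : Prop := ∀ (n : ℕ) (M : Mf n) [M.Cpt] (ι : Type) [Fintype ι] [DecidableEq ι]
  (D : Ad M ι) (A : Am D) (l : ι → ℤ) (m : ℕ) (w : D.A → E n → ℂ), 0 < m →
  (D.All fun b z => DifferentiableAt ℂ (w b) z) → (D.All fun b z => w b z ≠ 0) →
  (D.Ov fun b d x => w d (D.e d x) = w b (D.e b x) * D.um l b d x * (D.J b d x).det ^ m) →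
  ∃ X : Cx D, X.m = m ∧ X.l = l ∧ X.w = w ∧ X.e = A.e ∧ X.Big ∧
    X.α = fun x => Real.log (nsq (A.τ x))

/-- The ample divisor on the manifold layer. -/
def St_AMB : Prop := ∀ (n : ℕ) (Y I : Type) [TopologicalSpace Y] [ChartedSpace (E n) Y]
  [IsManifold 𝓘(ℂ, E n) ω Y] [Fintype I] [DecidableEq I] (S : I → Set Y) (D : Ad (mf n Y) I),
  D.Fit S → Amp n S → Nonempty (Am D)

/-- The nef divisor on the manifold layer. -/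
def St_NFB : Prop := ∀ (n : ℕ) (Y I : Type) [TopologicalSpace Y] [ChartedSpace (E n) Y]
  [IsManifold 𝓘(ℂ, E n) ω Y] [CompactSpace Y] [T2Space Y] [ConnectedSpace Y] [Fintype I]
  [DecidableEq I] (G : Y → Mat n) (S : I → Set Y) (k : I → ℤ) (D : Ad (mf n Y) I) (X : Cx D),
  Hermitian G → D.Fit S → Nef n G S k → X.Nf k

/-! ### Peak sections -/

/-- The curvature of the model metrics is bounded. -/
def St_LWC : Prop := ∀ (n : ℕ) (M : Mf n) [M.Cpt] (ι : Type) [Fintype ι] [DecidableEq ι]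
  (D : Ad M ι) (X : Cx D) (a : ι → ℝ), ∃ C : ℝ, 0 ≤ C ∧ Psh D fun x => C * X.α x + lw D a x

/-- Weights with a logarithmic pole. -/
def St_BMP : Prop := ∀ (n : ℕ) (M : Mf n) [M.Cpt] (ι : Type) [Fintype ι] [DecidableEq ι]
  (D : Ad M ι) (X : Cx D), X.Big → ∃ C r : ℝ, 0 ≤ C ∧ 0 < r ∧ r ≤ 1 / 4 ∧
    ∀ (d : D.A) (z₀ : E n), ‖z₀‖ ≤ 1 → ∀ δ ∈ Ioc (0 : ℝ) 1, ∃ u : M.X → ℝ, SmO D u ∧
      Psh D (fun x => C * X.α x + u x) ∧ (∀ x, u x ≤ C) ∧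
      (∀ z ∈ ball z₀ r, D.rd u d z = Real.log (nsq (z - z₀) + δ)) ∧
      ∀ x, (x ∈ (D.e d).source → r ≤ ‖D.e d x - z₀‖) → -C ≤ u x

/-- The cut-off of a monomial. -/
def St_CUT : Prop := ∀ (n : ℕ) (M : Mf n) [M.Cpt] (ι : Type) [Fintype ι] [DecidableEq ι]
  (D : Ad M ι) (X : Cx D) (P : ι → ℤ) (d : D.A) (z₀ : E n) (r : ℝ), X.Big → ‖z₀‖ ≤ 1 → 0 < r →
  r ≤ 1 / 4 → ∃ (Γ : M.X → ℂ) (K : Set M.X) (B : ℝ), 0 ≤ B ∧ IsClosed K ∧ SmO D Γ ∧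
    (∀ x ∈ off D, normSq (Γ x) ≤ B * Real.exp (-lw D (fun i => P i) x)) ∧
    (∀ z ∈ ball z₀ r, Off (D.c d) z → D.rd Γ d z = xm (D.c d) (-P) z) ∧
    (∀ x ∈ K, x ∈ (D.e d).source → r ≤ ‖D.e d x - z₀‖) ∧
    Dom D Γ (K.indicator fun x => B * Real.exp (-lw D (fun i => P i) x)) X.α

/-- One peak section. -/
def St_PK1 : Prop := ∀ (n : ℕ) (M : Mf n) [M.Cpt] (ι : Type) [Fintype ι] [DecidableEq ι]
  (D : Ad M ι) (X : Cx D) (ν : ι → ℤ), X.Big → X.Nf ν → ∃ c : ℕ, 0 < c ∧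
    ∀ (j : ℕ) (d : D.A) (z₀ : E n), ‖z₀‖ ≤ 1 → Pk D (fun i => j * ν i + (c * X.e i : ℕ)) d z₀

/-- Finitely many peak sections generate. -/
def St_GEN : Prop := ∀ (n : ℕ) (M : Mf n) [M.Cpt] (ι : Type) [Fintype ι] [DecidableEq ι]
  (D : Ad M ι) (P : ι → ℤ), (∀ (d : D.A) (z₀ : E n), ‖z₀‖ ≤ 1 → Pk D P d z₀) → Gens D P

/-- Generation for a nef divisor. -/
def St_PEAK : Prop := ∀ (n : ℕ) (M : Mf n) [M.Cpt] (ι : Type) [Fintype ι] [DecidableEq ι]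
  (D : Ad M ι) (X : Cx D) (ν : ι → ℤ), X.Big → X.Nf ν → ∃ (c : ℕ) (X' : Cx D), 0 < c ∧
    X'.μ = X.μ ∧ X'.m = X.m ∧ X'.l = X.l ∧ X'.w = X.w ∧ (∀ i, X'.e i = c * X.e i) ∧
    (∀ x, X'.α x = c * X.α x) ∧ ∀ j : ℕ, Gens D fun i => j * ν i + X'.e i

/-! ### The bridge for the extension theorem -/

/-- The data of a log resolution on the manifold layer. -/
def St_RS1 : Prop := ∀ (n : ℕ) (Y ι I : Type) [TopologicalSpace Y] [ChartedSpace (E n) Y]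
  [IsManifold 𝓘(ℂ, E n) ω Y] [CompactSpace Y] [T2Space Y] [ConnectedSpace Y] [Fintype I]
  [DecidableEq I] (m : ℕ) (S : I → Set Y) (ex : Set I) (k : I → ℕ) (l : I → ℤ) (η : Y → ℂ)
  (W : ι → Set Y) (σ : ι → Y → ℂ) (g : ι → ι → Y → ℂ), LogRes n m S ex k l η W σ g →
  ∃ (D : Ad (mf n Y) I) (B : D.A → Bl D k ex) (w : D.A → E n → ℂ) (α : D.A → ι), D.Fit S ∧
    (D.All fun b z => DifferentiableAt ℂ (w b) z) ∧ (D.All fun b z => w b z ≠ 0) ∧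
    (D.Ov fun b d x => w d (D.e d x) = w b (D.e b x) * D.um l b d x * (D.J b d x).det ^ m) ∧
    (∀ b, (B b).W = W (α b)) ∧ (D.All fun b z => (D.e b).symm z ∈ W (α b)) ∧
    ∀ a, ∃ v : D.A → E n → ℂ, D.On (W a) fun d z =>
      HolN (v d) z ∧ v d z ≠ 0 ∧ D.rd (σ a) d z = v d z * xm (D.c d) (fun i => k i) z

/-- From the extension theorem on the manifold layer to sections. -/
def St_BR1 : Prop := ∀ (n : ℕ) (Y ι I : Type) [TopologicalSpace Y] [ChartedSpace (E n) Y]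
  [IsManifold 𝓘(ℂ, E n) ω Y] [Fintype I] [DecidableEq I] (m : ℕ) (S : I → Set Y) (ex T : Set I)
  (k : I → ℕ) (l : I → ℤ) (η : Y → ℂ) (W : ι → Set Y) (σ : ι → Y → ℂ) (g : ι → ι → Y → ℂ)
  (u : ι → Y → ℂ) (D : Ad (mf n Y) I) (α : D.A → ι), LogRes n m S ex k l η W σ g → D.Fit S →
  (D.All fun b z => (D.e b).symm z ∈ W (α b)) →
  (∀ a, ∃ v : D.A → E n → ℂ, D.On (W a) fun d z =>
    HolN (v d) z ∧ v d z ≠ 0 ∧ D.rd (σ a) d z = v d z * xm (D.c d) (fun i => k i) z) →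
  SecOn n W g (⋃ i ∈ T, S i) u →
  (∀ a, D.On (W a) fun d z => PolH (D.c d) (fun i => k i) (D.rd (fun x => u a x / σ a x) d) z) ∧
  (∀ a a', D.On (W a ∩ W a') fun d z => PolH (D.c d) (fun i => k i - ind T i)
    (D.rd ((fun x => u a x / σ a x) - fun x => u a' x / σ a' x) d) z) ∧
  ∀ F : Y → ℂ, (D.All fun b z => PolH (D.c b) (fun i => k i - ind T i)
    (D.rd (F - fun x => u (α b) x / σ (α b) x) b) z) →
    ∃ v, SecOn n W g univ v ∧ ∀ a, ∀ y ∈ W a ∩ ⋃ i ∈ T, S i, v a y = u a y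

/-! ### The limit metric -/

/-- The mean value inequality. -/
def St_SMV : Prop := ∀ (n : ℕ) (u : E n → ℝ) (z v : E n),
  (∀ ζ : ℂ, ‖ζ‖ ≤ 1 → ContDiffAt ℝ ∞ u (z + ζ • v) ∧ 0 ≤ lv u (z + ζ • v) v) →
  u z ≤ Real.circleAverage (fun ζ : ℂ => u (z + ζ • v)) 0 1

/-- The regularised upper limit is plurisubharmonic. -/
def St_LIM : Prop := ∀ (n : ℕ) (U : Set (E n)) (u : ℕ → E n → ℝ) (a : E n → ℝ) (ε : ℕ → ℝ),
  IsOpen U → Tendsto ε atTop (𝓝 0) → (∀ z ∈ U, ContDiffAt ℝ ∞ a z) →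
  (∀ j, ∀ z ∈ U, ContDiffAt ℝ ∞ (fun y => u j y + ε j * a y) z ∧
    ∀ v, 0 ≤ lv (fun y => u j y + ε j * a y) z v) →
  (∀ z ∈ U, ∃ C, ∀ᶠ y in 𝓝 z, ∀ j, u j y ≤ C) → PshOn (reg u) U

/-- Removal of the weights. -/
def St_HLD : Prop := ∀ (n : ℕ) (M : Mf n) [M.Cpt] (ι : Type) [Fintype ι] [DecidableEq ι]
  (D : Ad M ι) (X : Cx D) (γ : ι → ℝ) (ρ : ℝ → M.X → ℝ),
  (∀ s > (0 : ℝ), ∃ A : ℝ, ∃ ε₁ > (0 : ℝ), ∀ ε > 0, ε ≤ ε₁ →
    X.I (fun x => Real.exp (-((1 + s) * lw D γ x) - s * ρ ε x)) ≤ ENNReal.ofReal A) →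
  ∀ β : ι → ℝ, (∀ i, β i < X.o i + 1) → ∀ s > (0 : ℝ), ∃ A : ℝ, ∃ ε₁ > (0 : ℝ), ∀ ε > 0, ε ≤ ε₁ →
    X.I (fun x => Real.exp (-(s * (ρ ε x + lw D γ x)) - lw D β x)) ≤ ENNReal.ofReal A

/-- Theorem Z in the form of approximating metrics. -/
def St_ZO : Prop := ∀ (n : ℕ) (M : Mf n) [M.Cpt] (ι : Type) [Fintype ι] [DecidableEq ι]
  (D : Ad M ι) (X : Cx D) (K : Kl X) (ν : ι → ℤ), X.Big → X.Nf ν → ν ≤ K.π →
  ∃ (C : ℝ) (ρ : ℝ → M.X → ℝ), (∀ ε > 0, X.Cl K.κ C ε (ρ ε)) ∧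
    ∀ β : ι → ℝ, (∀ i, β i < X.o i + 1) → ∀ s > (0 : ℝ), ∃ A : ℝ, ∃ ε₁ > (0 : ℝ), ∀ ε > 0, ε ≤ ε₁ →
      X.I (fun x => Real.exp (-(s * (ρ ε x + lw D (fun i => ν i / K.c) x)) - lw D β x)) ≤
        ENNReal.ofReal A

/-- The limit metric on the manifold layer. -/
def St_ZM : Prop := ∀ (n : ℕ) (M : Mf n) [M.Cpt] (ι : Type) [Fintype ι] [DecidableEq ι]
  (D : Ad M ι) (X : Cx D) (p k : ι → ℝ) (C : ℝ) (u : ℕ → M.X → ℝ) (ε : ℕ → ℝ),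
  Tendsto ε atTop (𝓝 0) → (∀ j, Psh D fun x => u j x + ε j * X.α x) →
  (∀ j, ∀ x ∈ off D, u j x ≤ C - lw D p x) →
  (∀ s > (0 : ℝ), ∃ A : ℝ, ∀ᶠ j in atTop,
    X.I (fun x => Real.exp (-(s * (u j x + lw D k x)) - lw D X.o x)) ≤ ENNReal.ofReal A) →
  (∀ e ∈ M.C, PshOn (reg u ∘ e.symm) {z ∈ e.target | e.symm z ∈ off D}) ∧
  (∀ x ∈ off D, reg u x + (lw D p x : ℝ) ≤ C) ∧
  ∀ s > (0 : ℝ), ∫⁻ x, EReal.exp (-(s * (reg u x + (lw D k x : ℝ)))) *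
    ENNReal.ofReal (Real.exp (-lw D X.o x)) ∂X.μ < ⊤

/-- From the manifold layer to the statement. -/
def St_BR2 : Prop := ∀ (n : ℕ) (Y I : Type) [TopologicalSpace Y] [ChartedSpace (E n) Y]
  [IsManifold 𝓘(ℂ, E n) ω Y] [CompactSpace Y] [T2Space Y] [ConnectedSpace Y] [Fintype I]
  [DecidableEq I] (S : I → Set Y) (k p : I → ℤ) (D : Ad (mf n Y) I) (X : Cx D) (ψ : Y → EReal)
  (C₀ : ℝ), D.Fit S → (∀ y, ∃ h, Eqs n S y h) →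
  (∀ e ∈ (mf n Y).C, PshOn (ψ ∘ e.symm) {z ∈ e.target | e.symm z ∈ off D}) →
  (∀ x ∈ off D, ψ x + (lw D (fun i => p i) x : ℝ) ≤ C₀) →
  (∀ s > (0 : ℝ), ∫⁻ x, EReal.exp (-(s * (ψ x + (lw D (fun i => k i) x : ℝ)))) *
    ENNReal.ofReal (Real.exp (-lw D X.o x)) ∂X.μ < ⊤) →
  ∀ y, ∃ (h : I → Y → ℂ) (V : Set (E n)) (C : ℝ), Eqs n S y h ∧
    V ∈ 𝓝 (chartAt (E n) y y) ∧
    PshOn (ψ ∘ (chartAt (E n) y).symm) {z ∈ V | ∀ i, (chartAt (E n) y).symm z ∉ S i} ∧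
    (∀ z ∈ V, (∀ i, (chartAt (E n) y).symm z ∉ S i) → ψ ((chartAt (E n) y).symm z) +
      (∑ i, p i * Real.log (normSq (h i ((chartAt (E n) y).symm z))) : ℝ) ≤ C) ∧
    ∀ c : ℝ, 0 < c → ∫⁻ z in V, EReal.exp (-(c * (ψ ((chartAt (E n) y).symm z) +
      (∑ i, k i * Real.log (normSq (h i ((chartAt (E n) y).symm z))) : ℝ)))) < ⊤

end Pool.Agent.Lib.ZL
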