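import Pool.Agent.Lib.ZL.Blue2
import Pool.Agent.Lib.EX.B_BLW

/-! Project ZL: the ample divisor read in the charts of an adapted atlas. -/

open scoped Classical Topology ContDiff ENNReal Manifold
open Set MeasureTheory Complex Metric Filter

noncomputable section

namespace Pool.Agent.Lib.ZL

open Pool.Agent.Lib.SV (E)
open Pool.Agent.Lib.HS32 Pool.Agent.Lib.EX Pool.Agent.Lib.EX.BLW
open Pool.Agent.Lib.HS.BBR (mf)
open Pool.Agent.Lib.KP (HolAt)

namespace AMB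

variable {n : ℕ} {I : Type} [Fintype I] [DecidableEq I] {Y : Type} [TopologicalSpace Y]
  [ChartedSpace (E n) Y] [IsManifold 𝓘(ℂ, E n) ω Y] {e : OpenPartialHomeomorph Y (E n)} {z : E n}
  {S : I → Set Y} {c : I → Option (Fin n)}

theorem one (hU : St_UNI) (he : e ∈ (mf n Y).C) (hz : z ∈ e.target)
    (hF : ∀ w ∈ e.target, ∀ i, e.symm w ∈ S i ↔ xi c i w = 0) {r : ℕ} {τ : Y → E r} {a : I → ℤ}
    {h : I → Y → ℂ} {t : Y → E r} (hE : Eqs n S (e.symm z) h) (t0 : t (e.symm z) ≠ 0)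
    (ht : ∀ᶠ x in 𝓝 (e.symm z), (∀ j, HolAt n 0 (t · j) x) ∧ τ x = (∏ i, h i x ^ a i) • t x)
    (im : ∀ v (c : ℂ), dAt n t (e.symm z) v = c • t (e.symm z) → v = 0) :
    (HolN (num c a (τ ∘ e.symm)) z ∧ num c a (τ ∘ e.symm) z ≠ 0 ∧
      τ (e.symm z) = xm c a z • num c a (τ ∘ e.symm) z) ∧
    ∀ (y : E n) (b : ℂ), fderiv ℂ (num c a (τ ∘ e.symm)) z y = b • num c a (τ ∘ e.symm) z →
      y = 0 := by
  obtain ⟨u, hu, hg⟩ := unit hU he hz hF hE
  obtain ⟨p1, p2⟩ := hol_prod hu a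
  set U : E n → ℂ := fun w => ∏ i, u i w ^ a i with hUd
  have a1 : HolN (t ∘ e.symm) z := holN he hz (ht.mono fun x hx => holv hx.1)
  have a2 : HolN (U • t ∘ e.symm) z := (Eventually.and p1 a1).mono fun y hy => hy.1.smul hy.2
  have a3 : ∀ᶠ y in 𝓝 z, (τ ∘ e.symm) y = xm c a y • (U • t ∘ e.symm) y := by
    filter_upwards [ev hz ht, hg] with y b1 b2
    simp only [Function.comp_apply, b1.2.2, b2, mul_zpow, Finset.prod_mul_distrib, xm, hUd,
      smul_smul, mul_comm, Pi.smul_apply']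
  have a4 := num_eq a2 (a3.mono fun y b _ => b)
  refine ⟨⟨(Eventually.and a2 a4.eventually_nhds).mono fun y b => b.1.congr_of_eventuallyEq b.2,
    ?_, ?_⟩, fun y b b2 => ?_⟩
  · rw [a4.self_of_nhds]
    exact smul_ne_zero p2 t0
  · rw [a4.self_of_nhds]
    exact a3.self_of_nhds
  · have dt := der he hz (holv ht.self_of_nhds.1)
    rw [a4.fderiv_eq, a4.self_of_nhds, (p1.self_of_nhds.hasFDerivAt.smul dt).fderiv] at b2
    refine ph_inj he hz ((im _ ((U z)⁻¹ * (b * U z - fderiv ℂ U z y)) ?_).trans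
      (map_zero _).symm)
    have b3 : U z • dAt n t (e.symm z) (ph e z y) + fderiv ℂ U z y • t (e.symm z) =
      b • U z • t (e.symm z) := b2
    rw [mul_smul, sub_smul, mul_smul, ← b3, add_sub_cancel_right, smul_smul,
      inv_mul_cancel₀ p2, one_smul]

end AMB

theorem bAMB (hU : St_UNI) : St_AMB := by
  intro n Y I _ _ _ _ _ S D hF ⟨r, e, τ, h0, h⟩
  have key := fun (d : D.A) z (hz : z ∈ B2 n) =>
    let ⟨_, _, hE, t0, ht, im⟩ := h ((D.e d).symm z)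
    AMB.one (Y := Y) hU (D.mem d) (tgt D d hz) (fit hF d) hE t0 ht im
  exact ⟨⟨r, e, τ, fun d => num (D.c d) (fun i => -(e i : ℤ)) (τ ∘ (D.e d).symm), h0,
    fun d z hz => ⟨(key d z hz).1.1, (key d z hz).1.2.1, fun _ => (key d z hz).1.2.2⟩,
    fun d z hz => (key d z hz).2⟩⟩

end Pool.Agent.Lib.ZL
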