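import Pool.Agent.Lib.ZL.Blue2
import Pool.Agent.Lib.ZL.B_LEV
import Pool.Agent.Lib.ZL.B_TRF
import Pool.Agent.Lib.EXS.B_GLU
import Pool.Agent.Lib.SV.B_FRZ
import Pool.Agent.Lib.SV.B_INT

/-! Project ZL: weights with a logarithmic pole. -/

open scoped Classical Topology ContDiff Matrix
open Set Complex Metric Filter

set_option linter.unusedSectionVars false

noncomputable section

namespace Pool.Agent.Lib.ZL

open Pool.Agent.Lib.SV (E nsq d2 levE nsq_nonneg)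
open Pool.Agent.Lib.HS32 Pool.Agent.Lib.EX Pool.Agent.Lib.EXS
open Pool.Agent.Lib.EXS.K32

namespace BMP

variable {n : ℕ}

theorem bd {p : E n → ℝ} (hp : ContDiff ℝ ∞ p) : ∃ B, 0 ≤ B ∧ ∀ w, ‖w‖ ≤ 1 → ∀ v,
    |d2 p w v| ≤ B * ‖v‖ ^ 2 ∧ |fderiv ℝ p w v| ≤ B * ‖v‖ := by
  have h1 : ContDiff ℝ ∞ (fderiv ℝ p) := hp.fderiv_right le_rfl
  obtain ⟨a, ha⟩ := (isCompact_closedBall (0 : E n) 1).exists_bound_of_continuousOn
    h1.continuous.continuousOn
  obtain ⟨b, hb⟩ := (isCompact_closedBall (0 : E n) 1).exists_bound_of_continuousOn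
    (h1.continuous_fderiv (by simp)).continuousOn
  refine ⟨|a| + |b|, by positivity, fun w hw v => ⟨?_, ?_⟩⟩
  · have := hb w (mem_closedBall_zero_iff.2 hw)
    rw [SV.d2_eq (cd_le hp.contDiffAt 2), sq, ← mul_assoc, ← Real.norm_eq_abs]
    refine ((fderiv ℝ (fderiv ℝ p) w).le_opNorm₂ v v).trans ?_
    gcongr
    linarith [le_abs_self b, abs_nonneg a]
  · have := ha w (mem_closedBall_zero_iff.2 hw)
    rw [← Real.norm_eq_abs]
    refine ((fderiv ℝ p w).le_opNorm v).trans ?_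
    gcongr
    linarith [le_abs_self a, abs_nonneg b]

theorem cd_nsq' : ContDiff ℝ ∞ (nsq : E n → ℝ) := contDiff_iff_contDiffAt.2 fun z =>
  cd_nsq (F := fun w => w) (z := z) (Eventually.of_forall fun _ => differentiableAt_fun_id)

theorem model (n : ℕ) : ∃ B : ℝ, 0 ≤ B ∧ ∀ δ ∈ Ioc (0 : ℝ) 1, ∃ g : E n → ℝ, ContDiff ℝ ∞ g ∧
    (∀ w, g w ≤ B) ∧ (∀ w, ‖w‖ < 1 / 4 → g w = Real.log (nsq w + δ)) ∧
    (∀ w, 1 / 4 ≤ ‖w‖ → -B ≤ g w) ∧ (∀ w, 1 / 2 ≤ ‖w‖ → g w = 0) ∧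
    ∀ w, ‖w‖ ≤ 1 → ∀ v, -(B * ‖v‖ ^ 2) ≤ lv g w v := by
  let χ : ContDiffBump (0 : E n) := ⟨1 / 4, 1 / 2, by norm_num, by norm_num⟩
  have hq : ContDiff ℝ ∞ χ := χ.contDiff
  have hp : ContDiff ℝ ∞ fun w : E n => χ w * nsq w + (1 - χ w) :=
    (hq.mul cd_nsq').add (contDiff_const.sub hq)
  obtain ⟨a, a0, ha⟩ := bd hp
  obtain ⟨b, b0, hb⟩ := bd hq
  have z1 : ∀ w : E n, ‖w‖ < 1 / 4 → χ w = 1 := fun w h =>
    χ.one_of_mem_closedBall (mem_closedBall_zero_iff.2 h.le)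
  have z0 : ∀ w : E n, 1 / 2 ≤ ‖w‖ → χ w = 0 := fun w h =>
    χ.zero_of_le_dist (by rwa [dist_zero_right])
  refine ⟨16 * (a + b) + 256 * (a + b) ^ 2 + (n + 16), by positivity, fun δ hδ => ?_⟩
  have δ0 := hδ.1
  have δ1 := hδ.2
  set h : E n → ℝ := fun w => χ w * nsq w + (1 - χ w) + δ * χ w with hh
  have hc : ContDiff ℝ ∞ h := hp.add (contDiff_const.mul hq)
  have h0 : ∀ w, 0 < h w := fun w => by
    have := χ.nonneg (x := w)
    have := χ.le_one (x := w)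
    simp only [hh]
    nlinarith [mul_nonneg ‹0 ≤ χ w› (nsq_nonneg w), mul_nonneg (sub_nonneg.2 ‹χ w ≤ 1›) (sub_nonneg.2 δ1)]
  have h1 : ∀ w, 1 / 4 ≤ ‖w‖ → 1 / 16 ≤ h w := fun w k => by
    have := χ.nonneg (x := w)
    have := χ.le_one (x := w)
    have : 1 / 16 ≤ nsq w := le_trans (by nlinarith) (SV.FRZ.norm_sq_le w)
    simp only [hh]
    nlinarith [mul_nonneg ‹0 ≤ χ w› (sub_nonneg.2 this), mul_nonneg δ0.le ‹0 ≤ χ w›]
  have e1 : ∀ w, ‖w‖ < 1 / 4 → Real.log (h w) = Real.log (nsq w + δ) := fun w k => by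
    simp [hh, z1 w k]
  have e0 : ∀ w, 1 / 2 ≤ ‖w‖ → Real.log (h w) = 0 := fun w k => by simp [hh, z0 w k]
  have gc : ContDiff ℝ ∞ fun w => Real.log (h w) := hc.log fun w => (h0 w).ne'
  have ab : 0 ≤ 16 * (a + b) + 256 * (a + b) ^ 2 := by positivity
  have n0 : (0 : ℝ) ≤ n := n.cast_nonneg
  refine ⟨fun w => Real.log (h w), gc, fun w => ?_, e1, fun w k => ?_, e0, fun w k v => ?_⟩
  · rcases le_total (1 / 2) ‖w‖ with k | k
    · exact (e0 w k).trans_le (by positivity)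
    have := χ.nonneg (x := w)
    have := χ.le_one (x := w)
    have : nsq w ≤ n := (SV.INT.nsq_le w).trans
      (mul_le_of_le_one_right n0 (by nlinarith [norm_nonneg w]))
    refine (Real.log_le_sub_one_of_pos (h0 w)).trans ?_
    simp only [hh]
    nlinarith [mul_nonneg (sub_nonneg.2 ‹χ w ≤ 1›) (nsq_nonneg w),
      mul_nonneg (sub_nonneg.2 ‹χ w ≤ 1›) δ0.le]
  · have := Real.one_sub_inv_le_log_of_pos (h0 w)
    have : (h w)⁻¹ ≤ 16 := inv_le_of_inv_le₀ (by norm_num) (by linarith [h1 w k])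
    linarith
  rw [lv_eq gc.contDiffAt]
  rcases lt_or_ge ‖w‖ (1 / 4) with k' | k'
  · rw [← lv_eq gc.contDiffAt, lv_congr (w := fun y => Real.log (nsq y + δ))
      (((isOpen_lt continuous_norm continuous_const).eventually_mem k').mono e1),
      lv_eq ((cd_nsq'.contDiffAt.add contDiffAt_const).log
        (add_pos_of_nonneg_of_pos (nsq_nonneg w) δ0).ne')]
    have := ((SV.stFS SV.stSMO n _ (fun y => y) w δ δ0.le
      (Eventually.of_forall fun _ => differentiableAt_fun_id)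
      (add_pos_of_nonneg_of_pos (nsq_nonneg w) δ0)).2 v).2
    exact le_trans (neg_nonpos.2 (by positivity)) (by linarith)
  have key : ∀ y, -((16 * (a + b) + 256 * (a + b) ^ 2) * ‖y‖ ^ 2) ≤
      d2 (fun w => Real.log (h w)) w y := fun y => by
    obtain ⟨a1, a2⟩ := ha w k y
    obtain ⟨b1, b2⟩ := hb w k y
    have d1 : -((a + b) * ‖y‖ ^ 2) ≤ d2 h w y := by
      rw [hh, SV.d2_add (cd_le hp.contDiffAt 2) (cd_le (contDiff_const.mul hq).contDiffAt 2),
        SV.d2_const_mul (cd_le hq.contDiffAt 2)]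
      nlinarith [(abs_le.1 a1).1, (abs_le.1 b1).1, mul_nonneg b0 (sq_nonneg ‖y‖)]
    have d2' : fderiv ℝ h w y ^ 2 ≤ ((a + b) * ‖y‖) ^ 2 := by
      refine sq_le_sq' ?_ ?_ <;>
      · rw [hh, LEV.d1_add36 hp.contDiffAt (contDiff_const.mul hq).contDiffAt,
          fderiv_const_mul (cd_diff hq.contDiffAt)]
        simp only [smul_apply, smul_eq_mul]
        nlinarith [abs_le.1 a2, abs_le.1 b2, mul_nonneg b0 (norm_nonneg y)]
    have p0 := h0 w
    have p1 := h1 w k'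
    have s1 : 0 ≤ (a + b) * ‖y‖ ^ 2 := by positivity
    have s2 : 0 ≤ ((a + b) * ‖y‖) ^ 2 := by positivity
    rw [LEV.d2_log36 hc.contDiffAt p0, le_div_iff₀ (by positivity)]
    nlinarith [mul_le_mul_of_nonneg_left d1 p0.le, mul_nonneg s1 (mul_nonneg p0.le (sub_nonneg.2 p1)),
      mul_nonneg s2 (show 0 ≤ 256 * h w ^ 2 - 1 by nlinarith)]
  have k1 := key v
  have k2 := key (I • v)
  rw [norm_smul, norm_I, one_mul] at k2
  rw [levE]
  nlinarith [mul_nonneg ab (sq_nonneg ‖v‖), mul_nonneg n0 (sq_nonneg ‖v‖), sq_nonneg ‖v‖]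

theorem lv_sub_c {g : E n → ℝ} (hg : ContDiff ℝ ∞ g) (a z v : E n) :
    lv (fun y => g (y - a)) z v = lv g (z - a) v := by
  have e : ∀ y, d2 (fun y => g (y - a)) z y = d2 g (z - a) y := fun y => by
    simp only [d2, fderiv_comp_sub]
    rw [fderiv_comp_sub (f := fun w => fderiv ℝ g w y)]
  rw [lv_eq (u := fun y => g (y - a)) (hg.comp (contDiff_id.sub contDiff_const)).contDiffAt,
    lv_eq hg.contDiffAt, levE, levE, e, e]

end BMP

open BMP in
theorem bBMP : St_BMP := by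
  intro n M _ ι _ _ D X ⟨c, c0, hc⟩
  obtain ⟨B, B0, hB⟩ := model n
  have Bc : 0 ≤ B / c := by positivity
  refine ⟨B + B / c, 1 / 4, by positivity, by norm_num, le_rfl, fun d z₀ h₀ δ hδ => ?_⟩
  obtain ⟨g, gc, g1, g2, g3, g4, g5⟩ := hB δ hδ
  set u : M.X → ℝ := fun x => if x ∈ (D.e d).source then g (D.e d x - z₀) else 0 with hu
  have ud : ∀ z ∈ B2 n, D.rd u d z = g (z - z₀) := fun z hz => by
    simp only [Ad.rd, hu, if_pos (GLU.mem_src d hz), GLU.rinv d hz]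
  have sub : closedBall z₀ (1 / 2) ⊆ closedBall 0 (3 / 2) :=
    closedBall_subset_closedBall' (by rw [dist_zero_right]; linarith)
  have sub' : closedBall z₀ (1 / 2) ⊆ B2 n := sub.trans (closedBall_subset_ball (by norm_num))
  have hK : IsClosed ((D.e d).symm '' closedBall z₀ (1 / 2)) :=
    ((isCompact_closedBall _ _).image_of_continuousOn
      ((D.e d).continuousOn_symm.mono fun z hz => GLU.mem_tgt d (sub' hz))).isClosed
  have key : OA D fun b z => ContDiffAt ℝ ∞ (D.rd u b) z ∧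
      ∀ v, 0 ≤ (B + B / c) * lv (D.rd X.α b) z v + lv (D.rd u b) z v := fun b z hz ho => by
    by_cases k : (D.e b).symm z ∈ (D.e d).symm '' closedBall z₀ (1 / 2)
    · obtain ⟨y, hy, e⟩ := k
      have yB := sub' hy
      have xb := GLU.mem_src b hz
      have xd : (D.e b).symm z ∈ (D.e d).source := e ▸ GLU.mem_src d yB
      have ey : (D.e d ∘ (D.e b).symm) z = y := by rw [Function.comp, ← e, GLU.rinv d yB]
      have yo : Off (D.c d) y := ey ▸ (GLU.mem_off xb).2 (by rwa [GLU.rinv b hz]) d xd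
      obtain ⟨hψ, -, -, ev, -⟩ := (mTR n M).2.1 _ (D.mem d) _ (D.mem b) _ xd xb
      rw [GLU.rinv b hz] at hψ ev
      have cg : ∀ f : M.X → ℝ, D.rd f b =ᶠ[𝓝 z] D.rd f d ∘ D.e d ∘ (D.e b).symm := fun f =>
        ev.mono fun w hw => congrArg f hw.2.2.2.2.1.symm
      have ue : D.rd u d =ᶠ[𝓝 y] fun w => g (w - z₀) := (isOpen_ball.eventually_mem yB).mono ud
      have uc : ContDiffAt ℝ ∞ (D.rd u d) y :=
        (gc.comp (contDiff_id.sub contDiff_const)).contDiffAt.congr_of_eventuallyEq ue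
      refine ⟨(ContDiffAt.comp z (ey ▸ uc) (mCHN n _ z hψ).1).congr_of_eventuallyEq (cg u),
        fun v => ?_⟩
      rw [lv_congr (cg u), lv_congr (cg X.α), TRF.lv_comp36 (u := D.rd u d) hψ (ey ▸ uc),
        TRF.lv_comp36 (u := D.rd X.α d) hψ (ey ▸ X.αp.1 d y yB yo), ey, lv_congr ue, lv_sub_c gc]
      generalize jm _ z *ᵥ v = w
      have a1 := hc d y yB yo ((mem_closedBall_zero_iff.1 (sub hy)).trans (by norm_num)) w
      have a2 := g5 (y - z₀) ((mem_closedBall_iff_norm.1 hy).trans (by norm_num)) w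
      have a3 := mul_le_mul_of_nonneg_left a1 Bc
      rw [← mul_assoc, div_mul_cancel₀ _ c0.ne'] at a3
      nlinarith [mul_nonneg B0 (X.αp.2 d y yB yo w)]
    · have ue : D.rd u b =ᶠ[𝓝 z] fun _ => 0 := (GLU.ev_on hK.isOpen_compl hz k).mono fun w hw => by
        simp only [Ad.rd, hu]
        split_ifs with h
        · refine g4 _ (not_lt.1 fun l => hw.2 ⟨_, ?_, (D.e d).left_inv h⟩)
          exact mem_closedBall_iff_norm.2 l.le
        · rfl
      refine ⟨contDiffAt_const.congr_of_eventuallyEq ue, fun v => ?_⟩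
      rw [lv_congr ue, lv_const, add_zero]
      exact mul_nonneg (by positivity) (X.αp.2 b z hz ho v)
  refine ⟨u, fun b z hz ho => (key b z hz ho).1, ⟨fun b z hz ho =>
    (contDiffAt_const.mul (X.αp.1 b z hz ho)).add (key b z hz ho).1, fun b z hz ho v => ?_⟩,
    fun x => ?_, fun z hz => ?_, fun x hx => ?_⟩
  · refine ((key b z hz ho).2 v).trans_eq ?_
    rw [← lv_mul (X.αp.1 b z hz ho), ← lv_add (contDiffAt_const.mul (X.αp.1 b z hz ho))
      (key b z hz ho).1]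
    rfl
  · simp only [hu]
    split_ifs
    · linarith [g1 (D.e d x - z₀)]
    · positivity
  · rw [ud z (sub' (ball_subset_closedBall (ball_subset_ball (by norm_num) hz))),
      g2 _ (mem_ball_iff_norm.1 hz)]
  · simp only [hu]
    split_ifs with h
    · linarith [g3 _ (hx h)]
    · linarith

end Pool.Agent.Lib.ZL
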