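import Pool.Agent.Lib.ZL.Blue2
import Pool.Agent.Lib.EX.K1N
import Pool.Agent.Lib.EX.B_LFT
import Pool.Agent.Lib.EX.B_FINV

/-! Project ZL, block BR1: from the extension theorem on the manifold layer to sections. -/

open scoped Classical Topology ContDiff Manifold
open Set MeasureTheory Complex Metric Filter

set_option linter.unusedVariables false
set_option linter.unusedSectionVars false

noncomputable section

namespace Pool.Agent.Lib.ZL

open Pool.Agent.Lib.SV (E)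
open Pool.Agent.Lib.HS32 Pool.Agent.Lib.EX
open Pool.Agent.Lib.KP (HolAt)
open Pool.Agent.Lib.HS.BBR (mf)

namespace BR1

variable {n : ℕ} {I : Type} [Fintype I] [DecidableEq I]

theorem ind_zero {c : I → Option (Fin n)} {T : Set I} {z : E n} (h : ∃ i ∈ T, xi c i z = 0) :
    xm c (ind T) z = 0 := by
  obtain ⟨i, h1, h2⟩ := h
  exact Finset.prod_eq_zero (Finset.mem_univ i) (by simp [ind, h1, h2])

open LFT in
theorem dif0 {c : I → Option (Fin n)} {a : I → ℕ} {T : Set I} {U U' g σ σ' v : E n → ℂ} {z : E n}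
    (hc : Inj c) (hU : HolN U z) (hU' : HolN U' z) (hg : HolN g z) (hv : HolN v z)
    (h0 : v z ≠ 0) (h : ∀ᶠ y in 𝓝 z, σ y = v y * xm c (fun i => a i) y ∧ σ y = g y * σ' y ∧
      ∀ i ∈ T, xi c i y = 0 → U y = g y * U' y) :
    PolH c (fun i => a i - ind T i) (fun y => U y / σ y - U' y / σ' y) z := by
  obtain ⟨s, h1, h2⟩ := (bDIV n I c (fun y => U y - g y * U' y) z hc (by
    filter_upwards [hU, hU', hg] with y a b d using a.fun_sub (d.fun_mul b))).2
    (Finset.univ.filter fun i => i ∈ T) 1 fun J hJ => by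
      obtain ⟨h3, h4⟩ := Finset.mem_powersetCard.1 hJ
      obtain ⟨i, rfl⟩ := Finset.card_eq_one.1 h4
      filter_upwards [h] with y hy h5
      exact sub_eq_zero.2 (hy.2.2 i (Finset.mem_filter.1 (h3 (Finset.mem_singleton_self i))).2
        (h5 i (Finset.mem_singleton_self i)))
  have h3 : lt (Finset.univ.filter fun i => i ∈ T) 1 = {∅} := by
    ext J
    simp only [lt, Finset.mem_filter, Finset.mem_powerset, Nat.lt_one_iff, Finset.card_eq_zero,
      Finset.mem_singleton]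
    exact ⟨fun h => h.2, fun h => ⟨h ▸ Finset.empty_subset _, h⟩⟩
  have h4 : (-fun i => (a i : ℤ) - ind T i) = (-fun i => (a i : ℤ)) +
      fun i => if i ∈ Finset.univ.filter fun i => i ∈ T then 1 else 0 := by
    funext i
    by_cases hi : i ∈ T <;> simp [ind, hi]
    ring
  refine ⟨_, quo (h1 ∅) hv h0, ?_⟩
  filter_upwards [h, h2, hv.self_of_nhds.continuousAt.eventually_ne h0] with y hy h5 h6 h7
  rw [h3, Finset.sum_singleton, Finset.sdiff_empty] at h5
  have h8 := MON.xm_ne (fun i => (a i : ℤ)) h7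
  have h9 : g y ≠ 0 := left_ne_zero_of_mul (hy.2.1 ▸ hy.1 ▸ mul_ne_zero h6 h8)
  rw [h4, MON.xm_add _ _ h7, MON.xm_ind, MON.xm_neg, ← mul_div_mul_left (U' y) _ h9, ← hy.2.1,
    ← sub_div, h5, hy.1]
  field_simp

open FINV in
theorem finv {M : Mf n} {ι : Type} (D : Ad M I) (k : I → ℕ) (T : Set I)
    (W : ι → Set M.X) (σ u : ι → M.X → ℂ) (g : ι → ι → M.X → ℂ) (α : D.A → ι) (F : M.X → ℂ)
    (hW : ∀ a, IsOpen (W a)) (hα : D.All fun b z => (D.e b).symm z ∈ W (α b))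
    (hσ : ∀ a, ∃ v : D.A → E n → ℂ, D.On (W a) fun d z =>
      HolN (v d) z ∧ v d z ≠ 0 ∧ D.rd (σ a) d z = v d z * xm (D.c d) (fun i => k i) z)
    (hg : ∀ a b, D.On (W a ∩ W b) fun d z => HolN (D.rd (g a b) d) z)
    (hg2 : ∀ a b, ∀ x ∈ W a ∩ W b, σ a x = g a b x * σ b x)
    (hu : ∀ a, D.On (W a) fun d z => HolN (D.rd (u a) d) z)
    (hu2 : ∀ a b, D.On (W a ∩ W b) fun d z => (∃ i ∈ T, xi (D.c d) i z = 0) →
      D.rd (u a) d z = D.rd (g a b) d z * D.rd (u b) d z)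
    (hF : D.All fun b z => PolH (D.c b) (fun i => k i - ind T i)
      (D.rd (F - fun x => u (α b) x / σ (α b) x) b) z) :
    ∃ v : ι → M.X → ℂ, (∀ a, D.On (W a) fun d z => HolN (D.rd (v a) d) z ∧
      ((∃ i ∈ T, xi (D.c d) i z = 0) → D.rd (v a) d z = D.rd (u a) d z)) ∧
      ∀ a b, ∀ x ∈ W a ∩ W b, v a x = g a b x * v b x := by
  have key : ∀ a d, ∀ z ∈ B2 n, (D.e d).symm z ∈ W a → ∃ h, HolN h z ∧
      ((∃ i ∈ T, xi (D.c d) i z = 0) → h z = D.rd (u a) d z) ∧
      ∀ᶠ y in 𝓝 z, Off (D.c d) y → D.rd (fun x => σ a x * F x) d y = h y := by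
    intro a d z hz ha
    obtain ⟨s, hs, e⟩ := hF d z hz
    obtain ⟨v, hv⟩ := hσ (α d)
    have hb := hα d z hz
    refine ⟨fun y => D.rd (g a (α d)) d y *
      (D.rd (u (α d)) d y + v d y * xm (D.c d) (ind T) y * s y), ?_, fun h0 => ?_, ?_⟩
    · filter_upwards [hg a (α d) d z hz ⟨ha, hb⟩, hu (α d) d z hz hb, (hv d z hz hb).1, hs]
        with y h1 h2 h3 h4
      exact h1.mul (h2.add ((h3.mul (MON.diff_xm fun i => Or.inr (by
        unfold ind; split_ifs <;> simp))).mul h4))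
    · simp only [ind_zero h0, mul_zero, zero_mul, add_zero]
      exact (hu2 a (α d) d z hz ⟨ha, hb⟩ h0).symm
    · filter_upwards [e, ev_W (hW a) hz ha] with y h1 h2 h3
      have hb' := hα d y h2.1
      obtain ⟨-, v0, v1⟩ := hv d y h2.1 hb'
      have x0 := MON.xm_ne (fun i => (k i : ℤ)) h3
      have x1 : xm (D.c d) (ind T) y = xm (D.c d) (fun i => k i) y *
          xm (D.c d) (-fun i => (k i : ℤ) - ind T i) y := by
        rw [← MON.xm_add _ _ h3]
        exact congrArg (xm (D.c d) · y) (funext fun i => by simp)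
      have h4 := h1 h3
      simp only [Ad.rd, Pi.sub_apply] at h4 v1 ⊢
      rw [hg2 a (α d) _ ⟨h2.2, hb'⟩, eq_add_of_sub_eq h4, v1, x1]
      field_simp
      ring
  refine ⟨fun a x => limUnder (𝓝[O D] x) fun y => σ a y * F y, fun a d z hz ha => ?_,
    fun a b x hx => ?_⟩
  · obtain ⟨h, h1, h2, h3⟩ := key a d z hz ha
    have e := lim_ev hz h1 h3
    refine ⟨?_, fun h0 => e.eq_of_nhds.trans (h2 h0)⟩
    filter_upwards [h1, e.eventuallyEq_nhds] with y a1 a2
    exact a1.congr_of_eventuallyEq a2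
  · obtain ⟨d, z, hz, rfl⟩ := chart D x
    obtain ⟨h, h1, -, h3⟩ := key b d z hz hx.2
    have hc := (hg a b d z hz hx).self_of_nhds.continuousAt
    refine (lim_eq (h := fun y => D.rd (g a b) d y * h y) hz
      (hc.mul h1.self_of_nhds.continuousAt) ?_).trans ?_
    · filter_upwards [h3, ev_W ((hW a).inter (hW b)) hz hx] with y a1 a2 a3
      rw [← a1 a3]
      simp only [Ad.rd]
      rw [hg2 a b _ a2.2, mul_assoc]
    · beta_reduce
      rw [lim_eq hz h1.self_of_nhds.continuousAt h3]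
      rfl

theorem mem {M : Mf n} {D : Ad M I} {S : I → Set M.X} (hF : D.Fit S) {T : Set I} {d : D.A}
    {z : E n} (hz : z ∈ B2 n) :
    (D.e d).symm z ∈ (⋃ i ∈ T, S i) ↔ ∃ i ∈ T, xi (D.c d) i z = 0 := by
  simp only [mem_iUnion, hF d z hz, exists_prop]

end BR1

open LFT in
theorem bBR1 : St_BR1 := by
  intro n Y ι I _ _ _ _ _ m S ex T k l η W σ g u D α hR hF hα hv hu
  refine ⟨fun a d z hz h => ?_, fun a a' d z hz h => ?_, fun F hF' => ?_⟩
  · obtain ⟨v, hv⟩ := hv a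
    exact ⟨_, quo (holN (hR.opn a).1 (hu.hol a) hz h) (hv d z hz h).1 (hv d z hz h).2.1,
      mer0 ((near (hR.opn a).1 hz h).mono fun y hy => (hv d y hy.1 hy.2).2.2)⟩
  · obtain ⟨v, hv⟩ := hv a
    have o := (hR.opn a).1.inter (hR.opn a').1
    exact BR1.dif0 (g := D.rd (g a a') d) (D.inj d) (holN (hR.opn a).1 (hu.hol a) hz h.1)
      (holN (hR.opn a').1 (hu.hol a') hz h.2) (holN o (fun y hy => (hR.tr a a' y hy).1) hz h)
      (hv d z hz h.1).1 (hv d z hz h.1).2.1 ((near o hz h).mono fun y hy =>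
        ⟨(hv d y hy.1 hy.2.1).2.2, (hR.tr a a' _ hy.2).2, fun i hi h0 =>
          hu.glue a a' _ ⟨hy.2, (BR1.mem hF hy.1).2 ⟨i, hi, h0⟩⟩⟩)
  · obtain ⟨v, h1, h2⟩ := BR1.finv D k T W σ u g α F (fun a => (hR.opn a).1) hα hv
      (fun a b d z hz h => holN ((hR.opn a).1.inter (hR.opn b).1)
        (fun y hy => (hR.tr a b y hy).1) hz h) (fun a b x hx => (hR.tr a b x hx).2)
      (fun a d z hz h => holN (hR.opn a).1 (hu.hol a) hz h)
      (fun a b d z hz h h0 => hu.glue a b _ ⟨h, (BR1.mem hF hz).2 h0⟩) hF'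
    refine ⟨v, ⟨fun a y hy => ?_, fun a b y hy => h2 a b y hy.1⟩, fun a y hy => ?_⟩
    · obtain ⟨d, z, hz, rfl⟩ := FINV.chart D y
      have h3 := (h1 a d z hz hy).1.self_of_nhds
      rw [← (D.e d).right_inv (FINV.tgt hz)] at h3
      exact (K1.hol_iff0 (D.mem d) ((D.e d).map_target (FINV.tgt hz))).2 h3
    · obtain ⟨d, z, hz, rfl⟩ := FINV.chart D y
      exact (h1 a d z hz hy.1).2 ((BR1.mem hF hz).1 hy.2)

end Pool.Agent.Lib.ZL
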