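import Pool.Agent.Lib.ZL.Blue2
import Pool.Agent.Lib.ZL.B_AVG
import Pool.Agent.Lib.ZL.B_TRF
import Pool.Agent.Lib.ZL.B_POL

/-! Project ZL, row CUT: the cut-off of a monomial. -/

open scoped Classical Topology ContDiff Matrix
open Set Complex Metric Filter

set_option linter.unusedSectionVars false

noncomputable section

namespace Pool.Agent.Lib.ZL

open Pool.Agent.Lib.SV (E)
open Pool.Agent.Lib.HS32 Pool.Agent.Lib.EX Pool.Agent.Lib.EXS
open Pool.Agent.Lib.EXS.K32

namespace CUT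

variable {n : ℕ} {M : Mf n} {ι : Type} [Fintype ι] [DecidableEq ι] (D : Ad M ι) (d : D.A)

/-- The extension by zero of a function of the coordinates. -/
def zx (g : E n → ℂ) (x : M.X) : ℂ := if x ∈ (D.e d).source then g (D.e d x) else 0

theorem rd_in (g : E n → ℂ) (b : D.A) {z : E n} (hz : z ∈ B2 n)
    (h : (D.e b).symm z ∈ (D.e d).source) :
    D.rd (zx D d g) b =ᶠ[𝓝 z] g ∘ (D.e d ∘ (D.e b).symm) := by
  filter_upwards [((D.e b).continuousAt_symm ((D.tgt b).symm ▸ hz)).preimage_mem_nhds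
    ((D.e d).open_source.mem_nhds h)] with w hw
  exact if_pos hw

theorem cls [M.Cpt] {S : Set (E n)} (hS : IsCompact S) (h : S ⊆ B2 n) :
    IsClosed ((D.e d).symm '' S) :=
  (hS.image_of_continuousOn ((D.e d).continuousOn_symm.mono ((D.tgt d).symm ▸ h))).isClosed

theorem rd_out [M.Cpt] {g : E n → ℂ} {S : Set (E n)} (hS : IsCompact S) (h : S ⊆ B2 n)
    (h0 : ∀ y ∉ S, g y = 0) (b : D.A) {z : E n} (hz : z ∈ B2 n)
    (hx : (D.e b).symm z ∉ (D.e d).symm '' S) : D.rd (zx D d g) b =ᶠ[𝓝 z] fun _ => 0 := by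
  filter_upwards [((D.e b).continuousAt_symm ((D.tgt b).symm ▸ hz)).preimage_mem_nhds
    ((cls D d hS h).isOpen_compl.mem_nhds hx)] with w hw
  by_cases e : (D.e b).symm w ∈ (D.e d).source
  · exact (if_pos e).trans (h0 _ fun hy => hw ⟨_, hy, (D.e d).left_inv e⟩)
  · exact if_neg e

theorem hol_in (b : D.A) {z : E n} (hz : z ∈ B2 n) (h : (D.e b).symm z ∈ (D.e d).source) :
    HolN (D.e d ∘ (D.e b).symm) z := by
  have := EX.TRF.holT D h (EX.TRF.mem_src D (a := b) hz)
  rwa [EX.TRF.rinv D hz] at this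

theorem off_in (b : D.A) {z : E n} (hz : z ∈ B2 n) (ho : Off (D.c b) z)
    (h : (D.e b).symm z ∈ (D.e d).source) : Off (D.c d) (D.e d ((D.e b).symm z)) := by
  rw [EX.TRF.off_iff D h (EX.TRF.mem_src D (a := b) hz), EX.TRF.rinv D hz]
  exact ho

theorem db_zero {G : E n → ℂ} {z : E n} (h : HolN G z) (v : E n) : db G z v = 0 :=
  Finset.sum_eq_zero fun j _ => by rw [AVG.dzb_hol90 h, mul_zero]

end CUT

open CUT in
theorem bCUT (hPW : St_PW) : St_CUT := by
  intro n M _ ι _ _ D X P d z₀ r hB hz₀ r0 r1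
  obtain ⟨-, -, -, -, -, pn, -, -, pc, -⟩ := hPW n M ι D
  obtain ⟨C, -, hC⟩ := pc (3 / 2) (by norm_num)
  obtain ⟨k, k0, hk⟩ := hB
  let φ : ContDiffBump z₀ := ⟨r, 1 / 2, r0, by linarith⟩
  set g : E n → ℂ := fun y => xm (D.c d) (-P) y * (φ y : ℝ) with hg
  have nS : ∀ y ∈ closedBall z₀ (1 / 2), ‖y‖ ≤ 3 / 2 := fun y hy => by
    have := norm_le_norm_add_norm_sub' y z₀
    rw [mem_closedBall, dist_eq_norm] at hy
    linarith
  have hS : closedBall z₀ (1 / 2) ⊆ B2 n := fun y hy =>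
    mem_ball_zero_iff.2 ((nS y hy).trans_lt (by norm_num))
  have g0 : ∀ y ∉ closedBall z₀ (1 / 2), g y = 0 := fun y hy => by
    simp only [hg, φ.zero_of_le_dist (x := y) (not_le.1 hy).le, ofReal_zero, mul_zero]
  have gp : ∀ y, Pol (D.c d) P g y := fun y =>
    ⟨fun w => (φ w : ℝ), Eventually.of_forall fun w => cd_ofReal φ.contDiffAt,
      Eventually.of_forall fun w _ => rfl⟩
  have g1 : ∀ y ∈ ball z₀ r, g y = xm (D.c d) (-P) y := fun y hy => by
    simp only [hg, φ.one_of_mem_closedBall (ball_subset_closedBall hy), ofReal_one, mul_one]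
  obtain ⟨A, A0, hA⟩ := AVG.unif90 (isCompact_closedBall z₀ (1 / 2)) fun y _ => gp y
  set T : ℝ := Real.exp (C * ∑ i, |(-fun i => (P i : ℝ)) i|) with hT
  have T0 : 0 < T := Real.exp_pos _
  have b2 : ∀ x ∈ (D.e d).source, D.e d x ∈ closedBall z₀ (1 / 2) → Off (D.c d) (D.e d x) →
      normSq (xm (D.c d) (-P) (D.e d x)) ≤ T * Real.exp (-lw D (fun i => P i) x) :=
    fun x hx hy ho => by
      have := (hC (-fun i => (P i : ℝ)) d _ (nS _ hy) ho).1
      rw [← hT] at this
      rw [← POL.xr_int, ← pn]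
      simpa only [Pi.neg_def, Int.cast_neg, Ad.rd, (D.e d).left_inv hx] using this
  have cK : IsCompact (closedBall z₀ (1 / 2) \ ball z₀ r) :=
    (isCompact_closedBall _ _).diff isOpen_ball
  have Q0 : 0 ≤ (n * A) ^ 2 * T / k := by positivity
  refine ⟨zx D d g, (D.e d).symm '' (closedBall z₀ (1 / 2) \ ball z₀ r), T + (n * A) ^ 2 * T / k,
    by positivity, cls D d cK fun y hy => hS hy.1, fun b z hz ho => ?_, fun x hx => ?_,
    fun z hz ho => ?_, ?_, fun b z hz ho v => ?_⟩
  · by_cases h : (D.e b).symm z ∈ (D.e d).source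
    · exact ((AVG.pol_cd90 (gp _) (off_in D d b hz ho h)).comp z
        (mCHN n _ z (hol_in D d b hz h)).1).congr_of_eventuallyEq (rd_in D d g b hz h)
    · refine contDiffAt_const.congr_of_eventuallyEq
        (rd_out D d (isCompact_closedBall _ _) hS g0 b hz ?_)
      rintro ⟨y, hy, e⟩
      exact h (e ▸ EX.TRF.mem_src D (hS hy))
  · have x0 := Real.exp_pos (-lw D (fun i => P i) x)
    by_cases h : x ∈ (D.e d).source ∧ D.e d x ∈ closedBall z₀ (1 / 2)
    · have q := b2 x h.1 h.2 (hx d h.1)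
      have q1 : normSq ((φ (D.e d x) : ℝ) : ℂ) ≤ 1 := by
        rw [normSq_ofReal]
        exact mul_le_one₀ φ.le_one φ.nonneg φ.le_one
      rw [zx, if_pos h.1, hg, map_mul]
      nlinarith [mul_le_mul_of_nonneg_left q1 (normSq_nonneg (xm (D.c d) (-P) (D.e d x))),
        mul_nonneg Q0 x0.le]
    · have : zx D d g x = 0 := by
        by_cases e : x ∈ (D.e d).source
        · exact (if_pos e).trans (g0 _ fun hy => h ⟨e, hy⟩)
        · exact if_neg e
      rw [this, map_zero]
      positivity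
  · have hz' := hS (ball_subset_closedBall (ball_subset_ball (by linarith) hz))
    rw [Ad.rd, zx, if_pos (EX.TRF.mem_src D hz'), EX.TRF.rinv D hz', g1 z hz]
  · rintro _ ⟨y, hy, rfl⟩ -
    rw [EX.TRF.rinv D (hS hy.1), ← dist_eq_norm]
    exact not_lt.1 hy.2
  · have p0 := X.αp.2 b z hz ho v
    have x0 := Real.exp_pos (-lw D (fun i => P i) ((D.e b).symm z))
    have z0 : db (D.rd (zx D d g) b) z v = 0 → normSq (db (D.rd (zx D d g) b) z v) ≤
        D.rd (((D.e d).symm '' (closedBall z₀ (1 / 2) \ ball z₀ r)).indicator fun x =>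
          (T + (n * A) ^ 2 * T / k) * Real.exp (-lw D (fun i => P i) x)) b z *
          lv (D.rd X.α b) z v := fun e => by
      rw [e, map_zero]
      exact mul_nonneg (indicator_nonneg (fun x _ => by positivity) _) p0
    by_cases h : (D.e b).symm z ∈ (D.e d).symm '' closedBall z₀ (1 / 2)
    · obtain ⟨y, hy, e⟩ := h
      have h : (D.e b).symm z ∈ (D.e d).source := e ▸ EX.TRF.mem_src D (hS hy)
      have ey : D.e d ((D.e b).symm z) = y := by rw [← e, EX.TRF.rinv D (hS hy)]
      have oy : Off (D.c d) y := ey ▸ off_in D d b hz ho h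
      have hψ := hol_in D d b hz h
      have ey' : (D.e d ∘ (D.e b).symm) z = y := ey
      have e1 : db (D.rd (zx D d g) b) z v = db g y (jm (D.e d ∘ (D.e b).symm) z *ᵥ v) := by
        rw [TRF.db_congr36 (rd_in D d g b hz h),
          TRF.db_comp36 hψ (by rw [ey']; exact AVG.pol_cd90 (gp _) oy), ey']
      by_cases hr : y ∈ ball z₀ r
      · refine z0 ?_
        rw [e1, TRF.db_congr36 (eventually_of_mem (isOpen_ball.mem_nhds hr) g1)]
        exact db_zero (xm_hol fun i _ => oy i) _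
      · have e2 : lv (D.rd X.α b) z v = lv (D.rd X.α d) y (jm (D.e d ∘ (D.e b).symm) z *ᵥ v) := by
          have : D.rd X.α b =ᶠ[𝓝 z] D.rd X.α d ∘ (D.e d ∘ (D.e b).symm) := by
            filter_upwards [((D.e b).continuousAt_symm ((D.tgt b).symm ▸ hz)).preimage_mem_nhds
              ((D.e d).open_source.mem_nhds h)] with w hw
            exact congrArg X.α ((D.e d).left_inv hw).symm
          rw [lv_congr this, TRF.lv_comp36 hψ (by rw [ey']; exact X.αp.1 d y (hS hy) oy), ey']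
        have hK : (D.e b).symm z ∈ (D.e d).symm '' (closedBall z₀ (1 / 2) \ ball z₀ r) :=
          ⟨y, ⟨hy, hr⟩, e⟩
        rw [e1, e2, Ad.rd, indicator_of_mem hK]
        set u := jm (D.e d ∘ (D.e b).symm) z *ᵥ v
        have b1 := AVG.db_le90 (hA y hy oy) u
        have b3 := hk d y (hS hy) oy ((nS y hy).trans (by norm_num)) u
        have b4 := b2 _ h (ey ▸ hy) (ey ▸ oy)
        rw [ey, normSq_eq_norm_sq] at b4
        have b5 : 0 ≤ lv (D.rd X.α d) y u := le_trans (by positivity) b3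
        rw [normSq_eq_norm_sq]
        calc _ ≤ (n * (A * ‖xm (D.c d) (-P) y‖) * ‖u‖) ^ 2 := pow_le_pow_left₀ (norm_nonneg _) b1 2
          _ = (n * A) ^ 2 * ‖xm (D.c d) (-P) y‖ ^ 2 / k * (k * ‖u‖ ^ 2) := by field_simp
          _ ≤ (n * A) ^ 2 * (T * Real.exp (-lw D (fun i => P i) ((D.e b).symm z))) / k *
              lv (D.rd X.α d) y u := by gcongr
          _ = (n * A) ^ 2 * T / k * Real.exp (-lw D (fun i => P i) ((D.e b).symm z)) *
              lv (D.rd X.α d) y u := by ring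
          _ ≤ _ := by gcongr; linarith
    · refine z0 ?_
      rw [TRF.db_congr36 (rd_out D d (isCompact_closedBall _ _) hS g0 b hz h)]
      exact db_zero (Eventually.of_forall fun _ => differentiableAt_const _) _

end Pool.Agent.Lib.ZL
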