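import Pool.Agent.Lib.ZL.Blue2
import Pool.Agent.Lib.EX.B_TRF

/-! Project ZL, row `GEN`: finitely many peak sections generate. -/

open scoped Classical Topology ContDiff
open Set Complex Metric Filter

noncomputable section

namespace Pool.Agent.Lib.ZL

open Pool.Agent.Lib.SV (E)
open Pool.Agent.Lib.HS32 Pool.Agent.Lib.EX

namespace GEN

variable {n : ℕ} {M : Mf n} {ι : Type} [Fintype ι] [DecidableEq ι] (D : Ad M ι) (P : ι → ℤ)

/-- The numerator of `F` does not vanish at `x` in the chart `d`. -/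
def Nz (F : M.X → ℂ) (d : D.A) (z : E n) : Prop := ∃ s, HolN s z ∧ s z ≠ 0 ∧
  ∀ᶠ y in 𝓝 z, Off (D.c d) y → D.rd F d y = xm (D.c d) (-P) y * s y

variable {D P}

/-- The property is open. -/
theorem Nz.ev {F : M.X → ℂ} {d : D.A} {z : E n} (h : Nz D P F d z) :
    ∀ᶠ y in 𝓝 z, Nz D P F d y := by
  obtain ⟨s, s1, s2, s3⟩ := h
  filter_upwards [s1.eventually_nhds, s3.eventually_nhds,
    s1.self_of_nhds.continuousAt.eventually_ne s2] with y a1 a2 a3
  exact ⟨s, a1, a3, a2⟩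

/-- The property does not depend on the chart. -/
theorem Nz.tr {F : M.X → ℂ} {a b : D.A} {x : M.X} (ha : x ∈ (D.e a).source)
    (hb : x ∈ (D.e b).source) (h : Nz D P F a (D.e a x)) : Nz D P F b (D.e b x) := by
  obtain ⟨s, s1, s2, s3⟩ := h
  refine ⟨D.tr a b s * D.rd (D.um (-P) a b) b,
    EX.TRF.holN_mul (EX.TRF.hoT D ha hb s1) (EX.TRF.um_hol D _ ha hb), ?_, ?_⟩
  · simp only [Pi.mul_apply, Ad.tr, Ad.rd, (D.e b).left_inv hb]
    exact mul_ne_zero s2 ((EX.TRF.coc D (-P)).ne a b x ha hb)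
  · filter_upwards [EX.TRF.rep1 D ha hb s3, EX.TRF.near D ha hb] with y a1 a2 a3
    rw [← a1 a3, Ad.tr, Ad.rd, Ad.rd, (D.e a).left_inv a2.1]

end GEN

/-- Row `GEN`. -/
theorem bGEN : St_GEN := by
  intro n M _ ι _ _ D P h
  have k : ∀ x : M.X, ∃ F, Mer D P F ∧
      ∀ᶠ y in 𝓝 x, ∀ b, y ∈ (D.e b).source → GEN.Nz D P F b (D.e b y) := fun x => by
    obtain ⟨d, -, hd⟩ := Finset.exists_ne_zero_of_sum_ne_zero
      ((D.sum x).trans_ne one_ne_zero)
    obtain ⟨h1, h2⟩ := D.supp d x hd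
    obtain ⟨F, s, f1, f2⟩ := h d _ h2
    refine ⟨F, f1, ?_⟩
    filter_upwards [((D.e d).continuousAt h1).eventually (GEN.Nz.ev ⟨s, f2⟩),
      (D.e d).open_source.eventually_mem h1] with y a1 a2 b a3
    exact a1.tr a2 a3
  choose F hF hU using k
  obtain ⟨t, ht⟩ := CompactSpace.elim_nhds_subcover _ hU
  refine ⟨t.card, fun a => F (t.equivFin.symm a), fun a => hF _, fun d z hz => ?_⟩
  obtain ⟨x, hx, q⟩ := mem_iUnion₂.1 (ht.ge (mem_univ ((D.e d).symm z)))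
  have q' := q d (EX.TRF.mem_src D hz)
  rw [EX.TRF.rinv D hz] at q'
  refine ⟨t.equivFin ⟨x, hx⟩, ?_⟩
  simp only [Equiv.symm_apply_apply]
  exact q'

end Pool.Agent.Lib.ZL
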