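import Pool.Agent.Lib.ZL.Blue2
import Pool.Agent.Lib.EX.K1O

/-! Project ZL: the two target statements from the rows. -/

open scoped Classical Topology ContDiff ENNReal Manifold
open Set MeasureTheory Complex Metric Filter

noncomputable section

namespace Pool.Agent.Lib.ZL

open Pool.Agent.Lib.SV (E)
open Pool.Agent.Lib.HS32 Pool.Agent.Lib.EX Pool.Agent.Lib.EXS
open Pool.Agent.Lib.HS.BBR (mf)

theorem bH1 (hE : St_EXT) (hR : St_RS1) (hB : St_BR1) (hA : St_AMB) (hN : St_NFB) (hC : St_CX)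
    (hP : St_PEAK) : St_H1 := by
  intro n Y ι I _ _ _ _ _ _ _ G m M S ex k l η W σ g u hG hm hM hL hAm hc hn hu
  obtain ⟨D, B, w, α, hF, w1, w2, w3, b1, b2, hv⟩ := hR n Y ι I m S ex k l η W σ g hL
  have : (mf n Y).Cpt := ⟨‹_›, ‹_›, ‹_›⟩
  obtain ⟨A⟩ := hA n Y I S D hF hAm
  obtain ⟨X, x1, x2, -, -, x3, -⟩ := hC n _ I D A l m w hm w1 w2 w3
  obtain ⟨c, X', -, -, y1, y2, -, -, -, y3⟩ := hP n _ I D X _ x3 (hN n Y I G S _ D X hG hF hn)
  have ho : X'.o = fun i => (l i / m : ℝ) := funext fun i => by rw [Cx.o, y1, y2, x1, x2]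
  obtain ⟨a1, a2, a3⟩ := hB n Y ι I m S ex _ k l η W σ g u D α hL hF b2 hv hu
  have h := hE n _ I D X' k M ex B (fun b x => u (α b) x / σ (α b) x)
    (by exact_mod_cast (by omega : 1 < M))
  rw [ho] at h
  obtain ⟨F, hF'⟩ := h hc.le hc.sup hc.ge y3 (fun b z hz => (b1 b).ge (b2 b z hz))
    (fun b => (b1 b).symm ▸ a1 (α b)) fun b b' => (b1 b).symm ▸ (b1 b').symm ▸ a2 (α b) (α b')
  exact a3 F hF'

theorem bH2 (hU : St_UNI) (hD : St_ADA) (hZ : St_ZO) (hM : St_ZM) (hB : St_BR2) (hA : St_AMB)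
    (hN : St_NFB) (hC : St_CX) (hW : St_WGT) : St_H2 := by
  intro n Y I _ _ _ _ _ _ _ G m M S k p l η hG hm hM0 hη hAm hn hk hp
  have : (mf n Y).Cpt := ⟨‹_›, ‹_›, ‹_›⟩
  obtain ⟨D, hF, -⟩ := hD n (mf n Y) I S (fun _ => univ) (fun _ => univ_mem) fun x : Y => by
    obtain ⟨h, -, hh, -⟩ := hη x
    exact ⟨_, K1.ch_mf x, mem_chart_source _ x, _,
      K1.eqs_chart (K1.ch_mf x) (mem_chart_source _ x) hh⟩
  obtain ⟨w, w1, w2, w3⟩ := K1.ord_form hU hF hη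
  obtain ⟨A⟩ := hA n Y I S D hF hAm
  obtain ⟨X, x1, x2, -, -, x3, -⟩ := hC n _ I D A l m w hm w1 w2 w3
  have ho : ∀ i, X.o i = (l i / m : ℝ) := fun i => by rw [Cx.o, x1, x2]
  have M0 : (0 : ℝ) < M := Nat.cast_pos.2 hM0
  obtain ⟨C, ρ, r1, r2⟩ := hZ n _ I D X ⟨p, M, M0, fun i => by rw [ho]; linarith [(hp i).1],
    fun i => by rw [ho]; linarith [(hp i).2]⟩ k x3 (hN n Y I G S k D X hG hF hn) hk
  have t0 : Tendsto (fun j : ℕ => 1 / ((j : ℝ) + 1)) atTop (𝓝 0) :=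
    tendsto_one_div_add_atTop_nhds_zero_nat
  have p0 : ∀ j : ℕ, (0 : ℝ) < 1 / ((j : ℝ) + 1) := fun j => by positivity
  have lm : ∀ (a : I → ℤ) x, lw D (fun i => a i) x = M * lw D (fun i => a i / M) x := fun a x => by
    simp only [lw, Finset.mul_sum]
    exact Finset.sum_congr rfl fun i _ => by field_simp
  obtain ⟨L, -, -, hW⟩ := hW
  obtain ⟨z1, z2, z3⟩ := hM n _ I D X (fun i => p i) (fun i => k i) (M * C)
    (fun j x => M * ρ (1 / ((j : ℝ) + 1)) x) (fun j => M * (1 / ((j : ℝ) + 1)))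
    (by simpa only [mul_zero] using t0.const_mul (M : ℝ))
    (fun j => by
      simpa only [mul_add, mul_assoc] using (hW n _ I D).2.2.1 M _ M0.le (r1 _ (p0 j)).2.1)
    (fun j x hx => by
      rw [lm, ← mul_sub]
      exact mul_le_mul_of_nonneg_left ((r1 _ (p0 j)).2.2 x hx) M0.le)
    fun s hs => by
      obtain ⟨A, ε₁, e0, hA⟩ := r2 X.o (fun i => lt_add_one _) (s * M) (mul_pos hs M0)
      refine ⟨A, (t0.eventually (eventually_le_nhds e0)).mono fun j hj => ?_⟩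
      simpa only [lm k, ← mul_add, mul_assoc] using hA _ (p0 j) hj
  exact ⟨_, hB n Y I S k p D X _ _ hF (fun y => (hη y).imp fun h hh => hh.elim fun _ a => a.1)
    z1 z2 z3⟩

end Pool.Agent.Lib.ZL
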