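import Pool.Agent.Lib.ZL.HQ0
import Pool.Agent.Lib.ZQ.Horq
import Pool.Agent.Lib.ZQ.Off

/-! Project ZL, row HQ. -/

open scoped Classical Topology ContDiff ComplexOrder Matrix ENNReal
open Set MeasureTheory Complex Metric Filter

noncomputable section

namespace Pool.Agent.Lib.ZL

open Pool.Agent.Lib.SV (E nsq nsq_nonneg)
open Pool.Agent.Lib.HS32 Pool.Agent.Lib.EX Pool.Agent.Lib.ZQ
open Pool.Agent.Lib.EXS (off)
open Pool.Agent.Lib.EXS.K32

namespace HQ

variable {n : ℕ} {M : Mf n} {ι : Type} [Fintype ι] [DecidableEq ι] {D : Ad M ι}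

theorem ex_q [M.Cpt] {r : ℕ} {Z : M.X → E r}
    (hZ : D.On (off D) fun d z => HolN (D.rd Z d) z ∧ ∀ v, fderiv ℂ (D.rd Z d) z v = 0 → v = 0) :
    ∃ (q : M.X → E n) (d : D.A) (z : E n), (D.On (off D) fun d z => HolN (D.rd q d) z) ∧
      z ∈ B2 n ∧ Off (D.c d) z ∧ (jm (D.rd q d) z).det ≠ 0 := by
  obtain ⟨x, hx⟩ := (off_dense D).nonempty
  obtain ⟨d, hd⟩ := ex_ch D x
  have hz := TRF.mem_B D hd
  obtain ⟨h1, h2⟩ := on_at hZ hd hx
  obtain ⟨Λ, hΛ⟩ := LinearMap.exists_leftInverse_of_injective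
    (fderiv ℂ (D.rd Z d) (D.e d x)).toLinearMap (LinearMap.ker_eq_bot'.2 h2)
  have hq : D.On (off D) fun d z => HolN (D.rd (fun y => Λ.toContinuousLinearMap (Z y)) d) z :=
    fun d z hz hw => (hZ d z hz hw).1.mono fun y hy =>
      Λ.toContinuousLinearMap.differentiableAt.comp y hy
  refine ⟨_, d, _, hq, hz, hx d hd, fun h => ?_⟩
  obtain ⟨v, hv, h4⟩ := Matrix.exists_mulVec_eq_zero_iff.2 h
  rw [← (mCHN n _ _ (on_at hq hd hx)).2.2.2.2.2.1] at h4
  have h5 := (Λ.toContinuousLinearMap.hasFDerivAt.comp _ h1.self_of_nhds.hasFDerivAt).fderiv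
  exact hv ((LinearMap.congr_fun hΛ v).symm.trans ((congrArg (· v) h5).symm.trans h4))

theorem ineq_tr {e e' : M.Ch} {x : M.X} {ph : M.X → ℝ} {Γ : M.X → ℂ} {b : ℝ} (he : e ∈ M.C)
    (he' : e' ∈ M.C) (hx : x ∈ e.source) (hx' : x ∈ e'.source)
    (h1 : ContDiffAt ℝ ∞ (ph ∘ e.symm) (e x)) (h2 : ContDiffAt ℝ ∞ (Γ ∘ e.symm) (e x))
    (h : ∀ v : E n, normSq (∑ i, star (v i) * dzb i (Γ ∘ e.symm) (e x)) ≤
      b * nq (M.hs ph e (e x)) v) (v : E n) :
    normSq (∑ i, star (v i) * dzb i (Γ ∘ e'.symm) (e' x)) ≤ b * nq (M.hs ph e' (e' x)) v := by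
  have t1 := ((mTR n M).2.1 e he e' he' x hx hx').1
  have pt : (e ∘ e'.symm) (e' x) = e x := by rw [Function.comp_apply, e'.left_inv hx']
  have C := mCHN n _ _ t1
  have e2 : ∑ i, star (v i) * dzb i (Γ ∘ e'.symm) (e' x) =
      ∑ i, star ((jm (e ∘ e'.symm) (e' x) *ᵥ v) i) * dzb i (Γ ∘ e.symm) (e x) := by
    simp only [dzb_congr (ev_tr Γ hx hx'),
      (C.2.2.2.2.2.2.2.2.2.1 _ (by rw [pt]; exact cd_diff h2) _).2,
      pt, Matrix.mulVec, dotProduct, star_sum, star_mul', Finset.mul_sum, Finset.sum_mul]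
    rw [Finset.sum_comm]
    exact Finset.sum_congr rfl fun _ _ => Finset.sum_congr rfl fun _ _ => by ring
  rw [e2, lv_tr he he' hx hx' h1, BBD.nq_conj]
  exact h _

omit [DecidableEq ι] in
theorem xm_root (c : ι → Option (Fin n)) (k : ι → ℤ) (m : ℕ) (z : E n) :
    normSq (xm c k z) ^ (1 / m : ℝ) = xr c (fun i => k i / m) z := by
  rw [xm, xr, map_prod, ← Real.finsetProd_rpow _ _ fun i _ => normSq_nonneg _]
  refine Finset.prod_congr rfl fun i _ => ?_
  rw [map_zpow₀, ← Real.rpow_intCast, ← Real.rpow_mul (normSq_nonneg _), mul_one_div]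

/-- The choices. -/
structure Su (D : Ad M ι) (k : ι → ℤ) (m : ℕ) (w : D.A → E n → ℂ) where
  q : M.X → E n
  H : M.X → ℂ
  m0 : 0 < m
  whol : D.All fun b z => DifferentiableAt ℂ (w b) z
  wne : D.All fun b z => w b z ≠ 0
  hq : D.On (off D) fun d z => HolN (D.rd q d) z
  hH : D.On (off D) fun d z => D.rd H d z = w d z * xm (D.c d) k z / (jm (D.rd q d) z).det ^ m
  ne : ∃ x ∈ off D, H x ≠ 0

namespace Su

variable {k : ι → ℤ} {m : ℕ} {w : D.A → E n → ℂ} (S : Su D k m w) {d : D.A} {z : E n}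

/-- The equation of the ramification. -/
def j (x : M.X) : ℂ := (S.H x)⁻¹

/-- The unramified set. -/
def O : Set M.X := {x | x ∈ off D ∧ S.j x ≠ 0}

theorem j_hol (hz : z ∈ B2 n) (hw : (D.e d).symm z ∈ off D) : HolN (D.rd S.j d) z := by
  have h1 := on_ev (d := d) (off_open D) hz hw
  refine hol_congr (f := fun y => (jm (D.rd S.q d) y).det ^ m * (w d y * xm (D.c d) k y)⁻¹) ?_ ?_
  · filter_upwards [h1, (mCHN n _ _ (S.hq d z hz hw)).2.2.2.2.1] with y a b
    have o := (off_symm D a.1).1 a.2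
    exact (b.pow m).mul (((S.whol d y a.1).mul (MON.diff_xm fun i => Or.inl (o i))).inv
      (mul_ne_zero (S.wne d y a.1) (MON.xm_ne k o)))
  · filter_upwards [h1] with y a
    exact (congrArg Inv.inv (S.hH d y a.1 a.2)).trans ((inv_div _ _).trans (div_eq_mul_inv _ _))

theorem j_cont {x : M.X} (hx : x ∈ off D) : ContinuousAt S.j x := by
  obtain ⟨d, hd⟩ := ex_ch D x
  exact cont_of hd (S.j_hol (TRF.mem_B D hd)
    (by rwa [(D.e d).left_inv hd])).self_of_nhds.continuousAt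

theorem O_open : IsOpen S.O := isOpen_iff_mem_nhds.2 fun _ hx =>
  ((off_open D).eventually_mem hx.1).and ((S.j_cont hx.1).eventually_ne hx.2)

theorem j_nz [M.Cpt] (hz : z ∈ B2 n) (hw : (D.e d).symm z ∈ off D) :
    ¬D.rd S.j d =ᶠ[𝓝 z] 0 := by
  obtain ⟨x, h1, h2⟩ := S.ne
  refine not_zero (off_conn D) (fun y hy => ?_) h1 (inv_ne_zero h2) (tg hz) hw
  obtain ⟨b, hb⟩ := ex_ch D y
  exact ⟨_, hb, S.j_hol (TRF.mem_B D hb) (by rwa [(D.e b).left_inv hb])⟩

theorem H_hol (hz : z ∈ B2 n) (hw : (D.e d).symm z ∈ S.O) :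
    HolN (D.rd S.H d) z ∧ D.rd S.H d z ≠ 0 ∧ (jm (D.rd S.q d) z).det ≠ 0 := by
  have h1 := S.j_hol hz hw.1
  have h2 : D.rd S.H d z ≠ 0 := fun h => hw.2 (inv_eq_zero.2 h)
  refine ⟨?_, h2, fun h => h2 ?_⟩
  · filter_upwards [h1, h1.self_of_nhds.continuousAt.eventually_ne hw.2] with y a b
    exact (a.inv b).congr_of_eventuallyEq (.of_forall fun y => (inv_inv _).symm)
  · rw [S.hH d z hz hw.1, h, zero_pow S.m0.ne', div_zero]

theorem den (hz : z ∈ B2 n) (hw : (D.e d).symm z ∈ S.O) :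
    normSq (jm (D.rd S.q d) z).det * normSq (D.rd S.H d z) ^ (1 / m : ℝ) =
      normSq (w d z) ^ (1 / m : ℝ) * xr (D.c d) (fun i => k i / m) z := by
  have p := normSq_pos.2 (S.H_hol hz hw).2.2
  rw [S.hH d z hz hw.1, map_div₀, map_mul, map_pow,
    Real.div_rpow (mul_nonneg (normSq_nonneg _) (normSq_nonneg _)) (pow_nonneg p.le _),
    Real.mul_rpow (normSq_nonneg _) (normSq_nonneg _), xm_root, one_div,
    Real.pow_rpow_inv_natCast p.le S.m0.ne', mul_div_cancel₀ _ p.ne']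

theorem et : M.All fun e z => e.symm z ∈ S.O →
    HolN (S.q ∘ e.symm) z ∧ (jm (S.q ∘ e.symm) z).det ≠ 0 :=
  Mf.allOn_of_source fun e he y hy ho => by
    rw [e.left_inv hy] at ho
    obtain ⟨d, hd⟩ := ex_ch D y
    have h1 := on_at S.hq hd ho.1
    refine ⟨hol_tr (D.mem d) he hd hy h1, ?_⟩
    rw [jm_tr (D.mem d) he hd hy h1]
    exact mul_ne_zero (S.H_hol (TRF.mem_B D hd) (by rwa [(D.e d).left_inv hd])).2.2
      ((mTR n M).2.1 _ (D.mem d) e he y hd hy).2.1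

/-- The density. -/
def ρ (x : M.X) : ℝ≥0∞ := ENNReal.ofReal (normSq (S.H x) ^ (1 / m : ℝ))

/-- The measure. -/
def μ : Measure M.X := (SV.rm S.q S.O).withDensity S.ρ

theorem H_cont : ContinuousOn S.H S.O := fun x hx => by
  obtain ⟨d, hd⟩ := ex_ch D x
  exact (cont_of hd (S.H_hol (TRF.mem_B D hd)
    (by rwa [(D.e d).left_inv hd])).1.self_of_nhds.continuousAt).continuousWithinAt

variable [M.Cpt]

theorem ae_O : ∀ᵐ x ∂SV.rm S.q S.O, x ∈ S.O := rm_off S.O_open S.et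

theorem ρ_meas : AEMeasurable S.ρ (SV.rm S.q S.O) := by
  rw [← Measure.restrict_eq_self_of_ae_mem S.ae_O]
  exact (((continuous_normSq.comp_continuousOn S.H_cont).rpow_const fun _ _ =>
    Or.inr (by positivity)).aemeasurable S.O_open.measurableSet).ennreal_ofReal

theorem lint (F : M.X → ℝ≥0∞) : ∫⁻ x, F x ∂S.μ = ∫⁻ x, S.ρ x * F x ∂SV.rm S.q S.O :=
  lintegral_withDensity_eq_lintegral_mul_non_measurable₀ _ S.ρ_meas
    (ae_of_all _ fun _ => ENNReal.ofReal_lt_top) F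

theorem μ_O : ∀ᵐ x ∂S.μ, x ∈ S.O := (withDensity_absolutelyContinuous _ _).ae_le S.ae_O

theorem ae_B (d : D.A) : ∀ᵐ z, z ∈ B2 n → (D.e d).symm z ∈ S.O := by
  have h := zero_null (offB_open (D.c d)) (f := D.rd S.j d)
    (fun z hz => (S.j_hol hz.1 ((off_symm D hz.1).2 hz.2)).self_of_nhds.differentiableWithinAt)
    fun z hz => S.j_nz hz.1 ((off_symm D hz.1).2 hz.2)
  filter_upwards [MON.off_ae (D.c d), measure_eq_zero_iff_ae_notMem.1 h] with z a b hz
  exact ⟨(off_symm D hz).2 a, fun h0 => b ⟨⟨hz, a⟩, h0⟩⟩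

theorem isEta : IsEta D k m w S.μ := by
  intro d F
  have ho := S.O_open.inter (D.e d).open_source
  have m1 := ((D.e d).isOpen_inter_preimage_symm ho).measurableSet
  rw [μ, setLIntegral_withDensity_eq_setLIntegral_mul_non_measurable₀ _ S.ρ_meas.restrict _
    (D.e d).open_source.measurableSet (ae_of_all _ fun _ => ENNReal.ofReal_lt_top),
    setLIntegral_congr (s := (D.e d).source) (t := S.O ∩ (D.e d).source) (S.ae_O.mono fun x hx =>
      propext ⟨fun h => ⟨hx, h⟩, fun h => h.2⟩), rm_chart S.O_open S.et (D.mem d) ho Subset.rfl,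
    setLIntegral_congr (s := B2 n) (t := (D.e d).target ∩ (D.e d).symm ⁻¹' (S.O ∩ (D.e d).source))
      ((S.ae_B d).mono fun z hz => propext ⟨fun h => ⟨tg h, hz h, TRF.mem_src D h⟩,
        fun h => D.tgt d ▸ h.1⟩)]
  refine setLIntegral_congr_fun m1 fun z hz => ?_
  have h1 : z ∈ B2 n := D.tgt d ▸ hz.1
  rw [← S.den h1 hz.2.1, ENNReal.ofReal_mul (normSq_nonneg _), mul_assoc]
  rfl

theorem exh {r : ℕ} {Z : M.X → E r} (hZ : D.On (off D) fun d z => HolN (D.rd Z d) z)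
    (hc : ∀ a : ℝ, IsCompact {x | x ∈ off D ∧ ‖Z x‖ ≤ a}) (a : ℝ) :
    IsCompact {y | y ∈ S.O ∧ nsq (Z y) + normSq (S.H y) ≤ a} := by
  have hK := hc √a
  have p : 0 < |a| + 1 := by positivity
  have c1 : ContinuousOn (fun x => normSq (S.j x)) {x | x ∈ off D ∧ ‖Z x‖ ≤ √a} := fun x hx =>
    (continuous_normSq.continuousAt.comp (S.j_cont hx.1)).continuousWithinAt
  have hK' := hK.of_isClosed_subset (c1.preimage_isClosed_of_isClosed hK.isClosed
    (isClosed_Ici (a := (|a| + 1)⁻¹))) inter_subset_left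
  have sub : ∀ x ∈ {x | x ∈ off D ∧ ‖Z x‖ ≤ √a} ∩ (fun x => normSq (S.j x)) ⁻¹' Ici (|a| + 1)⁻¹,
      x ∈ S.O := fun x hx => ⟨hx.1.1, normSq_pos.1 ((inv_pos.2 p).trans_le hx.2)⟩
  have c2 : ContinuousOn (fun y => nsq (Z y) + normSq (S.H y)) S.O := fun x hx => by
    obtain ⟨d, hd⟩ := ex_ch D x
    exact (cont_of (f := fun y => nsq (Z y)) hd
      (cd_nsq (on_at hZ hd hx.1)).continuousAt).continuousWithinAt.add
      (continuous_normSq.comp_continuousOn S.H_cont x hx)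
  have hK'' := hK'.of_isClosed_subset ((c2.mono sub).preimage_isClosed_of_isClosed hK'.isClosed
    (isClosed_Iic (a := a))) inter_subset_left
  refine (congrArg IsCompact (Subset.antisymm (fun y hy => ?_) fun y hy => ?_)).mp hK''
  · exact ⟨sub y hy.1, hy.2⟩
  refine ⟨⟨⟨hy.1.1, ?_⟩, ?_⟩, hy.2⟩
  · refine (pi_norm_le_iff_of_nonneg (Real.sqrt_nonneg _)).2 fun i => Real.le_sqrt_of_sq_le ?_
    have := Finset.single_le_sum (f := fun i => normSq (Z y i)) (fun _ _ => normSq_nonneg _)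
      (Finset.mem_univ i)
    rw [← normSq_eq_norm_sq]
    exact this.trans ((le_add_of_nonneg_right (normSq_nonneg _)).trans hy.2)
  · have h1 : 0 < normSq (S.H y) := normSq_pos.2 fun h => hy.1.2 (inv_eq_zero.2 h)
    have h2 : normSq (S.H y) ≤ |a| + 1 := by
      linarith [hy.2, nsq_nonneg (Z y), le_abs_self a]
    change _ ≤ normSq (S.H y)⁻¹
    rw [map_inv₀]
    exact inv_anti₀ h1 h2

omit [DecidableEq ι] [M.Cpt] in
theorem wt {x : M.X} (hx : x ∈ S.O) (t p : ℝ) :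
    ENNReal.ofReal (t * Real.exp (-(p - 1 / m * Real.log (normSq (S.H x))))) =
      S.ρ x * ENNReal.ofReal (t * Real.exp (-p)) := by
  have h1 : 0 < normSq (S.H x) := normSq_pos.2 fun h => hx.2 (inv_eq_zero.2 h)
  rw [ρ, ← ENNReal.ofReal_mul (Real.rpow_nonneg h1.le _), Real.rpow_def_of_pos h1, neg_sub,
    sub_eq_add_neg, Real.exp_add, mul_left_comm, mul_comm (1 / m : ℝ)]

theorem solve {r : ℕ} {Z : M.X → E r}
    (hZ : D.On (off D) fun d z => HolN (D.rd Z d) z ∧ ∀ v, fderiv ℂ (D.rd Z d) z v = 0 → v = 0)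
    (hc : ∀ a : ℝ, IsCompact {x | x ∈ off D ∧ ‖Z x‖ ≤ a}) {ph β : M.X → ℝ} {Γ : M.X → ℂ}
    (hm : AEMeasurable β S.μ)
    (h : D.On (off D) fun d z => ContDiffAt ℝ ∞ (D.rd ph d) z ∧ ContDiffAt ℝ ∞ (D.rd Γ d) z ∧
      (∀ v, 0 ≤ lv (D.rd ph d) z v) ∧ 0 ≤ D.rd β d z ∧ ∀ v : E n,
        normSq (∑ i, star (v i) * dzb i (D.rd Γ d) z) ≤ D.rd β d z * lv (D.rd ph d) z v)
    (fin : ∫⁻ x, ENNReal.ofReal (β x * Real.exp (-ph x)) ∂S.μ ≠ ⊤) :
    ∃ F : M.X → ℂ, (D.On S.O fun d z => DifferentiableAt ℂ (D.rd F d) z) ∧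
      ∫⁻ x, ENNReal.ofReal (normSq (Γ x - F x) * Real.exp (-ph x)) ∂S.μ ≤
        10 * ∫⁻ x, ENNReal.ofReal (β x * Real.exp (-ph x)) ∂S.μ := by
  have cv : ∀ t : M.X → ℝ, ∫⁻ x, ENNReal.ofReal (t x * Real.exp (-ph x)) ∂S.μ =
      ∫⁻ x, ENNReal.ofReal (t x * Real.exp (-(ph x - 1 / m * Real.log (normSq (S.H x)))))
        ∂SV.rm S.q S.O := fun t => by
    rw [S.lint]
    exact lintegral_congr_ae (S.ae_O.mono fun x hx => (S.wt hx _ _).symm)
  have ac : SV.rm S.q S.O ≪ S.μ := withDensity_absolutelyContinuous' S.ρ_meas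
    (S.ae_O.mono fun x hx => (ENNReal.ofReal_pos.2 (Real.rpow_pos_of_pos
      (normSq_pos.2 fun h => hx.2 (inv_eq_zero.2 h)) _)).ne')
  rw [cv] at fin
  obtain ⟨F, f1, f2⟩ := horq (q := S.q) (ex := fun y => nsq (Z y) + normSq (S.H y))
    (ph := fun x => ph x - 1 / m * Real.log (normSq (S.H x))) (h := β) (Γ := Γ) S.O_open
    (Mf.allOn_of_source fun e he y hy ho => by
      have et := S.et.at he hy ho
      rw [e.left_inv hy] at ho ⊢
      obtain ⟨d, hd⟩ := ex_ch D y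
      have hz := TRF.mem_B D hd
      obtain ⟨a1, a2, -⟩ := S.H_hol hz (by rwa [(D.e d).left_inv hd])
      obtain ⟨b1, b2⟩ := on_at hZ hd ho.1
      obtain ⟨c1, c2, c3, c4, c5⟩ := on_at h hd ho.1
      rw [EXS.GLU.rd_e β hd] at c4 c5
      obtain ⟨l1, l2⟩ := lv_log a1 a2
      have tr := (mTR n M).2.2.2.1
      have s1 := (cd_nsq b1).add (cd_normSq (hol_cd a1))
      have s2 := c1.sub (contDiffAt_const (c := (1 / m : ℝ)).mul l1)
      have e2 : ∀ v, lv (fun z => D.rd ph d z - 1 / m * Real.log (normSq (D.rd S.H d z)))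
          (D.e d y) v = lv (D.rd ph d) (D.e d y) v := fun v => by
        rw [lv_sub c1 (contDiffAt_const.mul l1), lv_mul l1, l2, mul_zero, sub_zero]
      refine ⟨et.1, et.2, (tr ℝ _).2.1 _ (D.mem d) e he y hd hy s1,
        (tr ℝ _).2.1 _ (D.mem d) e he y hd hy s2, (tr ℂ _).2.1 _ (D.mem d) e he y hd hy c2, ?_, ?_,
        c4, ineq_tr (D.mem d) he hd hy s2 c2 fun v => (c5 v).trans_eq (congrArg _ (e2 v).symm)⟩
      · rw [lv_tr (u := fun y => nsq (Z y) + normSq (S.H y)) (D.mem d) he hd hy s1]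
        refine (pd_of_lv s1 fun v hv => ?_).conjTranspose_mul_mul_same
          (Matrix.mulVec_injective_iff_isUnit.2 ((Matrix.isUnit_iff_isUnit_det _).2
            ((mTR n M).2.1 _ (D.mem d) e he y hd hy).2.1.isUnit))
        rw [lv_add (cd_nsq b1) (cd_normSq (hol_cd a1)), lv_nsq b1]
        exact add_pos_of_pos_of_nonneg (nsq_pos fun h0 => hv (b2 v h0)) (lv_normSq a1 v)
      · rw [lv_tr (u := fun x => ph x - 1 / m * Real.log (normSq (S.H x))) (D.mem d) he hd hy s2]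
        exact (psd_of_lv s2 fun v => (c3 v).trans_eq (e2 v).symm).conjTranspose_mul_mul_same _)
    (S.exh (fun d z hz hw => (hZ d z hz hw).1) hc) (hm.mono_ac ac) fin
  refine ⟨F, fun d z hz hw => f1 _ (D.mem d) z (tg hz) hw, ?_⟩
  rw [cv, cv]
  exact f2

theorem ext {ph : M.X → ℝ} {Γ F : M.X → ℂ}
    (h : D.On (off D) fun d z => ContinuousAt (D.rd ph d) z ∧ ContinuousAt (D.rd Γ d) z)
    (hF : D.On S.O fun d z => DifferentiableAt ℂ (D.rd F d) z)
    (fin : ∫⁻ x, ENNReal.ofReal (normSq (Γ x - F x) * Real.exp (-ph x)) ∂S.μ ≠ ⊤) :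
    D.On (off D) fun d z => HolN (D.rd (fun x => limUnder (𝓝[S.O] x) F) d) z := by
  intro d z hz hw
  have ho := offB_open (D.c d)
  have mO : ∀ y ∈ {z | z ∈ B2 n ∧ Off (D.c d) z}, D.rd S.j d y ≠ 0 → (D.e d).symm y ∈ S.O :=
    fun y hy h0 => ⟨(off_symm D hy.1).2 hy.2, h0⟩
  have fi := ne_top_of_le_ne_top fin (setLIntegral_le_lintegral (D.e d).source _)
  rw [S.isEta d] at fi
  obtain ⟨g, g1, g2⟩ := SV.H85.ext_sq volume (f := D.rd F d) (j := D.rd S.j d) ho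
    (fun y hy => (S.j_hol hy.1 ((off_symm D hy.1).2 hy.2)).self_of_nhds.differentiableWithinAt)
    (fun y hy => S.j_nz hy.1 ((off_symm D hy.1).2 hy.2))
    (fun y hy => (hF d y hy.1.1 (mO y hy.1 hy.2)).differentiableWithinAt) fun y hy => by
      obtain ⟨h1, h2⟩ := h d y hy.1 ((off_symm D hy.1).2 hy.2)
      have c1 : ContinuousAt (fun u => normSq (w d u) ^ (1 / m : ℝ) *
          xr (D.c d) (fun i => k i / m) u * Real.exp (-D.rd ph d u)) y :=
        (((continuous_normSq.continuousAt.comp (S.whol d y hy.1).continuousAt).rpow_const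
          (Or.inr (by positivity))).mul (MON.cd_xr _ hy.2).continuousAt).mul h1.neg.rexp
      have p1 : 0 < normSq (w d y) ^ (1 / m : ℝ) * xr (D.c d) (fun i => k i / m) y *
          Real.exp (-D.rd ph d y) := mul_pos (mul_pos (Real.rpow_pos_of_pos
            (normSq_pos.2 (S.wne d y hy.1)) _) (MON.xr_pos _ hy.2)) (Real.exp_pos _)
      obtain ⟨ε, ε0, hε⟩ := Metric.eventually_nhds_iff_ball.1
        ((c1.eventually (lt_mem_nhds (half_lt_self p1))).and
          ((h2.norm.eventually (gt_mem_nhds (lt_add_one _))).and (ho.mem_nhds hy)))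
      have c0 := half_pos p1
      generalize normSq (w d y) ^ (1 / m : ℝ) * xr (D.c d) (fun i => k i / m) y *
          Real.exp (-D.rd ph d y) / 2 = c at hε c0
      generalize ‖D.rd Γ d y‖ + 1 = B at hε
      refine ⟨_, ball_mem_nhds y ε0, ne_top_of_le_ne_top ?_ ((lintegral_mono_set
        (t := ball y ε) fun u hu => hu.1).trans (setLIntegral_mono_ae'
        (g := fun u => ENNReal.ofReal (2 / c) * (ENNReal.ofReal (normSq (w d u) ^ (1 / m : ℝ) *
          xr (D.c d) (fun i => k i / m) u) * ENNReal.ofReal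
            (normSq (Γ ((D.e d).symm u) - F ((D.e d).symm u)) * Real.exp (-ph ((D.e d).symm u)))) +
            ENNReal.ofReal (2 * B ^ 2)) measurableSet_ball (ae_of_all _ fun u hu => ?_)))⟩
      · rw [lintegral_add_right _ measurable_const, lintegral_const_mul' _ _ ENNReal.ofReal_ne_top,
          setLIntegral_const]
        exact ENNReal.add_ne_top.2 ⟨ENNReal.mul_ne_top ENNReal.ofReal_ne_top
          (ne_top_of_le_ne_top fi (lintegral_mono_set fun u hu => (hε u hu).2.2.1)),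
          ENNReal.mul_ne_top ENNReal.ofReal_ne_top measure_ball_lt_top.ne⟩
      · obtain ⟨u1, u2, u3⟩ := hε u hu
        rw [← ENNReal.ofReal_mul (mul_nonneg (Real.rpow_nonneg (normSq_nonneg _) _)
          (MON.xr_pos _ u3.2).le), ← ENNReal.ofReal_mul (by positivity)]
        refine le_trans (ENNReal.ofReal_le_ofReal ?_) ENNReal.ofReal_add_le
        have h7 : ‖D.rd F d u‖ ≤ ‖D.rd Γ d u‖ + ‖Γ ((D.e d).symm u) - F ((D.e d).symm u)‖ :=
          norm_le_norm_add_norm_sub (D.rd Γ d u) (D.rd F d u)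
        rw [normSq_eq_norm_sq (_ - _), mul_left_comm (normSq _ ^ _ * _)]
        change _ ≤ 2 / c * (_ * (_ * Real.exp (-D.rd ph d u))) + _
        generalize ‖Γ ((D.e d).symm u) - F ((D.e d).symm u)‖ = t at h7 ⊢
        generalize normSq (w d u) ^ (1 / m : ℝ) * xr (D.c d) (fun i => k i / m) u *
          Real.exp (-D.rd ph d u) = δ at u1 ⊢
        have h8 : 2 * t ^ 2 ≤ 2 / c * (t ^ 2 * δ) := by
          rw [div_mul_eq_mul_div, le_div_iff₀ c0, mul_assoc]
          exact mul_le_mul_of_nonneg_left (mul_le_mul_of_nonneg_left u1.le (sq_nonneg _)) two_pos.le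
        have h9 := pow_le_pow_left₀ (norm_nonneg _) h7 2
        have h10 := pow_le_pow_left₀ (norm_nonneg _) u2.le 2
        nlinarith [sq_nonneg (‖D.rd Γ d u‖ - t)]
  have hz' : z ∈ {z | z ∈ B2 n ∧ Off (D.c d) z} := ⟨hz, (off_symm D hz).1 hw⟩
  refine hol_congr (f := g) ((ho.eventually_mem hz').mono fun y hy =>
    g1.differentiableAt (ho.mem_nhds hy)) ((ho.eventually_mem hz').mono fun y hy => ?_)
  exact lim_eq (tg hy.1) (((not_eventually.1 (S.j_nz hy.1 ((off_symm D hy.1).2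
    hy.2))).and_eventually (ho.eventually_mem hy)).mono fun u hu => mO u hu.2 hu.1)
    (g1.differentiableAt (ho.mem_nhds hy)).continuousAt
    ((ho.eventually_mem hy).mono fun u hu h0 => (g2 u hu h0.2).symm)

end Su

end HQ

open HQ in
theorem bHQ : St_HQ := by
  intro n M _ ι _ _ D k m w r Z m0 whol wne wcmp hZ hc
  obtain ⟨q, d, z, h1, h2, h3, h4⟩ := ex_q hZ
  obtain ⟨H, hH⟩ := ex_H (W := off D)
    ⟨fun _ => 1, k, m, w, ∅, m0, whol, wne, wcmp, fun _ h => absurd h one_ne_zero⟩ h1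
  have h5 := (off_symm D h2).2 h3
  let S : Su D k m w := ⟨q, H, m0, whol, wne, h1, hH, _, h5, (hH d z h2 h5).trans_ne
    (div_ne_zero (mul_ne_zero (wne d z h2) (MON.xm_ne k h3)) (pow_ne_zero _ h4))⟩
  refine ⟨S.μ, S.isEta, S.μ_O.mono fun x hx => hx.1, fun ph β Γ hm h => ?_⟩
  by_cases fin : ∫⁻ x, ENNReal.ofReal (β x * Real.exp (-ph x)) ∂S.μ = ⊤
  · exact ⟨0, fun d z _ _ => .of_forall fun y => differentiableAt_const (0 : ℂ), by
      rw [fin, ENNReal.mul_top (by norm_num)]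
      exact le_top⟩
  obtain ⟨F, f1, f2⟩ := S.solve hZ hc hm h fin
  refine ⟨_, S.ext (fun d z hz hw => ⟨(h d z hz hw).1.continuousAt,
    (h d z hz hw).2.1.continuousAt⟩) f1 (ne_top_of_le_ne_top
      (ENNReal.mul_ne_top ENNReal.ofNat_ne_top fin) f2), le_trans (le_of_eq ?_) f2⟩
  refine lintegral_congr_ae (S.μ_O.mono fun x hx => ?_)
  obtain ⟨b, hb⟩ := ex_ch D x
  have : (𝓝[S.O] x).NeBot := mem_closure_iff_nhdsWithin_neBot.1 (subset_closure hx)
  have e : limUnder (𝓝[S.O] x) F = F x :=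
    ((cont_of hb (on_at f1 hb hx).continuousAt).tendsto.mono_left nhdsWithin_le_nhds).limUnder_eq
  beta_reduce
  rw [e]

end Pool.Agent.Lib.ZL
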