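import Pool.Agent.Lib.ZL.Blue2

/-! Project ZL, rows PEAK and ZO. -/

open scoped Classical Topology ContDiff ENNReal
open Set MeasureTheory Complex Metric Filter

noncomputable section

namespace Pool.Agent.Lib.ZL

open Pool.Agent.Lib.SV (E)
open Pool.Agent.Lib.HS32 Pool.Agent.Lib.EX Pool.Agent.Lib.EXS
open Pool.Agent.Lib.EXS.K32 (lv lv_mul)

variable {n : ℕ} {M : Mf n} {ι : Type} [Fintype ι] [DecidableEq ι] {D : Ad M ι}

theorem PEAK.lv_sc (X : Cx D) (c : ℝ) {d : D.A} {z : E n} (hz : z ∈ B2 n) (ho : Off (D.c d) z)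
    (v : E n) : lv (D.rd (fun x => c * X.α x) d) z v = c * lv (D.rd X.α d) z v :=
  lv_mul (X.αp.1 d z hz ho) c v

/-- A multiple of the ample divisor. -/
def Cx.sc (X : Cx D) (c : ℕ) (hc : 0 < c) : Cx D where
  μ := X.μ
  m := X.m
  l := X.l
  w := X.w
  e i := c * X.e i
  α x := c * X.α x
  m0 := X.m0
  whol := X.whol
  wne := X.wne
  eta := X.eta
  hq := X.hq
  αp := ⟨fun d z hz ho => contDiffAt_const.mul (X.αp.1 d z hz ho), fun d z hz ho v => by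
    rw [PEAK.lv_sc X c hz ho]
    exact mul_nonneg c.cast_nonneg (X.αp.2 d z hz ho v)⟩
  αb := by
    obtain ⟨C, hC⟩ := X.αb
    refine ⟨c * C, fun x hx => ?_⟩
    have : lw D (fun i => ((c * X.e i : ℕ) : ℝ)) x = c * lw D (fun i => X.e i) x := by
      simp only [lw, Finset.mul_sum, Nat.cast_mul, mul_assoc]
    rw [this, ← mul_add, abs_mul, abs_of_nonneg c.cast_nonneg]
    exact mul_le_mul_of_nonneg_left (hC x hx) c.cast_nonneg
  αs := by
    obtain ⟨b, b0, hb⟩ := X.αs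
    refine ⟨b, b0, fun d z hz ho h1 v => ?_⟩
    rw [PEAK.lv_sc X c hz ho]
    exact (hb d z hz ho h1 v).trans (le_mul_of_one_le_left (X.αp.2 d z hz ho v)
      (Nat.one_le_cast.2 hc))

theorem bPEAK (hK : St_PK1) (hG : St_GEN) : St_PEAK := fun n M _ ι _ _ D X ν h1 h2 => by
  obtain ⟨c, hc, h⟩ := hK n M ι D X ν h1 h2
  exact ⟨c, X.sc c hc, hc, rfl, rfl, rfl, rfl, fun _ => rfl, fun _ => rfl,
    fun j => hG n M ι D _ (h j)⟩

theorem bZO (hZ : St_ZN) (hK : St_PK1) (hG : St_GEN) (hH : St_HLD) : St_ZO := by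
  intro n M _ ι _ _ D X K ν h1 h2 h3
  obtain ⟨c, hc, h⟩ := hK n M ι D X ν h1 h2
  have c0 : (0 : ℝ) < c := Nat.cast_pos.2 hc
  obtain ⟨C, ρ, -, e1, e2⟩ := hZ n M ι D (X.sc c hc) ⟨K.π, K.c, K.c0, K.lo, K.hi⟩ ν h3
    fun j => hG n M ι D _ (h j)
  refine ⟨C, fun ε => ρ (ε / c), fun ε hε => ?_, hH n M ι D X _ _ fun s hs => ?_⟩
  · obtain ⟨a1, a2, a3⟩ := e1.1 (ε / c) (div_pos hε c0)
    refine ⟨a1, ?_, a3⟩
    have : (fun x => ρ (ε / c) x + ε * X.α x) = fun x => ρ (ε / c) x + ε / c * (X.sc c hc).α x :=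
      funext fun x => by
        change _ = _ + _ * (c * X.α x)
        rw [← mul_assoc, div_mul_cancel₀ _ c0.ne']
    rw [this]
    exact a2
  · obtain ⟨A, ε₁, e0, hA⟩ := e2 s hs
    exact ⟨A, ε₁ * c, mul_pos e0 c0, fun ε hε hl => hA _ (div_pos hε c0) ((div_le_iff₀ c0).2 hl)⟩

end Pool.Agent.Lib.ZL
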