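import Pool.Agent.Lib.ZL.Blue2
import Pool.Agent.Lib.ZL.B_SPL
import Pool.Agent.Lib.SV.B_SUB

/-! Project ZL: one peak section. -/

open scoped Classical Topology ContDiff ENNReal
open Set MeasureTheory Complex Metric Filter

noncomputable section

namespace Pool.Agent.Lib.ZL

open Pool.Agent.Lib.SV (E nsq)
open Pool.Agent.Lib.HS32 Pool.Agent.Lib.EX Pool.Agent.Lib.EXS

namespace PK1

theorem nsq_le45 {n : ℕ} {v : E n} {ρ : ℝ} (h : ‖v‖ ≤ ρ) : nsq v ≤ n * ρ ^ 2 := by
  have : ∀ j, normSq (v j) ≤ ρ ^ 2 := fun j => by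
    rw [normSq_eq_norm_sq]
    exact pow_le_pow_left₀ (norm_nonneg _) ((norm_le_pi_norm v j).trans h) 2
  simpa [nsq] using Finset.sum_le_card_nsmul Finset.univ _ _ fun j _ => this j

theorem nsq_xm45 {n : ℕ} {ι : Type} [Fintype ι] [DecidableEq ι] (c : ι → Option (Fin n))
    (P : ι → ℤ) (z : E n) : normSq (xm c P z) = xr c (fun i => P i) z := by
  rw [xm, map_prod, xr]
  exact Finset.prod_congr rfl fun i _ => by rw [map_zpow₀, Real.rpow_intCast]

/-- A holomorphic function close to `1` in the mean does not vanish at the centre. -/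
theorem small45 {n : ℕ} {s : E n → ℂ} {z : E n} {ρ A : ℝ} (ρ0 : 0 < ρ) (A0 : 0 ≤ A)
    (hs : DifferentiableOn ℂ s (ball z ρ)) (h0 : s z = 0)
    (h : ∫⁻ y in ball z ρ, ENNReal.ofReal (normSq (1 - s y)) ≤
      ENNReal.ofReal (((n + 1) * ρ ^ 2) ^ (n + 1) * A)) :
    (volume (ball (0 : E n) 1)).toReal ≤ (n + 1) ^ (n + 1) * A * ρ ^ 2 := by
  have s1 := SV.stSUB (E n) volume (fun y => 1 - s y) z ρ 2 ρ0 (by norm_num)
    ((differentiableOn_const 1).sub hs)
  have e : Module.finrank ℝ (E n) = n * 2 := by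
    simp [Module.finrank_pi_fintype, Complex.finrank_real_complex]
  have vt : volume (ball (0 : E n) 1) ≠ ⊤ := measure_ball_lt_top.ne
  simp only [Real.rpow_two, ← normSq_eq_norm_sq] at s1
  rw [h0, sub_zero, map_one, ENNReal.ofReal_one, one_mul, Measure.addHaar_ball_of_pos _ _ ρ0, e,
    ← ENNReal.ofReal_toReal vt, ← ENNReal.ofReal_mul (by positivity)] at s1
  have s2 := (ENNReal.ofReal_le_ofReal_iff (by positivity)).1 (s1.trans h)
  refine le_of_mul_le_mul_left (s2.trans (le_of_eq ?_)) (pow_pos ρ0 (n * 2))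
  rw [mul_pow]
  ring

end PK1

open PK1 in
theorem bPK1 (hPW : St_PW) (hMU : St_MU) (hUPB : St_UPB) (hWGT : St_WGT) (hPOG : St_POG)
    (hLWC : St_LWC) (hBMP : St_BMP) (hCUT : St_CUT) : St_PK1 := by
  intro n M _ ι _ _ D X ν hB hN
  obtain ⟨opn, -, ladd, lsub, lsm, lneg, -, lsmo, -, cont, -⟩ := hPW n M ι D
  obtain ⟨-, meas, mono, fin, loc⟩ := hMU n M ι D X
  obtain ⟨L, -, -, hW⟩ := hWGT
  obtain ⟨-, padd, pmul, -, -, -, pcg, -⟩ := hW n M ι D
  obtain ⟨C1, c1, h1⟩ := hLWC n M ι D X X.o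
  obtain ⟨C2, r, c2, r0, r1, h2⟩ := hBMP n M ι D X hB
  obtain ⟨Cα, hα⟩ := X.αb
  obtain ⟨c, hc⟩ := exists_nat_ge (C1 + (n + 1) * C2 + 2)
  have c0 : (0 : ℝ) < c := lt_of_lt_of_le (by positivity) hc
  refine ⟨c, by exact_mod_cast c0, fun j d z₀ hz => ?_⟩
  generalize hP : (fun i => j * ν i + (c * X.e i : ℕ) : ι → ℤ) = P
  obtain ⟨ψ, Cψ, -, p2, p3⟩ := hN (1 / (j + 1)) (by positivity)
  obtain ⟨Γ, K, B, B0, Kc, Γs, Γb, Γe, Kr, Γd⟩ := hCUT n M ι D X P d z₀ r hB hz r0 r1
  have eP : ∀ x, lw D (fun i => P i) x =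
      j * lw D (fun i => ν i) x + c * lw D (fun i => X.e i) x := fun x => by
    rw [← lsm, ← lsm, ← ladd]
    refine congrArg (lw D · x) (funext fun i => ?_)
    rw [← hP]
    simp
  have eQ : ∀ x, lw D (fun i => P i - X.o i) x = lw D (fun i => P i) x - lw D X.o x :=
    fun x => lsub _ _ x
  set C3 := j * Cψ + c * Cα with hC3
  have bd : ∀ x ∈ off D, |j * ψ x + c * X.α x + lw D (fun i => P i) x| ≤ C3 := fun x hx => by
    rw [eP, show j * ψ x + c * X.α x + (j * lw D (fun i => ν i) x + c * lw D (fun i => X.e i) x) =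
      j * (ψ x + lw D (fun i => ν i) x) + c * (X.α x + lw D (fun i => X.e i) x) by ring]
    refine (abs_add_le _ _).trans ?_
    rw [abs_mul, abs_mul, Nat.abs_cast, Nat.abs_cast]
    exact add_le_add (mul_le_mul_of_nonneg_left (p3 x hx) (Nat.cast_nonneg _))
      (mul_le_mul_of_nonneg_left (hα x hx) (Nat.cast_nonneg _))
  have f1 := fin (-X.o) fun i => by simp
  set J := (X.I fun x => Real.exp (lw D (-X.o) x)).toReal
  have J0 : 0 ≤ J := ENNReal.toReal_nonneg
  have hJ : X.I (fun x => Real.exp (lw D (-X.o) x)) = ENNReal.ofReal J :=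
    (ENNReal.ofReal_toReal f1).symm
  obtain ⟨C4, h4⟩ := loc (3 / 2) (by norm_num) (∑ i, |(P i : ℝ)|)
  set A := 10 * (B * Real.exp (C3 + (n + 1) * C2) * J) with hA
  have A0 : 0 ≤ A := by positivity
  set A' := |C4| * (Real.exp C3 * A) with hA'
  have A1 : 0 ≤ A' := by positivity
  set v := (volume (ball (0 : E n) 1)).toReal with hv
  have v0 : 0 < v :=
    ENNReal.toReal_pos (measure_ball_pos _ _ one_pos).ne' measure_ball_lt_top.ne
  obtain ⟨ρ, ρ0, ρr, ρv⟩ : ∃ ρ : ℝ, 0 < ρ ∧ ρ ≤ r ∧ (n + 1) ^ (n + 1) * A' * ρ ^ 2 < v := by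
    have t : Tendsto (fun ρ : ℝ => (n + 1) ^ (n + 1) * A' * ρ ^ 2) (𝓝 0) (𝓝 _) :=
      Continuous.tendsto (by fun_prop) 0
    have t2 := (t.eventually_lt_const (u := v) (by simpa using v0)).and (eventually_le_nhds r0)
    obtain ⟨ρ, ⟨a, b⟩, e⟩ := ((t2.filter_mono nhdsWithin_le_nhds).and
      (self_mem_nhdsWithin (s := Ioi (0 : ℝ)))).exists
    exact ⟨ρ, e, b, a⟩
  obtain ⟨u, us, up, uu, ue, ul⟩ := h2 d z₀ hz (ρ ^ 2) ⟨by positivity, by nlinarith⟩
  have je : (j : ℝ) * (1 / (j + 1)) ≤ 1 := by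
    rw [mul_one_div, div_le_one (by positivity)]
    linarith
  have g1 := padd _ _ (padd _ _ (padd _ _ (pmul j _ (Nat.cast_nonneg _) p2) h1)
    (pmul (n + 1) _ (by positivity) up))
    (pmul (c - 1 - j * (1 / (j + 1)) - C1 - (n + 1) * C2) _ (by linarith) X.αp)
  generalize hg : (fun x => _ + _ * X.α x : M.X → ℝ) = g at g1
  have eg : ∀ x, g x + X.α x = j * ψ x + c * X.α x + lw D X.o x + (n + 1) * u x := fun x => by
    rw [← hg]
    ring
  have β0 : ∀ x, 0 ≤ K.indicator (fun x => B * Real.exp (-lw D (fun i => P i) x)) x :=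
    fun x => indicator_nonneg (fun _ _ => by positivity) x
  have m1 : ∀ a, AEMeasurable (fun x => Real.exp (lw D a x)) X.μ := fun a =>
    meas ℝ _ (Real.continuous_exp.comp_continuousOn (cont ℝ _ (lsmo a)))
  obtain ⟨F, Fh, Fi⟩ := X.hor (f := fun x => g x + X.α x) (padd _ _ g1 X.αp) Γs
    (AEMeasurable.indicator (by simpa only [lneg] using (m1 (-fun i => (P i : ℝ))).const_mul B)
      Kc.measurableSet) (fun x _ => β0 x) fun b z hb ho w => (Γd b z hb ho w).trans
        (mul_le_mul_of_nonneg_left (by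
          have := K32.lv_add (g1.1 b z hb ho) (X.αp.1 b z hb ho) w
          exact le_of_le_of_eq (le_add_of_nonneg_left (g1.2 b z hb ho w)) this.symm) (β0 _))
  have Fj : X.I (fun x => normSq (Γ x - F x) * Real.exp (-(g x + X.α x))) ≤ ENNReal.ofReal A := by
    refine Fi.trans ?_
    rw [hA, ENNReal.ofReal_mul (by norm_num), ENNReal.ofReal_ofNat,
      ENNReal.ofReal_mul (by positivity), ← hJ, ← SPL.int_mul (by positivity)]
    refine mul_le_mul_right (mono _ _ fun x hx => ?_) _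
    by_cases hK : x ∈ K
    · rw [indicator_of_mem hK, mul_assoc, mul_assoc, ← Real.exp_add, ← Real.exp_add, eg, lneg]
      have a := (abs_le.1 (bd x hx)).1
      have b := mul_le_mul_of_nonneg_left (ul x (Kr x hK)) (by positivity : (0 : ℝ) ≤ n + 1)
      exact mul_le_mul_of_nonneg_left (Real.exp_le_exp.2 (by linarith)) B0
    · rw [indicator_of_notMem hK, zero_mul]
      positivity
  have Fk : X.I (fun x => normSq (Γ x - F x) * Real.exp (-((n + 1) * u x)) *
      Real.exp (lw D ((fun i => (P i : ℝ)) - X.o) x)) ≤ ENNReal.ofReal (Real.exp C3 * A) := by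
    rw [ENNReal.ofReal_mul (by positivity)]
    refine le_trans (mono _ _ fun x hx => ?_)
      ((SPL.int_mul (Real.exp_pos C3).le).le.trans (mul_le_mul_right Fj _))
    rw [mul_left_comm, mul_assoc, ← Real.exp_add, ← Real.exp_add, eg, lsub]
    have a := (abs_le.1 (bd x hx)).2
    exact mul_le_mul_of_nonneg_left (Real.exp_le_exp.2 (by linarith)) (normSq_nonneg _)
  have FM : Mer D P F := by
    refine hPOG n M ι D X P F Fh (ne_top_of_le_ne_top ENNReal.ofReal_ne_top
      ((mono _ _ fun x hx => ?_).trans (SPL.int_lin (a := 2 * B)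
        (b := 2 * Real.exp ((n + 1) * C2)) (m1 (-X.o)) (by positivity) (by positivity) J0
          (by positivity) hJ.le Fk)))
    have a := SPL.nsq_add (Γ x) (-(Γ x - F x))
    rw [normSq_neg, show Γ x + -(Γ x - F x) = F x by ring] at a
    rw [lsub, ← eQ]
    have b : normSq (Γ x) * Real.exp (lw D (fun i => P i - X.o i) x) ≤
        B * Real.exp (lw D (-X.o) x) := by
      refine (mul_le_mul_of_nonneg_right (Γb x hx) (Real.exp_pos _).le).trans (le_of_eq ?_)
      rw [mul_assoc, ← Real.exp_add, eQ, lneg]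
      congr 2
      ring
    have e : 1 ≤ Real.exp ((n + 1) * C2) * Real.exp (-((n + 1) * u x)) := by
      rw [← Real.exp_add]
      have := mul_le_mul_of_nonneg_left (uu x) (by positivity : (0 : ℝ) ≤ n + 1)
      exact Real.one_le_exp (by linarith)
    have p := Real.exp_pos (lw D (fun i => P i - X.o i) x)
    have q := mul_le_mul_of_nonneg_left e (mul_nonneg (normSq_nonneg (Γ x - F x)) p.le)
    have t := mul_le_mul_of_nonneg_right a p.le
    nlinarith
  obtain ⟨sh, se⟩ := (hUPB n M ι D P).2.2.2.2.2.1 (D.c d) (D.rd F d) (FM d)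
  generalize val (D.c d) P (D.rd F d) = s at sh se
  have sub : ball z₀ ρ ⊆ closedBall 0 (3 / 2) := ball_subset_closedBall.trans
    (closedBall_subset_closedBall' (by rw [dist_zero_right]; linarith))
  have sub2 : closedBall (0 : E n) (3 / 2) ⊆ B2 n := closedBall_subset_ball (by norm_num)
  have zB : B2 n ∈ 𝓝 z₀ := mem_of_superset (ball_mem_nhds z₀ ρ0) (sub.trans sub2)
  refine ⟨F, s, FM, sh.eventually_differentiableAt zB, fun s0 => ρv.not_ge ?_, ?_⟩
  · refine small45 ρ0 A1 (sh.mono (sub.trans sub2)) s0 ?_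
    have k := (h4 (fun i => P i) _ d fun i => Finset.single_le_sum (f := fun i => |(P i : ℝ)|)
      (fun _ _ => abs_nonneg _) (Finset.mem_univ i)).trans
        (mul_le_mul (ENNReal.ofReal_le_ofReal (le_abs_self C4)) Fk zero_le zero_le)
    rw [← ENNReal.ofReal_mul (abs_nonneg _), ← hA'] at k
    rw [ENNReal.ofReal_mul (by positivity)]
    refine le_trans ?_ (mul_le_mul_right ((lintegral_mono_set sub).trans k) _)
    rw [← lintegral_const_mul' _ _ ENNReal.ofReal_ne_top]
    refine lintegral_mono_ae ?_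
    filter_upwards [ae_restrict_mem measurableSet_ball,
      ae_restrict_of_ae (MON.off_ae (D.c d))] with y y1 yo
    rw [← ENNReal.ofReal_mul (by positivity)]
    refine ENNReal.ofReal_le_ofReal ?_
    have yr := ball_subset_ball ρr y1
    have e1 : 1 - s y = xm (D.c d) P y * (D.rd Γ d y - D.rd F d y) := by
      rw [se y (sub2 (sub y1)) yo, Γe y yr yo, MON.xm_neg, mul_sub,
        mul_inv_cancel₀ (MON.xm_ne P yo)]
    have n0 : 0 ≤ nsq (y - z₀) := Finset.sum_nonneg fun _ _ => normSq_nonneg _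
    have e2 : D.rd u d y ≤ Real.log ((n + 1) * ρ ^ 2) := by
      rw [ue y yr]
      refine Real.log_le_log (by positivity) ?_
      have := nsq_le45 (mem_ball_iff_norm.1 y1).le
      linarith
    have e3 : 1 ≤ ((n + 1) * ρ ^ 2) ^ (n + 1) * Real.exp (-((n + 1) * D.rd u d y)) := by
      rw [← Real.exp_log (by positivity : (0 : ℝ) < (n + 1) * ρ ^ 2), ← Real.exp_nat_mul,
        ← Real.exp_add]
      have := mul_le_mul_of_nonneg_left e2 (by positivity : (0 : ℝ) ≤ n + 1)
      exact Real.one_le_exp (by push_cast; linarith)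
    rw [e1, map_mul, nsq_xm45]
    have q := mul_le_mul_of_nonneg_left e3 (mul_nonneg (MON.xr_pos (fun i => (P i : ℝ)) yo).le
      (normSq_nonneg (D.rd Γ d y - D.rd F d y)))
    refine (mul_one _).ge.trans (q.trans (le_of_eq ?_))
    simp only [Ad.rd]
    ring
  · filter_upwards [zB] with y hy yo
    rw [se y hy yo, MON.xm_neg, ← mul_assoc, inv_mul_cancel₀ (MON.xm_ne P yo), one_mul]

end Pool.Agent.Lib.ZL
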