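import Pool.Agent.Lib.ZL.Blue2
import Pool.Agent.Lib.EX.K1O
import Pool.Agent.Lib.EX.B_BLW

/-! Project ZL, row RS1. -/

open scoped Classical Topology ContDiff Manifold
open Set Complex Metric Filter

noncomputable section

namespace Pool.Agent.Lib.ZL

open Pool.Agent.Lib.SV (E)
open Pool.Agent.Lib.HS32 Pool.Agent.Lib.HS.BBR Pool.Agent.Lib.EX Pool.Agent.Lib.EX.K1

theorem bRS1 (hU : EX.St_UNI) (hA : EX.St_ADA) : St_RS1 := by
  intro n Y ι I _ _ _ _ _ _ _ _ m S ex k l η W σ g hR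
  choose N r p τ a h1 h2 h3 using hR.blow
  choose α hα using hR.cov
  have : (mf n Y).Cpt := ⟨‹_›, ‹_›, ‹_›⟩
  obtain ⟨D, hF, hD⟩ := hA n (mf n Y) I S (fun x : Y => W (α x))
    (fun x => (hR.opn _).1.mem_nhds (hα x)) fun x : Y => by
      obtain ⟨h, -, hh, -⟩ := hR.form x
      exact ⟨_, ch_mf x, mem_chart_source _ x, _, eqs_chart (ch_mf x) (mem_chart_source _ x) hh⟩
  choose x hx using hD
  choose B B1 B2 B3 using fun b : D.A => bBLW hU hF (hR.opn (α (x b))).1 (hR.opn _).2 (h1 _) (h2 _)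
    (h3 _) (hR.div _)
  obtain ⟨w, w1, w2, w3⟩ := ord_form hU hF hR.form
  exact ⟨D, B, w, fun b => α (x b), hF, w1, w2, w3, B1,
    fun b z hz => hx b ((D.e b).map_target (tgt hz)), fun a => ord_unit hU hF (hR.div a)⟩

end Pool.Agent.Lib.ZL
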