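import Pool.Agent.Lib.ZL.Core
import Pool.Agent.Lib.ZL.B_HQ
import Pool.Agent.Lib.ZL.B_CX
import Pool.Agent.Lib.ZL.B_AMB
import Pool.Agent.Lib.ZL.B_NFB
import Pool.Agent.Lib.ZL.B_LWC
import Pool.Agent.Lib.ZL.B_BMP
import Pool.Agent.Lib.ZL.B_CUT
import Pool.Agent.Lib.ZL.B_PK1
import Pool.Agent.Lib.ZL.B_GEN
import Pool.Agent.Lib.ZL.B_PEAK
import Pool.Agent.Lib.ZL.B_RS1
import Pool.Agent.Lib.ZL.B_BR1
import Pool.Agent.Lib.ZL.B_H12
import Pool.Agent.Lib.EX.B_ADA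
import Pool.Agent.Lib.EX.B_UNI

/-! Project ZL: the extension theorem without hypotheses. -/

namespace Pool.Agent.Lib.ZL

theorem st_CX : St_CX := bCX bHQ bPW

theorem st_AMB : St_AMB := bAMB EX.bUNI

theorem st_PK1 : St_PK1 :=
  bPK1 bPW st_MU st_UPB st_WGT st_POG (bLWC bTRF) bBMP (bCUT bPW)

/-- Generation for a nef divisor. -/
theorem st_PEAK : St_PEAK := bPEAK st_PK1 bGEN

theorem st_RS1 : St_RS1 := bRS1 EX.bUNI (EX.bADA EX.bUNI)

/-- The extension theorem for sections. -/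
theorem st_H1 : St_H1 := bH1 st_EXT st_RS1 bBR1 st_AMB bNFB st_CX st_PEAK

end Pool.Agent.Lib.ZL
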