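import Pool.Agent.Lib.ZL.Defs

/-! Project ZL: the blueprint of the core. -/

open scoped Classical Topology ContDiff ENNReal
open Set MeasureTheory Complex Metric Filter

noncomputable section

namespace Pool.Agent.Lib.ZL

open Pool.Agent.Lib.SV (E)
open Pool.Agent.Lib.HS32 Pool.Agent.Lib.EX Pool.Agent.Lib.EXS
open Pool.Agent.Lib.EXS.K32 (lv)

/-! ### Kits -/

/-- The model functions. -/
def St_PW : Prop := ∀ (n : ℕ) (M : Mf n) [M.Cpt] (ι : Type) [Fintype ι] [DecidableEq ι]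
  (D : Ad M ι), IsOpen (off D) ∧ (∀ x, ∃ d, x ∈ (D.e d).source ∧ ‖D.e d x‖ ≤ 1) ∧
  (∀ a b x, lw D (a + b) x = lw D a x + lw D b x) ∧ (∀ a b x, lw D (a - b) x = lw D a x - lw D b x) ∧
  (∀ (t : ℝ) a x, lw D (t • a) x = t * lw D a x) ∧ (∀ a x, lw D (-a) x = -lw D a x) ∧
  (∀ a b, a ≤ b → ∀ x, lw D b x ≤ lw D a x) ∧ (∀ a, SmO D (lw D a)) ∧
  (∀ r < (2 : ℝ), ∃ C, 0 ≤ C ∧ ∀ (a : ι → ℝ) d z, ‖z‖ ≤ r → Off (D.c d) z →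
    xr (D.c d) a z ≤ Real.exp (C * ∑ i, |a i|) * Real.exp (D.rd (lw D a) d z) ∧
    Real.exp (D.rd (lw D a) d z) ≤ Real.exp (C * ∑ i, |a i|) * xr (D.c d) a z) ∧
  (∀ (F : Type) [NormedAddCommGroup F] [NormedSpace ℝ F] (f : M.X → F),
    SmO D f → ContinuousOn f (off D)) ∧ ∀ f, HoO D f → SmO D f

/-- The measure. -/
def St_MU : Prop := ∀ (n : ℕ) (M : Mf n) [M.Cpt] (ι : Type) [Fintype ι] [DecidableEq ι]
  (D : Ad M ι) (X : Cx D), (∀ᵐ x ∂X.μ, x ∈ off D) ∧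
  (∀ (F : Type) [TopologicalSpace F] [MeasurableSpace F] [BorelSpace F] (f : M.X → F),
    ContinuousOn f (off D) → AEMeasurable f X.μ) ∧
  (∀ f g : M.X → ℝ, (∀ x ∈ off D, f x ≤ g x) → X.I f ≤ X.I g) ∧
  (∀ a : ι → ℝ, (∀ i, -1 < a i + X.o i) → X.I (fun x => Real.exp (lw D a x)) ≠ ⊤) ∧
  ∀ r < (2 : ℝ), ∀ A : ℝ, ∃ C : ℝ, ∀ (a : ι → ℝ) (f : M.X → ℝ) d, (∀ i, |a i| ≤ A) →
    ∫⁻ z in closedBall 0 r, ENNReal.ofReal (D.rd f d z * xr (D.c d) a z) ≤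
      ENNReal.ofReal C * X.I fun x => f x * Real.exp (lw D (a - X.o) x)

/-- Bounds for meromorphic functions. -/
def St_UPB : Prop := ∀ (n : ℕ) (M : Mf n) [M.Cpt] (ι : Type) [Fintype ι] [DecidableEq ι]
  (D : Ad M ι) (P : ι → ℤ),
  (∀ F, Mer D P F → HoO D F ∧ Sp D P ((off D).indicator F)) ∧
  (∀ F G (t : ℂ), Mer D P F → Mer D P G → Mer D P (F + G) ∧ Mer D P (F - G) ∧ Mer D P (t • F)) ∧
  (∀ Q F, P ≤ Q → Mer D P F → Mer D Q F) ∧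
  (∀ F : M.X → ℂ, (D.All fun d z => Pol (D.c d) P (D.rd F d) z) →
    ∃ C, ∀ x ∈ off D, normSq (F x) ≤ C * Real.exp (-lw D (fun i => P i) x)) ∧
  (∀ F, Mer D P F → ∃ C, ∀ x ∈ off D, normSq (F x) ≤ C * Real.exp (-lw D (fun i => P i) x)) ∧
  (∀ (c : ι → Option (Fin n)) (g : E n → ℂ), (∀ z ∈ B2 n, PolH c P g z) →
    DifferentiableOn ℂ (val c P g) (B2 n) ∧ ∀ z ∈ B2 n, Off c z → val c P g z = xm c P z * g z) ∧
  (Gens D P → ∃ (r : ℕ) (G : Fin r → M.X → ℂ) (C : ℝ), (∀ a, Sp D P (G a)) ∧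
    ∀ x ∈ off D, Real.exp (-lw D (fun i => P i) x) ≤ C * ∑ a, normSq (G a x))

/-- One chart at each point is enough. -/
def St_TRF : Prop := ∀ (n : ℕ) (M : Mf n) [M.Cpt] (ι : Type) [Fintype ι] [DecidableEq ι]
  (D : Ad M ι),
  (∀ (F : Type) [NormedAddCommGroup F] [NormedSpace ℝ F] (f : M.X → F),
    (OA D fun d z => ‖z‖ ≤ 1 → ContDiffAt ℝ ∞ (D.rd f d) z) → SmO D f) ∧
  (∀ f, SmO D f → (OA D fun d z => ‖z‖ ≤ 1 → ∀ v, 0 ≤ lv (D.rd f d) z v) → Psh D f) ∧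
  ∀ G β f, SmO D G → SmO D f → (OA D fun d z => ‖z‖ ≤ 1 →
    ∀ v, normSq (db (D.rd G d) z v) ≤ D.rd β d z * lv (D.rd f d) z v) → Dom D G β f

/-- Calculus of Levi forms in coordinates. -/
def St_LEV : Prop := ∀ (n : ℕ) (z v : E n),
  (∀ (U : E n → ℂ) (ψ : E n → ℝ), HolN U z → ContDiffAt ℝ ∞ ψ z → 0 ≤ lv ψ z v →
    ContDiffAt ℝ ∞ (fun y => Real.log (normSq (U y) + Real.exp (ψ y))) z ∧
    0 ≤ lv (fun y => Real.log (normSq (U y) + Real.exp (ψ y))) z v) ∧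
  (∀ a b : E n → ℝ, ContDiffAt ℝ ∞ a z → ContDiffAt ℝ ∞ b z → 0 ≤ lv a z v → 0 ≤ lv b z v →
    ContDiffAt ℝ ∞ (fun y => Real.log (Real.exp (a y) + Real.exp (b y))) z ∧
    Real.exp (a z - b z) / (1 + Real.exp (a z - b z)) ^ 2 *
      normSq (db (fun y => (a y - b y : ℝ)) z v) ≤
      lv (fun y => Real.log (Real.exp (a y) + Real.exp (b y))) z v) ∧
  ∀ (u : E n → ℝ) (G : E n → ℂ), ContDiffAt ℝ ∞ u z → ContDiffAt ℝ ∞ G z →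
    ContDiffAt ℝ ∞ (fun y => (ct (u y) : ℂ) * G y) z ∧
    db (fun y => (ct (u y) : ℂ) * G y) z v =
      (deriv ct (u z) : ℝ) * db (fun y => (u y : ℝ)) z v * G z + (ct (u z) : ℂ) * db G z v ∧
    (HolN G z → db G z v = 0)

/-- The weights off the divisor. -/
def St_WGT : Prop := ∃ L : ℝ, 0 < L ∧ (∀ y, 0 ≤ ct y ∧ ct y ≤ 1 ∧ (y ≤ 2 → ct y = 0) ∧
  (3 ≤ y → ct y = 1)) ∧ ∀ (n : ℕ) (M : Mf n) [M.Cpt] (ι : Type) [Fintype ι] [DecidableEq ι]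
  (D : Ad M ι), (∀ t : ℝ, Psh D fun _ => t) ∧
  (∀ a b, Psh D a → Psh D b → Psh D fun x => a x + b x) ∧
  (∀ (t : ℝ) a, 0 ≤ t → Psh D a → Psh D fun x => t * a x) ∧
  (∀ U ψ, HoO D U → Psh D ψ → Psh D fun x => Real.log (normSq (U x) + Real.exp (ψ x))) ∧
  (∀ a b, Psh D a → Psh D b → Psh D fun x => Real.log (Real.exp (a x) + Real.exp (b x))) ∧
  (∀ (r : ℕ) (G : Fin r → M.X → ℂ), (∀ a, HoO D (G a)) →
    (∀ x ∈ off D, 0 < ∑ a, normSq (G a x)) → Psh D fun x => Real.log (∑ a, normSq (G a x))) ∧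
  (∀ a b, Psh D a → (∀ x ∈ off D, a x = b x) → Psh D b) ∧
  (∀ a b f U, Psh D a → Psh D b → Psh D f → HoO D U →
    SmO D (fun x => (ct (a x - b x) : ℂ) * U x) ∧ Dom D (fun x => (ct (a x - b x) : ℂ) * U x)
      (fun x => if 2 ≤ a x - b x ∧ a x - b x ≤ 3 then L * normSq (U x) else 0)
      fun x => f x + Real.log (Real.exp (a x) + Real.exp (b x))) ∧
  ∀ a b f g G β (δ ε : ℝ), 0 < δ → 0 < ε → Psh D a → Psh D b → Psh D f → Psh D g → SmO D G →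
    (∀ x ∈ off D, 0 ≤ β x) → Dom D G β g →
    SmO D (fun x => (ct (a x - b x) : ℂ) * G x) ∧ Dom D (fun x => (ct (a x - b x) : ℂ) * G x)
      (fun x => (if 2 ≤ a x - b x ∧ a x - b x ≤ 3 then L / δ * normSq (G x) else 0) +
        if 2 ≤ a x - b x then 2 / ε * β x else 0)
      fun x => f x + δ * Real.log (Real.exp (a x) + Real.exp (b x)) + ε * g x

/-- Square integrable functions have bounded poles. -/
def St_POL : Prop := ∀ (n : ℕ) (ι : Type) [Fintype ι] [DecidableEq ι] (c : ι → Option (Fin n))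
  (Q : ι → ℤ) (g : E n → ℂ) (z : E n) (O : Set (E n)), Inj c → O ∈ 𝓝 z →
  (∀ y ∈ O, Off c y → HolN g y) →
  ∫⁻ y in O, ENNReal.ofReal (normSq (g y) * xr c (fun i => Q i) y) ≠ ⊤ → PolH c Q g z

/-- The same on the manifold. -/
def St_POG : Prop := ∀ (n : ℕ) (M : Mf n) [M.Cpt] (ι : Type) [Fintype ι] [DecidableEq ι]
  (D : Ad M ι) (X : Cx D) (Q : ι → ℤ) (F : M.X → ℂ), HoO D F →
  X.I (fun x => normSq (F x) * Real.exp (lw D (fun i => Q i - X.o i) x)) ≠ ⊤ → Mer D Q F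

/-- Finite dimension. -/
def St_FIN : Prop := ∀ (n : ℕ) (M : Mf n) [M.Cpt] (ι : Type) [Fintype ι] [DecidableEq ι]
  (D : Ad M ι) (P : ι → ℤ), ∃ V : Submodule ℂ (M.X → ℂ), FiniteDimensional ℂ V ∧
    ∀ F, F ∈ V ↔ Sp D P F

/-! ### Theorem Z -/

/-- The uniform upper bound. -/
def St_SUP : Prop := ∀ (n : ℕ) (M : Mf n) [M.Cpt] (ι : Type) [Fintype ι] [DecidableEq ι]
  (D : Ad M ι) (X : Cx D) (K : Kl X), (∃ C, ∀ C', C ≤ C' → K.Bd C') ∧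
  (∀ j ≥ 1, ∀ U, Sp D (K.P j) U → ∃ t : ℝ, 0 < t ∧ K.Nr j ((t : ℂ) • U)) ∧
  ∀ j ≥ 1, ∀ U (t : ℂ) x, X.ew (K.c * j) (t • U) x = normSq t ^ (1 / (K.c * j)) * X.ew (K.c * j) U x

/-- Finitely many sections dominate all normalised sections. -/
def St_BAS : Prop := ∀ (n : ℕ) (M : Mf n) [M.Cpt] (ι : Type) [Fintype ι] [DecidableEq ι]
  (D : Ad M ι) (X : Cx D) (K : Kl X), ∀ j ≥ 1, ∃ (r : ℕ) (G : Fin r → M.X → ℂ) (C : ℝ), 0 ≤ C ∧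
    (∀ a, K.Nr j (G a)) ∧ ∀ U, K.Nr j U → ∀ x, normSq (U x) ≤ C * ∑ a, normSq (G a x)

/-- Envelope families exist. -/
def St_ENV : Prop := ∀ (n : ℕ) (M : Mf n) [M.Cpt] (ι : Type) [Fintype ι] [DecidableEq ι]
  (D : Ad M ι) (X : Cx D) (K : Kl X) (C : ℝ),
  (∀ ε ε' σ, ε ≤ ε' → X.Cl K.κ C ε σ → X.Cl K.κ C ε' σ) ∧
  ((∀ ε > 0, ∃ C' σ, X.Cl K.κ C' ε σ) → ∃ ρ, X.Env K.κ C ρ)

/-- The inequality of Hölder. -/
def St_HOL : Prop := ∀ (Y : Type) [MeasurableSpace Y] (μ : Measure Y) (h v ρ : Y → ℝ)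
  (k s A J : ℝ), 0 < s → s + 2 ≤ k → 0 ≤ A → 0 ≤ J → (∀ x, 0 ≤ h x) → AEMeasurable h μ →
  AEMeasurable v μ → AEMeasurable ρ μ →
  ∫⁻ x, ENNReal.ofReal (Real.exp (v x)) ∂μ ≤ ENNReal.ofReal (1 + 1 / k) →
  ∫⁻ x, ENNReal.ofReal (Real.exp (ρ x)) ∂μ ≤ ENNReal.ofReal J →
  ∫⁻ x, ENNReal.ofReal (h x * min (Real.exp (-((k - 1) * v x)))
    (Real.exp (-((k - 2 - s) * v x + s * ρ x)) / (Real.exp (v x) + Real.exp (ρ x)))) ∂μ ≤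
      ENNReal.ofReal A →
  ∫⁻ x, ENNReal.ofReal (h x ^ (1 / k)) ∂μ ≤
    ENNReal.ofReal ((2 * A * Real.exp (1 + (s + 1) * J)) ^ (1 / k))

/-- The weight of a section. -/
def St_SV : Prop := ∀ (n : ℕ) (M : Mf n) [M.Cpt] (ι : Type) [Fintype ι] [DecidableEq ι]
  (D : Ad M ι) (X : Cx D) (K : Kl X) (C J η : ℝ) (j : ℕ) (ρ : M.X → ℝ) (U : M.X → ℂ),
  1 ≤ K.c * j → 0 ≤ J → K.Bd C → X.Cl K.κ C (1 / (K.c * j)) ρ →
  X.I (fun x => Real.exp (ρ x)) ≤ ENNReal.ofReal J → X.Top K.κ C (1 / (K.c * j)) η ρ →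
  K.Nr j U → ∃ v : M.X → ℝ, SmO D v ∧ Psh D (fun x => v x + 1 / (K.c * j) * X.α x) ∧
    X.I (fun x => Real.exp (v x)) ≤ ENNReal.ofReal (1 + 1 / (K.c * j)) ∧
    X.I (fun x => if 2 ≤ v x - ρ x then Real.exp (v x) else 0) ≤ ENNReal.ofReal (4 * η) ∧
    ∀ x ∈ off D, v x ≤ C + 1 - lw D K.κ x ∧
      normSq (U x) * Real.exp (-X.α x) ≤ Real.exp (K.c * j * v x) ∧
      Real.exp (K.c * j * v x) ≤ normSq (U x) * Real.exp (-X.α x) + Real.exp (K.c * j * ρ x)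

/-- The splitting of a section. -/
def St_SPL : Prop := ∀ s > (0 : ℝ), ∀ J ≥ (0 : ℝ), ∃ η > (0 : ℝ), ∃ A : ℝ, ∀ (n : ℕ) (M : Mf n)
  [M.Cpt] (ι : Type) [Fintype ι] [DecidableEq ι] (D : Ad M ι) (X : Cx D) (K : Kl X) (C : ℝ)
  (j : ℕ) (ρ : M.X → ℝ), s + 2 ≤ K.c * j → K.Bd C → X.Cl K.κ C (1 / (K.c * j)) ρ →
  X.I (fun x => Real.exp (ρ x)) ≤ ENNReal.ofReal J → X.Top K.κ C (1 / (K.c * j)) η ρ →
  ∀ U, K.Nr j U → ∃ F, K.Nr j ((2 : ℂ) • F) ∧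
    ∀ b : M.X → ℝ, (∀ x ∈ off D, X.ew (K.c * j) U x ≤ b x) →
      X.I (fun x => normSq (U x - F x) * X.wt (K.c * j) s b ρ x) ≤ ENNReal.ofReal A

/-- The iteration of the splitting. -/
def St_ITR : Prop := ∀ (Y : Type) [MeasurableSpace Y] (μ : Measure Y) (S : Set (Y → ℂ))
  (W : Y → ℝ) (A : ℝ), AEMeasurable W μ → (∀ x, 0 ≤ W x) → (∀ U ∈ S, AEMeasurable U μ) →
  (∀ᵐ x ∂μ, ∃ B, ∀ U ∈ S, ‖U x‖ ≤ B) →
  (∀ U ∈ S, ∃ F : Y → ℂ, (2 : ℂ) • F ∈ S ∧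
    ∫⁻ x, ENNReal.ofReal (normSq (U x - F x) * W x) ∂μ ≤ ENNReal.ofReal A) →
  ∀ U ∈ S, ∫⁻ x, ENNReal.ofReal (normSq (U x) * W x) ∂μ ≤ ENNReal.ofReal (4 * A)

/-- Theorem Z. -/
def St_Z : Prop := ∀ (n : ℕ) (M : Mf n) [M.Cpt] (ι : Type) [Fintype ι] [DecidableEq ι]
  (D : Ad M ι) (X : Cx D) (K : Kl X) (C : ℝ) (ρ : ℝ → M.X → ℝ), K.Bd C → X.Env K.κ C ρ →
  ∀ s > (0 : ℝ), ∃ j₀ ≥ 1, ∀ j ≥ j₀, ∃ A : ℝ, ∃ ε₁ > (0 : ℝ), ∀ ε > 0, ε ≤ ε₁ → ∀ U, K.Nr j U →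
    X.I (fun x => X.ew (K.c * j) U x ^ (1 + s) * Real.exp (-(s * ρ ε x))) ≤ ENNReal.ofReal A

/-- Theorem Z for a class that contains a nef class. -/
def St_ZN : Prop := ∀ (n : ℕ) (M : Mf n) [M.Cpt] (ι : Type) [Fintype ι] [DecidableEq ι]
  (D : Ad M ι) (X : Cx D) (K : Kl X) (ν : ι → ℤ), ν ≤ K.π →
  (∀ j : ℕ, Gens D fun i => j * ν i + X.e i) → ∃ C ρ, K.Bd C ∧ X.Env K.κ C ρ ∧
  ∀ s > (0 : ℝ), ∃ A : ℝ, ∃ ε₁ > (0 : ℝ), ∀ ε > 0, ε ≤ ε₁ →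
    X.I (fun x => Real.exp (-((1 + s) * lw D (fun i => ν i / K.c) x) - s * ρ ε x)) ≤
      ENNReal.ofReal A

/-! ### Theorem E -/

/-- The smooth lift. -/
def St_AVG : Prop := ∀ (n : ℕ) (M : Mf n) [M.Cpt] (ι : Type) [Fintype ι] [DecidableEq ι]
  (D : Ad M ι) (X : Cx D) (P Q : ι → ℤ) (f : D.A → E n → ℂ), Q ≤ P →
  (D.All fun d z => PolH (D.c d) P (f d) z) → D.Dif (fun d => PolH (D.c d) Q) f →
  SmO D (D.avg f) ∧ (D.All fun d z => Pol (D.c d) P (D.rd (D.avg f) d) z) ∧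
  (D.All fun d z => Pol (D.c d) Q (D.rd (D.avg f) d - f d) z) ∧
  ∃ C, 0 ≤ C ∧ Dom D (D.avg f) (fun x => C * Real.exp (-lw D (fun i => Q i) x)) X.α

/-- The estimate. -/
def St_EST : Prop := ∀ (n : ℕ) (M : Mf n) [M.Cpt] (ι : Type) [Fintype ι] [DecidableEq ι]
  (D : Ad M ι) (X : Cx D) (κ γ p q θ : ι → ℝ) (Z : Set ι) (lam δ C A B ε₁ : ℝ) (G : M.X → ℂ),
  0 < δ → 2 * δ ≤ lam → 0 < ε₁ → 0 ≤ B → (∀ i, 0 ≤ κ i) → (∀ i, p i ≤ (1 + 2 * lam) * γ i) →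
  (∀ i, -1 < (1 + 2 * lam) * γ i - 2 * q i + X.o i) →
  (∀ i ∉ Z, (lam + 2 * δ) * κ i < θ i) → (∀ i ∈ Z, (lam + 2 * δ) * κ i + 1 ≤ θ i) →
  (∀ ε > 0, ε ≤ ε₁ → ∃ ρ, X.Cl κ C ε ρ ∧
    X.I (fun x => Real.exp (-((1 + 2 * lam) * lw D γ x) - 2 * lam * ρ x)) ≤ ENNReal.ofReal A) →
  SmO D G → (∀ x ∈ off D, normSq (G x) ≤ B * Real.exp (-lw D p x)) →
  Dom D G (fun x => B * Real.exp (-lw D q x)) X.α →
  ∀ η > (0 : ℝ), ∃ ε > (0 : ℝ), ε ≤ η ∧ ∃ F Γ : M.X → ℂ, HoO D F ∧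
    (∀ x, normSq (Γ x) ≤ normSq (G x)) ∧
    X.I (fun x => normSq (G x - F x) * Real.exp (lw D θ x)) ≠ ⊤ ∧
    X.I (fun x => ε * normSq (Γ x - F x) *
      Real.exp (lw D (fun i => θ i - (1 - ε) * ind Z i) x)) ≤ ENNReal.ofReal η

/-- Small residues. -/
def St_RES : Prop := ∀ (n : ℕ) (ι : Type) [Fintype ι] [DecidableEq ι] (c : ι → Option (Fin n))
  (Q : ι → ℤ) (Z : Set ι) (i : ι) (z : E n) (r : ℝ), Inj c → i ∈ Z → xi c i z = 0 →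
  (∀ l ≠ i, xi c l z ≠ 0) → 0 < r → ∃ C : ℝ, ∀ (g s : E n → ℂ) (ε η : ℝ), 0 < ε → ε ≤ 1 → 0 ≤ η →
    DifferentiableOn ℂ s (ball z r) → (∀ y ∈ ball z r, Off c y → s y = xm c Q y * g y) →
    ∫⁻ y in ball z r, ENNReal.ofReal
      (ε * normSq (g y) * xr c (fun l => Q l - (1 - ε) * ind Z l) y) ≤ ENNReal.ofReal η →
    normSq (s z) ≤ C * η

/-- A limit of lifts with small residues. -/
def St_CLO : Prop := ∀ (n : ℕ) (M : Mf n) [M.Cpt] (ι : Type) [Fintype ι] [DecidableEq ι]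
  (D : Ad M ι) (Q : ι → ℤ) (Z : Set ι) (f : D.A → E n → ℂ) (F : ℕ → M.X → ℂ),
  (∀ ν, D.All fun d z => PolH (D.c d) Q (D.rd (F ν) d - f d) z) →
  (D.All fun d z => ∀ i ∈ Z, xi (D.c d) i z = 0 → (∀ l ≠ i, xi (D.c d) l z ≠ 0) →
    Tendsto (fun ν => val (D.c d) Q (D.rd (F ν) d - f d) z) atTop (𝓝 0)) →
  ∃ G : M.X → ℂ, D.All fun d z => PolH (D.c d) (Q - ind Z) (D.rd G d - f d) z

/-- From the estimate to the lift. -/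
def St_LFT : Prop := ∀ (n : ℕ) (M : Mf n) [M.Cpt] (ι : Type) [Fintype ι] [DecidableEq ι]
  (D : Ad M ι) (X : Cx D) (P Q R : ι → ℤ) (Z : Set ι) (f : D.A → E n → ℂ) (G : M.X → ℂ), Q ≤ R →
  (∀ i ∈ Z, P i < R i) → (D.All fun d z => PolH (D.c d) P (f d) z) →
  (D.All fun d z => Pol (D.c d) P (D.rd G d) z) →
  (D.All fun d z => Pol (D.c d) Q (D.rd G d - f d) z) →
  (∀ η > (0 : ℝ), ∃ ε > (0 : ℝ), ε ≤ η ∧ ∃ F Γ : M.X → ℂ, HoO D F ∧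
    (∀ x, normSq (Γ x) ≤ normSq (G x)) ∧
    X.I (fun x => normSq (G x - F x) * Real.exp (lw D (fun i => R i - X.o i) x)) ≠ ⊤ ∧
    X.I (fun x => ε * normSq (Γ x - F x) *
      Real.exp (lw D (fun i => R i - X.o i - (1 - ε) * ind Z i) x)) ≤ ENNReal.ofReal η) →
  ∃ F : M.X → ℂ, D.All fun d z => PolH (D.c d) (R - ind Z) (D.rd F d - f d) z

/-- The choice of the constants. -/
def St_ARI : Prop := ∀ (ι : Type) [Fintype ι] (k : ι → ℕ) (o : ι → ℝ) (N : ℝ), 1 < N →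
  (∀ i, k i / N - o i ≤ 1) → (∀ i, k i / N - o i = 1 → 0 < k i) →
  ∃ (s : ℕ) (π R : ι → ℤ) (lam δ : ℝ), 0 < s ∧ 0 < δ ∧ 2 * δ ≤ lam ∧ lam + 2 * δ = N - 1 ∧ ∀ i,
    o i ≤ π i / (N * (s + 1)) ∧ π i / (N * (s + 1)) < o i + 1 ∧ (s * k i : ℤ) ≤ π i ∧
    (k i : ℝ) ≤ (1 + 2 * lam) * ((s * k i : ℤ) / (N * (s + 1))) ∧
    -1 < (1 + 2 * lam) * ((s * k i : ℤ) / (N * (s + 1))) -
      2 * (k i - ind {i | k i / N - o i = 1} i : ℤ) + o i ∧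
    (k i / N - o i ≠ 0 → (lam + 2 * δ) * (π i / (N * (s + 1))) < R i - o i) ∧
    (k i / N - o i = 0 → (lam + 2 * δ) * (π i / (N * (s + 1))) + 1 ≤ R i - o i ∧ k i < R i) ∧
    k i - ind {i | k i / N - o i = 1} i ≤ R i ∧
    (0 ≤ k i / N - o i →
      R i - ind {i | k i / N - o i = 0} i = k i - ind {i | k i / N - o i = 1} i)

/-- Theorem E. -/
def St_E : Prop := ∀ (n : ℕ) (M : Mf n) [M.Cpt] (ι : Type) [Fintype ι] [DecidableEq ι]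
  (D : Ad M ι) (X : Cx D) (k : ι → ℕ) (N : ℝ) (f : D.A → E n → ℂ), 1 < N →
  (∀ i, k i / N - X.o i ≤ 1) → (∀ i, k i / N - X.o i = 1 → 0 < k i) →
  (∀ j : ℕ, Gens D fun i => j * k i + X.e i) →
  (D.All fun d z => PolH (D.c d) (fun i => k i) (f d) z) →
  D.Dif (fun d => PolH (D.c d) fun i => k i - ind {i | k i / N - X.o i = 1} i) f →
  ∃ (Q : ι → ℤ) (F : M.X → ℂ),
    (∀ i, 0 ≤ k i / N - X.o i → Q i = k i - ind {i | k i / N - X.o i = 1} i) ∧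
    D.All fun d z => PolH (D.c d) Q (D.rd F d - f d) z

/-- Theorem E on a log resolution. -/
def St_EXT : Prop := ∀ (n : ℕ) (M : Mf n) [M.Cpt] (ι : Type) [Fintype ι] [DecidableEq ι]
  (D : Ad M ι) (X : Cx D) (k : ι → ℕ) (N : ℝ) (ex : Set ι) (B : D.A → Bl D k ex)
  (f : D.A → M.X → ℂ), 1 < N → (∀ i, k i / N - X.o i ≤ 1) → (∀ i, k i / N - X.o i = 1 → 0 < k i) →
  (∀ i ∉ ex, 0 ≤ k i / N - X.o i) → (∀ j : ℕ, Gens D fun i => j * k i + X.e i) →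
  (D.All fun b z => (D.e b).symm z ∈ (B b).W) →
  (∀ b, D.On (B b).W fun d z => PolH (D.c d) (fun i => k i) (D.rd (f b) d) z) →
  (∀ b b', D.On ((B b).W ∩ (B b').W) fun d z =>
    PolH (D.c d) (fun i => k i - ind {i | k i / N - X.o i = 1} i) (D.rd (f b - f b') d) z) →
  ∃ F : M.X → ℂ, D.All fun b z =>
    PolH (D.c b) (fun i => k i - ind {i | k i / N - X.o i = 1} i) (D.rd (F - f b) b) z

end Pool.Agent.Lib.ZL
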