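import Pool.Agent.Lib.ZL.Blue2

/-! Project ZL, row LIM: the regularised upper limit is plurisubharmonic. -/

open scoped Classical Topology ContDiff ENNReal
open Set MeasureTheory Complex Metric Filter

noncomputable section

namespace Pool.Agent.Lib.ZL

open Pool.Agent.Lib.SV (E)
open Pool.Agent.Lib.EXS.K32 (lv)

namespace LIM

theorem core94 {w : ℕ → ℝ → ℝ} {h : ℝ → ℝ} {C T : ℝ} (hT : 0 ≤ T) (hw : ∀ j, Continuous (w j))
    (hh : Continuous h) (hC : ∀ j t, w j t ≤ C) (hl : ∀ t, ∀ᶠ j in atTop, w j t ≤ h t) :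
    ∃ b : ℕ → ℝ, Tendsto b atTop (𝓝 (∫ t in (0 : ℝ)..T, h t)) ∧
      ∀ j, ∫ t in (0 : ℝ)..T, w j t ≤ b j := by
  refine ⟨fun j => ∫ t in (0 : ℝ)..T, max (w j t) (h t), ?_, fun j => ?_⟩
  · refine intervalIntegral.tendsto_integral_filter_of_dominated_convergence
      (fun t => |C| + |h t|) (.of_forall fun j => ((hw j).max hh).aestronglyMeasurable)
      (.of_forall fun j => .of_forall fun t _ => ?_)
      ((continuous_const.add hh.abs).intervalIntegrable _ _) (.of_forall fun t _ => ?_)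
    · have h1 := le_abs_self C
      have h2 := le_abs_self (h t)
      have h3 := neg_abs_le (h t)
      have h4 := abs_nonneg C
      have h5 := abs_nonneg (h t)
      have h6 := le_max_right (w j t) (h t)
      have h7 := hC j t
      exact abs_le.2 ⟨by linarith, max_le (by linarith) (by linarith)⟩
    · exact tendsto_const_nhds.congr' ((hl t).mono fun j hj => (max_eq_right hj).symm)
  · exact intervalIntegral.integral_mono_on hT ((hw j).intervalIntegrable _ _)
      (((hw j).max hh).intervalIntegrable _ _) fun t _ => le_max_left _ _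

theorem avgP94 (P : Polynomial ℂ) (δ : ℝ) :
    Real.circleAverage (fun ζ : ℂ => (P.eval ζ).re + δ) 0 1 = (P.eval 0).re + δ := by
  have c : Continuous fun ζ : ℂ => P.eval ζ + δ := by fun_prop
  have h1 : Real.circleAverage (fun ζ : ℂ => P.eval ζ + δ) 0 1 = P.eval 0 + δ :=
    DiffContOnCl.circleAverage (Differentiable.diffContOnCl (P.differentiable.add_const _))
  have h2 := reCLM.circleAverage_comp_comm (c := 0) (R := 1) (f := fun ζ : ℂ => P.eval ζ + δ)
    (c.continuousOn.circleIntegrable zero_le_one)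
  rw [h1] at h2
  simpa [Function.comp_def] using h2

theorem bdd94 {Y : Type} [TopologicalSpace Y] {K : Set Y} (hK : IsCompact K) {w : ℕ → Y → ℝ}
    (h : ∀ p ∈ K, ∃ C, ∀ᶠ y in 𝓝 p, ∀ j, w j y ≤ C) : ∃ C, ∀ y ∈ K, ∀ j, w j y ≤ C := by
  refine hK.induction_on (p := fun s => ∃ C, ∀ y ∈ s, ∀ j, w j y ≤ C) ⟨0, by simp⟩
    (fun s t hst ⟨C, hC⟩ => ⟨C, fun y hy => hC y (hst hy)⟩)
    (fun s t ⟨C, hC⟩ ⟨C', hC'⟩ => ⟨max C C', fun y hy j => hy.elim
      (fun hy => (hC y hy j).trans (le_max_left _ _))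
      fun hy => (hC' y hy j).trans (le_max_right _ _)⟩) fun p hp => ?_
  obtain ⟨C, hC⟩ := h p hp
  exact ⟨_, mem_nhdsWithin_of_mem_nhds hC, C, fun y hy => hy⟩

theorem disc94 (hS : St_SMV) {n : ℕ} {U : Set (E n)} {u : ℕ → E n → ℝ} {a : E n → ℝ} {ε : ℕ → ℝ}
    (hε : Tendsto ε atTop (𝓝 0)) (ha : ∀ z ∈ U, ContDiffAt ℝ ∞ a z)
    (hu : ∀ j, ∀ z ∈ U, ContDiffAt ℝ ∞ (fun y => u j y + ε j * a y) z ∧
      ∀ v, 0 ≤ lv (fun y => u j y + ε j * a y) z v)
    (hb : ∀ z ∈ U, ∃ C, ∀ᶠ y in 𝓝 z, ∀ j, u j y ≤ C) {y v : E n} {h : ℂ → ℝ} (hh : Continuous h)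
    (hU : ∀ ζ ∈ closedBall (0 : ℂ) 1, y + ζ • v ∈ U)
    (hl : ∀ ζ ∈ sphere (0 : ℂ) 1, limsup (fun j => (u j (y + ζ • v) : EReal)) atTop < h ζ) :
    limsup (fun j => (u j y : EReal)) atTop ≤ (Real.circleAverage h 0 1 : ℝ) := by
  have cm : ∀ t, circleMap 0 1 t ∈ sphere (0 : ℂ) 1 := circleMap_mem_sphere 0 zero_le_one
  have cl : Continuous fun ζ : ℂ => y + ζ • v := by fun_prop
  obtain ⟨e, he⟩ := (hε.abs).bddAbove_range
  obtain ⟨C, hC⟩ := bdd94 (isCompact_sphere (0 : ℂ) 1)
    (w := fun j ζ => u j (y + ζ • v) + ε j * a (y + ζ • v)) fun ζ hζ => by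
      have hz := hU ζ (sphere_subset_closedBall hζ)
      obtain ⟨C, hC⟩ := hb _ hz
      refine ⟨C + e * (|a (y + ζ • v)| + 1), ?_⟩
      filter_upwards [cl.continuousAt.eventually hC, cl.continuousAt.eventually
        ((ha _ hz).continuousAt.abs.eventually_lt_const (lt_add_one _))] with ξ h1 h2 j
      have h3 : |ε j| ≤ e := he ⟨j, rfl⟩
      have h4 := le_abs_self (ε j * a (y + ξ • v))
      rw [abs_mul] at h4
      have h5 := mul_le_mul h3 h2.le (abs_nonneg _) ((abs_nonneg _).trans h3)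
      linarith [h1 j]
  obtain ⟨b, hb1, hb2⟩ := core94 (T := 2 * Real.pi) (C := C) (h := fun t => h (circleMap 0 1 t))
    (w := fun j t => u j (y + circleMap 0 1 t • v) + ε j * a (y + circleMap 0 1 t • v))
    (by positivity)
    (fun j => continuous_iff_continuousAt.2 fun t => ContinuousAt.comp
      (g := fun y => u j y + ε j * a y) (f := fun t => y + circleMap 0 1 t • v)
      (hu j _ (hU _ (sphere_subset_closedBall (cm t)))).1.continuousAt
      (cl.comp (continuous_circleMap 0 1)).continuousAt)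
    (hh.comp (continuous_circleMap 0 1)) (fun j t => hC _ (cm t) j) fun t => by
      obtain ⟨c, h1, h2⟩ := EReal.lt_iff_exists_real_btwn.1 (hl _ (cm t))
      have h3 : Tendsto (fun j => ε j * a (y + circleMap 0 1 t • v)) atTop (𝓝 0) := by
        simpa using hε.mul_const (a (y + circleMap 0 1 t • v))
      filter_upwards [eventually_lt_of_limsup_lt h1,
        h3.eventually_lt_const (sub_pos.2 (EReal.coe_lt_coe_iff.1 h2))] with j h4 h5
      linarith [EReal.coe_lt_coe_iff.1 h4]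
  have h6 : Tendsto (fun j => (2 * Real.pi)⁻¹ * b j - ε j * a y) atTop
      (𝓝 (Real.circleAverage h 0 1)) := by
    simpa [Real.circleAverage_def] using (hb1.const_mul (2 * Real.pi)⁻¹).sub (hε.mul_const (a y))
  rw [← ((continuous_coe_real_ereal.tendsto _).comp h6).limsup_eq]
  refine limsup_le_limsup (.of_forall fun j => EReal.coe_le_coe_iff.2 ?_)
  have h7 := hS n (fun y => u j y + ε j * a y) y v fun ζ hζ =>
    ⟨(hu j _ (hU ζ (mem_closedBall_zero_iff.2 hζ))).1, (hu j _ (hU ζ (mem_closedBall_zero_iff.2 hζ))).2 v⟩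
  rw [Real.circleAverage_def, smul_eq_mul] at h7
  have h8 := mul_le_mul_of_nonneg_left (hb2 j) (show 0 ≤ (2 * Real.pi)⁻¹ by positivity)
  linarith

end LIM

open LIM in
theorem bLIM (hS : St_SMV) : St_LIM := by
  intro n U u a ε hU hε ha hu hb
  refine ⟨fun x _ c hc => ?_, fun z hz => ?_, fun z v hv P hP => ?_⟩
  · obtain ⟨c', h1, h2⟩ := exists_between hc
    refine mem_nhdsWithin_of_mem_nhds ?_
    filter_upwards [(eventually_lt_of_limsup_lt h1).eventually_nhds] with y hy
    exact (limsup_le_of_le (by isBoundedDefault) (hy.mono fun _ h => h.le)).trans_lt h2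
  · obtain ⟨C, hC⟩ := hb z hz
    refine lt_of_le_of_lt (limsup_le_of_le (by isBoundedDefault) (hC.mono fun y hy => ?_))
      (EReal.coe_lt_top C)
    exact limsup_le_of_le (by isBoundedDefault) (.of_forall fun j => EReal.coe_le_coe_iff.2 (hy j))
  · have cl : Continuous fun p : E n × ℂ => p.1 + p.2 • v := by fun_prop
    refine EReal.le_of_forall_lt_iff_le.1 fun c hc => ?_
    have hδ : 0 < c - (P.eval 0).re := sub_pos.2 (EReal.coe_lt_coe_iff.1 hc)
    have ch : Continuous fun ζ : ℂ => (P.eval ζ).re + (c - (P.eval 0).re) := by fun_prop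
    have e1 := (isCompact_closedBall (0 : ℂ) 1).eventually_forall_of_forall_eventually (x₀ := z)
      (P := fun y ζ => y + ζ • v ∈ U) fun ζ hζ =>
        cl.continuousAt.eventually (hU.mem_nhds (hv ζ (mem_closedBall_zero_iff.1 hζ)))
    have e2 := (isCompact_sphere (0 : ℂ) 1).eventually_forall_of_forall_eventually (x₀ := z)
      (P := fun y ζ => limsup (fun j => (u j (y + ζ • v) : EReal)) atTop <
        ((P.eval ζ).re + (c - (P.eval 0).re) : ℝ)) fun ζ hζ => by
        obtain ⟨t, h1, h2⟩ := EReal.lt_iff_exists_real_btwn.1 ((hP ζ (mem_sphere_zero_iff_norm.1 hζ)).trans_lt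
          (EReal.coe_lt_coe_iff.2 (lt_add_of_pos_right _ hδ)))
        filter_upwards [(cl.continuousAt (x := (z, ζ))).eventually (eventually_lt_of_limsup_lt h1),
          ((ch.comp continuous_snd).continuousAt (x := (z, ζ))).eventually_const_lt
            (EReal.coe_lt_coe_iff.1 h2)] with p h3 h4
        exact h3.trans (EReal.coe_lt_coe_iff.2 h4)
    refine limsup_le_of_le (by isBoundedDefault) ?_
    filter_upwards [e1, e2] with y h1 h2
    have := disc94 hS hε ha hu hb ch h1 h2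
    rwa [avgP94, add_sub_cancel] at this

end Pool.Agent.Lib.ZL
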