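import Pool.Agent.Lib.ZL.Blue2

/-! Row SMV: the mean value inequality on a disc. -/

open scoped Topology ContDiff Real
open Set MeasureTheory Complex Metric Filter

noncomputable section

namespace Pool.Agent.Lib.ZL

namespace SMV

theorem hd {Φ Φ' : ℝ → ℝ → ℝ} (h0 : ∀ s, Continuous (Φ s))
    (h1 : Continuous fun p : ℝ × ℝ => Φ' p.1 p.2)
    (hd : ∀ s t, HasDerivAt (fun s => Φ s t) (Φ' s t) s) (s : ℝ) :
    HasDerivAt (fun s => ∫ t in (0 : ℝ)..2 * π, Φ s t) (∫ t in (0 : ℝ)..2 * π, Φ' s t) s := by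
  obtain ⟨M, hM⟩ := ((isCompact_closedBall s 1).prod
    (isCompact_uIcc (a := (0 : ℝ)) (b := 2 * π))).exists_bound_of_continuousOn h1.continuousOn
  exact (intervalIntegral.hasDerivAt_integral_of_dominated_loc_of_deriv_le (μ := volume)
    (F := Φ) (F' := Φ') (bound := fun _ => M) (closedBall_mem_nhds s one_pos)
    (.of_forall fun s => (h0 s).aestronglyMeasurable) ((h0 s).intervalIntegrable _ _)
    (h1.comp (Continuous.prodMk_right s)).aestronglyMeasurable
    (.of_forall fun t ht σ hσ => hM (σ, t) ⟨hσ, uIoc_subset_uIcc ht⟩) intervalIntegrable_const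
    (.of_forall fun t _ σ _ => hd σ t)).2

theorem rot (B : ℂ →L[ℝ] ℂ →L[ℝ] ℝ) {e : ℂ} (he : ‖e‖ = 1) :
    B e e + B (I * e) (I * e) = B 1 1 + B I I := by
  have h1 : e = e.re • (1 : ℂ) + e.im • I := by simp
  have h2 : I * e = (-e.im) • (1 : ℂ) + e.re • I := by
    apply Complex.ext <;> simp
  have h3 : e.re ^ 2 + e.im ^ 2 = 1 := by
    have := Complex.sq_norm e
    rw [he, normSq_apply] at this
    nlinarith
  rw [h2]
  nth_rw 1 [h1]
  nth_rw 3 [h1]
  simp only [map_add, map_smul, add_apply, smul_apply,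
    smul_eq_mul]
  linear_combination (B 1 1 + B I I) * h3

theorem glob {W : ℂ → ℝ} (hW : ContDiff ℝ 2 W) (hL : ∀ ζ : ℂ, ‖ζ‖ ≤ 1 →
    0 ≤ fderiv ℝ (fderiv ℝ W) ζ 1 1 + fderiv ℝ (fderiv ℝ W) ζ I I) :
    2 * π * W 0 ≤ ∫ t in (0 : ℝ)..2 * π, W (exp (t * I)) := by
  have h1 : ContDiff ℝ 1 (fderiv ℝ W) := hW.fderiv_right (m := 1) (by norm_num)
  have hW0 := hW.continuous
  have hD := h1.continuous
  have hD2 := h1.continuous_fderiv one_ne_zero
  have hl : ∀ (s : ℝ) (e : ℂ), HasDerivAt (fun s : ℝ => s • e) e s := fun s e => by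
    simpa using (hasDerivAt_id s).smul_const e
  have he : ∀ t : ℝ, HasDerivAt (fun t : ℝ => exp (t * I)) (I * exp (t * I)) t := fun t => by
    simpa [mul_comm] using ((hasDerivAt_id (t : ℂ)).mul_const I).cexp.comp_ofReal
  have a1 := hd (Φ := fun s t => W (s • exp (t * I)))
    (Φ' := fun s t => fderiv ℝ W (s • exp (t * I)) (exp (t * I))) (fun s => by fun_prop)
    (by fun_prop) fun s t =>
      ((hW.differentiable two_ne_zero) _).hasFDerivAt.comp_hasDerivAt s (hl s _)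
  have a2 := hd (Φ := fun s t => fderiv ℝ W (s • exp (t * I)) (exp (t * I)))
    (Φ' := fun s t => fderiv ℝ (fderiv ℝ W) (s • exp (t * I)) (exp (t * I)) (exp (t * I)))
    (fun s => by fun_prop) (by fun_prop) fun s t => by
      have := (((h1.differentiable one_ne_zero) _).hasFDerivAt.comp_hasDerivAt s
        (hl s (exp (t * I)))).clm_apply (hasDerivAt_const s (exp (t * I)))
      simpa using this
  have a3 : ∀ s : ℝ, ∫ t in (0 : ℝ)..2 * π, (s * fderiv ℝ (fderiv ℝ W) (s • exp (t * I))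
      (I * exp (t * I)) (I * exp (t * I)) - fderiv ℝ W (s • exp (t * I)) (exp (t * I))) = 0 := by
    intro s
    rw [intervalIntegral.integral_eq_sub_of_hasDerivAt
      (f := fun t : ℝ => fderiv ℝ W (s • exp (t * I)) (I * exp (t * I))) (fun t _ => ?_)
      (Continuous.intervalIntegrable (by fun_prop) _ _)]
    · simp
    · refine ((((h1.differentiable one_ne_zero) _).hasFDerivAt.comp_hasDerivAt t
        ((he t).const_smul s)).clm_apply ((he t).const_mul I)).congr_deriv ?_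
      rw [← mul_assoc, I_mul_I, map_smul, neg_one_mul, map_neg]
      rfl
  set φ' : ℝ → ℝ := fun s => ∫ t in (0 : ℝ)..2 * π, fderiv ℝ W (s • exp (t * I)) (exp (t * I))
    with hφ'
  have a4 : ∀ s : ℝ, HasDerivAt (fun s => s * φ' s) (s * ∫ t in (0 : ℝ)..2 * π,
      (fderiv ℝ (fderiv ℝ W) (s • exp (t * I)) 1 1 +
        fderiv ℝ (fderiv ℝ W) (s • exp (t * I)) I I)) s := fun s => by
    refine ((hasDerivAt_id' s).fun_mul (a2 s)).congr_deriv ?_
    have h3 := a3 s
    rw [intervalIntegral.integral_sub (Continuous.intervalIntegrable (by fun_prop) _ _)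
      (Continuous.intervalIntegrable (by fun_prop) _ _), sub_eq_zero,
      intervalIntegral.integral_const_mul] at h3
    simp only [fun t : ℝ => (rot (fderiv ℝ (fderiv ℝ W) (s • exp (t * I)))
      (norm_exp_ofReal_mul_I t)).symm]
    rw [intervalIntegral.integral_add (Continuous.intervalIntegrable (by fun_prop) _ _)
      (Continuous.intervalIntegrable (by fun_prop) _ _), one_mul, show φ' s = _ from h3.symm]
    ring
  have a5 : MonotoneOn (fun s => s * φ' s) (Icc 0 1) := by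
    refine monotoneOn_of_deriv_nonneg (convex_Icc 0 1)
      (fun s _ => (a4 s).continuousAt.continuousWithinAt)
      (fun s _ => (a4 s).differentiableAt.differentiableWithinAt) fun s hs => ?_
    have hs' := interior_subset hs
    rw [(a4 s).deriv]
    refine mul_nonneg hs'.1 (intervalIntegral.integral_nonneg (by positivity) fun t _ => hL _ ?_)
    rw [norm_smul, norm_exp_ofReal_mul_I, mul_one, Real.norm_of_nonneg hs'.1]
    exact hs'.2
  have a6 : MonotoneOn (fun s : ℝ => ∫ t in (0 : ℝ)..2 * π, W (s • exp (t * I))) (Icc 0 1) := by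
    refine monotoneOn_of_deriv_nonneg (convex_Icc 0 1)
      (fun s _ => (a1 s).continuousAt.continuousWithinAt)
      (fun s _ => (a1 s).differentiableAt.differentiableWithinAt) fun s hs => ?_
    rw [interior_Icc] at hs
    rw [(a1 s).deriv]
    have := a5 (left_mem_Icc.2 zero_le_one) (Ioo_subset_Icc_self hs) hs.1.le
    simp only [zero_mul] at this
    exact nonneg_of_mul_nonneg_right this hs.1
  simpa using a6 (left_mem_Icc.2 zero_le_one) (right_mem_Icc.2 zero_le_one) zero_le_one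

theorem ext {w : ℂ → ℝ} (hw : ∀ ζ : ℂ, ‖ζ‖ ≤ 1 → ContDiffAt ℝ 2 w ζ) :
    ∃ W : ℂ → ℝ, ContDiff ℝ 2 W ∧ ∀ ζ : ℂ, ‖ζ‖ ≤ 1 → W =ᶠ[𝓝 ζ] w := by
  obtain ⟨δ, hδ, hs⟩ := (isCompact_closedBall (0 : ℂ) 1).exists_cthickening_subset_open
    (t := {z | ContDiffAt ℝ 2 w z})
    (isOpen_iff_mem_nhds.2 fun z hz => ContDiffAt.eventually hz (by simp))
    fun z hz => hw z (mem_closedBall_zero_iff.1 hz)
  rw [cthickening_closedBall hδ.le zero_le_one] at hs
  let χ : ContDiffBump (0 : ℂ) := ⟨δ / 2 + 1, δ + 1, by positivity, by linarith⟩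
  refine ⟨fun y => χ y * w y, contDiff_iff_contDiffAt.2 fun y => ?_, fun y hy => ?_⟩
  · by_cases hy : y ∈ closedBall (0 : ℂ) (δ + 1)
    · exact χ.contDiffAt.mul (hs hy)
    · refine (contDiffAt_const (c := (0 : ℝ))).congr_of_eventuallyEq ?_
      filter_upwards [isClosed_closedBall.isOpen_compl.mem_nhds hy] with z hz
      rw [χ.zero_of_le_dist (le_of_lt (by simpa using hz)), zero_mul]
  · filter_upwards [isOpen_ball.mem_nhds
      (mem_ball_zero_iff.2 (show ‖y‖ < δ / 2 + 1 by linarith))] with z hz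
    rw [χ.one_of_mem_closedBall (ball_subset_closedBall hz), one_mul]

theorem pull {n : ℕ} {u : SV.E n → ℝ} {z v : SV.E n} {ζ : ℂ} (h : ContDiffAt ℝ 2 u (z + ζ • v))
    (a : ℂ) : fderiv ℝ (fderiv ℝ fun ξ : ℂ => u (z + ξ • v)) ζ a a =
      SV.d2 u (z + ζ • v) (a • v) := by
  let A : ℂ →L[ℝ] SV.E n := (ContinuousLinearMap.toSpanSingleton ℂ v).restrictScalars ℝ
  have hA : ∀ ξ : ℂ, HasFDerivAt (fun ξ : ℂ => z + ξ • v) A ξ := fun ξ =>
    A.hasFDerivAt.const_add z
  have h1 : ContDiffAt ℝ 1 (fderiv ℝ u) (z + ζ • v) := h.fderiv_right (m := 1) (by norm_num)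
  have h2 := (h1.differentiableAt one_ne_zero).hasFDerivAt
  have e : (fderiv ℝ fun ξ : ℂ => u (z + ξ • v)) =ᶠ[𝓝 ζ]
      fun ξ => (fderiv ℝ u (z + ξ • v)).comp A := by
    filter_upwards [(hA ζ).continuousAt.eventually (h.eventually (by simp))] with ξ hξ
    exact ((hξ.differentiableAt two_ne_zero).hasFDerivAt.comp ξ (hA ξ)).fderiv
  have h3 := ((h2.comp ζ (hA ζ)).clm_comp (hasFDerivAt_const A ζ)).fderiv
  have h4 := (h2.clm_apply (hasFDerivAt_const (a • v) _)).fderiv
  rw [e.fderiv_eq, SV.d2, h4]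
  refine (congrArg (fun L => L a a) h3).trans ?_
  simp [A]

end SMV

theorem bSMV : St_SMV := by
  intro n u z v h
  have h2 : ∀ ζ : ℂ, ‖ζ‖ ≤ 1 → ContDiffAt ℝ 2 u (z + ζ • v) := fun ζ hζ =>
    HS32.cd_le (h ζ hζ).1 2
  obtain ⟨W, hW, hWe⟩ := SMV.ext (w := fun ζ : ℂ => u (z + ζ • v)) fun ζ hζ =>
    ContDiffAt.comp (g := u) ζ (h2 ζ hζ) (by fun_prop)
  have key := SMV.glob hW fun ζ hζ => by
    have := (h ζ hζ).2
    rw [EXS.K32.lv_eq (h ζ hζ).1, SV.levE] at this
    rw [(hWe ζ hζ).fderiv.fderiv_eq, SMV.pull (h2 ζ hζ), SMV.pull (h2 ζ hζ), one_smul]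
    linarith
  rw [(hWe 0 (by simp)).self_of_nhds] at key
  simp only [fun t : ℝ => (hWe _ (norm_exp_ofReal_mul_I t).le).self_of_nhds, zero_smul,
    add_zero] at key
  rw [Real.circleAverage_def, smul_eq_mul, ← div_eq_inv_mul, le_div_iff₀ (by positivity), mul_comm]
  simpa [circleMap] using key

end Pool.Agent.Lib.ZL
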