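import Pool.Agent.Lib.ZL.Blue2
import Pool.Agent.Lib.ZL.B_TRF

/-! Project ZL, row ZM: the limit metric on the manifold layer. -/

open scoped Classical Topology ContDiff ENNReal
open Set MeasureTheory Complex Metric Filter

noncomputable section

namespace Pool.Agent.Lib.ZL

open Pool.Agent.Lib.SV (E)
open Pool.Agent.Lib.HS32 Pool.Agent.Lib.EX Pool.Agent.Lib.EXS
open Pool.Agent.Lib.EXS.K32 (lv lv_congr)

namespace ZM

theorem psh_cong {n : ℕ} {f g : E n → EReal} {U : Set (E n)} (h : PshOn f U) (e : EqOn g f U) :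
    PshOn g U := by
  refine ⟨fun x hx y hy => ?_, fun z hz => e hz ▸ h.lt z hz, fun z v hv P hP => ?_⟩
  · filter_upwards [h.usc x hx y (lt_of_eq_of_lt (e hx).symm hy), self_mem_nhdsWithin] with w h1 h2
    exact lt_of_eq_of_lt (e h2) h1
  · have hz : z ∈ U := by simpa using hv 0 (by simp)
    rw [e hz]
    exact h.sub z v hv P fun ζ hζ => e (hv ζ hζ.le) ▸ hP ζ hζ

theorem fatou_pt {s : ℝ} (hs : 0 < s) (l o : ℝ) (v : ℕ → ℝ) (R : EReal)
    (h : limsup (fun j => (v j : EReal)) atTop ≤ R) :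
    EReal.exp (-(s * (R + l))) * ENNReal.ofReal (Real.exp (-o)) ≤
      liminf (fun j => ENNReal.ofReal (Real.exp (-(s * (v j + l)) - o))) atTop := by
  have H : ∀ t : ℝ, R < t → ENNReal.ofReal (Real.exp (-(s * (t + l)) - o)) ≤
      liminf (fun j => ENNReal.ofReal (Real.exp (-(s * (v j + l)) - o))) atTop := by
    intro t ht
    refine le_liminf_of_le (by isBoundedDefault) ?_
    filter_upwards [eventually_lt_of_limsup_lt (h.trans_lt ht)] with j hj
    have := EReal.coe_lt_coe_iff.1 hj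
    exact ENNReal.ofReal_le_ofReal (Real.exp_le_exp.2 (by nlinarith))
  induction R using EReal.rec with
  | bot =>
    have t1 : Tendsto (fun t : ℝ => -(s * (t + l)) - o) atBot atTop :=
      tendsto_atTop_add_const_right _ _ (tendsto_neg_atBot_atTop.comp
        ((tendsto_atBot_add_const_right _ l tendsto_id).const_mul_atBot hs))
    exact le_top.trans (le_of_tendsto' (ENNReal.tendsto_ofReal_atTop.comp
      (Real.tendsto_exp_atTop.comp t1)) fun t => H t (EReal.bot_lt_coe t))
  | coe r =>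
    have t1 : Continuous fun t : ℝ => ENNReal.ofReal (Real.exp (-(s * (t + l)) - o)) :=
      ENNReal.continuous_ofReal.comp (by fun_prop)
    rw [← EReal.coe_add, ← EReal.coe_mul, ← EReal.coe_neg, EReal.exp_coe,
      ← ENNReal.ofReal_mul (Real.exp_pos _).le, ← Real.exp_add, ← sub_eq_add_neg]
    refine le_of_tendsto ((t1.tendsto r).mono_left (nhdsWithin_le_nhds (s := Ioi r))) ?_
    filter_upwards [self_mem_nhdsWithin] with t ht using H t (EReal.coe_lt_coe_iff.2 ht)
  | top =>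
    rw [EReal.top_add_coe, EReal.coe_mul_top_of_pos hs, EReal.neg_top, EReal.exp_bot, zero_mul]
    exact zero_le

variable {n : ℕ} {M : Mf n} {ι : Type} [Fintype ι] [DecidableEq ι] {D : Ad M ι} {e : M.Ch}
  {z : E n} {f : M.X → ℝ}

theorem chg (he : e ∈ M.C) (hz : z ∈ e.target) (ho : e.symm z ∈ off D) :
    ∃ d ψ, HolN ψ z ∧ ψ z ∈ B2 n ∧ Off (D.c d) (ψ z) ∧
      ∀ f : M.X → ℝ, f ∘ e.symm =ᶠ[𝓝 z] D.rd f d ∘ ψ := by
  obtain ⟨d, hd⟩ := GLU.ex_ch D (e.symm z)
  refine ⟨d, D.e d ∘ e.symm, ?_, GLU.mem_B2 hd, ho d hd, fun f => ?_⟩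
  · have := ((mTR n M).2.1 _ (D.mem d) _ he _ hd (e.map_target hz)).1
    rwa [e.right_inv hz] at this
  · filter_upwards [(e.continuousAt_symm hz).preimage_mem_nhds
      ((D.e d).open_source.mem_nhds hd)] with w hw
    exact congrArg f ((D.e d).left_inv hw).symm

theorem sm_ch (he : e ∈ M.C) (hz : z ∈ e.target) (ho : e.symm z ∈ off D) (h : SmO D f) :
    ContDiffAt ℝ ∞ (f ∘ e.symm) z := by
  obtain ⟨d, ψ, h1, h2, h3, h4⟩ := chg he hz ho
  exact ((h d _ h2 h3).comp z (mCHN n ψ z h1).1).congr_of_eventuallyEq (h4 f)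

theorem psh_ch (he : e ∈ M.C) (hz : z ∈ e.target) (ho : e.symm z ∈ off D) (h : Psh D f)
    (v : E n) : 0 ≤ lv (f ∘ e.symm) z v := by
  obtain ⟨d, ψ, h1, h2, h3, h4⟩ := chg he hz ho
  rw [lv_congr (h4 f), TRF.lv_comp36 h1 (h.1 d _ h2 h3)]
  exact h.2 d _ h2 h3 _

end ZM

open ZM in
theorem bZM (hP : St_PW) (hM : St_MU) (hL : St_LIM) : St_ZM := by
  intro n M _ ι _ _ D X p k C u ε hε hu hb hi
  obtain ⟨po, -, -, -, -, -, -, ps, -, pc, -⟩ := hP n M ι D
  obtain ⟨-, mm, -⟩ := hM n M ι D X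
  have cl : ∀ a, ∀ x ∈ off D, ContinuousAt (lw D a) x := fun a x hx =>
    (pc ℝ _ (ps a)).continuousAt (po.mem_nhds hx)
  refine ⟨fun e he => ?_, fun x hx => ?_, fun s hs => ?_⟩
  · have ho : IsOpen {z ∈ e.target | e.symm z ∈ off D} :=
      e.continuousOn_symm.isOpen_inter_preimage e.open_target po
    refine psh_cong (hL n _ (fun j => u j ∘ e.symm) (X.α ∘ e.symm) ε ho hε
      (fun z hz => sm_ch he hz.1 hz.2 X.αp.1)
      (fun j z hz => ⟨sm_ch (f := fun x => u j x + ε j * X.α x) he hz.1 hz.2 (hu j).1,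
        psh_ch (f := fun x => u j x + ε j * X.α x) he hz.1 hz.2 (hu j)⟩)
      fun z hz => ⟨C - lw D p (e.symm z) + 1, ?_⟩) fun z hz => ?_
    · have h1 := ((cl p _ hz.2).comp (e.continuousAt_symm hz.1)).eventually
        (lt_mem_nhds (show lw D p (e.symm z) - 1 < lw D p (e.symm z) by linarith))
      filter_upwards [h1, ho.mem_nhds hz] with y y1 y2 j
      have := hb j _ y2.2
      simp only [Function.comp_apply] at y1 ⊢
      linarith
    · simp only [Function.comp_apply, reg]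
      rw [← e.symm.map_nhds_eq hz.1, ← limsup_comp]
      rfl
  · have t1 : Tendsto (fun y => ((C - lw D p y : ℝ) : EReal)) (𝓝 x) (𝓝 (C - lw D p x : ℝ)) :=
      (continuous_coe_real_ereal.tendsto _).comp (continuousAt_const.sub (cl p x hx))
    have h1 : reg u x ≤ (C - lw D p x : ℝ) := by
      rw [← t1.limsup_eq]
      refine limsup_le_limsup ?_
      filter_upwards [po.mem_nhds hx] with y hy
      exact limsup_le_of_le (by isBoundedDefault)
        (Eventually.of_forall fun j => EReal.coe_le_coe_iff.2 (hb j y hy))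
    refine (add_le_add h1 le_rfl).trans (le_of_eq ?_)
    rw [← EReal.coe_add, sub_add_cancel]
  · obtain ⟨A, hA⟩ := hi s hs
    have h1 : ∀ x, limsup (fun j => (u j x : EReal)) atTop ≤ reg u x := fun x =>
      le_limsup_of_frequently_le (Frequently.filter_mono
        (by rw [frequently_pure]) (pure_le_nhds x))
    have cu : ∀ j, ContinuousOn (u j) (off D) := fun j =>
      ((pc ℝ _ (hu j).1).sub (continuousOn_const.mul (pc ℝ _ X.αp.1))).congr fun x _ =>
        (add_sub_cancel_right _ _).symm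
    refine lt_of_le_of_lt ((lintegral_mono fun x => fatou_pt hs _ _ _ _ (h1 x)).trans
      ((lintegral_liminf_le' fun j => ?_).trans (liminf_le_of_frequently_le hA.frequently)))
      ENNReal.ofReal_lt_top
    refine (mm ℝ _ (Real.continuous_exp.comp_continuousOn ?_)).ennreal_ofReal
    exact (continuousOn_const.mul ((cu j).add (pc ℝ _ (ps k)))).neg.sub (pc ℝ _ (ps X.o))

end Pool.Agent.Lib.ZL
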