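import Pool.Agent.Lib.ZL.All1
import Pool.Agent.Lib.ZL.B_HLD
import Pool.Agent.Lib.ZL.B_SMV
import Pool.Agent.Lib.ZL.B_LIM
import Pool.Agent.Lib.ZL.B_ZM
import Pool.Agent.Lib.ZL.B_BR2

/-! Project ZL: the limit metric without hypotheses. -/

namespace Pool.Agent.Lib.ZL

/-- Theorem Z in the form of approximating metrics. -/
theorem st_ZO : St_ZO := bZO st_ZN st_PK1 bGEN (bHLD bPW st_MU)

/-- Zero Lelong numbers. -/
theorem st_H2 : St_H2 :=
  bH2 EX.bUNI (EX.bADA EX.bUNI) st_ZO (bZM bPW st_MU (bLIM bSMV)) (bBR2 bPW EX.bUNI) st_AMB bNFB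
    st_CX st_WGT

end Pool.Agent.Lib.ZL
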