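import Pool.Agent.Lib.ZL.Blue

/-! Project ZL, row BAS: finitely many sections dominate all normalised sections. -/

open scoped Classical Topology ContDiff ENNReal
open Set MeasureTheory Complex Metric Filter

noncomputable section

namespace Pool.Agent.Lib.ZL

open Pool.Agent.Lib.HS32 Pool.Agent.Lib.EX Pool.Agent.Lib.EXS

namespace BAS

/-- A linear form on a finite dimensional space of functions is bounded on a pointwise bounded
set. -/
theorem form {Y : Type} (V : Submodule ℂ (Y → ℂ)) [FiniteDimensional ℂ V] (S : Set V)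
    (h : ∀ x, ∃ B, ∀ U ∈ S, ‖(U : Y → ℂ) x‖ ≤ B) (L : V →ₗ[ℂ] ℂ) : ∃ B, ∀ U ∈ S, ‖L U‖ ≤ B := by
  have hm : L ∈ Submodule.span ℂ (range fun x : Y => (LinearMap.proj x).comp V.subtype) := by
    refine FiniteDimensional.mem_span_of_iInf_ker_le_ker fun U hU => ?_
    have e : U = 0 := Subtype.ext (funext fun x => (Submodule.mem_iInf _).1 hU x)
    rw [e]; exact zero_mem _
  induction hm using Submodule.span_induction with
  | mem _ hx => obtain ⟨x, rfl⟩ := hx; exact h x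
  | zero => exact ⟨0, fun U _ => by simp⟩
  | add f g _ _ hf hg =>
    obtain ⟨a, ha⟩ := hf; obtain ⟨b, hb⟩ := hg
    exact ⟨a + b, fun U hU => (norm_add_le _ _).trans (add_le_add (ha U hU) (hb U hU))⟩
  | smul t f _ hf =>
    obtain ⟨a, ha⟩ := hf
    refine ⟨‖t‖ * a, fun U hU => ?_⟩
    rw [LinearMap.smul_apply, norm_smul]
    exact mul_le_mul_of_nonneg_left (ha U hU) (norm_nonneg _)

theorem dom {Y : Type} (V : Submodule ℂ (Y → ℂ)) [FiniteDimensional ℂ V] (S : Set V)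
    (h : ∀ x, ∃ B, ∀ U ∈ S, ‖(U : Y → ℂ) x‖ ≤ B) {r : ℕ} (b : Module.Basis (Fin r) ℂ V) :
    ∃ C, 0 ≤ C ∧ ∀ U ∈ S, ∀ x, normSq ((U : Y → ℂ) x) ≤ C * ∑ a, normSq ((b a : Y → ℂ) x) := by
  choose B hB using fun a => form V S h (b.coord a)
  refine ⟨∑ a, B a ^ 2, Finset.sum_nonneg fun a _ => sq_nonneg _, fun U hU x => ?_⟩
  have e : (U : Y → ℂ) x = ∑ a, b.coord a U * (b a : Y → ℂ) x := by
    refine (congrArg (fun W : V => (W : Y → ℂ) x) (b.sum_repr U)).symm.trans ?_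
    simp only [Submodule.coe_sum, Finset.sum_apply]
    rfl
  have h1 : ‖(U : Y → ℂ) x‖ ≤ ∑ a, B a * ‖(b a : Y → ℂ) x‖ := by
    rw [e]
    refine (norm_sum_le _ _).trans (Finset.sum_le_sum fun a _ => ?_)
    rw [norm_mul]
    exact mul_le_mul_of_nonneg_right (hB a U hU) (norm_nonneg _)
  simp only [normSq_eq_norm_sq]
  exact (pow_le_pow_left₀ (norm_nonneg _) h1 2).trans (Finset.sum_mul_sq_le_sq_mul_sq _ _ _)

end BAS

theorem bBAS (hF : St_FIN) (hS : St_SUP) : St_BAS := by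
  intro n M _ ι _ _ D X K j hj
  obtain ⟨V, hV, mV⟩ := hF n M ι D (K.P j)
  obtain ⟨⟨C, hC⟩, hN, -⟩ := hS n M ι D X K
  have hk : 0 < K.c * j := mul_pos K.c0 (by exact_mod_cast hj)
  let b := Module.finBasis ℂ V
  choose t t0 ht using fun a => hN j hj (b a) ((mV _).1 (b a).2)
  have hu : ∀ a, IsUnit (t a : ℂ) := fun a => (ofReal_ne_zero.2 (t0 a).ne').isUnit
  obtain ⟨A, A0, hA⟩ := BAS.dom V {U | K.Nr j U} (fun x => by
    refine ⟨Real.sqrt (Real.exp (C - lw D K.κ x) ^ (K.c * j) * Real.exp (X.α x)), fun U hU => ?_⟩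
    by_cases hx : x ∈ off D
    · have h1 := Real.rpow_le_rpow (Real.rpow_nonneg (mul_nonneg (normSq_nonneg _)
        (Real.exp_pos _).le) _) (hC C le_rfl j hj U hU x hx) hk.le
      rw [← Real.rpow_mul (mul_nonneg (normSq_nonneg _) (Real.exp_pos _).le), one_div,
        inv_mul_cancel₀ hk.ne', Real.rpow_one, Real.exp_neg, ← div_eq_mul_inv,
        div_le_iff₀ (Real.exp_pos _), normSq_eq_norm_sq] at h1
      exact Real.le_sqrt_of_sq_le h1
    · rw [hU.1.2 x hx, norm_zero]; exact Real.sqrt_nonneg _) (b.isUnitSMul hu)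
  refine ⟨_, fun a => (b.isUnitSMul hu a : V), A, A0, fun a => ?_, fun U hU x =>
    hA ⟨U, (mV _).2 hU.1⟩ hU x⟩
  beta_reduce
  rw [Module.Basis.isUnitSMul_apply]
  exact ht a

end Pool.Agent.Lib.ZL
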