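import Pool.Agent.Lib.ZL.HQ0
import Pool.Agent.Lib.EXS.B_GLU

/-! Project ZL: the objects. -/

open scoped Classical Topology ContDiff ENNReal
open Set MeasureTheory Complex Metric Filter

set_option linter.unusedVariables false

noncomputable section

namespace Pool.Agent.Lib.ZL

open Pool.Agent.Lib.SV (E)
open Pool.Agent.Lib.HS32 Pool.Agent.Lib.EX Pool.Agent.Lib.EXS
open Pool.Agent.Lib.EXS.K32 (lv)

variable {n : ℕ} {M : Mf n} {ι : Type} [Fintype ι] [DecidableEq ι]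

/-- The antilinear derivative. -/
def db (G : E n → ℂ) (z v : E n) : ℂ := ∑ i, star (v i) * dzb i G z

/-- The indicator of a set of components. -/
def ind (T : Set ι) : ι → ℤ := fun i => if i ∈ T then 1 else 0

/-- The leading coefficient at a point of the divisor. -/
def val (c : ι → Option (Fin n)) (Q : ι → ℤ) (g : E n → ℂ) (z : E n) : ℂ :=
  limUnder (𝓝[{y | Off c y}] z) fun y => xm c Q y * g y

/-- The cut-off function. -/
def ct (y : ℝ) : ℝ := Real.smoothTransition (y - 2)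

variable (D : Ad M ι)

/-- A property holds off the divisor in all charts. -/
def OA (p : D.A → E n → Prop) : Prop := D.All fun d z => Off (D.c d) z → p d z

/-- Smooth off the divisor. -/
def SmO {F : Type} [NormedAddCommGroup F] [NormedSpace ℝ F] (f : M.X → F) : Prop :=
  OA D fun d z => ContDiffAt ℝ ∞ (D.rd f d) z

/-- Holomorphic off the divisor. -/
def HoO (f : M.X → ℂ) : Prop := OA D fun d z => HolN (D.rd f d) z

/-- Smooth and plurisubharmonic off the divisor. -/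
def Psh (f : M.X → ℝ) : Prop := SmO D f ∧ OA D fun d z => ∀ v, 0 ≤ lv (D.rd f d) z v

/-- The `(0,1)` derivative of `G` is bounded by `β` times the Levi form of `f`. -/
def Dom (G : M.X → ℂ) (β f : M.X → ℝ) : Prop :=
  OA D fun d z => ∀ v, normSq (db (D.rd G d) z v) ≤ D.rd β d z * lv (D.rd f d) z v

/-- The logarithm of the norm of the divisor with coefficients `a`. -/
def lw (a : ι → ℝ) (x : M.X) : ℝ :=
  ∑ i, a i * Real.log (∑ d, D.χ d x * normSq (xi (D.c d) i (D.e d x)))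

/-- Meromorphic with poles at most `P`. -/
def Mer (P : ι → ℤ) (F : M.X → ℂ) : Prop := D.All fun d z => PolH (D.c d) P (D.rd F d) z

/-- A section, normalised to be zero on the divisor. -/
def Sp (P : ι → ℤ) (F : M.X → ℂ) : Prop := Mer D P F ∧ ∀ x ∉ off D, F x = 0

/-- The sections with poles at most `P` have no common zero. -/
def Gens (P : ι → ℤ) : Prop := ∃ (r : ℕ) (G : Fin r → M.X → ℂ), (∀ a, Mer D P (G a)) ∧
  D.All fun d z => ∃ a s, HolN s z ∧ s z ≠ 0 ∧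
    ∀ᶠ y in 𝓝 z, Off (D.c d) y → D.rd (G a) d y = xm (D.c d) (-P) y * s y

/-- The measure, the theorem of Hörmander and a positive metric. -/
structure Cx where
  μ : Measure M.X
  m : ℕ
  l : ι → ℤ
  w : D.A → E n → ℂ
  e : ι → ℕ
  α : M.X → ℝ
  m0 : 0 < m
  whol : D.All fun d z => DifferentiableAt ℂ (w d) z
  wne : D.All fun d z => w d z ≠ 0
  eta : IsEta D l m w μ
  hq : Hq D μ
  αp : Psh D α
  αb : ∃ C, ∀ x ∈ off D, |α x + lw D (fun i => e i) x| ≤ C
  αs : ∃ c > 0, OA D fun d z => ‖z‖ ≤ 1 → ∀ v, c * ‖v‖ ^ 2 ≤ lv (D.rd α d) z v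

variable {D}

namespace Cx

variable (X : Cx D)

/-- The integral of a real function. -/
def I (f : M.X → ℝ) : ℝ≥0∞ := ∫⁻ x, ENNReal.ofReal (f x) ∂X.μ

/-- The exponents of the measure. -/
def o (i : ι) : ℝ := X.l i / X.m

/-- The density of a section of level `k`. -/
def ew (k : ℝ) (U : M.X → ℂ) (x : M.X) : ℝ := (normSq (U x) * Real.exp (-X.α x)) ^ (1 / k)

/-- The class of weights. -/
def Cl (κ : ι → ℝ) (C ε : ℝ) (ρ : M.X → ℝ) : Prop :=
  SmO D ρ ∧ Psh D (fun x => ρ x + ε * X.α x) ∧ ∀ x ∈ off D, ρ x ≤ C - lw D κ x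

/-- The weight `ρ` is almost maximal in the class of level `ε`. -/
def Top (κ : ι → ℝ) (C ε η : ℝ) (ρ : M.X → ℝ) : Prop :=
  ∀ σ, X.Cl κ C ε σ → X.I (fun x => Real.exp (σ x) - Real.exp (ρ x)) ≤ ENNReal.ofReal η

/-- An envelope family. -/
def Env (κ : ι → ℝ) (C : ℝ) (ρ : ℝ → M.X → ℝ) : Prop := (∀ ε > 0, X.Cl κ C ε (ρ ε)) ∧
  ∀ η > 0, ∃ ε₀ > 0, ∀ ε > 0, ε ≤ ε₀ → X.Top κ C ε₀ η (ρ ε)

/-- The measuring weight. -/
def wt (k s : ℝ) (b ρ : M.X → ℝ) (x : M.X) : ℝ :=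
  Real.exp (-X.α x) * max (b x) (Real.exp (ρ x)) ^ (-(k - 1 - s)) * Real.exp (-(s * ρ x))

end Cx

theorem oa_iff {p : D.A → E n → Prop} : OA D p ↔ D.On (off D) p :=
  forall_congr' fun d => forall_congr' fun z => forall_congr' fun hz => by
    beta_reduce
    rw [GLU.mem_off (GLU.mem_src d hz), GLU.rinv d hz]

/-- The theorem of Hörmander. -/
theorem Cx.hor (X : Cx D) {f β : M.X → ℝ} {G : M.X → ℂ} (hf : Psh D f) (hG : SmO D G)
    (hm : AEMeasurable β X.μ) (h0 : ∀ x ∈ off D, 0 ≤ β x) (h : Dom D G β f) : ∃ F, HoO D F ∧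
    X.I (fun x => normSq (G x - F x) * Real.exp (-f x)) ≤
      10 * X.I fun x => β x * Real.exp (-f x) := by
  obtain ⟨F, h1, h2⟩ := X.hq f β G hm fun d z hz ho =>
    ⟨oa_iff.1 hf.1 d z hz ho, oa_iff.1 hG d z hz ho, oa_iff.1 hf.2 d z hz ho, h0 _ ho,
      oa_iff.1 h d z hz ho⟩
  exact ⟨F, oa_iff.2 h1, h2⟩

/-- A klt pair: `K + Δ` has coefficients `π / c`. -/
structure Kl (X : Cx D) where
  π : ι → ℤ
  c : ℝ
  c0 : 0 < c
  lo : ∀ i, X.o i ≤ π i / c
  hi : ∀ i, π i / c < X.o i + 1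

namespace Kl

variable {X : Cx D} (K : Kl X)

/-- The coefficients of `K + Δ`. -/
def κ (i : ι) : ℝ := K.π i / K.c

/-- The poles at level `j`. -/
def P (j : ℕ) (i : ι) : ℤ := j * K.π i + X.e i

/-- A normalised section of level `j`. -/
def Nr (j : ℕ) (U : M.X → ℂ) : Prop := Sp D (K.P j) U ∧ X.I (X.ew (K.c * j) U) ≤ 1

/-- The normalised sections are bounded by `C`. -/
def Bd (C : ℝ) : Prop := ∀ j ≥ 1, ∀ U, K.Nr j U → ∀ x ∈ off D,
  X.ew (K.c * j) U x ≤ Real.exp (C - lw D K.κ x)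

end Kl

end Pool.Agent.Lib.ZL
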