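import Pool.Agent.Lib.EXS.EXC0
import Pool.Agent.Lib.EXS.K32

/-! Project ZL: the measure of a pluricanonical form and the theorem of Hörmander off the
divisor. Statements. -/

open scoped Classical Topology ContDiff ComplexOrder Matrix ENNReal
open Set MeasureTheory Complex Metric Filter

noncomputable section

namespace Pool.Agent.Lib.ZL

open Pool.Agent.Lib.SV (E)
open Pool.Agent.Lib.HS32 Pool.Agent.Lib.EX
open Pool.Agent.Lib.EXS (off)
open Pool.Agent.Lib.EXS.K32 (lv)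

variable {n : ℕ} {M : Mf n} {ι : Type} [Fintype ι] [DecidableEq ι]

/-- `μ` is the measure of the form with numerators `w`, orders `k` and degree `m`. -/
def IsEta (D : Ad M ι) (k : ι → ℤ) (m : ℕ) (w : D.A → E n → ℂ) (μ : Measure M.X) : Prop :=
  ∀ (d : D.A) (F : M.X → ℝ≥0∞), ∫⁻ x in (D.e d).source, F x ∂μ =
    ∫⁻ z in B2 n, ENNReal.ofReal (normSq (w d z) ^ (1 / m : ℝ) *
      xr (D.c d) (fun i => k i / m) z) * F ((D.e d).symm z)

/-- The theorem of Hörmander holds off the divisor for the measure `μ`. -/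
def Hq (D : Ad M ι) (μ : Measure M.X) : Prop :=
  ∀ (ph β : M.X → ℝ) (Γ : M.X → ℂ), AEMeasurable β μ →
    (D.On (off D) fun d z => ContDiffAt ℝ ∞ (D.rd ph d) z ∧ ContDiffAt ℝ ∞ (D.rd Γ d) z ∧
      (∀ v, 0 ≤ lv (D.rd ph d) z v) ∧ 0 ≤ D.rd β d z ∧ ∀ v : E n,
        normSq (∑ i, star (v i) * dzb i (D.rd Γ d) z) ≤ D.rd β d z * lv (D.rd ph d) z v) →
    ∃ F : M.X → ℂ, (D.On (off D) fun d z => HolN (D.rd F d) z) ∧
      ∫⁻ x, ENNReal.ofReal (normSq (Γ x - F x) * Real.exp (-ph x)) ∂μ ≤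
        10 * ∫⁻ x, ENNReal.ofReal (β x * Real.exp (-ph x)) ∂μ

/-- The measure exists and has the property of Hörmander if the complement of the divisor has a
proper holomorphic immersion into an affine space. -/
def St_HQ : Prop := ∀ (n : ℕ) (M : Mf n) [M.Cpt] (ι : Type) [Fintype ι] [DecidableEq ι]
  (D : Ad M ι) (k : ι → ℤ) (m : ℕ) (w : D.A → E n → ℂ) (r : ℕ) (Z : M.X → E r), 0 < m →
  (D.All fun b z => DifferentiableAt ℂ (w b) z) → (D.All fun b z => w b z ≠ 0) →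
  (D.Ov fun b d x => w d (D.e d x) = w b (D.e b x) * D.um k b d x * (D.J b d x).det ^ m) →
  (D.On (off D) fun d z => HolN (D.rd Z d) z ∧ ∀ v, fderiv ℂ (D.rd Z d) z v = 0 → v = 0) →
  (∀ a : ℝ, IsCompact {x | x ∈ off D ∧ ‖Z x‖ ≤ a}) →
  ∃ μ : Measure M.X, IsEta D k m w μ ∧ μ (off D)ᶜ = 0 ∧ Hq D μ

end Pool.Agent.Lib.ZL
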